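import Pool.Agent.Lib.MP_f80667_ag.Lc.H
import Pool.Agent.Lib.MP_f80667_ag.Lv.Ga
import Pool.Agent.Lib.MP_f80667_ag.Sb.K

/-!
The functionals are linear in the values of the forms.

* `Wv M x t b`: `b` are the values of the pull-backs of the invariant forms at `x`, `t`.
-/

open ZC BE PE CV IntermediateField

namespace GX

variable {F : Type} [Field F] {N N' k k' d m : ℕ} {ι ι' : Type} {f : ι → MvPolynomial (Fin N) F}
  {A : Gv F N' k' ι'} {M : Mf f A k}
  {K Ω : Type} [Field K] [CharZero K] [Field Ω] [Algebra K Ω] [Algebra F K] [Algebra F Ω]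
  [IsScalarTower F K Ω] [IsAlgClosure K Ω] {L : Ld K Ω} {π : Ω} {ψ : Fin m → Prj K N d} {r n : ℕ}
  {B : Type} [AddCommGroup B] [Module ℚ B] {nb : B → ℝ}
  {C : ℝ} {T : ℕ → (Fin N → Ω) → (Fin N → Ω) → B} {hB : Bn L.p (L.nm (L.p : Ω)) nb}

omit [CharZero K] [IsAlgClosure K Ω] [Algebra F K] [IsScalarTower F K Ω] [Algebra K Ω] [Field K] in
/-- `b` are the values of the pull-backs of the invariant forms at `x`, `t`. -/
def Wv (M : Mf f A k) (x t : Fin N → Ω) (b : Fin N' → Ω) : Prop :=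
  ∃ j, MvPolynomial.aeval x (M.om.c j) ≠ 0 ∧
    ∀ l, MvPolynomial.aeval x (M.om.c j) * b l =
      ∑ s, MvPolynomial.aeval x (M.om.q j l s) * t s

omit [CharZero K] [IsAlgClosure K Ω] in
private theorem wv_aev {M : IntermediateField K Ω} (P : MvPolynomial (Fin N) F) {x : Fin N → Ω}
    (hc : ∀ r, x r ∈ M) : MvPolynomial.aeval x P ∈ M := by
  rw [MvPolynomial.aeval_def, MvPolynomial.eval₂_eq]
  refine sum_mem fun e _ => mul_mem ?_ (prod_mem fun i _ => pow_mem (hc i) _)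
  rw [IsScalarTower.algebraMap_apply F K Ω]
  exact IntermediateField.algebraMap_mem M _

omit [CharZero K] [IsAlgClosure K Ω] in
private theorem wv_ae (γ : Ω ≃ₐ[K] Ω) (x : Fin N → Ω) (P : MvPolynomial (Fin N) F) :
    MvPolynomial.aeval (fun i => γ (x i)) P = γ (MvPolynomial.aeval x P) :=
  (MvPolynomial.comp_aeval_apply x (γ.restrictScalars F : Ω →ₐ[F] Ω) P).symm

/-- Proof: `exists_part`-like: `M.Ok.ne`: `Φ_i (x) ≠ 0`; `A.Ok.sub`, `oc`: `m_i' (y, y)` are coordinates of `0` if they are not `0` (`ne`), so the coordinate `j₀` is not `0`; define `b` by division. -/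
theorem wv_ex (hA : A.Ok) (hM : M.Ok) {x : Fin N → Ω} (hx : Xp f L n x) (t : Fin N → Ω) :
    ∃ b, Wv M x t b := by
  let _ : AddCommGroup ((Xf A.a).pt Ω) := A.G.grp Ω
  obtain ⟨P, hP⟩ := hx.co
  obtain ⟨i, hi⟩ := hM.ne Ω P x hP
  have hy := hM.co Ω P x i hP hi
  obtain ⟨s, hs⟩ : ∃ s, M.pv i x s ≠ 0 := by
    by_contra hc
    push Not at hc
    exact hi (funext hc)
  obtain ⟨i', hi'⟩ := hA.ne Ω _ _ _ _ hy hy
  have h1 : algebraMap F Ω (A.o A.j₀) = 1 := by rw [hA.o1, map_one]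
  have e1 := hA.mv_eq (R := (0 : (Xf A.a).pt Ω)) hy hy (zero_add _) hi' (hA.co_zero Ω) h1
  have hc : A.mv i' (M.pv i x) (M.pv i x) A.j₀ ≠ 0 := by
    intro h0
    refine hi' (funext fun j => ?_)
    rw [e1 j, h0, zero_mul, Pi.zero_apply]
  obtain ⟨j, hj⟩ := dec3_surj i s i'
  have hcj : MvPolynomial.aeval x (M.om.c j) ≠ 0 := by
    rw [om_c_eq, hj]
    exact mul_ne_zero hs hc
  exact ⟨fun l => (∑ s, MvPolynomial.aeval x (M.om.q j l s) * t s) /
    MvPolynomial.aeval x (M.om.c j), j, hcj, fun l => mul_div_cancel₀ _ hcj⟩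

/-- Proof: the coefficients are in `F`. -/
theorem wv_mem {x t : Fin N → Ω} {b : Fin N' → Ω} (hx : Xp f L n x)
    (ht : ∀ s, t s ∈ L.Ur ⊥ n) (h : Wv M x t b) : ∀ l, b l ∈ L.Ur ⊥ n := by
  obtain ⟨j, hj, hl⟩ := h
  have hm : ∀ P : MvPolynomial (Fin N) F, MvPolynomial.aeval x P ∈ L.Ur (⊥ : IntermediateField K Ω) n :=
    fun P => wv_aev P fun i => (hx.iv i).1
  intro l
  have e : b l = (∑ s, MvPolynomial.aeval x (M.om.q j l s) * t s) /
      MvPolynomial.aeval x (M.om.c j) := by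
    rw [eq_div_iff hj, ← hl l, mul_comm]
  rw [e]
  exact div_mem (sum_mem fun s _ => mul_mem (hm _) (ht s)) (hm _)

theorem wv_act {x t : Fin N → Ω} {b : Fin N' → Ω} (h : Wv M x t b) (γ : Ω ≃ₐ[K] Ω) :
    Wv M (fun i => γ (x i)) (fun i => γ (t i)) fun l => γ (b l) := by
  obtain ⟨j, hj, hl⟩ := h
  refine ⟨j, ?_, fun l => ?_⟩
  · rw [wv_ae]
    exact (map_ne_zero γ).2 hj
  · simp only [wv_ae]
    rw [← map_mul, hl l, map_sum]
    exact Finset.sum_congr rfl fun s _ => map_mul γ _ _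

/-- Proof: for the part `j = (i, n, i')`: `c_j = Φ_(i, n) m_i' (y, y)_j₀`, `y = Φ_i (x)`, and `∑ q_j l s t s = Φ_(i, n) (dm l - o_l dm j₀)` (`om_q_eq`); multiply `Mf.Alb` by `Φ_(i, n)`; `∑ η_l o_l = 0`. -/
theorem alb_wv (hAl : M.Alb Ω) {ℓ : (Fin N → Ω) → (Fin N → Ω) → Ω} (hℓ : Frm (fo f Ω) ℓ) :
    ∃ η : Fin N' → Ω, ∀ x t b, Tg (fo f Ω) x t → Wv M x t b → ℓ x t = ∑ l, η l * b l := by
  obtain ⟨η, hη⟩ := spf_of hAl ℓ hℓ
  refine ⟨η, fun x t b ht hb => ?_⟩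
  obtain ⟨j, hj, hl⟩ := hb
  have h1 := hη x t ht j
  rw [om_map_c] at h1
  simp only [om_map_v, ← hl] at h1
  refine mul_left_cancel₀ hj ?_
  rw [h1, Finset.mul_sum]
  exact Finset.sum_congr rfl fun l _ => by ring

private theorem g_lin0 {E H W I : Type} [Field E] [AddCommGroup H] [Module E H]
    [AddCommGroup W] [Module E W] (b : I → W) (h : I → H)
    (hr : ∀ c : I →₀ E, Finsupp.linearCombination E b c = 0 →
      Finsupp.linearCombination E h c = 0) :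
    ∃ g : W →ₗ[E] H, ∀ i, h i = g (b i) := by
  obtain ⟨s, hs⟩ := (Finsupp.linearCombination E b).rangeRestrict.exists_rightInverse_of_surjective
    (LinearMap.range_rangeRestrict _)
  obtain ⟨g, hg⟩ := LinearMap.exists_extend ((Finsupp.linearCombination E h).comp s)
  refine ⟨g, fun i => ?_⟩
  have h0 : Finsupp.linearCombination E b (Finsupp.single i 1) = b i := by
    rw [Finsupp.linearCombination_single, one_smul]
  have hm : b i ∈ LinearMap.range (Finsupp.linearCombination E b) := ⟨_, h0⟩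
  have h1 : g (b i) = Finsupp.linearCombination E h (s ⟨b i, hm⟩) := by
    have := LinearMap.congr_fun hg ⟨b i, hm⟩
    exact this
  have h2 : Finsupp.linearCombination E b (s ⟨b i, hm⟩) = b i := by
    have := LinearMap.congr_fun hs ⟨b i, hm⟩
    exact congrArg Subtype.val this
  have h3 := hr (Finsupp.single i 1 - s ⟨b i, hm⟩) (by rw [map_sub, h0, h2, sub_self])
  rw [map_sub, Finsupp.linearCombination_single, one_smul, sub_eq_zero] at h3
  rw [h1, h3]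

private theorem g_lin {E H Ω I : Type} [Field E] [Field Ω] [AddCommGroup H] [Module E H] {N' : ℕ}
    (j : E →+* Ω) (b : I → Fin N' → E) (h : I → H)
    (hθ : ∀ θ : H →ₗ[E] E, ∃ η : Fin N' → Ω, ∀ i, j (θ (h i)) = ∑ l, η l * j (b i l)) :
    ∃ g : (Fin N' → E) →ₗ[E] H, ∀ i, h i = g (b i) := by
  refine g_lin0 b h fun c hc => ?_
  rw [← Module.forall_dual_apply_eq_zero_iff E]
  intro θ
  obtain ⟨η, hη⟩ := hθ θ
  refine j.injective ?_
  rw [map_zero, Finsupp.linearCombination_apply, Finsupp.sum, map_sum, map_sum]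
  rw [Finsupp.linearCombination_apply, Finsupp.sum] at hc
  have h1 : ∀ i ∈ c.support, j (θ (c i • h i)) = ∑ l, η l * j (c i * b i l) := by
    intro i _
    rw [map_smul, smul_eq_mul, map_mul, hη, Finset.mul_sum]
    refine Finset.sum_congr rfl fun l _ => ?_
    rw [map_mul]
    ring
  rw [Finset.sum_congr rfl h1, Finset.sum_comm]
  refine Finset.sum_eq_zero fun l _ => ?_
  rw [← Finset.mul_sum, ← map_sum]
  have h2 := congrFun hc l
  rw [Finset.sum_apply] at h2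
  have h3 : ∑ i ∈ c.support, c i * b i l = 0 := h2
  rw [h3, map_zero, mul_zero]

/-- **The functionals are linear in the values of the forms.** Proof: let `G` be the span in `(Fin N' → Ur ⊥ n) × Hn` of the pairs `(b, ph n x t)`. If `(0, h) ∈ G` then `θ h = 0` for every linear `θ`: `(b, φ) ∈ G` implies `θ φ = ∑ η_l b_l`
(`hfrm`, `alb_wv`); so `h = 0` (`Module.forall_dual_apply_eq_zero_iff`). So `G` is the graph of a linear map on a subspace (`LinearPMap` / `Submodule.toLinearPMap`), extend it (`LinearMap.exists_extend`). -/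
theorem exists_g (hAl : M.Alb Ω) (hfrm : ∀ θ : Hn L hB n →ₗ[↥(L.Ur ⊥ n)] ↥(L.Ur ⊥ n),
      ∃ ℓ, Frm (fo f Ω) ℓ ∧ ∀ x t, Xp f L n x → Tn' f L n x t →
        ℓ x t = (θ (ph hB T n x t) : Ω)) :
    ∃ g : (Fin N' → ↥(L.Ur ⊥ n)) →ₗ[↥(L.Ur ⊥ n)] Hn L hB n,
      ∀ x t (b : Fin N' → ↥(L.Ur ⊥ n)), Xp f L n x → Tn' f L n x t →
        Wv M x t (fun l => (b l : Ω)) → ph hB T n x t = g b := by
  have key := g_lin (I := {p : (Fin N → Ω) × (Fin N → Ω) × (Fin N' → ↥(L.Ur ⊥ n)) //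
      Xp f L n p.1 ∧ Tn' f L n p.1 p.2.1 ∧ Wv M p.1 p.2.1 (fun l => (p.2.2 l : Ω))})
    (algebraMap ↥(L.Ur ⊥ n) Ω) (fun p => p.1.2.2) (fun p => ph hB T n p.1.1 p.1.2.1) (fun θ => by
      obtain ⟨ℓ, hℓ, h1⟩ := hfrm θ
      obtain ⟨η, hη⟩ := alb_wv hAl hℓ
      exact ⟨η, fun p => (h1 _ _ p.2.1 p.2.2.1).symm.trans (hη _ _ _ p.2.2.1.tg p.2.2.2)⟩)
  obtain ⟨g, hg⟩ := key
  exact ⟨g, fun x t b hx ht hw => hg ⟨(x, t, b), hx, ht, hw⟩⟩

end GX
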