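import Pool.Agent.Lib.MP_f80667_ag.Lc.V

/-!
Limits of values of `lam`.
-/

open ZC BE PE CV IntermediateField

namespace GX

section bn

variable {B : Type} [AddCommGroup B] [Module ℚ B] {nb : B → ℝ} {p : ℕ} {P : ℝ}

theorem tx_nsm (hB : Bn p P nb) (k : ℕ) (y : B) : nb (p ^ k • y) = P ^ k * nb y := by
  induction k with
  | zero => rw [pow_zero, one_smul, pow_zero, one_mul]
  | succ k ih => rw [pow_succ', mul_smul, hB.mulp, ih, pow_succ', mul_assoc]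

theorem tx_cancel (hB : Bn p P nb) (k : ℕ) (y : B) : p ^ k • (((p : ℚ) ^ k)⁻¹ • y) = y := by
  have hp : (p : ℚ) ^ k ≠ 0 := pow_ne_zero _ (Nat.cast_ne_zero.2 hB.pp.ne_zero)
  rw [← Nat.cast_smul_eq_nsmul ℚ, Nat.cast_pow, smul_smul, mul_inv_cancel₀ hp, one_smul]

theorem tx_inv (hB : Bn p P nb) (k : ℕ) (y : B) :
    nb (((p : ℚ) ^ k)⁻¹ • y) = (P ^ k)⁻¹ * nb y := by
  have h2 := tx_nsm hB k (((p : ℚ) ^ k)⁻¹ • y)
  rw [tx_cancel hB] at h2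
  rw [h2, inv_mul_cancel_left₀ (pow_pos hB.q0 k).ne']

theorem tx_sub (hB : Bn p P nb) (a b : B) : nb (a - b) ≤ max (nb a) (nb b) := by
  rw [sub_eq_add_neg]
  have h := hB.add a (-b)
  rwa [hB.neg] at h

theorem tx_comm (hB : Bn p P nb) (a b : B) : nb (a - b) = nb (b - a) := by
  rw [← neg_sub, hB.neg]

theorem tx_zero (hB : Bn p P nb) {y : B} {D : ℝ} (h : ∀ i : ℕ, nb y ≤ D * P ^ i) : y = 0 := by
  have h1 : Filter.Tendsto (fun i : ℕ => D * P ^ i) Filter.atTop (nhds (D * 0)) :=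
    (tendsto_pow_atTop_nhds_zero_of_lt_one hB.q0.le hB.q1).const_mul D
  rw [mul_zero] at h1
  exact (hB.zero_iff y).1 (le_antisymm (ge_of_tendsto' h1 h) (hB.nonneg y))

theorem tx_abs (hB : Bn p P nb) {q : ℝ} (hq0 : 0 < q) (hq1 : q ≤ 1) {e : ℕ} (he : P = q ^ e)
    {C : ℝ} (hC : 0 ≤ C) {R : ℕ → ℕ → B → Prop} (h0 : ∃ k s w, R k s w)
    (h1 : ∀ k s w, R k s w → ∃ w', R (k + 1) (s + e) w')
    (h2 : ∀ k s w w', R k s w → R (k + 1) (s + e) w' → nb (w' - p • w) ≤ C * q ^ (2 * s))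
    (h3 : ∀ k s s' w w', R k s w → R k s' w' →
      nb (w' - w) ≤ C * max (q ^ (2 * s)) (q ^ (2 * s'))) :
    ∃ b, ∀ k s w, R k s w → nb (w - p ^ k • b) ≤ C / P * q ^ (2 * s) := by
  have hP := hB.q0
  have hpQ : (p : ℚ) ≠ 0 := Nat.cast_ne_zero.2 hB.pp.ne_zero
  have hseq : ∀ k s w, R k s w → ∃ u : ℕ → B, u 0 = w ∧ ∀ i, R (k + i) (s + e * i) (u i) := by
    intro k s w hw
    have h4 : ∀ i, ∃ w', R (k + i) (s + e * i) w' := by
      intro i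
      induction i with
      | zero => exact ⟨w, hw⟩
      | succ i ih =>
        obtain ⟨w', hw'⟩ := ih
        have h5 := h1 _ _ _ hw'
        rwa [add_assoc s (e * i) e, ← Nat.mul_succ, add_assoc k i 1] at h5
    choose v hv using h4
    refine ⟨fun i => if i = 0 then w else v i, if_pos rfl, fun i => ?_⟩
    by_cases hi : i = 0
    · subst hi
      exact hw
    · change R (k + i) (s + e * i) (if i = 0 then w else v i)
      rw [if_neg hi]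
      exact hv i
  have hlim : ∀ k s w, R k s w → ∃ (u : ℕ → B) (b : B), (∀ i, R (k + i) (s + e * i) (u i)) ∧
      (∀ i, nb (((p : ℚ) ^ (k + i))⁻¹ • u i - b) ≤ C * q ^ (2 * s) * (P ^ (k + 1))⁻¹ * P ^ i) ∧
      nb (w - p ^ k • b) ≤ C / P * q ^ (2 * s) := by
    intro k s w hw
    obtain ⟨u, hu0, hu⟩ := hseq k s w hw
    have h4 : ∀ i, nb (((p : ℚ) ^ (k + (i + 1)))⁻¹ • u (i + 1) - ((p : ℚ) ^ (k + i))⁻¹ • u i) ≤
        C * q ^ (2 * s) * (P ^ (k + 1))⁻¹ * P ^ i := by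
      intro i
      have h5 : ((p : ℚ) ^ (k + (i + 1)))⁻¹ • u (i + 1) - ((p : ℚ) ^ (k + i))⁻¹ • u i =
          ((p : ℚ) ^ (k + (i + 1)))⁻¹ • (u (i + 1) - p • u i) := by
        rw [smul_sub, ← Nat.cast_smul_eq_nsmul ℚ p (u i), smul_smul]
        congr 2
        rw [← add_assoc, pow_succ, mul_inv, mul_assoc, inv_mul_cancel₀ hpQ, mul_one]
      have h6 := hu (i + 1)
      rw [← add_assoc, Nat.mul_succ, ← add_assoc] at h6
      have h7 := h2 _ _ _ _ (hu i) h6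
      rw [h5, tx_inv hB]
      have h8 : q ^ (2 * (s + e * i)) = q ^ (2 * s) * (P ^ i * P ^ i) := by
        rw [he, ← pow_mul, ← pow_add, ← pow_add]
        congr 1
        ring
      rw [h8] at h7
      refine (mul_le_mul_of_nonneg_left h7 (inv_nonneg.2 (pow_nonneg hP.le _))).trans (le_of_eq ?_)
      have h9 : P ^ (k + (i + 1)) = P ^ (k + 1) * P ^ i := by
        rw [← pow_add]
        congr 1
        ring
      rw [h9]
      have h10 := (pow_pos hP i).ne'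
      have h11 := (pow_pos hP (k + 1)).ne'
      field_simp
    obtain ⟨b, hb⟩ := hB.lim (C * q ^ (2 * s) * (P ^ (k + 1))⁻¹)
      (fun i => ((p : ℚ) ^ (k + i))⁻¹ • u i) h4
    refine ⟨u, b, hu, hb, ?_⟩
    have h5 := hb 0
    rw [hu0, add_zero, pow_zero, mul_one] at h5
    have h6 : w - p ^ k • b = p ^ k • (((p : ℚ) ^ k)⁻¹ • w - b) := by
      rw [smul_sub, tx_cancel hB]
    rw [h6, tx_nsm hB]
    refine (mul_le_mul_of_nonneg_left h5 (pow_nonneg hP.le k)).trans (le_of_eq ?_)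
    have h10 := (pow_pos hP k).ne'
    have h11 := hP.ne'
    rw [pow_succ]
    field_simp
  obtain ⟨k₀, s₀, w₀, hw₀⟩ := h0
  obtain ⟨u₀, b, hu₀, hb₀, -⟩ := hlim k₀ s₀ w₀ hw₀
  refine ⟨b, fun k s w hw => ?_⟩
  obtain ⟨u, b', hu, hb', hw'⟩ := hlim k s w hw
  suffices hbb : b' - b = 0 by
    rw [sub_eq_zero] at hbb
    rw [← hbb]
    exact hw'
  have hD1 : 0 ≤ C * q ^ (2 * s) * (P ^ (k + 1))⁻¹ :=
    mul_nonneg (mul_nonneg hC (pow_nonneg hq0.le _)) (inv_nonneg.2 (pow_nonneg hP.le _))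
  have hD2 : 0 ≤ C * q ^ (2 * s₀) * (P ^ (k₀ + 1))⁻¹ :=
    mul_nonneg (mul_nonneg hC (pow_nonneg hq0.le _)) (inv_nonneg.2 (pow_nonneg hP.le _))
  have hD3 : 0 ≤ C * (P ^ (k + k₀))⁻¹ := mul_nonneg hC (inv_nonneg.2 (pow_nonneg hP.le _))
  refine tx_zero hB (D := C * q ^ (2 * s) * (P ^ (k + 1))⁻¹ * P ^ k₀ +
    C * q ^ (2 * s₀) * (P ^ (k₀ + 1))⁻¹ * P ^ k + C * (P ^ (k + k₀))⁻¹) fun m => ?_
  have hPm := pow_nonneg hP.le m
  have t1 : nb (((p : ℚ) ^ (k + (k₀ + m)))⁻¹ • u (k₀ + m) - b') ≤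
      C * q ^ (2 * s) * (P ^ (k + 1))⁻¹ * P ^ k₀ * P ^ m := by
    refine (hb' (k₀ + m)).trans (le_of_eq ?_)
    rw [pow_add P k₀ m, ← mul_assoc]
  have t2 : nb (((p : ℚ) ^ (k₀ + (k + m)))⁻¹ • u₀ (k + m) - b) ≤
      C * q ^ (2 * s₀) * (P ^ (k₀ + 1))⁻¹ * P ^ k * P ^ m := by
    refine (hb₀ (k + m)).trans (le_of_eq ?_)
    rw [pow_add P k m, ← mul_assoc]
  have hk : k₀ + (k + m) = k + (k₀ + m) := by ring
  have t3 : nb (((p : ℚ) ^ (k + (k₀ + m)))⁻¹ • u (k₀ + m) -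
      ((p : ℚ) ^ (k₀ + (k + m)))⁻¹ • u₀ (k + m)) ≤ C * (P ^ (k + k₀))⁻¹ * P ^ m := by
    have h5 := hu₀ (k + m)
    rw [hk] at h5
    have h6 := h3 _ _ _ _ _ h5 (hu (k₀ + m))
    have h7 : ∀ a b : ℕ, q ^ (2 * (a + e * (b + m))) ≤ P ^ m * P ^ m := by
      intro a b
      rw [he, ← pow_mul, ← pow_add]
      refine pow_le_pow_of_le_one hq0.le hq1 ?_
      nlinarith [Nat.zero_le a, Nat.zero_le (e * b)]
    have h8 : max (q ^ (2 * (s₀ + e * (k + m)))) (q ^ (2 * (s + e * (k₀ + m)))) ≤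
        P ^ m * P ^ m := max_le (h7 _ _) (h7 _ _)
    rw [hk, ← smul_sub, tx_inv hB]
    refine (mul_le_mul_of_nonneg_left (h6.trans (mul_le_mul_of_nonneg_left h8 hC))
      (inv_nonneg.2 (pow_nonneg hP.le _))).trans (le_of_eq ?_)
    have h9 : P ^ (k + (k₀ + m)) = P ^ (k + k₀) * P ^ m := by
      rw [← pow_add]
      congr 1
      ring
    rw [h9]
    have h10 := (pow_pos hP m).ne'
    have h11 := (pow_pos hP (k + k₀)).ne'
    field_simp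
  have h5 : b' - b = (((p : ℚ) ^ (k + (k₀ + m)))⁻¹ • u (k₀ + m) -
      ((p : ℚ) ^ (k₀ + (k + m)))⁻¹ • u₀ (k + m)) -
      ((((p : ℚ) ^ (k + (k₀ + m)))⁻¹ • u (k₀ + m) - b') -
        (((p : ℚ) ^ (k₀ + (k + m)))⁻¹ • u₀ (k + m) - b)) := by abel
  rw [h5]
  refine (tx_sub hB _ _).trans (max_le ?_ ((tx_sub hB _ _).trans (max_le ?_ ?_)))
  · refine t3.trans (mul_le_mul_of_nonneg_right ?_ hPm)
    have := mul_nonneg hD1 (pow_nonneg hP.le k₀)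
    have := mul_nonneg hD2 (pow_nonneg hP.le k)
    linarith
  · refine t1.trans (mul_le_mul_of_nonneg_right ?_ hPm)
    have := mul_nonneg hD2 (pow_nonneg hP.le k)
    linarith
  · refine t2.trans (mul_le_mul_of_nonneg_right ?_ hPm)
    have := mul_nonneg hD1 (pow_nonneg hP.le k₀)
    linarith

end bn

section

variable {F : Type} [Field F] {N d m : ℕ} {ι : Type} {f : ι → MvPolynomial (Fin N) F}
  {K Ω : Type} [Field K] [CharZero K] [Field Ω] [Algebra K Ω] [Algebra F K] [Algebra F Ω]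
  [IsScalarTower F K Ω] [IsAlgClosure K Ω] {L : Ld K Ω} {π : Ω} {ψ : Fin m → Prj K N d} {r n : ℕ}

omit [IsAlgClosure K Ω] in
theorem tx_e (hπ : Uf L π) : ∃ e : ℕ, L.nm (L.p : Ω) = L.nm π ^ e := by
  obtain ⟨n, hn⟩ := hπ.val (L.p : K) (Nat.cast_ne_zero.2 L.pp.ne_zero)
  rw [map_natCast] at hn
  have h1 : 0 ≤ n := by
    by_contra h
    rw [not_le] at h
    have h2 : 1 < L.nm π ^ n := one_lt_zpow_of_neg₀ hπ.pos hπ.lt h
    rw [← hn] at h2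
    exact absurd L.lt (not_lt.2 h2.le)
  lift n to ℕ using h1
  exact ⟨n, by rw [hn, zpow_natCast]⟩

omit [CharZero K] [IsAlgClosure K Ω] in
theorem tx_nsub (a b : Ω) : L.nm (a - b) ≤ max (L.nm a) (L.nm b) := by
  rw [sub_eq_add_neg]
  have h := L.add a (-b)
  rwa [L.neg] at h

omit [CharZero K] [IsAlgClosure K Ω] in
theorem tx_k (t : Fin N → Ω) {ε : ℝ} (hε : 0 < ε) :
    ∃ k₀, ∀ k, k₀ ≤ k → ∀ i, L.nm ((L.p : Ω) ^ k * t i) ≤ ε := by
  have hM : 0 ≤ ∑ i, L.nm (t i) := Finset.sum_nonneg fun i _ => L.nonneg _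
  obtain ⟨k₀, hk₀⟩ := exists_pow_lt_of_lt_one (div_pos hε (by linarith : 0 <
    ∑ i, L.nm (t i) + 1)) L.lt
  refine ⟨k₀, fun k hk i => ?_⟩
  have h1 : L.nm (t i) ≤ ∑ i, L.nm (t i) :=
    Finset.single_le_sum (f := fun i => L.nm (t i)) (fun i _ => L.nonneg _) (Finset.mem_univ i)
  rw [L.mul, L.pow]
  have h2 : L.nm (L.p : Ω) ^ k ≤ ε / (∑ i, L.nm (t i) + 1) :=
    (pow_le_pow_of_le_one (L.nonneg _) L.lt.le hk).trans hk₀.le
  have h3 : L.nm (t i) ≤ ∑ i, L.nm (t i) + 1 := by linarith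
  calc L.nm (L.p : Ω) ^ k * L.nm (t i)
      ≤ ε / (∑ i, L.nm (t i) + 1) * (∑ i, L.nm (t i) + 1) :=
        mul_le_mul h2 h3 (L.nonneg _) (div_nonneg hε.le (by linarith))
    _ = ε := div_mul_cancel₀ _ (by linarith)

omit [CharZero K] [IsAlgClosure K Ω] in
theorem tx_up {t : Fin N → Ω} {e k s : ℕ} (he : L.nm (L.p : Ω) = L.nm π ^ e)
    (h : ∀ i, L.nm ((L.p : Ω) ^ k * t i) ≤ L.nm π ^ s) (i : Fin N) :
    L.nm ((L.p : Ω) ^ (k + 1) * t i) ≤ L.nm π ^ (s + e) := by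
  have h1 : (L.p : Ω) ^ (k + 1) * t i = (L.p : Ω) * ((L.p : Ω) ^ k * t i) := by
    rw [pow_succ']
    ring
  rw [h1, L.mul, he, add_comm s e, pow_add]
  exact mul_le_mul_of_nonneg_left (h i) (pow_nonneg (L.nonneg _) _)

omit [CharZero K] [IsAlgClosure K Ω] in
theorem tx_upm {t : Fin N → Ω} {e k s : ℕ} (he : L.nm (L.p : Ω) = L.nm π ^ e)
    (h : ∀ i, L.nm ((L.p : Ω) ^ k * t i) ≤ L.nm π ^ s) (j : ℕ) (i : Fin N) :
    L.nm ((L.p : Ω) ^ (k + j) * t i) ≤ L.nm π ^ (s + e * j) := by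
  induction j generalizing i with
  | zero => exact h i
  | succ j ih =>
    have h1 := tx_up (L := L) he ih i
    rwa [add_assoc s (e * j) e, ← Nat.mul_succ, add_assoc k j 1] at h1

theorem tx_pt (h : Cx f L π ψ r) {x t : Fin N → Ω} (hx : Xp f L n x) (ht : Tn' f L n x t)
    {k s : ℕ} (hs : s ≠ 0) (hk : ∀ i, L.nm ((L.p : Ω) ^ k * t i) ≤ L.nm π ^ s) :
    ∃ x' : Fin N → Ω, Xp f L n x' ∧
      ∀ i, L.nm (x' i - x i - (L.p : Ω) ^ k * t i) ≤ L.nm π ^ (2 * s) := by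
  obtain ⟨x', hx', h1⟩ := exists_xt h.hψ h.hc hx
    (ht.smul (pow_mem (IntermediateField.natCast_mem _ L.p) k))
    (pow_nonneg (L.nonneg π) s) (h.hπ.pow_lt hs) hk
  refine ⟨x', hx', fun i => ?_⟩
  rw [pow_mul']
  exact h1 i

end

end GX
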