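import Pool.Agent.Lib.MP_f80667_ag.Lc.D
import Pool.Agent.Lib.MP_f80667_ag.Gx.Gc
import Pool.Agent.Lib.MP_f80667_ag.Gx.TsLa
import Pool.Agent.Lib.MP_f80667_ag.Gx.ChD
import Pool.Agent.Lib.MP_f80667_ag.Gx.XE

/-!
Points and tangent vectors over `Ur ⊥ n`.

* `rt ψ c`: the roots of `G (c, Y)`.
-/

open ZC BE PE CV IntermediateField

namespace GX

section

variable {F : Type} [Field F] {N d : ℕ} {ι : Type} {f : ι → MvPolynomial (Fin N) F}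
  {K Ω : Type} [Field K] [CharZero K] [Field Ω] [Algebra K Ω] [Algebra F K] [Algebra F Ω]
  [IsScalarTower F K Ω] [IsAlgClosure K Ω] {L : Ld K Ω} {r n n' : ℕ}

omit [CharZero K] [IsAlgClosure K Ω] in
theorem N0.mul (h : N0 r n) {k : ℕ} (hk : k ≠ 0) : N0 r (n * k) :=
  ⟨Nat.mul_ne_zero h.1 hk, h.2.mul_right k⟩

omit [CharZero K] [IsAlgClosure K Ω] in
/-- Proof: `Ld.ur_dvd`. -/
theorem Xp.mono {x : Fin N → Ω} (h : Xp f L n x) (hn : n ∣ n') : Xp f L n' x := by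
  exact ⟨fun i => ⟨Ld.ur_dvd ⊥ hn (h.iv i).1, (h.iv i).2⟩, h.one, h.zero⟩

omit [CharZero K] [IsAlgClosure K Ω] in
theorem Tn'.mono {x t : Fin N → Ω} (h : Tn' f L n x t) (hn : n ∣ n') : Tn' f L n' x t := by
  exact ⟨h.tg, fun i => Ld.ur_dvd ⊥ hn (h.mem i)⟩

omit [CharZero K] [IsAlgClosure K Ω] in
theorem Xp.ne {x : Fin N → Ω} (h : Xp f L n x) : x ≠ 0 := by
  obtain ⟨i, hi⟩ := h.one
  rintro rfl
  rw [Pi.zero_apply, L.zero] at hi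
  exact zero_ne_one hi

omit [CharZero K] [IsAlgClosure K Ω] in
/-- Proof: `om_zp`. -/
theorem Xp.zp {x : Fin N → Ω} (h : Xp f L n x) : Zp (fo f Ω) x := by
  exact om_zp.2 ⟨h.ne, h.zero⟩

omit [CharZero K] [IsAlgClosure K Ω] in
/-- Proof: `co_mk`. -/
theorem Xp.co {x : Fin N → Ω} (h : Xp f L n x) : ∃ P : (Xf f).pt Ω, Co P x := by
  exact co_mk h.ne h.zero

/-- An automorphism maps `Ur ⊥ n` to itself. Proof: `Ur ⊥ n` is generated by `Te n` (`Ld.te_act`). -/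
theorem act_ur (γ : Ω ≃ₐ[K] Ω) {x : Ω} (hx : x ∈ L.Ur ⊥ n) : γ x ∈ L.Ur ⊥ n := by
  have h : IntermediateField.map (γ : Ω →ₐ[K] Ω) (L.Ur ⊥ n) ≤ L.Ur ⊥ n := by
    rw [Ld.Ur, IntermediateField.map_sup, IntermediateField.map_bot, IntermediateField.adjoin_map]
    refine sup_le_sup_left (IntermediateField.adjoin_le_iff.2 ?_) _
    rintro _ ⟨y, hy, rfl⟩
    exact IntermediateField.subset_adjoin K _ (Ld.te_act γ hy)
  exact h ⟨x, hx, rfl⟩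

omit [CharZero K] [IsAlgClosure K Ω] in
private theorem lcb_ae (γ : Ω ≃ₐ[K] Ω) (x : Fin N → Ω) (P : MvPolynomial (Fin N) F) :
    MvPolynomial.aeval (fun i => γ (x i)) P = γ (MvPolynomial.aeval x P) :=
  (MvPolynomial.comp_aeval_apply x (γ.restrictScalars F : Ω →ₐ[F] Ω) P).symm

/-- Proof: `act_ur`, `Ld.act`; `aeval (γ x) (f i) = γ (aeval x (f i))`. -/
theorem Xp.act {x : Fin N → Ω} (h : Xp f L n x) (γ : Ω ≃ₐ[K] Ω) :
    Xp f L n fun i => γ (x i) := by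
  refine ⟨fun i => ⟨act_ur γ (h.iv i).1, ?_⟩, ?_, fun i => ?_⟩
  · rw [L.act]
    exact (h.iv i).2
  · obtain ⟨i, hi⟩ := h.one
    exact ⟨i, by rw [L.act]; exact hi⟩
  · rw [lcb_ae, h.zero i, map_zero]

omit [CharZero K] [IsAlgClosure K Ω] [Algebra K Ω] [Algebra F K] [IsScalarTower F K Ω] in
private theorem lcb_ev (x : Fin N → Ω) (P : MvPolynomial (Fin N) F) :
    MvPolynomial.eval x (MvPolynomial.map (algebraMap F Ω) P) = MvPolynomial.aeval x P := by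
  rw [MvPolynomial.eval_map, MvPolynomial.aeval_def]

theorem Tn'.act {x t : Fin N → Ω} (h : Tn' f L n x t) (γ : Ω ≃ₐ[K] Ω) :
    Tn' f L n (fun i => γ (x i)) fun i => γ (t i) := by
  refine ⟨⟨⟨?_, fun i => ?_⟩, fun i => ?_⟩, fun i => act_ur γ (h.mem i)⟩
  · intro h0
    refine h.tg.1.1 (funext fun i => ?_)
    have h1 : γ (x i) = 0 := congrFun h0 i
    rwa [map_eq_zero] at h1
  · have h1 := h.tg.1.2 i
    rw [fo, lcb_ev] at h1 ⊢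
    rw [lcb_ae, h1, map_zero]
  · have h1 := h.tg.2 i
    rw [← map_zero γ, ← h1, map_sum]
    refine Finset.sum_congr rfl fun j _ => ?_
    rw [map_mul, fo, MvPolynomial.pderiv_map, lcb_ev, lcb_ev, lcb_ae]

omit [CharZero K] [IsAlgClosure K Ω] in
/-- Proof: `zp_smul`. -/
theorem Xp.smul (hf : Hm f) {x : Fin N → Ω} (h : Xp f L n x) {c : Ω} (hc : c ∈ L.Ur ⊥ n)
    (hc1 : L.nm c = 1) : Xp f L n (c • x) := by
  have hc0 : c ≠ 0 := L.ne_zero (by rw [hc1]; exact one_pos)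
  refine ⟨fun i => ⟨mul_mem hc (h.iv i).1, ?_⟩, ?_, (om_zp.1 (zp_smul (om_hom hf) h.zp hc0)).2⟩
  · rw [Pi.smul_apply, smul_eq_mul, L.mul, hc1, one_mul]
    exact (h.iv i).2
  · obtain ⟨i, hi⟩ := h.one
    refine ⟨i, ?_⟩
    rw [Pi.smul_apply, smul_eq_mul, L.mul, hc1, one_mul, hi]

omit [CharZero K] [IsAlgClosure K Ω] in
theorem Tn'.add {x t t' : Fin N → Ω} (h : Tn' f L n x t) (h' : Tn' f L n x t') :
    Tn' f L n x (t + t') := by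
  exact ⟨tg_add h.tg h'.tg, fun i => add_mem (h.mem i) (h'.mem i)⟩

omit [CharZero K] [IsAlgClosure K Ω] in
theorem Tn'.smul {x t : Fin N → Ω} (h : Tn' f L n x t) {c : Ω} (hc : c ∈ L.Ur ⊥ n) :
    Tn' f L n x (c • t) := by
  exact ⟨tg_smul h.tg c, fun i => mul_mem hc (h.mem i)⟩

omit [CharZero K] [IsAlgClosure K Ω] in
/-- Proof: `tg_hom`. -/
theorem Tn'.hom (hf : Hm f) {x t : Fin N → Ω} (h : Tn' f L n x t) {c : Ω} (hc : c ∈ L.Ur ⊥ n)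
    (hc0 : c ≠ 0) : Tn' f L n (c • x) (c • t) := by
  exact ⟨tg_hom (om_hom hf) h.tg hc0, fun i => mul_mem hc (h.mem i)⟩

omit [CharZero K] [IsAlgClosure K Ω] in
/-- Proof: `tg_rad`. -/
theorem Xp.rad (hf : Hm f) {x : Fin N → Ω} (h : Xp f L n x) {c : Ω} (hc : c ∈ L.Ur ⊥ n) :
    Tn' f L n x (c • x) := by
  exact ⟨tg_rad (om_hom hf) h.zp c, fun i => mul_mem hc (h.iv i).1⟩

variable {ψ : Prj K N d}

/-- The roots of `G (c, Y)`. -/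
noncomputable def rt (ψ : Prj K N d) (c : Fin (d + 1) → Ω) : Finset Ω :=
  open Classical in ((ψ.om Ω).gc c).roots.toFinset

omit [CharZero K] [IsAlgClosure K Ω] in
/-- Proof: `Prj.Ok.mem_gc`, `om_G`. -/
theorem mem_rt (h : Pj f L ψ) {c : Fin (d + 1) → Ω} {w : Ω} : w ∈ rt ψ c ↔ pe c w ψ.G = 0 := by
  classical
  rw [rt]
  exact Multiset.mem_toFinset.trans (h.ok.mem_gc.trans (by rw [om_G]))

omit [CharZero K] [IsAlgClosure K Ω] in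
private theorem lcb_root (h : Pj f L ψ) {c : Fin (d + 1) → Ω} (hc : ∀ r, L.nm (c r) ≤ 1)
    {w : Ω} (hG : pe c w ψ.G = 0) : L.nm w ≤ 1 := by
  refine L.root_le (f := ψ.G.map (MvPolynomial.aeval c :
    MvPolynomial (Fin (d + 1)) K →ₐ[K] Ω).toRingHom) (h.mon.map _) (fun j => ?_) ?_
  · rw [Polynomial.coeff_map]
    exact GM.ae_le (F := K) (K := K) (h.iG j) hc
  · rw [Polynomial.eval_map]
    exact hG

omit [CharZero K] [IsAlgClosure K Ω] in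
/-- Proof: `root_int'`, `Pj.pt_iv`. -/
theorem xp_pt (h : Pj f L ψ) {c : Fin (d + 1) → Ω} (hc : Iv L (L.Ur ⊥ n) c)
    (hD : L.nm (MvPolynomial.aeval c ψ.D) = 1) {w : Ω} (hw : w ∈ L.Ur ⊥ n)
    (hG : pe c w ψ.G = 0) : Xp f L n ((ψ.om Ω).pt c w) := by
  obtain ⟨h1, h2, -, h3, -, -⟩ := h.pt_iv hc hw (lcb_root h (fun r => (hc r).2) hG) hG hD
  exact ⟨h1, h2, h3⟩

omit [CharZero K] [IsAlgClosure K Ω] in
private theorem lcb_lt (c ξ : Fin (d + 1) → Ω) (w : Ω) (j : Fin N) :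
    (ψ.om Ω).lt c w ξ j = (∑ r, ξ r * pe c w (ψ.tp r j)) /
      (MvPolynomial.aeval c ψ.D ^ 2 * pe c w (Polynomial.derivative ψ.G)) := by
  have h1 : ∀ r, (ψ.om Ω).lt c w (Pi.single r 1) j = pe c w ((ψ.om Ω).tp r j) /
      (MvPolynomial.eval c (ψ.om Ω).D ^ 2 *
        pe c w (Polynomial.derivative (ψ.om Ω).G)) := by
    intro r
    rw [Prj.lt, Finset.sum_eq_single r]
    · rw [Pi.single_eq_same, one_mul]
    · intro b _ hb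
      rw [Pi.single_eq_of_ne hb, zero_mul]
    · intro h
      exact absurd (Finset.mem_univ r) h
  rw [Prj.lt, Finset.sum_div, Finset.sum_div]
  refine Finset.sum_congr rfl fun r _ => ?_
  rw [mul_div_assoc, ← h1, lt_map, mul_div_assoc]

omit [CharZero K] [IsAlgClosure K Ω] in
/-- Proof: `Prj.Ok.lt_tg`; the coordinates of `lt` are in `Ur ⊥ n` (the formula `Prj.lt`, the values of polynomials over `K`). -/
theorem tn_lt (h : Pj f L ψ) {c : Fin (d + 1) → Ω} (hc : Iv L (L.Ur ⊥ n) c)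
    (hD : L.nm (MvPolynomial.aeval c ψ.D) = 1) {w : Ω} (hw : w ∈ L.Ur ⊥ n)
    (hG : pe c w ψ.G = 0) {ξ : Fin (d + 1) → Ω} (hξ : ∀ r, ξ r ∈ L.Ur ⊥ n) :
    Tn' f L n ((ψ.om Ω).pt c w) ((ψ.om Ω).lt c w ξ) := by
  have hDne : MvPolynomial.eval c (ψ.om Ω).D ≠ 0 := by
    rw [om_D]
    exact L.ne_zero (by rw [hD]; exact one_pos)
  refine ⟨(h.ok.lt_tg (om_hom h.hom) (by rw [om_G]; exact hG) hDne ξ).1, fun j => ?_⟩
  rw [lcb_lt]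
  exact div_mem (sum_mem fun r _ => mul_mem (hξ r) (pe_mem _ (fun r => (hc r).1) hw))
    (mul_mem (pow_mem (aev_mem _ fun r => (hc r).1) 2) (pe_mem _ (fun r => (hc r).1) hw))

omit [CharZero K] [IsAlgClosure K Ω] in
/-- Proof: `Prj.Ok.pt_eq`, `Pj.uv_iv`. -/
theorem Xp.uv (h : Pj f L ψ) {x : Fin N → Ω} (hx : Xp f L n x)
    (hD : L.nm (MvPolynomial.aeval (ψ.uv x) ψ.D) = 1) :
    Iv L (L.Ur ⊥ n) (ψ.uv x) ∧ ψ.yv x ∈ L.Ur ⊥ n ∧ pe (ψ.uv x) (ψ.yv x) ψ.G = 0 ∧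
      (ψ.om Ω).pt (ψ.uv x) (ψ.yv x) = x := by
  obtain ⟨h1, h2, -⟩ := h.uv_iv hx.iv
  obtain ⟨h3, h4⟩ := h.pt_eq hx.ne hx.zero (L.ne_zero (by rw [hD]; exact one_pos))
  exact ⟨h1, h2, h3, h4⟩

omit [CharZero K] [IsAlgClosure K Ω] in
/-- Proof: `Prj.Ok.lt_eq`. -/
theorem Tn'.uv (h : Pj f L ψ) {x t : Fin N → Ω} (ht : Tn' f L n x t)
    (hD : L.nm (MvPolynomial.aeval (ψ.uv x) ψ.D) = 1) :
    (∀ r, ψ.uv t r ∈ L.Ur ⊥ n) ∧ (ψ.om Ω).lt (ψ.uv x) (ψ.yv x) (ψ.uv t) = t := by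
  refine ⟨fun r => lv_mem _ fun j => ht.mem j, ?_⟩
  have h1 := h.ok.lt_eq ht.tg (by
    change MvPolynomial.eval ((ψ.om Ω).uv x) (ψ.om Ω).D ≠ 0
    rw [om_uv, om_D]
    exact L.ne_zero (by rw [hD]; exact one_pos))
  have h2 : (ψ.om Ω).lt ((ψ.om Ω).uv x) ((ψ.om Ω).yv x) ((ψ.om Ω).uv t) = t := h1
  rwa [om_uv, om_yv, om_uv] at h2

omit [CharZero K] [IsAlgClosure K Ω] in
/-- A good projection. Proof: `Cvr`. -/
theorem Xp.chart {m : ℕ} {ψ : Fin m → Prj K N d} (hc : Cvr f L ψ) {x : Fin N → Ω}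
    (hx : Xp f L n x) : ∃ i, L.nm (MvPolynomial.aeval ((ψ i).uv x) (ψ i).D) = 1 := by
  exact hc x (fun i => (hx.iv i).2) hx.one fun i => by
    rw [hx.zero i, L.zero]
    exact zero_lt_one

omit [CharZero K] [IsAlgClosure K Ω] in
private theorem bxt_lv {a : Fin N → K} (ha : ∀ j, L.nm (algebraMap K Ω (a j)) ≤ 1)
    {t : Fin N → Ω} {ε : ℝ} (h0 : 0 ≤ ε) (h : ∀ i, L.nm (t i) ≤ ε) : L.nm (lv a t) ≤ ε := by
  have h1 := lv_close (L := L) ha (x := t) (x' := 0) h0 fun j => by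
    rw [Pi.zero_apply, sub_zero]
    exact h j
  have h2 : lv a (0 : Fin N → Ω) = 0 := by
    rw [lv]
    exact Finset.sum_eq_zero fun j _ => by rw [Pi.zero_apply, mul_zero]
  rwa [h2, sub_zero] at h1

/-- A point near `x + t`. Proof: a good projection (`Xp.chart`); `c' = u (x) + u (t)`; the root `w'` of `G (c', Y)` near `y (x)` (`Pj.root`
with `w₀ = y (x)`: `nm (G (c', y (x))) ≤ ε`, `pe_close`); `x' = pt c' w'`; `nm (x' - x) ≤ ε` (`Pj.pt_close`), `Pj.second` with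
`lt (u x) (y x) (u t) = t`. -/
theorem exists_xt {m : ℕ} {ψ : Fin m → Prj K N d} (hψ : ∀ i, Pj f L (ψ i)) (hc : Cvr f L ψ)
    {x t : Fin N → Ω} (hx : Xp f L n x) (ht : Tn' f L n x t) {ε : ℝ} (h0 : 0 ≤ ε) (h1 : ε < 1)
    (h : ∀ i, L.nm (t i) ≤ ε) :
    ∃ x' : Fin N → Ω, Xp f L n x' ∧ ∀ i, L.nm (x' i - x i - t i) ≤ ε ^ 2 := by
  obtain ⟨i, hD⟩ := hx.chart hc
  obtain ⟨hu, hy, hG, hpt⟩ := hx.uv (hψ i) hD
  obtain ⟨htu, hlt⟩ := ht.uv (hψ i) hD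
  have hy1 : L.nm ((ψ i).yv x) ≤ 1 := ((hψ i).uv_iv hx.iv).2.2
  have hξ : ∀ r, L.nm ((ψ i).uv t r) ≤ ε := fun r => bxt_lv ((hψ i).iu r) h0 h
  obtain ⟨c', hc'⟩ : ∃ c', c' = (ψ i).uv x + (ψ i).uv t := ⟨_, rfl⟩
  have hcr : ∀ r, c' r = (ψ i).uv x r + (ψ i).uv t r := fun r => by
    rw [hc']
    rfl
  have hci : Iv L (L.Ur ⊥ n) c' := fun r => by
    rw [hcr]
    exact ⟨add_mem (hu r).1 (htu r),
      (L.add _ _).trans (max_le (hu r).2 ((hξ r).trans h1.le))⟩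
  have hcc : ∀ r, L.nm (c' r - (ψ i).uv x r) ≤ ε := fun r => by
    rw [hcr, add_sub_cancel_left]
    exact hξ r
  have hcc' : ∀ r, L.nm ((ψ i).uv x r - c' r) < 1 := fun r => by
    rw [L.sub_comm]
    exact (hcc r).trans_lt h1
  have hu1 : ∀ r, L.nm ((ψ i).uv x r) ≤ 1 := fun r => (hu r).2
  have hc1 : ∀ r, L.nm (c' r) ≤ 1 := fun r => (hci r).2
  have hD' := (hψ i).D_close hu1 hc1 hcc' hD
  have hG1 : L.nm (pe c' ((ψ i).yv x) (ψ i).G) ≤ ε := by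
    have h3 := pe_close (hψ i).iG hc1 hy1 hu1 hy1 h0 hcc (by rw [sub_self, L.zero]; exact h0)
    rwa [hG, sub_zero] at h3
  obtain ⟨w', hw', hw1, hGw, hww⟩ := (hψ i).root hci hD' hy hy1 (hG1.trans_lt h1)
  have hxp := xp_pt (hψ i) hci hD' hw' hGw
  have hux : (ψ i).uv (((ψ i).om Ω).pt c' w') = c' :=
    ((hψ i).pt_iv hci hw' hw1 hGw hD').2.2.2.2.1
  have hn : ∀ j, L.nm (((ψ i).om Ω).pt c' w' j - x j) ≤ ε := fun j => by
    have h3 := (hψ i).pt_close hc1 hw1 hu1 hy1 hD' hD h0 hcc (hww.trans hG1) j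
    rwa [hpt] at h3
  refine ⟨((ψ i).om Ω).pt c' w', hxp, fun j => ?_⟩
  have h4 := (hψ i).second (fun j => (hx.iv j).2) (fun j => (hxp.iv j).2) hx.zero hxp.zero hD
    h0 h1 hn j
  have h5 : c' - (ψ i).uv x = (ψ i).uv t := by rw [hc', add_sub_cancel_left]
  rw [hux, h5, hlt] at h4
  exact h4

omit [CharZero K] [IsAlgClosure K Ω] in
/-- A point over `u (x) + ξ`. Proof: `nm (x' - x) ≤ ε` by `Pj.near`, then `Pj.second`, `Prj.lt_add`, `Pj.lt_le`. -/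
theorem xt_of (h : Pj f L ψ) {x x' : Fin N → Ω} (hx : Xp f L n x) (hx' : Xp f L n x')
    (hD : L.nm (MvPolynomial.aeval (ψ.uv x) ψ.D) = 1) {ξ : Fin (d + 1) → Ω} {ε : ℝ}
    (h0 : 0 ≤ ε) (h1 : ε < 1) (hξ : ∀ r, L.nm (ξ r) ≤ ε) (hn : ∀ i, L.nm (x' i - x i) < 1)
    (hu : ∀ r, L.nm (ψ.uv x' r - (ψ.uv x r + ξ r)) ≤ ε ^ 2) (i : Fin N) :
    L.nm (x' i - x i - (ψ.om Ω).lt (ψ.uv x) (ψ.yv x) ξ i) ≤ ε ^ 2 := by
  obtain ⟨hu1, hy, hG, hpt⟩ := hx.uv h hD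
  have hy1 : L.nm (ψ.yv x) ≤ 1 := (h.uv_iv hx.iv).2.2
  have hε : ε ^ 2 ≤ ε := by nlinarith
  have hux : ∀ r, L.nm (ψ.uv x' r - ψ.uv x r) ≤ ε := fun r => by
    have e : ψ.uv x' r - ψ.uv x r = (ψ.uv x' r - (ψ.uv x r + ξ r)) + ξ r := by ring
    rw [e]
    exact (L.add _ _).trans (max_le ((hu r).trans hε) (hξ r))
  have hnx : ∀ j, L.nm (x' j - x j) ≤ ε := fun j =>
    h.near (fun j => (hx.iv j).2) (fun j => (hx'.iv j).2) hx.zero hx'.zero hD hn h0 hux j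
  have h4 := h.second (fun j => (hx.iv j).2) (fun j => (hx'.iv j).2) hx.zero hx'.zero hD h0 h1
    hnx i
  have h5 : L.nm ((ψ.om Ω).lt (ψ.uv x) (ψ.yv x) (ψ.uv x' - ψ.uv x - ξ) i) ≤ ε ^ 2 :=
    h.lt_le (fun r => (hu1 r).2) hy1 hG hD (sq_nonneg ε) (fun r => by
      have e : (ψ.uv x' - ψ.uv x - ξ) r = ψ.uv x' r - (ψ.uv x r + ξ r) := by
        simp only [Pi.sub_apply]
        ring
      rw [e]
      exact hu r) i
  have h6 : (ψ.om Ω).lt (ψ.uv x) (ψ.yv x) (ψ.uv x' - ψ.uv x) =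
      (ψ.om Ω).lt (ψ.uv x) (ψ.yv x) ξ +
        (ψ.om Ω).lt (ψ.uv x) (ψ.yv x) (ψ.uv x' - ψ.uv x - ξ) := by
    rw [← Prj.lt_add, add_sub_cancel]
  rw [h6, Pi.add_apply] at h4
  have e : x' i - x i - (ψ.om Ω).lt (ψ.uv x) (ψ.yv x) ξ i =
      (x' i - x i - ((ψ.om Ω).lt (ψ.uv x) (ψ.yv x) ξ i +
        (ψ.om Ω).lt (ψ.uv x) (ψ.yv x) (ψ.uv x' - ψ.uv x - ξ) i)) +
      (ψ.om Ω).lt (ψ.uv x) (ψ.yv x) (ψ.uv x' - ψ.uv x - ξ) i := by ring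
  rw [e]
  exact (L.add _ _).trans (max_le h4 h5)

end

end GX
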