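import Pool.Agent.Lib.MP_f80667_ag.Lc.Ea

/-! From values on a dense set to a compatible system. -/

open MvPolynomial

namespace GX

section

variable {Ω : Type} [Field Ω] {d : ℕ}

/-- The value at `s c` as a polynomial in `s`. -/
theorem eval_smul_sum (P : MvPolynomial (Fin (d + 1)) Ω) (c : Fin (d + 1) → Ω) (s : Ω) :
    eval (s • c) P = ∑ e ∈ Finset.range (P.totalDegree + 1), s ^ e *
      eval c (homogeneousComponent e P) := by
  conv_lhs => rw [← sum_homogeneousComponent P]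
  rw [map_sum]
  refine Finset.sum_congr rfl fun e _ => ?_
  exact aeval_smul_hom (homogeneousComponent_isHomogeneous e P) c s

/-- A polynomial with `s P (s c) = s ^ (j + 1) P (c)` for infinitely many `s` and a dense set of
`c` is homogeneous. -/
theorem hom_of {P : MvPolynomial (Fin (d + 1)) Ω} {Z : Set (Fin (d + 1) → Ω)}
    (hZ : ∀ q : MvPolynomial (Fin (d + 1)) Ω, (∀ c ∈ Z, eval c q = 0) → q = 0)
    {U : Set Ω} (hU : U.Infinite) {j : ℕ}
    (h : ∀ c ∈ Z, ∀ s ∈ U, eval (s • c) P * s = s ^ (j + 1) * eval c P) :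
    P.IsHomogeneous j := by
  classical
  have key : ∀ c ∈ Z, ∀ e, e ≠ j → eval c (homogeneousComponent e P) = 0 := by
    intro c hc e hej
    by_cases he : e ∈ Finset.range (P.totalDegree + 1)
    swap
    · rw [homogeneousComponent_eq_zero, map_zero]
      have := Finset.mem_range.not.1 he
      omega
    let Q : Polynomial Ω := (∑ e ∈ Finset.range (P.totalDegree + 1),
      Polynomial.C (eval c (homogeneousComponent e P)) * Polynomial.X ^ e) * Polynomial.X -
        Polynomial.C (eval c P) * Polynomial.X ^ (j + 1)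
    have hQ : Q = 0 := by
      refine Polynomial.eq_zero_of_infinite_isRoot Q (hU.mono fun s hs => ?_)
      change Q.eval s = 0
      have h1 := h c hc s hs
      rw [eval_smul_sum] at h1
      simp only [Q, Polynomial.eval_sub, Polynomial.eval_mul, Polynomial.eval_X,
        Polynomial.eval_C, Polynomial.eval_pow, Polynomial.eval_finset_sum]
      rw [sub_eq_zero, mul_comm (eval c P), ← h1]
      congr 1
      exact Finset.sum_congr rfl fun e _ => mul_comm _ _
    have h2 := congrArg (fun q => Polynomial.coeff q (e + 1)) hQ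
    simp only [Q, Polynomial.coeff_sub, Polynomial.coeff_mul_X, Polynomial.finset_sum_coeff,
      Polynomial.coeff_C_mul, Polynomial.coeff_X_pow, Polynomial.coeff_zero, mul_ite, mul_one,
      mul_zero] at h2
    rw [Finset.sum_ite_eq, if_pos he, if_neg (by omega), sub_zero] at h2
    exact h2
  have h3 : ∀ e, e ≠ j → homogeneousComponent e P = 0 := fun e he =>
    hZ _ fun c hc => key c hc e he
  have h4 : P = homogeneousComponent j P := by
    conv_lhs => rw [← sum_homogeneousComponent P]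
    by_cases hj : j ∈ Finset.range (P.totalDegree + 1)
    · rw [Finset.sum_eq_single j]
      · intro e _ he; exact h3 e he
      · intro hj'; exact absurd hj hj'
    · rw [Finset.sum_eq_zero, homogeneousComponent_eq_zero]
      · have := Finset.mem_range.not.1 hj
        omega
      · intro e he
        exact h3 e fun e' => hj (e' ▸ he)
  rw [h4]
  exact homogeneousComponent_isHomogeneous j P

end

variable {Ω : Type} [Field Ω] [IsAlgClosed Ω] {N d m : ℕ} {ι : Type}
  {f : ι → MvPolynomial (Fin N) Ω} {ψ : Fin m → Prj Ω N d}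

/-- **From values on a dense set to a compatible system.** -/
theorem sy_of (hf : ∀ i, ∃ e, (f i).IsHomogeneous e) (h : ∀ i, (ψ i).Ok f) {P : Pv Ω m d}
    {Z : Fin m → Set (Fin (d + 1) → Ω)}
    (hZ : ∀ i, ∀ q : MvPolynomial (Fin (d + 1)) Ω, (∀ c ∈ Z i, eval c q = 0) → q = 0)
    (hZD : ∀ i, ∀ c ∈ Z i, eval c (ψ i).D ≠ 0)
    {Φ : (Fin N → Ω) → (Fin N → Ω) → Ω}
    (h1 : ∀ i i', ∀ c ∈ Z i, ∀ w, pe c w (ψ i).G = 0 →
      eval ((ψ i').uv ((ψ i).pt c w)) (ψ i').D ≠ 0 ∧
      ∀ r, (ψ i').ev (P i') ((ψ i).pt c w) ((ψ i).lt c w (Pi.single r 1)) =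
        (ψ i').gy ((ψ i).pt c w) * Φ ((ψ i).pt c w) ((ψ i).lt c w (Pi.single r 1)))
    (h2 : ∀ i, ∀ c ∈ Z i, ∀ w, pe c w (ψ i).G = 0 →
      (ψ i).ev (P i) ((ψ i).pt c w) ((ψ i).pt c w) = 0)
    {U : Set Ω} (hU : U.Infinite)
    (h3 : ∀ i j r, ∀ c ∈ Z i, ∀ s ∈ U, eval (s • c) (P i j r) * s = s ^ j * eval c (P i j r))
    (h4 : ∀ i r, P i 0 r = 0)
    (h5 : ∀ i j r, (ψ i).G.natDegree ≤ j → P i j r = 0) : Sy f ψ P where
  hom i j r := by
    rcases Nat.eq_zero_or_pos j with rfl | hj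
    · rw [h4]
      exact isHomogeneous_zero _ _ _
    · obtain ⟨j, rfl⟩ : ∃ j', j = j' + 1 := ⟨j - 1, by omega⟩
      exact hom_of (hZ i) hU fun c hc s hs => h3 i (j + 1) r c hc s hs
  zero := h4
  big := h5
  triv i j r hD := by
    refine hZ i _ fun c hc => ?_
    have h6 := hZD i c hc
    rw [hD, map_zero] at h6
    exact absurd rfl h6
  rad i x hx hD := by
    have hspl : ∀ g : Polynomial Ω, g ≠ 0 → g.natDegree ≤ (ψ i).G.natDegree →
        Multiset.card g.roots = g.natDegree := fun g _ _ => IsAlgClosed.card_roots_eq_natDegree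
    have h6 := key_z (h i) (hZ i) (hZD i) hspl
      (rename (Sum.elim Sum.inl Sum.inl : Fin N ⊕ Fin N → Fin N ⊕ Fin N) ((ψ i).evq (P i)))
      0 (fun c hc w hw => ?_) hx hD
    · have h7 : ∀ t : Fin N → Ω, (Sum.elim x t : Fin N ⊕ Fin N → Ω) ∘
          (Sum.elim Sum.inl Sum.inl : Fin N ⊕ Fin N → Fin N ⊕ Fin N) = Sum.elim x x := by
        intro t
        funext j
        rcases j with j | j <;> rfl
      rw [aeval_rename, h7, ev_evq] at h6
      exact h6
    · have h7 : ∀ x t : Fin N → Ω, (Sum.elim x t : Fin N ⊕ Fin N → Ω) ∘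
          (Sum.elim Sum.inl Sum.inl : Fin N ⊕ Fin N → Fin N ⊕ Fin N) = Sum.elim x x := by
        intro x t
        funext j
        rcases j with j | j <;> rfl
      rw [aeval_rename, h7, ev_evq]
      exact h2 i c hc w hw
  ovl i i' x t ht hD hD' := by
    have hspl : ∀ g : Polynomial Ω, g ≠ 0 → g.natDegree ≤ (ψ i).G.natDegree →
        Multiset.card g.roots = g.natDegree := fun g _ _ => IsAlgClosed.card_roots_eq_natDegree
    have key : ∀ r, (ψ i').gy x * (ψ i).ev (P i) x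
          ((ψ i).lt ((ψ i).uv x) ((ψ i).yv x) (Pi.single r 1)) =
        (ψ i).gy x * (ψ i').ev (P i') x
          ((ψ i).lt ((ψ i).uv x) ((ψ i).yv x) (Pi.single r 1)) := by
      intro r
      have h6 := key_z (h i) (hZ i) (hZD i) hspl
        (rename Sum.inl ((ψ i').cp (Polynomial.derivative (ψ i').G)) * (ψ i).evq (P i) -
          rename Sum.inl ((ψ i).cp (Polynomial.derivative (ψ i).G)) * (ψ i').evq (P i'))
        r (fun c hc w hw => ?_) ht.1 hD
      · rw [map_sub, map_mul, map_mul, inl_ae, inl_ae, ev_evq, ev_evq, gy_cp, gy_cp] at h6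
        exact sub_eq_zero.1 h6
      · rw [map_sub, map_mul, map_mul, inl_ae, inl_ae, ev_evq, ev_evq, gy_cp, gy_cp,
          (h1 i i' c hc w hw).2 r, (h1 i i c hc w hw).2 r]
        ring
    rw [(h i).lt_sum ht hD, ev_sum', ev_sum', Finset.mul_sum, Finset.mul_sum]
    refine Finset.sum_congr rfl fun r _ => ?_
    rw [mul_left_comm, key r, mul_left_comm]

/-- The projections cover the variety if they cover the points. -/
theorem lcov_of (hc : ∀ x, Zp f x → ∃ i, eval ((ψ i).uv x) (ψ i).D ≠ 0) : Cov f ψ := by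
  classical
  set I : Ideal (MvPolynomial (Fin N) Ω) := Ideal.span (Set.range f) ⊔
    Ideal.span (Set.range fun i => (ψ i).cp (Polynomial.C (ψ i).D)) with hI
  have h1 : ∀ k, X k ∈ I.radical := by
    intro k
    rw [← vanishingIdeal_zeroLocus_eq_radical (K := Ω) I, mem_vanishingIdeal_iff]
    intro x hx
    rw [aeval_X]
    by_contra hk
    have hx0 : x ≠ 0 := fun e => hk (by rw [e]; rfl)
    have hz : Zp f x := by
      refine ⟨hx0, fun i => ?_⟩
      exact hx _ (Ideal.mem_sup_left (Ideal.subset_span ⟨i, rfl⟩))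
    obtain ⟨i, hi⟩ := hc x hz
    apply hi
    rw [← D_cp]
    exact hx _ (Ideal.mem_sup_right (Ideal.subset_span ⟨i, rfl⟩))
  choose s hs using fun k => h1 k
  refine ⟨∑ k, s k, fun k => ?_⟩
  have h2 : ∑ k, s k = s k + (∑ k, s k - s k) := by
    have := Finset.single_le_sum (f := s) (fun i _ => Nat.zero_le _) (Finset.mem_univ k)
    omega
  rw [h2, pow_add]
  exact I.mul_mem_right _ (hs k)

/-- **The global form.** -/
theorem frm_of (hf : ∀ i, ∃ e, (f i).IsHomogeneous e) (h : ∀ i, (ψ i).Ok f) {P : Pv Ω m d}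
    (hc : ∀ x, Zp f x → ∃ i, eval ((ψ i).uv x) (ψ i).D ≠ 0)
    {Z : Fin m → Set (Fin (d + 1) → Ω)}
    (hZ : ∀ i, ∀ q : MvPolynomial (Fin (d + 1)) Ω, (∀ c ∈ Z i, eval c q = 0) → q = 0)
    (hZD : ∀ i, ∀ c ∈ Z i, eval c (ψ i).D ≠ 0)
    {Φ : (Fin N → Ω) → (Fin N → Ω) → Ω}
    (h1 : ∀ i i', ∀ c ∈ Z i, ∀ w, pe c w (ψ i).G = 0 →
      eval ((ψ i').uv ((ψ i).pt c w)) (ψ i').D ≠ 0 ∧
      ∀ r, (ψ i').ev (P i') ((ψ i).pt c w) ((ψ i).lt c w (Pi.single r 1)) =
        (ψ i').gy ((ψ i).pt c w) * Φ ((ψ i).pt c w) ((ψ i).lt c w (Pi.single r 1)))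
    (h2 : ∀ i, ∀ c ∈ Z i, ∀ w, pe c w (ψ i).G = 0 →
      (ψ i).ev (P i) ((ψ i).pt c w) ((ψ i).pt c w) = 0)
    {U : Set Ω} (hU : U.Infinite)
    (h3 : ∀ i j r, ∀ c ∈ Z i, ∀ s ∈ U, eval (s • c) (P i j r) * s = s ^ j * eval c (P i j r))
    (h4 : ∀ i r, P i 0 r = 0)
    (h5 : ∀ i j r, (ψ i).G.natDegree ≤ j → P i j r = 0) :
    ∃ ℓ, Frm f ℓ ∧ ∀ i x t, Tg f x t → eval ((ψ i).uv x) (ψ i).D ≠ 0 →
      (ψ i).ev (P i) x t = (ψ i).gy x * ℓ x t :=
  (sy_of hf h hZ hZD h1 h2 hU h3 h4 h5).frm hf h (lcov_of hc)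

end GX
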