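import Pool.Agent.Lib.MP_f80667_ag.Lc.H
import Pool.Agent.Lib.MP_f80667_ag.Cv.HdA

/-!
The derivative and the traces.
-/

open ZC BE PE CV IntermediateField

namespace GX

variable {F : Type} [Field F] {N d m : ℕ} {ι : Type} {f : ι → MvPolynomial (Fin N) F}
  {K Ω : Type} [Field K] [CharZero K] [Field Ω] [Algebra K Ω] [Algebra F K] [Algebra F Ω]
  [IsScalarTower F K Ω] [IsAlgClosure K Ω] {L : Ld K Ω} {π : Ω} {ψ : Fin m → Prj K N d} {r n : ℕ}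
  {B : Type} [AddCommGroup B] [Module ℚ B] {nb : B → ℝ}
  {C : ℝ} {T : ℕ → (Fin N → Ω) → (Fin N → Ω) → B}

/-- The trace of a number of `Ur ⊥ n` to `Ur ⊥ n₁`. Proof: `Nm` over the cosets. -/
theorem nmu_mem {n₁ : ℕ} (hnn : n₁ ∣ n) (hn : n ≠ 0) {a : Ω} (ha : a ∈ L.Ur ⊥ n) :
    Nm (L.Ur ⊥ n₁) (L.Ur ⊥ n) a ∈ L.Ur ⊥ n₁ := by
  have hfd : FiniteDimensional K (L.Ur ⊥ n) := Ld.ur_fin ⊥ n hn
  exact fx_mem.1 (nm_fx (Ld.ur_dvd ⊥ hnn) (fx_mem.2 ha))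

/-- Proof: transitivity of `Nm` (Pe/NmL). -/
theorem nmu_trans {n₁ : ℕ} (hnn : n₁ ∣ n) (hn : n ≠ 0) {a : Ω} (ha : a ∈ L.Ur ⊥ n) :
    Nm (⊥ : IntermediateField K Ω) (L.Ur ⊥ n₁) (Nm (L.Ur ⊥ n₁) (L.Ur ⊥ n) a) =
      Nm (⊥ : IntermediateField K Ω) (L.Ur ⊥ n) a := by
  have hfd : FiniteDimensional K (L.Ur ⊥ n) := Ld.ur_fin ⊥ n hn
  exact (nm_tr bot_le (Ld.ur_dvd ⊥ hnn) (fx_mem.2 ha)).symm

private theorem sb_rank (hr : L.Rf ⊥ r) {s : ℕ} (hs : s ≠ 0) :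
    Module.finrank K (L.Ur ⊥ (r * s)) = s := by
  have h0 : Um L (⊥ : IntermediateField K Ω) := ⟨1, one_ne_zero, bot_le⟩
  have h1 := GM.mu_rank h0 hr hs
  rw [IntermediateField.finrank_bot, mul_one] at h1
  exact h1

/-- The degree of `Ur ⊥ (n k)` over `Ur ⊥ n`. -/
private theorem sb_idx (hr : L.Rf ⊥ r) (hn : N0 r n) {k : ℕ} (hk : k ≠ 0) :
    (L.Ur (⊥ : IntermediateField K Ω) (n * k)).fixingSubgroup.relIndex
      (L.Ur (⊥ : IntermediateField K Ω) n).fixingSubgroup = k := by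
  obtain ⟨hn0, s, rfl⟩ := hn
  have hs : s ≠ 0 := by
    rintro rfl
    exact hn0 (mul_zero _)
  have hfd : FiniteDimensional K (L.Ur ⊥ (r * s * k)) :=
    Ld.ur_fin ⊥ _ (Nat.mul_ne_zero hn0 hk)
  have h1 := relIndex_fix (K := K) (Ω := Ω) (M := L.Ur ⊥ (r * s)) (N := L.Ur ⊥ (r * s * k))
    (Ld.ur_dvd ⊥ (dvd_mul_right _ _))
  have h2 : Module.finrank K (L.Ur ⊥ (r * s * k)) = s * k := by
    rw [mul_assoc]
    exact sb_rank hr (Nat.mul_ne_zero hs hk)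
  rw [sb_rank hr hs, h2] at h1
  refine Nat.eq_of_mul_eq_mul_right (Nat.pos_of_ne_zero hs) ?_
  rw [h1, mul_comm]

/-- Proof: `Nm ⊥ (Ur ⊥ (n k)) a = Nm ⊥ (Ur ⊥ n) (k a)` for `a ∈ Ur ⊥ n` (the degree as in `vx_up`). -/
theorem nmu_mul (hr : L.Rf ⊥ r) (hn : N0 r n) {k : ℕ} (hk : k ≠ 0) {a : Ω}
    (ha : a ∈ L.Ur ⊥ n) : Nm (⊥ : IntermediateField K Ω) (L.Ur ⊥ (n * k)) a =
      (k : Ω) * Nm (⊥ : IntermediateField K Ω) (L.Ur ⊥ n) a := by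
  have hfd : FiniteDimensional K (L.Ur ⊥ (n * k)) := Ld.ur_fin ⊥ _ (Nat.mul_ne_zero hn.1 hk)
  have hfd' : FiniteDimensional K (L.Ur ⊥ n) := Ld.ur_fin ⊥ n hn.1
  have h1 : L.Ur (⊥ : IntermediateField K Ω) n ≤ L.Ur ⊥ (n * k) :=
    Ld.ur_dvd ⊥ (dvd_mul_right n k)
  rw [nm_tr bot_le h1 (fx_mem.2 (h1 ha)), nm_const h1 (fx_mem.2 ha), sb_idx hr hn hk,
    nm_nsmul bot_le, nsmul_eq_mul]

private theorem sb_sum (hT : Tp f L ψ r nb T C) (hn : N0 r n) {x t : Fin N → Ω}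
    (hx : Xp f L n x) (ht : Tn' f L n x t) {α : Type} (S : Finset α) (g : α → Ω)
    (hg : ∀ a ∈ S, g a ∈ L.Ur ⊥ n) :
    T n x ((∑ a ∈ S, g a) • t) = ∑ a ∈ S, T n x (g a • t) := by
  classical
  induction S using Finset.induction_on with
  | empty =>
    rw [Finset.sum_empty, Finset.sum_empty]
    have h0 := hT.add n x ((0 : Ω) • t) ((0 : Ω) • t) hn hx (ht.smul (zero_mem _))
      (ht.smul (zero_mem _))
    rw [zero_smul, add_zero] at h0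
    rw [zero_smul]
    exact left_eq_add.1 h0
  | insert a S ha ih =>
    rw [Finset.sum_insert ha, Finset.sum_insert ha, add_smul,
      hT.add n x _ _ hn hx (ht.smul (hg a (Finset.mem_insert_self a S)))
        (ht.smul (sum_mem fun b hb => hg b (Finset.mem_insert_of_mem hb))),
      ih fun b hb => hg b (Finset.mem_insert_of_mem hb)]

/-- **The derivative and the trace to `Ur ⊥ n₁`.** Proof: for `γ` in the Galois group over `Ur ⊥ n₁` `T n x (γ a t) = T n x (a t)` (`Tp.act`); so with `n = n₁ k`: `k • T n x (a t) = T n x (Nm a t) = k • T n₁ x (Nm a t)` (`Tp.add`, `Tp.up`; `Nm` is a sum over `k` cosets);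
`B` has no torsion. -/
theorem tp_tr (hr : L.Rf ⊥ r) (hT : Tp f L ψ r nb T C) {n₁ : ℕ} (hn₁ : N0 r n₁)
    (hnn : n₁ ∣ n) (hn : n ≠ 0) {x t : Fin N → Ω} (hx : Xp f L n₁ x) (ht : Tn' f L n₁ x t)
    {a : Ω} (ha : a ∈ L.Ur ⊥ n) :
    T n x (a • t) = T n₁ x (Nm (L.Ur ⊥ n₁) (L.Ur ⊥ n) a • t) := by
  obtain ⟨k, rfl⟩ := hnn
  have hk : k ≠ 0 := by
    rintro rfl
    exact hn (mul_zero _)
  have hn' : N0 r (n₁ * k) := hn₁.mul hk
  have hfd : FiniteDimensional K (L.Ur ⊥ (n₁ * k)) := Ld.ur_fin ⊥ _ hn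
  have hle : L.Ur (⊥ : IntermediateField K Ω) n₁ ≤ L.Ur ⊥ (n₁ * k) :=
    Ld.ur_dvd ⊥ (dvd_mul_right n₁ k)
  have hx' := hx.mono (dvd_mul_right n₁ k)
  have ht' := ht.mono (dvd_mul_right n₁ k)
  have hNm := nmu_mem (L := L) (dvd_mul_right n₁ k) hn ha
  obtain ⟨s, hs, h1, -, h3⟩ := nm_rep hle
  have h4 : T (n₁ * k) x (Nm (L.Ur ⊥ n₁) (L.Ur ⊥ (n₁ * k)) a • t) =
      k • T (n₁ * k) x (a • t) := by
    have e1 : Nm (L.Ur ⊥ n₁) (L.Ur ⊥ (n₁ * k)) a = ∑ γ ∈ s, γ a := h3 Ω a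
    rw [e1, sb_sum hT hn' hx' ht' s (fun γ : Ω ≃ₐ[K] Ω => γ a) fun γ _ => act_ur γ ha]
    rw [sb_idx hr hn₁ hk] at hs
    have e0 : ∑ γ ∈ s, T (n₁ * k) x (γ a • t) = ∑ γ ∈ s, T (n₁ * k) x (a • t) := by
      refine Finset.sum_congr rfl fun γ hγ => ?_
      have hfix := (IntermediateField.mem_fixingSubgroup_iff (L.Ur ⊥ n₁) γ).1 (h1 γ hγ)
      have h5 := hT.act (n₁ * k) x (a • t) γ hn' hx' (ht'.smul ha)
      have e2 : (fun i => γ (x i)) = x := funext fun i => hfix _ (hx.iv i).1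
      have e3 : (fun i => γ ((a • t) i)) = γ a • t := funext fun i => by
        rw [Pi.smul_apply, Pi.smul_apply, smul_eq_mul, smul_eq_mul, map_mul, hfix _ (ht.mem i)]
      rw [e2, e3] at h5
      exact h5
    rw [e0, Finset.sum_const, hs]
  rw [hT.up n₁ x _ k hn₁ hx (ht.smul hNm) hk] at h4
  have h6 : (k : ℚ) • T n₁ x (Nm (L.Ur ⊥ n₁) (L.Ur ⊥ (n₁ * k)) a • t) =
      (k : ℚ) • T (n₁ * k) x (a • t) := by
    rw [Nat.cast_smul_eq_nsmul, Nat.cast_smul_eq_nsmul]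
    exact h4
  exact (smul_right_injective B (Nat.cast_ne_zero.2 hk : (k : ℚ) ≠ 0) h6).symm

end GX
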