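import Pool.Agent.Lib.MP_f80667_ag.Lc.Tb

/-!
The functionals `a ↦ T n x (a t)`.

* `vf L n`: the absolute value of `Ur ⊥ n`. `Hn L hB n`: the bounded functionals on `Ur ⊥ n`.
* `ph hB T n x t`: the functional `a ↦ T n x (a t)`.
-/

open ZC BE PE CV IntermediateField

namespace GX

variable {F : Type} [Field F] {N d m : ℕ} {ι : Type} {f : ι → MvPolynomial (Fin N) F}
  {K Ω : Type} [Field K] [CharZero K] [Field Ω] [Algebra K Ω] [Algebra F K] [Algebra F Ω]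
  [IsScalarTower F K Ω] [IsAlgClosure K Ω] {L : Ld K Ω} {π : Ω} {ψ : Fin m → Prj K N d} {r n : ℕ}
  {B : Type} [AddCommGroup B] [Module ℚ B] {nb : B → ℝ}
  {C : ℝ} {T : ℕ → (Fin N → Ω) → (Fin N → Ω) → B}

omit [CharZero K] [IsAlgClosure K Ω] in
/-- The absolute value of `Ur ⊥ n`. -/
theorem vf (L : Ld K Ω) (n : ℕ) : Vf (vn L n) where
  zero_iff a := by
    change L.nm (a : Ω) = 0 ↔ a = 0
    rw [L.zero_iff, ZeroMemClass.coe_eq_zero]
  nonneg a := L.nonneg _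
  add a b := by
    change L.nm ((a + b : ↥(L.Ur ⊥ n)) : Ω) ≤ _
    rw [AddMemClass.coe_add]
    exact L.add _ _
  mul a b := by
    change L.nm ((a * b : ↥(L.Ur ⊥ n)) : Ω) = _
    rw [MulMemClass.coe_mul]
    exact L.mul _ _

/-- The bounded functionals on `Ur ⊥ n`. -/
abbrev Hn (L : Ld K Ω) (hB : Bn L.p (L.nm (L.p : Ω)) nb) (n : ℕ) : Type := HM hB (vf L n)

open Classical in
/-- The functional `a ↦ T n x (a t)`. -/
noncomputable def ph (hB : Bn L.p (L.nm (L.p : Ω)) nb)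
    (T : ℕ → (Fin N → Ω) → (Fin N → Ω) → B) (n : ℕ) (x t : Fin N → Ω) : Hn L hB n :=
  if h : (∀ a b : ↥(L.Ur ⊥ n), T n x (((a + b : ↥(L.Ur ⊥ n)) : Ω) • t) =
      T n x ((a : Ω) • t) + T n x ((b : Ω) • t)) ∧
      ∃ C, ∀ a : ↥(L.Ur ⊥ n), nb (T n x ((a : Ω) • t)) ≤ C * vn L n a then
    HM.mk hB (vf L n) (AddMonoidHom.mk' (fun a : ↥(L.Ur ⊥ n) => T n x ((a : Ω) • t)) h.1) h.2
  else 0

private theorem ph_ok (hT : Tp f L ψ r nb T C) (hn : N0 r n)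
    {x t : Fin N → Ω} (hx : Xp f L n x) (ht : Tn' f L n x t) :
    (∀ a b : ↥(L.Ur ⊥ n), T n x (((a + b : ↥(L.Ur ⊥ n)) : Ω) • t) =
      T n x ((a : Ω) • t) + T n x ((b : Ω) • t)) ∧
      ∃ C, ∀ a : ↥(L.Ur ⊥ n), nb (T n x ((a : Ω) • t)) ≤ C * vn L n a := by
  constructor
  · intro a b
    rw [AddMemClass.coe_add, add_smul]
    exact hT.add n x _ _ hn hx (ht.smul a.2) (ht.smul b.2)
  · refine ⟨C * ∑ i, L.nm (t i), fun a => ?_⟩
    refine (hT.bd n x _ (L.nm (a : Ω) * ∑ i, L.nm (t i)) hn hx (ht.smul a.2) fun i => ?_).trans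
      (le_of_eq ?_)
    · rw [Pi.smul_apply, smul_eq_mul, L.mul]
      exact mul_le_mul_of_nonneg_left
        (Finset.single_le_sum (f := fun i => L.nm (t i)) (fun j _ => L.nonneg _)
          (Finset.mem_univ i)) (L.nonneg _)
    · unfold vn
      ring

/-- Proof: `Tp.add`, `Tp.bd` with `ρ = nm a * (the maximum of the nm (t i))`. -/
theorem ph_f (hB : Bn L.p (L.nm (L.p : Ω)) nb) (hT : Tp f L ψ r nb T C) (hn : N0 r n)
    {x t : Fin N → Ω} (hx : Xp f L n x) (ht : Tn' f L n x t) (a : ↥(L.Ur ⊥ n)) :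
    (ph hB T n x t).f a = T n x ((a : Ω) • t) := by
  unfold ph
  rw [dif_pos (ph_ok hT hn hx ht)]
  rfl

theorem ph_add (hB : Bn L.p (L.nm (L.p : Ω)) nb) (hT : Tp f L ψ r nb T C) (hn : N0 r n)
    {x t t' : Fin N → Ω} (hx : Xp f L n x) (ht : Tn' f L n x t) (ht' : Tn' f L n x t') :
    ph hB T n x (t + t') = ph hB T n x t + ph hB T n x t' := by
  refine HM.ext' fun a => ?_
  rw [HM.add_f, ph_f hB hT hn hx (ht.add ht'), ph_f hB hT hn hx ht, ph_f hB hT hn hx ht', smul_add]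
  exact hT.add n x _ _ hn hx (ht.smul a.2) (ht'.smul a.2)

theorem ph_smul (hB : Bn L.p (L.nm (L.p : Ω)) nb) (hT : Tp f L ψ r nb T C) (hn : N0 r n)
    {x t : Fin N → Ω} (hx : Xp f L n x) (ht : Tn' f L n x t) (a : ↥(L.Ur ⊥ n)) :
    ph hB T n x ((a : Ω) • t) = a • ph hB T n x t := by
  refine HM.ext' fun b => ?_
  rw [HM.smul_f, ph_f hB hT hn hx (ht.smul a.2), ph_f hB hT hn hx ht, smul_smul,
    MulMemClass.coe_mul, mul_comm]

theorem ph_hom (hB : Bn L.p (L.nm (L.p : Ω)) nb) (hf : Hm f) (hT : Tp f L ψ r nb T C)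
    (hn : N0 r n) {x t : Fin N → Ω} (hx : Xp f L n x) (ht : Tn' f L n x t) {c : Ω}
    (hc : c ∈ L.Ur ⊥ n) (hc1 : L.nm c = 1) : ph hB T n (c • x) (c • t) = ph hB T n x t := by
  have hc0 : c ≠ 0 := by
    rintro rfl
    rw [(L.zero_iff 0).2 rfl] at hc1
    exact zero_ne_one hc1
  refine HM.ext' fun a => ?_
  rw [ph_f hB hT hn (hx.smul hf hc hc1) (ht.hom hf hc hc0), ph_f hB hT hn hx ht, smul_comm]
  exact hT.smul n x _ c hn hx (ht.smul a.2) hc hc1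

theorem ph_rad (hB : Bn L.p (L.nm (L.p : Ω)) nb) (hf : Hm f) (hT : Tp f L ψ r nb T C)
    (hn : N0 r n) {x : Fin N → Ω} (hx : Xp f L n x) {c : Ω} (hc : c ∈ L.Ur ⊥ n) :
    ph hB T n x (c • x) = 0 := by
  refine HM.ext' fun a => ?_
  rw [ph_f hB hT hn hx (hx.rad hf hc), HM.zero_f, smul_smul]
  exact hT.rad n x _ hn hx (mul_mem a.2 hc)

theorem ph_bd (hB : Bn L.p (L.nm (L.p : Ω)) nb) (hT : Tp f L ψ r nb T C) (hn : N0 r n)
    {x t : Fin N → Ω} (hx : Xp f L n x) (ht : Tn' f L n x t) {ρ : ℝ} (hρ : 0 ≤ ρ)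
    (h : ∀ i, L.nm (t i) ≤ ρ) : HM.nh (ph hB T n x t) ≤ C * ρ := by
  refine HM.nh_le (mul_nonneg hT.nonneg hρ) fun a => ?_
  rw [ph_f hB hT hn hx ht]
  refine (hT.bd n x _ (L.nm (a : Ω) * ρ) hn hx (ht.smul a.2) fun i => ?_).trans (le_of_eq ?_)
  · rw [Pi.smul_apply, smul_eq_mul, L.mul]
    exact mul_le_mul_of_nonneg_left (h i) (L.nonneg _)
  · unfold vn
    ring

end GX
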