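import Pool.Agent.Lib.MP_f80667_ag.Lc.Pc
import Pool.Agent.Lib.MP_f80667_ag.Pl.L
import Pool.Agent.Lib.MP_f80667_ag.Pl.Dn

/-!
The functionals `P_j` are polynomials.

* `cv c`: a vector over `Ur ⊥ n` as a vector over `Ω`.
-/

open ZC BE PE CV IntermediateField

namespace GX

variable {F : Type} [Field F] {N d m : ℕ} {ι : Type} {f : ι → MvPolynomial (Fin N) F}
  {K Ω : Type} [Field K] [CharZero K] [Field Ω] [Algebra K Ω] [Algebra F K] [Algebra F Ω]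
  [IsScalarTower F K Ω] [IsAlgClosure K Ω] {L : Ld K Ω} {π : Ω} {ψ : Fin m → Prj K N d} {r n : ℕ}
  {B : Type} [AddCommGroup B] [Module ℚ B] {nb : B → ℝ}
  {C : ℝ} {T : ℕ → (Fin N → Ω) → (Fin N → Ω) → B} {hB : Bn L.p (L.nm (L.p : Ω)) nb}

/-- A vector over `Ur ⊥ n` as a vector over `Ω`. -/
def cv {σ : Type} (c : σ → ↥(L.Ur ⊥ n)) : σ → Ω := fun i => (c i : Ω)

/-- The norm of the functionals. -/
noncomputable def nhQ (hB : Bn L.p (L.nm (L.p : Ω)) nb) (n : ℕ) :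
    PL.Nh (PL.naL L (L.Ur ⊥ n)) (Hn L hB n) where
  n := HM.nh
  nonneg := HM.nh_nonneg
  smul := HM.nh_smul
  add := HM.nh_add
  zero h := (HM.nh_zero_iff h).1

omit [CharZero K] [IsAlgClosure K Ω] in
private theorem pe_cv {c b : Fin (d + 1) → ↥(L.Ur ⊥ n)} (z : ↥(L.Ur ⊥ n)) :
    cv (c + z • b) = cv c + (z : Ω) • cv b := by
  funext l
  rfl

omit [CharZero K] [IsAlgClosure K Ω] in
private theorem pe_iv {c : Fin (d + 1) → ↥(L.Ur ⊥ n)}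
    (h : ∀ l, (PL.naL L (L.Ur ⊥ n)).nm (c l) ≤ 1) : Iv L (L.Ur ⊥ n) (cv c) :=
  fun l => ⟨(c l).2, h l⟩

omit [CharZero K] [IsAlgClosure K Ω] in
private theorem pe_p1 : (PL.naL L (L.Ur ⊥ n)).nm ((L.p : ℕ) : ↥(L.Ur ⊥ n)) < 1 := by
  have h1 : ((((L.p : ℕ) : ↥(L.Ur ⊥ n))) : Ω) = (L.p : Ω) :=
    map_natCast (algebraMap ↥(L.Ur ⊥ n) Ω) L.p
  change L.nm ((((L.p : ℕ) : ↥(L.Ur ⊥ n))) : Ω) < 1
  rw [h1]
  exact L.lt

omit [CharZero K] [IsAlgClosure K Ω] in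
private theorem pe_ds (hψ : ∀ i, Pj f L (ψ i)) {i : Fin m} {c : Fin (d + 1) → ↥(L.Ur ⊥ n)}
    (hc : Gd L (ψ i) n (cv c)) :
    PL.Ds (PL.naL L (L.Ur ⊥ n)) ((L.p : ℕ) : ↥(L.Ur ⊥ n)) c ⊆ {c | Gd L (ψ i) n (cv c)} := by
  intro c' hc'
  have h1 : ∀ l, L.nm ((c' l : Ω) - (c l : Ω)) < 1 := fun l => lt_of_le_of_lt (hc' l) pe_p1
  have hc1 : ∀ l, L.nm (c' l : Ω) ≤ 1 := fun l => by
    have h2 := L.add ((c' l : Ω) - (c l : Ω)) (c l : Ω)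
    rw [sub_add_cancel] at h2
    exact h2.trans (max_le (h1 l).le (hc.iv l).2)
  refine ⟨fun l => ⟨(c' l).2, hc1 l⟩, (hψ i).D_close (fun l => (hc.iv l).2) hc1 (fun l => ?_) hc.dv⟩
  have h3 := h1 l
  rwa [L.sub_comm] at h3

/-- **The `P_j` are polynomials.** Proof: `PL.Lb.polyE` for `S` the set of the `c` with `Gd L (ψ i) n (cv c)`, `ϖ = p`, `D = j`: `pn_add`, `pn_smul`, `pn_line`, `pn_bd`; `PL.dn_ur`; `Pj.D_close`. -/
theorem pn_poly (hψ : ∀ i, Pj f L (ψ i)) (hr : L.Rf ⊥ r) (hT : Tp f L ψ r nb T C)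
    (hK : PL.DnK L) (hn : N0 r n) (i : Fin m) (j : ℕ) :
    ∃ (E : Finset (Fin (d + 1) →₀ ℕ)) (w : Fin (d + 1) → (Fin (d + 1) →₀ ℕ) → Hn L hB n),
      ∀ c x : Fin (d + 1) → ↥(L.Ur ⊥ n), Gd L (ψ i) n (cv c) →
        Pn hB T (ψ i) n j (cv c) (cv x) =
          ∑ l, ∑ e ∈ E, (x l * ∏ k, c k ^ e k) • w l e := by
  classical
  have : CharZero Ω := charZero_of_injective_algebraMap (algebraMap K Ω).injective
  have hD := PL.dn_ur hK hn.1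
  have hp0 : ((L.p : ℕ) : ↥(L.Ur ⊥ n)) ≠ 0 := Nat.cast_ne_zero.2 L.pp.ne_zero
  have hL : PL.Lb (nhQ hB n) {c : Fin (d + 1) → ↥(L.Ur ⊥ n) | Gd L (ψ i) n (cv c)} j
      (fun c x => Pn hB T (ψ i) n j (cv c) (cv x)) := by
    refine ⟨fun c hc x y => ?_, fun c hc a x => ?_, fun c hc b hb => ?_, ?_⟩
    · exact pn_add hψ hr hT hn hc (fun l => (x l).2) (fun l => (y l).2) j
    · exact pn_smul hψ hr hT hn hc (fun l => (x l).2) a j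
    · obtain ⟨q, hq⟩ := pn_line (hB := hB) hψ hr hT hn (i := i) hc.iv (pe_iv hb) j
      refine ⟨q, fun z hz hzS => ?_⟩
      have hzS' : Gd L (ψ i) n (cv (c + z • b)) := hzS
      have h1 := hzS'.dv
      change Pn hB T (ψ i) n j (cv (c + z • b)) (cv b) = PL.pe j q z
      rw [pe_cv] at h1 ⊢
      exact hq z hz h1
    · obtain ⟨D, hD'⟩ := pn_bd (hB := hB) hψ hr hT hn i j
      exact ⟨D, fun c hc x hx => hD' (cv c) (cv x) hc (pe_iv hx)⟩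
  obtain ⟨E, w, hw⟩ := hL.polyE hD hp0 pe_p1 (fun c hc l => (hc.iv l).2)
    fun c hc => pe_ds hψ hc
  exact ⟨E, w, fun c x hc => hw c hc x⟩

end GX
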