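import Pool.Agent.Lib.MP_f80667_ag.Lc.A
import Pool.Agent.Lib.MP_f80667_ag.Pe.Ld

/-!
The absolute value of `ℚ_p` normalized by `nm p`.
-/

open ZC BE PE

namespace GX

private theorem bn_add {p : ℕ} [Fact p.Prime] {τ : ℝ} (hτ : 0 < τ) (b b' : ℚ_[p]) :
    ‖b + b'‖ ^ τ ≤ max (‖b‖ ^ τ) (‖b'‖ ^ τ) := by
  have h1 : ‖b + b'‖ ≤ max ‖b‖ ‖b'‖ := Padic.nonarchimedean b b'
  rcases le_total ‖b‖ ‖b'‖ with h | h
  · rw [max_eq_right h] at h1
    exact (Real.rpow_le_rpow (norm_nonneg _) h1 hτ.le).trans (le_max_right _ _)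
  · rw [max_eq_left h] at h1
    exact (Real.rpow_le_rpow (norm_nonneg _) h1 hτ.le).trans (le_max_left _ _)

private theorem bn_lim {p : ℕ} [Fact p.Prime] {τ q : ℝ} (hτ : 0 < τ) (h0 : 0 < q) (h1 : q < 1)
    (C : ℝ) (u : ℕ → ℚ_[p]) (hu : ∀ k, ‖u (k + 1) - u k‖ ^ τ ≤ C * q ^ k) :
    ∃ b, ∀ k, ‖u k - b‖ ^ τ ≤ C * q ^ k := by
  have hC : 0 ≤ C := by
    have h2 := hu 0
    rw [pow_zero, mul_one] at h2
    exact (Real.rpow_nonneg (norm_nonneg _) _).trans h2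
  have hr0 : 0 ≤ q ^ (τ⁻¹ : ℝ) := Real.rpow_nonneg h0.le _
  have hr1 : q ^ (τ⁻¹ : ℝ) < 1 := Real.rpow_lt_one h0.le h1 (inv_pos.2 hτ)
  have hd : ∀ k, dist (u k) (u (k + 1)) ≤ C ^ (τ⁻¹ : ℝ) * (q ^ (τ⁻¹ : ℝ)) ^ k := by
    intro k
    rw [dist_comm, dist_eq_norm]
    have h3 : ‖u (k + 1) - u k‖ = (‖u (k + 1) - u k‖ ^ τ) ^ (τ⁻¹ : ℝ) := by
      rw [← Real.rpow_mul (norm_nonneg _), mul_inv_cancel₀ hτ.ne', Real.rpow_one]
    rw [h3]
    refine (Real.rpow_le_rpow (Real.rpow_nonneg (norm_nonneg _) _) (hu k)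
      (inv_pos.2 hτ).le).trans (le_of_eq ?_)
    rw [Real.mul_rpow hC (pow_nonneg h0.le _)]
    congr 1
    rw [← Real.rpow_natCast, ← Real.rpow_mul h0.le, ← Real.rpow_natCast, ← Real.rpow_mul h0.le,
      mul_comm]
  obtain ⟨b, hb⟩ := cauchySeq_tendsto_of_complete (cauchySeq_of_le_geometric _ _ hr1 hd)
  have hkm : ∀ k m, ‖u k - u (k + m)‖ ^ τ ≤ C * q ^ k := by
    intro k m
    induction m with
    | zero =>
      rw [add_zero, sub_self, norm_zero, Real.zero_rpow hτ.ne']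
      exact mul_nonneg hC (pow_nonneg h0.le _)
    | succ m ih =>
      have h4 : u k - u (k + (m + 1)) = (u k - u (k + m)) + (u (k + m) - u (k + m + 1)) := by
        rw [← add_assoc]
        ring
      rw [h4]
      refine (bn_add hτ _ _).trans (max_le ih ?_)
      rw [norm_sub_rev]
      refine (hu (k + m)).trans (mul_le_mul_of_nonneg_left ?_ hC)
      exact pow_le_pow_of_le_one h0.le h1.le (Nat.le_add_right _ _)
  refine ⟨b, fun k => ?_⟩
  have h5 : Filter.Tendsto (fun m => ‖u k - u (k + m)‖ ^ τ) Filter.atTop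
      (nhds (‖u k - b‖ ^ τ)) := by
    have h6 : Filter.Tendsto (fun m => u (k + m)) Filter.atTop (nhds b) := by
      have h7 := (Filter.tendsto_add_atTop_iff_nat k).2 hb
      refine h7.congr fun m => ?_
      rw [add_comm]
    have h8 := (tendsto_const_nhds (x := u k)).sub h6
    exact h8.norm.rpow_const (Or.inr hτ.le)
  exact le_of_tendsto' h5 (hkm k)

/-- Proof: `nb b = ‖b‖ ^ τ` (`Real.rpow`), `τ = - log q / log p > 0`: `nb p = p ^ (-τ) = q`. `lim`: `‖u (k + 1) - u k‖ ≤ (C ^ (1 / τ)) (p ^ (-1)) ^ k`, complete. -/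
theorem exists_bn (p : ℕ) [Fact p.Prime] {q : ℝ} (h0 : 0 < q) (h1 : q < 1) :
    ∃ nb : ℚ_[p] → ℝ, Bn p q nb ∧
      ∀ (b : ℚ_[p]) (k : ℕ), ‖b‖ ≤ (p : ℝ) ^ (-(k : ℤ)) → nb b ≤ q ^ k := by
  have hp : 1 < (p : ℝ) := by exact_mod_cast (Fact.out : p.Prime).one_lt
  have hp0 : 0 < (p : ℝ) := lt_trans one_pos hp
  have hlp : 0 < Real.log p := Real.log_pos hp
  have hlq : Real.log q < 0 := Real.log_neg h0 h1
  obtain ⟨τ, hτdef⟩ : ∃ τ : ℝ, τ = -Real.log q / Real.log p := ⟨_, rfl⟩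
  have hτ : 0 < τ := by
    rw [hτdef]
    exact div_pos (neg_pos.2 hlq) hlp
  have hq : ((p : ℝ)⁻¹) ^ τ = q := by
    rw [Real.rpow_def_of_pos (inv_pos.2 hp0), Real.log_inv, hτdef]
    have h2 : -Real.log p * (-Real.log q / Real.log p) = Real.log q := by
      field_simp
    rw [h2, Real.exp_log h0]
  refine ⟨fun b => ‖b‖ ^ τ, ⟨Fact.out, h0, h1, ?_, ?_, ?_, ?_, ?_, ?_, ?_⟩, ?_⟩
  · intro b
    rw [Real.rpow_eq_zero (norm_nonneg _) hτ.ne', norm_eq_zero]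
  · intro b
    exact Real.rpow_nonneg (norm_nonneg _) _
  · exact bn_add hτ
  · intro b
    simp only [norm_neg]
  · intro b
    simp only [nsmul_eq_mul, norm_mul, Padic.norm_p]
    rw [Real.mul_rpow (inv_nonneg.2 hp0.le) (norm_nonneg _), hq]
  · intro k b hk
    have h3 : ‖((k : ℕ) : ℚ_[p])‖ = 1 := by
      rw [Padic.norm_natCast_eq_one_iff]
      exact ((Nat.Prime.coprime_iff_not_dvd Fact.out).2 hk)
    simp only [nsmul_eq_mul, norm_mul, h3, one_mul]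
  · intro C u hu
    exact bn_lim hτ h0 h1 C u hu
  · intro b k hb
    refine (Real.rpow_le_rpow (norm_nonneg _) hb hτ.le).trans (le_of_eq ?_)
    rw [zpow_neg, zpow_natCast, ← inv_pow, ← Real.rpow_natCast, ← Real.rpow_mul
      (inv_nonneg.2 hp0.le), mul_comm, Real.rpow_mul (inv_nonneg.2 hp0.le), hq,
      Real.rpow_natCast]

end GX
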