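import Pool.Agent.Lib.MP_f80667_ag.Lc.Pa

/-!
Good points.

* `Gnr L ψ`: for every projection there is a point in the residue space such that all points of the variety over it are good for all projections.
* `Bx L ψ n`: the same over `Ur ⊥ n`.
-/

open ZC BE PE CV IntermediateField

namespace GX

variable {F : Type} [Field F] {N d m : ℕ} {ι : Type} {f : ι → MvPolynomial (Fin N) F}
  {K Ω : Type} [Field K] [CharZero K] [Field Ω] [Algebra K Ω] [Algebra F K] [Algebra F Ω]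
  [IsScalarTower F K Ω] [IsAlgClosure K Ω] {L : Ld K Ω} {π : Ω} {ψ : Fin m → Prj K N d} {r n : ℕ}
  {B : Type} [AddCommGroup B] [Module ℚ B] {nb : B → ℝ}
  {C : ℝ} {T : ℕ → (Fin N → Ω) → (Fin N → Ω) → B} {hB : Bn L.p (L.nm (L.p : Ω)) nb}

/-- For every projection there is a point `c` such that all points over it are good for all projections. -/
def Gnr (L : Ld K Ω) (ψ : Fin m → Prj K N d) : Prop :=
  ∀ i, ∃ c : Fin (d + 1) → Ω, (∀ l, L.nm (c l) ≤ 1) ∧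
    L.nm (MvPolynomial.aeval c (ψ i).D) = 1 ∧ ∀ w, pe c w (ψ i).G = 0 →
      ∀ i', L.nm (MvPolynomial.aeval ((ψ i').uv (((ψ i).om Ω).pt c w)) (ψ i').D) = 1

/-- The same over `Ur ⊥ n`. -/
def Bx (L : Ld K Ω) (ψ : Fin m → Prj K N d) (n : ℕ) : Prop :=
  ∀ i, ∃ c : Fin (d + 1) → Ω, Gd L (ψ i) n c ∧ ∀ w, pe c w (ψ i).G = 0 → w ∈ L.Ur ⊥ n ∧
    ∀ i', L.nm (MvPolynomial.aeval ((ψ i').uv (((ψ i).om Ω).pt c w)) (ψ i').D) = 1

omit [CharZero K] [IsAlgClosure K Ω] in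
private theorem bx_one {n' : ℕ} (hn : n ∣ n') {i : Fin m}
    (h : ∃ c : Fin (d + 1) → Ω, Gd L (ψ i) n c ∧ ∀ w, pe c w (ψ i).G = 0 → w ∈ L.Ur ⊥ n ∧
      ∀ i', L.nm (MvPolynomial.aeval ((ψ i').uv (((ψ i).om Ω).pt c w)) (ψ i').D) = 1) :
    ∃ c : Fin (d + 1) → Ω, Gd L (ψ i) n' c ∧ ∀ w, pe c w (ψ i).G = 0 → w ∈ L.Ur ⊥ n' ∧
      ∀ i', L.nm (MvPolynomial.aeval ((ψ i').uv (((ψ i).om Ω).pt c w)) (ψ i').D) = 1 := by
  obtain ⟨c, hc, hw⟩ := h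
  have hle : L.Ur ⊥ n ≤ L.Ur ⊥ n' := Ld.ur_dvd ⊥ hn
  exact ⟨c, ⟨fun l => ⟨hle (hc.iv l).1, (hc.iv l).2⟩, hc.dv⟩, fun w h1 =>
    ⟨hle (hw w h1).1, (hw w h1).2⟩⟩

omit [CharZero K] [IsAlgClosure K Ω] in
theorem Bx.mono (h : Bx L ψ n) {n' : ℕ} (hn : n ∣ n') : Bx L ψ n' := fun i => bx_one hn (h i)

omit [CharZero K] [IsAlgClosure K Ω] in
private theorem bx_zero (x : Ω) : x ∈ L.Ur ⊥ 0 := by
  refine Ld.te_ur ?_
  change x ^ L.p ^ 0 = x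
  rw [pow_zero, pow_one]

/-- Proof: for every `i` approximate the coordinates of `c` by elements of `Te N'` (`Ld.te_rep`): `c'`; `rt_disc` with `n = 0` (`Ur ⊥ 0 = ⊤`, since `Te 0` is everything) for `c`, `c'`; `rt_ur`: the roots over `c'` are over
`Ur ⊥ (N' r kd)`; the product over `i` (`Bx.mono`). -/
theorem exists_bx (hψ : ∀ i, Pj f L (ψ i)) (hr : L.Rf ⊥ r) (h : Gnr L ψ) :
    ∃ n, N0 r n ∧ Bx L ψ n := by
  have key : ∀ i, ∃ n, N0 r n ∧ ∃ c : Fin (d + 1) → Ω, Gd L (ψ i) n c ∧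
      ∀ w, pe c w (ψ i).G = 0 → w ∈ L.Ur ⊥ n ∧
        ∀ i', L.nm (MvPolynomial.aeval ((ψ i').uv (((ψ i).om Ω).pt c w)) (ψ i').D) = 1 := by
    intro i
    obtain ⟨c, hc1, hcD, hcw⟩ := h i
    choose Nf hN0 z hz hcz using fun l => Ld.te_rep (L := L) (hc1 l)
    have hP : ∏ l, Nf l ≠ 0 := Finset.prod_ne_zero_iff.2 fun l _ => hN0 l
    have hn : N0 r ((∏ l, Nf l) * r) := ⟨mul_ne_zero hP hr.ne, dvd_mul_left _ _⟩
    have hzn : ∀ l, z l ∈ L.Te ((∏ l, Nf l) * r) := fun l =>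
      Ld.te_dvd ((Finset.dvd_prod_of_mem Nf (Finset.mem_univ l)).trans (dvd_mul_right _ _)) (hz l)
    have hz1 : ∀ l, L.nm (z l) ≤ 1 := fun l => Ld.te_int (hN0 l) (hz l)
    have hzU : Iv L (L.Ur ⊥ ((∏ l, Nf l) * r)) z := fun l => ⟨Ld.te_ur (hzn l), hz1 l⟩
    have hzD : L.nm (MvPolynomial.aeval z (ψ i).D) = 1 := (hψ i).D_close hc1 hz1 hcz hcD
    have hle : L.Ur ⊥ ((∏ l, Nf l) * r) ≤ L.Ur ⊥ ((∏ l, Nf l) * r * kd (ψ i)) :=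
      Ld.ur_dvd ⊥ (dvd_mul_right _ _)
    refine ⟨(∏ l, Nf l) * r * kd (ψ i), hn.mul (kd_ne (ψ i)), z,
      ⟨fun l => ⟨hle (hzU l).1, hz1 l⟩, hzD⟩, fun w hw => ⟨rt_ur (hψ i) hr hn hzU hzD hw, ?_⟩⟩
    exact (rt_disc (n := 0) (hψ i) hψ (fun l => ⟨bx_zero _, hc1 l⟩) (fun l => ⟨bx_zero _, hz1 l⟩)
      hcD (fun l => by rw [L.sub_comm]; exact hcz l)
      (fun w h1 => ⟨bx_zero _, hcw w h1⟩) hw).2
  choose nf hnf hbf using key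
  have hP : ∏ i, nf i ≠ 0 := Finset.prod_ne_zero_iff.2 fun i _ => (hnf i).1
  refine ⟨(∏ i, nf i) * r, ⟨mul_ne_zero hP hr.ne, dvd_mul_left _ _⟩, fun i => ?_⟩
  exact bx_one ((Finset.dvd_prod_of_mem nf (Finset.mem_univ i)).trans (dvd_mul_right _ _)) (hbf i)

end GX
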