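import Pool.Agent.Lib.MP_f80667_ag.Lc.Pe
import Pool.Agent.Lib.MP_f80667_ag.Lc.Bx
import Pool.Agent.Lib.MP_f80667_ag.Lc.Eb

/-!
Linear forms of the functionals are global forms.
-/

open ZC BE PE CV IntermediateField

namespace GX

variable {F : Type} [Field F] {N d m : ℕ} {ι : Type} {f : ι → MvPolynomial (Fin N) F}
  {K Ω : Type} [Field K] [CharZero K] [Field Ω] [Algebra K Ω] [Algebra F K] [Algebra F Ω]
  [IsScalarTower F K Ω] [IsAlgClosure K Ω] {L : Ld K Ω} {π : Ω} {ψ : Fin m → Prj K N d} {r n : ℕ}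
  {B : Type} [AddCommGroup B] [Module ℚ B] {nb : B → ℝ}
  {C : ℝ} {T : ℕ → (Fin N → Ω) → (Fin N → Ω) → B} {hB : Bn L.p (L.nm (L.p : Ω)) nb}

omit [CharZero K] [IsAlgClosure K Ω] in
private theorem fx_bt {ψ : Prj K N d} {M : IntermediateField K Ω} {c : Fin (d + 1) → Ω} {w : Ω}
    (hc : ∀ r, c r ∈ M) (hw : w ∈ M) (j : ℕ) : pe c w ((ψ.om Ω).bt j) ∈ M := by
  rw [Prj.bt, map_sum]
  refine sum_mem fun k _ => ?_
  rw [map_mul, map_pow, pe_C, pe_X]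
  refine mul_mem ?_ (pow_mem hw k)
  change MvPolynomial.aeval c
    ((ψ.G.map (MvPolynomial.map (algebraMap K Ω))).coeff (j + 1 + k)) ∈ M
  rw [Polynomial.coeff_map, MvPolynomial.aeval_map_algebraMap]
  exact aev_mem _ hc

omit [CharZero K] [IsAlgClosure K Ω] in
private theorem fx_int (ξ : Fin (d + 1) → Ω) :
    ∃ k : ℕ, ∀ l, L.nm ((L.p : Ω) ^ k * ξ l) ≤ 1 := by
  have h0 : 0 ≤ ∑ l, L.nm (ξ l) := Finset.sum_nonneg fun l _ => L.nonneg _
  have h1 : 0 < 1 + ∑ l, L.nm (ξ l) := by linarith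
  obtain ⟨k, hk⟩ := exists_pow_lt_of_lt_one (inv_pos.2 h1) L.lt
  refine ⟨k, fun l => ?_⟩
  rw [L.mul, L.pow]
  have h2 : L.nm (ξ l) ≤ 1 + ∑ l, L.nm (ξ l) := by
    have h3 := Finset.single_le_sum (fun l _ => L.nonneg (ξ l)) (Finset.mem_univ l)
      (f := fun l => L.nm (ξ l))
    linarith
  calc L.nm (L.p : Ω) ^ k * L.nm (ξ l)
      ≤ (1 + ∑ l, L.nm (ξ l))⁻¹ * (1 + ∑ l, L.nm (ξ l)) :=
        mul_le_mul hk.le h2 (L.nonneg _) (inv_nonneg.2 h1.le)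
    _ = 1 := inv_mul_cancel₀ h1.ne'

private theorem fx_zero (hψ : ∀ i, Pj f L (ψ i)) (hr : L.Rf ⊥ r) (hT : Tp f L ψ r nb T C)
    (hn : N0 r n) {i : Fin m} {c ξ : Fin (d + 1) → Ω} (hc : Gd L (ψ i) n c)
    (hξ : ∀ l, ξ l ∈ L.Ur ⊥ n) : Pn hB T (ψ i) n 0 c ξ = 0 := by
  obtain ⟨k, hk⟩ := fx_int (L := L) ξ
  have hp : (L.p : Ω) ^ k ∈ L.Ur (⊥ : IntermediateField K Ω) n :=
    pow_mem (_root_.natCast_mem (L.Ur (⊥ : IntermediateField K Ω) n) L.p) k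
  have h1 := pn_smul (hB := hB) hψ hr hT hn hc hξ ⟨(L.p : Ω) ^ k, hp⟩ 0
  have h2 : Pn hB T (ψ i) n 0 c ((L.p : Ω) ^ k • ξ) = 0 :=
    pn_zero hψ hr hT hn hc fun l => ⟨mul_mem hp (hξ l), hk l⟩
  have h3 : (⟨(L.p : Ω) ^ k, hp⟩ : ↥(L.Ur (⊥ : IntermediateField K Ω) n)) ≠ 0 := by
    intro h
    have h4 : (L.p : Ω) ^ k = 0 := congrArg Subtype.val h
    have h5 : (L.p : K) ≠ 0 := Nat.cast_ne_zero.2 L.pp.ne_zero
    have h6 : (L.p : Ω) ≠ 0 := by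
      rw [← map_natCast (algebraMap K Ω)]
      exact (_root_.map_ne_zero _).2 h5
    exact pow_ne_zero k h6 h4
  have h7 := h1.symm.trans h2
  exact (smul_eq_zero.1 h7).resolve_left h3

/-- The polynomials of a linear form. Proof: `pn_poly`: `P i j l = ∑ e ∈ E, C (θ (w l e)) * monomial e` for `0 < j < natDegree`, `0` otherwise; `pn_zero` for `j = 0` (vectors `ξ` which are not integral: `pn_smul`). -/
theorem exists_pv (hψ : ∀ i, Pj f L (ψ i)) (hr : L.Rf ⊥ r) (hT : Tp f L ψ r nb T C)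
    (hK : PL.DnK L) (hn : N0 r n) (θ : Hn L hB n →ₗ[↥(L.Ur ⊥ n)] ↥(L.Ur ⊥ n)) :
    ∃ P : Pv Ω m d, (∀ i l, P i 0 l = 0) ∧
      (∀ i j l, ((ψ i).om Ω).G.natDegree ≤ j → P i j l = 0) ∧
      ∀ i j, j < ((ψ i).om Ω).G.natDegree → ∀ c ξ, Gd L (ψ i) n c →
        (∀ l, ξ l ∈ L.Ur ⊥ n) →
          ∑ l, MvPolynomial.eval c (P i j l) * ξ l = (θ (Pn hB T (ψ i) n j c ξ) : Ω) := by
  have H := fun (i : Fin m) (j : ℕ) => pn_poly (hB := hB) hψ hr hT hK hn i j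
  choose E w hw using H
  refine ⟨fun i j l => if 0 < j ∧ j < ((ψ i).om Ω).G.natDegree then
    ∑ e ∈ E i j, MvPolynomial.monomial e ((θ (w i j l e) : ↥(L.Ur ⊥ n)) : Ω) else 0,
    fun i l => if_neg fun h => lt_irrefl _ h.1, fun i j l hj => if_neg fun h => by omega, ?_⟩
  intro i j hj c ξ hc hξ
  rcases Nat.eq_zero_or_pos j with rfl | hj0
  · rw [fx_zero hψ hr hT hn hc hξ, map_zero, ZeroMemClass.coe_zero]
    refine Finset.sum_eq_zero fun l _ => ?_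
    beta_reduce
    rw [if_neg fun h => lt_irrefl _ h.1, map_zero, zero_mul]
  · have h1 : Pn hB T (ψ i) n j c ξ = ∑ l, ∑ e ∈ E i j,
        ((⟨ξ l, hξ l⟩ : ↥(L.Ur ⊥ n)) * ∏ k, (⟨c k, (hc.iv k).1⟩ : ↥(L.Ur ⊥ n)) ^ e k) •
          w i j l e := hw i j (fun l => ⟨c l, (hc.iv l).1⟩) (fun l => ⟨ξ l, hξ l⟩) hc
    rw [h1, map_sum, AddSubmonoidClass.coe_finsetSum]
    refine Finset.sum_congr rfl fun l _ => ?_
    beta_reduce
    rw [if_pos ⟨hj0, hj⟩, map_sum, Finset.sum_mul, map_sum, AddSubmonoidClass.coe_finsetSum]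
    refine Finset.sum_congr rfl fun e _ => ?_
    rw [MvPolynomial.eval_monomial, map_smul, smul_eq_mul, MulMemClass.coe_mul,
      MulMemClass.coe_mul, SubmonoidClass.coe_finsetProd,
      Finsupp.prod_fintype _ _ fun k => pow_zero _]
    simp only [SubmonoidClass.coe_pow]
    ring

/-- The value of the form. Proof: `Xp.uv`, `Tn'.uv`, `pn_rec` for `c = u (x)`, `w₀ = y (x)`, `ξ = u (t)`; `θ` is linear; `om_uv`, `om_yv`. -/
theorem pv_ev (hψ : ∀ i, Pj f L (ψ i)) (hr : L.Rf ⊥ r) (hT : Tp f L ψ r nb T C)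
    (hn : N0 r n) (θ : Hn L hB n →ₗ[↥(L.Ur ⊥ n)] ↥(L.Ur ⊥ n)) {P : Pv Ω m d}
    (hP : ∀ i j, j < ((ψ i).om Ω).G.natDegree → ∀ c ξ, Gd L (ψ i) n c →
      (∀ l, ξ l ∈ L.Ur ⊥ n) →
        ∑ l, MvPolynomial.eval c (P i j l) * ξ l = (θ (Pn hB T (ψ i) n j c ξ) : Ω))
    {x t : Fin N → Ω} (hx : Xp f L n x) (ht : Tn' f L n x t) {i : Fin m}
    (hD : L.nm (MvPolynomial.aeval ((ψ i).uv x) (ψ i).D) = 1) :
    ((ψ i).om Ω).ev (P i) x t = ((ψ i).om Ω).gy x * (θ (ph hB T n x t) : Ω) := by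
  obtain ⟨h1, h2, h3, h4⟩ := hx.uv (hψ i) hD
  obtain ⟨h5, h6⟩ := ht.uv (hψ i) hD
  have hgd : Gd L (ψ i) n ((ψ i).uv x) := ⟨h1, hD⟩
  have hgm : pe ((ψ i).uv x) ((ψ i).yv x) (Polynomial.derivative ((ψ i).om Ω).G) ∈
      L.Ur ⊥ n := by
    rw [om_dG]
    exact pe_mem _ (fun r => (h1 r).1) h2
  have hrec := pn_rec (hB := hB) hψ hr hT hn hgd h5 h2 h3
    (β := fun j => ⟨pe ((ψ i).uv x) ((ψ i).yv x) (((ψ i).om Ω).bt j),
      fx_bt (fun r => (h1 r).1) h2 j⟩) (fun j => rfl) (g := ⟨_, hgm⟩) rfl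
  rw [h4, h6] at hrec
  have h7 := congrArg (fun φ => ((θ φ : ↥(L.Ur ⊥ n)) : Ω)) hrec
  simp only [map_sum, map_smul, smul_eq_mul, MulMemClass.coe_mul,
    AddSubmonoidClass.coe_finsetSum] at h7
  rw [Prj.ev, Prj.gy, om_uv, om_yv, om_uv, ← h7]
  refine Finset.sum_congr rfl fun j hj => ?_
  rw [hP i j (Finset.mem_range.1 hj) _ _ hgd h5]

omit [CharZero K] [IsAlgClosure K Ω] in
private theorem lcf_uv (i : Fin m) (x : Fin N → Ω) (s : Ω) :
    (ψ i).uv (s • x) = s • (ψ i).uv x :=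
  uv_smul (ψ i) x s

omit [CharZero K] [IsScalarTower F K Ω] [IsAlgClosure K Ω] in
private theorem lcf_ds (hψ : ∀ i, Pj f L (ψ i)) (i : Fin m) : ∃ e : ℕ,
    ∀ (c : Fin (d + 1) → Ω) (s : Ω), MvPolynomial.aeval (s • c) (ψ i).D =
      s ^ e * MvPolynomial.aeval c (ψ i).D := by
  obtain ⟨e, -, he⟩ := (hψ i).homD
  exact ⟨e, fun c s => aeval_smul_hom he c s⟩

omit [CharZero K] [IsScalarTower F K Ω] [IsAlgClosure K Ω] in
/-- A multiple of a good point by a unit is good. -/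
private theorem lcf_gd (hψ : ∀ i, Pj f L (ψ i)) {i : Fin m} {c : Fin (d + 1) → Ω}
    (hc : Gd L (ψ i) n c) {s : Ω} (hs : s ∈ L.Ur ⊥ n) (hs1 : L.nm s = 1) :
    Gd L (ψ i) n (s • c) := by
  refine ⟨fun l => ⟨mul_mem hs (hc.iv l).1, ?_⟩, ?_⟩
  · rw [Pi.smul_apply, smul_eq_mul, L.mul, hs1, one_mul]
    exact (hc.iv l).2
  · obtain ⟨e, he⟩ := lcf_ds hψ i
    rw [he, L.mul, L.pow, hs1, one_pow, one_mul]
    exact hc.dv

omit [IsAlgClosure K Ω] in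
/-- The powers of `p` are different. -/
private theorem lcf_pow (L : Ld K Ω) {k l : ℕ} (h : (L.p : Ω) ^ k = (L.p : Ω) ^ l) : k = l := by
  have h1 : L.nm (L.p : Ω) ^ k = L.nm (L.p : Ω) ^ l := by
    rw [← L.pow, ← L.pow, h]
  exact pow_right_injective₀ L.p_pos L.lt.ne h1

omit [CharZero K] [IsAlgClosure K Ω] in
private theorem lcf_lt (L : Ld K Ω) (k : ℕ) : L.nm ((L.p : Ω) ^ (k + 1)) < 1 := by
  rw [L.pow]
  exact pow_lt_one₀ (L.nonneg _) L.lt (Nat.succ_ne_zero k)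

omit [CharZero K] [IsAlgClosure K Ω] in
private theorem lcf_pm (L : Ld K Ω) (n k : ℕ) :
    (L.p : Ω) ^ k ∈ L.Ur (⊥ : IntermediateField K Ω) n :=
  pow_mem (_root_.natCast_mem (L.Ur (⊥ : IntermediateField K Ω) n) L.p) k

/-- The points over `Ur ⊥ n` congruent to `c`. -/
private def lcf_z (L : Ld K Ω) (n : ℕ) (c : Fin (d + 1) → Ω) : Set (Fin (d + 1) → Ω) :=
  {c' | Iv L (L.Ur ⊥ n) c' ∧ ∀ l, L.nm (c' l - c l) < 1}

omit [IsAlgClosure K Ω] in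
/-- A polynomial which is `0` at the points congruent to `c` is `0`. -/
private theorem lcf_dens {c : Fin (d + 1) → Ω} (hc : Iv L (L.Ur ⊥ n) c)
    (q : MvPolynomial (Fin (d + 1)) Ω)
    (h : ∀ c' ∈ lcf_z L n c, MvPolynomial.eval c' q = 0) : q = 0 := by
  refine MvPolynomial.funext_set
    (fun l => {a : Ω | (a ∈ L.Ur ⊥ n ∧ L.nm a ≤ 1) ∧ L.nm (a - c l) < 1}) (fun l => ?_)
    fun x hx => ?_
  · have hinj : Function.Injective fun k : ℕ => c l + (L.p : Ω) ^ (k + 1) := by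
      intro k k' hk
      have h1 := lcf_pow L (add_left_cancel hk)
      omega
    refine (Set.infinite_range_of_injective hinj).mono ?_
    rintro _ ⟨k, rfl⟩
    refine ⟨⟨add_mem (hc l).1 (lcf_pm L n (k + 1)), (L.add _ _).trans
      (max_le (hc l).2 (lcf_lt L k).le)⟩, ?_⟩
    rw [add_sub_cancel_left]
    exact lcf_lt L k
  · rw [map_zero]
    refine h x ⟨fun l => ?_, fun l => ?_⟩
    · exact (hx l (Set.mem_univ l)).1
    · exact (hx l (Set.mem_univ l)).2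

omit [CharZero K] [IsScalarTower F K Ω] [IsAlgClosure K Ω] in
/-- The projections cover the variety. -/
private theorem lcf_cov (hf : Hm f) (hψ : ∀ i, Pj f L (ψ i)) (hc : Cvr f L ψ)
    {x : Fin N → Ω} (hx : Zp (fo f Ω) x) :
    ∃ i, MvPolynomial.eval (((ψ i).om Ω).uv x) ((ψ i).om Ω).D ≠ 0 := by
  obtain ⟨j₀, hj₀⟩ : ∃ j, x j ≠ 0 := by
    by_contra hcon
    push Not at hcon
    exact hx.1 (funext hcon)
  obtain ⟨j, -, hj⟩ := Finset.exists_max_image Finset.univ (fun j => L.nm (x j))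
    ⟨j₀, Finset.mem_univ _⟩
  have hxj : x j ≠ 0 := by
    intro h0
    have h1 := hj j₀ (Finset.mem_univ _)
    rw [h0, L.zero] at h1
    exact hj₀ ((L.zero_iff _).1 (le_antisymm h1 (L.nonneg _)))
  have hpos : 0 < L.nm (x j) := L.pos hxj
  have hinv : L.nm (x j)⁻¹ * L.nm (x j) = 1 := by
    rw [← L.mul, inv_mul_cancel₀ hxj, L.one]
  have hz := om_zp.1 (zp_smul (om_hom hf) hx (inv_ne_zero hxj))
  obtain ⟨i, hi⟩ := hc ((x j)⁻¹ • x) (fun l => by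
      rw [Pi.smul_apply, smul_eq_mul, L.mul, ← hinv]
      exact mul_le_mul_of_nonneg_left (hj l (Finset.mem_univ _)) (L.nonneg _))
    ⟨j, by rw [Pi.smul_apply, smul_eq_mul, L.mul, hinv]⟩ fun l => by
      rw [hz.2 l, L.zero]
      exact zero_lt_one
  refine ⟨i, fun h0 => ?_⟩
  rw [om_uv, om_D] at h0
  obtain ⟨e, he⟩ := lcf_ds hψ i
  rw [lcf_uv, he, h0, mul_zero, L.zero] at hi
  exact zero_ne_one hi

/-- **Linear forms of the functionals are global forms.** Proof: `exists_pv`; `frm_of` for the equations `fo f Ω`, the projections `(ψ i).om Ω` (`Pj.ok`), `Z i` = the `c'` over `Ur ⊥ n`, congruent to the point `c` of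
`Bx` for `i` (a polynomial which is `0` on `c + p O ^ (d + 1)` is `0`: `MvPolynomial.funext_set` or `exists_pt`); `hc`: `Cvr` for primitive coordinates (`zp_smul`); `Φ x t = θ (ph n x t)`; `h1`: `rt_disc`, `xp_pt`, `tn_lt`, `pv_ev`;
`h2`: `pv_ev`, `ph_rad`; `U` = the units of `Ur ⊥ n` (`1 + p ^ k`), `h3`: `pn_hom`, `pn_smul`. Then for `x`, `t` over `Ur ⊥ n` a good projection (`Xp.chart`), `pv_ev`, `gy ≠ 0` (`Prj.Ok.gy_ne`). -/
theorem frm_th (hf : Hm f) (hψ : ∀ i, Pj f L (ψ i)) (hc : Cvr f L ψ) (hr : L.Rf ⊥ r)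
    (hT : Tp f L ψ r nb T C) (hK : PL.DnK L) (hn : N0 r n) (hb : Bx L ψ n)
    (θ : Hn L hB n →ₗ[↥(L.Ur ⊥ n)] ↥(L.Ur ⊥ n)) :
    ∃ ℓ, Frm (fo f Ω) ℓ ∧ ∀ x t, Xp f L n x → Tn' f L n x t →
      ℓ x t = (θ (ph hB T n x t) : Ω) := by
  classical
  have hac : IsAlgClosed Ω := IsAlgClosure.isAlgClosed K
  obtain ⟨P, h4, h5, hP⟩ := exists_pv hψ hr hT hK hn θ
  choose c₀ hc₀ hw₀ using hb
  have hGd : ∀ i, ∀ c ∈ lcf_z L n (c₀ i), Gd L (ψ i) n c := fun i c hcZ =>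
    ⟨hcZ.1, (hψ i).D_close (fun l => ((hc₀ i).iv l).2) (fun l => (hcZ.1 l).2)
      (fun l => by
        rw [L.sub_comm]
        exact hcZ.2 l) (hc₀ i).dv⟩
  have hrt : ∀ i, ∀ c ∈ lcf_z L n (c₀ i), ∀ w, pe c w ((ψ i).om Ω).G = 0 →
      pe c w (ψ i).G = 0 ∧ w ∈ L.Ur ⊥ n ∧ ∀ i', L.nm (MvPolynomial.aeval
        ((ψ i').uv (((ψ i).om Ω).pt c w)) (ψ i').D) = 1 := by
    intro i c hcZ w hw
    rw [om_G] at hw
    exact ⟨hw, rt_disc (hψ i) hψ (hc₀ i).iv hcZ.1 (hc₀ i).dv hcZ.2 (hw₀ i) hw⟩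
  have hev : ∀ i {x t : Fin N → Ω}, Xp f L n x → Tn' f L n x t →
      L.nm (MvPolynomial.aeval ((ψ i).uv x) (ψ i).D) = 1 →
        ((ψ i).om Ω).ev (P i) x t = ((ψ i).om Ω).gy x * (θ (ph hB T n x t) : Ω) :=
    fun i x t hx ht hD => pv_ev hψ hr hT hn θ hP hx ht hD
  have hU : {s : Ω | s ∈ L.Ur ⊥ n ∧ L.nm s = 1}.Infinite := by
    have hinj : Function.Injective fun k : ℕ => 1 + (L.p : Ω) ^ (k + 1) := by
      intro k k' hk
      have h1 := lcf_pow L (add_left_cancel hk)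
      omega
    refine (Set.infinite_range_of_injective hinj).mono ?_
    rintro _ ⟨k, rfl⟩
    refine ⟨add_mem (one_mem _) (lcf_pm L n (k + 1)), ?_⟩
    rw [← L.one]
    refine L.eq_of_close ?_
    rw [L.one, add_sub_cancel_left]
    exact lcf_lt L k
  obtain ⟨ℓ, hℓ, hev'⟩ := frm_of (f := fo f Ω) (ψ := fun i => (ψ i).om Ω) (P := P)
    (Z := fun i => lcf_z L n (c₀ i)) (Φ := fun x t => (θ (ph hB T n x t) : Ω)) (om_hom hf)
    (fun i => (hψ i).ok) (fun x hx => lcf_cov hf hψ hc hx)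
    (fun i q hq => lcf_dens (hc₀ i).iv q hq)
    (fun i c hcZ => by
      rw [om_D]
      exact L.ne_zero (by rw [(hGd i c hcZ).dv]; exact one_pos))
    (fun i i' c hcZ w hw => by
      obtain ⟨hw1, hwU, hwD⟩ := hrt i c hcZ w hw
      have hx : Xp f L n (((ψ i).om Ω).pt c w) :=
        xp_pt (hψ i) hcZ.1 (hGd i c hcZ).dv hwU hw1
      refine ⟨?_, fun l => ?_⟩
      · rw [om_uv, om_D]
        exact L.ne_zero (by rw [hwD i']; exact one_pos)
      · refine hev i' hx (tn_lt (hψ i) hcZ.1 (hGd i c hcZ).dv hwU hw1 fun l' => ?_) (hwD i')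
        by_cases hl : l' = l
        · rw [hl, Pi.single_eq_same]
          exact one_mem _
        · rw [Pi.single_eq_of_ne hl]
          exact zero_mem _)
    (fun i c hcZ w hw => by
      obtain ⟨hw1, hwU, hwD⟩ := hrt i c hcZ w hw
      have hx : Xp f L n (((ψ i).om Ω).pt c w) :=
        xp_pt (hψ i) hcZ.1 (hGd i c hcZ).dv hwU hw1
      have h6 := hx.rad hf (one_mem (L.Ur ⊥ n))
      have h7 := ph_rad hB hf hT hn hx (one_mem (L.Ur ⊥ n))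
      rw [one_smul] at h6 h7
      rw [hev i hx h6 (hwD i), h7, map_zero, ZeroMemClass.coe_zero, mul_zero])
    hU
    (fun i j l c hcZ s hs => by
      rcases Nat.lt_or_ge j ((ψ i).om Ω).G.natDegree with hj | hj
      swap
      · rw [h5 i j l hj, map_zero, map_zero, zero_mul, mul_zero]
      have hξ : ∀ l', (Pi.single l 1 : Fin (d + 1) → Ω) l' ∈ L.Ur ⊥ n := fun l' => by
        by_cases hl : l' = l
        · rw [hl, Pi.single_eq_same]
          exact one_mem _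
        · rw [Pi.single_eq_of_ne hl]
          exact zero_mem _
      have hg := hGd i c hcZ
      have e1 := hP i j hj c (Pi.single l 1) hg hξ
      have e2 := hP i j hj (s • c) (s • (Pi.single l 1 : Fin (d + 1) → Ω))
        (lcf_gd hψ hg hs.1 hs.2) fun l' => mul_mem hs.1 (hξ l')
      have e3 := pn_hom (hB := hB) hf hψ hr hT hn hg hξ ⟨s, hs.1⟩ hs.2 j
      have e4 : Pn hB T (ψ i) n j (s • c) (s • (Pi.single l 1 : Fin (d + 1) → Ω)) =
          (⟨s, hs.1⟩ : ↥(L.Ur ⊥ n)) ^ j • Pn hB T (ψ i) n j c (Pi.single l 1) := e3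
      rw [e4, map_smul, smul_eq_mul, MulMemClass.coe_mul, SubmonoidClass.coe_pow, ← e1] at e2
      rw [Finset.sum_eq_single l, Finset.sum_eq_single l] at e2
      · rw [Pi.smul_apply, Pi.single_eq_same, mul_one, smul_eq_mul, mul_one] at e2
        exact e2
      · intro l' _ hl
        rw [Pi.single_eq_of_ne hl, mul_zero]
      · intro hl
        exact absurd (Finset.mem_univ l) hl
      · intro l' _ hl
        rw [Pi.smul_apply, Pi.single_eq_of_ne hl, smul_zero, mul_zero]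
      · intro hl
        exact absurd (Finset.mem_univ l) hl)
    h4 h5
  refine ⟨ℓ, hℓ, fun x t hx ht => ?_⟩
  obtain ⟨i, hD⟩ := hx.chart hc
  have hD0 : MvPolynomial.aeval ((ψ i).uv x) (ψ i).D ≠ 0 :=
    L.ne_zero (by rw [hD]; exact one_pos)
  have hD1 : MvPolynomial.eval (((ψ i).om Ω).uv x) ((ψ i).om Ω).D ≠ 0 := by
    rw [om_uv, om_D]
    exact hD0
  have h6 := hev' i x t ht.tg hD1
  have h7 := hev i hx ht hD
  have hgy : ((ψ i).om Ω).gy x ≠ 0 := (hψ i).ok.gy_ne (by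
    have h8 := ((hψ i).pt_eq hx.ne hx.zero hD0).1
    change pe (((ψ i).om Ω).uv x) (((ψ i).om Ω).yv x) ((ψ i).om Ω).G = 0
    rw [om_uv, om_yv, om_G]
    exact h8) hD1
  exact mul_left_cancel₀ hgy (h6.symm.trans h7)

end GX
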