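import Pool.Agent.Lib.MP_f80667_ag.Lc.Sa
import Pool.Agent.Lib.MP_f80667_ag.Lc.Sb
import Pool.Agent.Lib.MP_f80667_ag.Lc.F

/-!
The derivative is a function of the traces of the values of the forms.

* `Hs M L r nb T h D`: the functions `h l` are additive and bounded on `K` and `T n x t = ∑ h l (tr (b l))`.
-/

open ZC BE PE CV IntermediateField

namespace GX

variable {F : Type} [Field F] {N N' k k' d m : ℕ} {ι ι' : Type} {f : ι → MvPolynomial (Fin N) F}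
  {A : Gv F N' k' ι'} {M : Mf f A k}
  {K Ω : Type} [Field K] [CharZero K] [Field Ω] [Algebra K Ω] [Algebra F K] [Algebra F Ω]
  [IsScalarTower F K Ω] [IsAlgClosure K Ω] {L : Ld K Ω} {π : Ω} {ψ : Fin m → Prj K N d} {r n : ℕ}
  {B : Type} [AddCommGroup B] [Module ℚ B] {nb : B → ℝ}
  {C : ℝ} {T : ℕ → (Fin N → Ω) → (Fin N → Ω) → B} {hB : Bn L.p (L.nm (L.p : Ω)) nb}

/-- The derivative is `∑ h l (tr (b l))`. -/
structure Hs (M : Mf f A k) (L : Ld K Ω) (r : ℕ) (nb : B → ℝ)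
    (T : ℕ → (Fin N → Ω) → (Fin N → Ω) → B) (h : Fin N' → Ω → B) (D : ℝ) : Prop where
  nonneg : 0 ≤ D
  add : ∀ l y y', y ∈ (⊥ : IntermediateField K Ω) → y' ∈ (⊥ : IntermediateField K Ω) →
    h l (y + y') = h l y + h l y'
  bd : ∀ l y, y ∈ (⊥ : IntermediateField K Ω) → nb (h l y) ≤ D * L.nm y
  val : ∀ n x t b, N0 r n → Xp f L n x → Tn' f L n x t → Wv M x t b →
    T n x t = ∑ l, h l (Nm (⊥ : IntermediateField K Ω) (L.Ur ⊥ n) (b l))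

/-- The fixing subgroup of `Ur ⊥ n` is normal. -/
private theorem sc_nor (γ : Ω ≃ₐ[K] Ω) {σ : Ω ≃ₐ[K] Ω} (hσ : σ ∈ (L.Ur ⊥ n).fixingSubgroup) :
    γ⁻¹ * σ * γ ∈ (L.Ur ⊥ n).fixingSubgroup := by
  rw [IntermediateField.mem_fixingSubgroup_iff] at hσ ⊢
  intro x hx
  have h4 : σ (γ x) = γ x := hσ _ (act_ur γ hx)
  change γ⁻¹ (σ (γ x)) = x
  rw [h4]
  exact γ.symm_apply_apply x

/-- The trace to `Ur ⊥ n₁` and automorphisms. -/
private theorem sc_cj {n₁ : ℕ} (hnn : n₁ ∣ n) (hn : n ≠ 0) (γ : Ω ≃ₐ[K] Ω) {a : Ω}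
    (ha : a ∈ L.Ur ⊥ n) :
    Nm (L.Ur ⊥ n₁) (L.Ur ⊥ n) (γ a) = γ (Nm (L.Ur ⊥ n₁) (L.Ur ⊥ n) a) := by
  classical
  have hfd : FiniteDimensional K (L.Ur ⊥ n) := Ld.ur_fin ⊥ n hn
  have hle : L.Ur ⊥ n₁ ≤ L.Ur ⊥ n := Ld.ur_dvd ⊥ hnn
  obtain ⟨s, -, h1, h2, h3⟩ := nm_rep (K := K) (Ω := Ω) hle
  have hinj : Function.Injective fun δ : Ω ≃ₐ[K] Ω => γ * δ * γ⁻¹ := fun δ δ' hδ =>
    mul_left_cancel (mul_right_cancel hδ)
  have e1 := nm_eq hle (s.image fun δ => γ * δ * γ⁻¹) (fun σ hσ => by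
      obtain ⟨δ, hδ, rfl⟩ := Finset.mem_image.1 hσ
      have h4 := sc_nor (L := L) γ⁻¹ (h1 δ hδ)
      rwa [inv_inv] at h4) (fun σ hσ => by
      obtain ⟨δ, ⟨hδ, hδ'⟩, hu⟩ := h2 _ (sc_nor (L := L) γ hσ)
      refine ⟨γ * δ * γ⁻¹, ⟨Finset.mem_image.2 ⟨δ, hδ, rfl⟩, ?_⟩, ?_⟩
      · have h5 := sc_nor (L := L) γ⁻¹ hδ'
        have h6 : (γ * δ * γ⁻¹)⁻¹ * σ = (γ⁻¹)⁻¹ * (δ⁻¹ * (γ⁻¹ * σ * γ)) * γ⁻¹ := by group
        rw [h6]
        exact h5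
      · rintro _ ⟨hm, hm'⟩
        obtain ⟨δ', hδ1, rfl⟩ := Finset.mem_image.1 hm
        have h5 := sc_nor (L := L) γ hm'
        have h6 : γ⁻¹ * ((γ * δ' * γ⁻¹)⁻¹ * σ) * γ = δ'⁻¹ * (γ⁻¹ * σ * γ) := by group
        rw [h6] at h5
        rw [hu δ' ⟨hδ1, h5⟩]) (fx_mem.2 (act_ur γ ha))
  rw [e1, h3 Ω a, Finset.sum_image fun _ _ _ _ h => hinj h, map_sum]
  refine Finset.sum_congr rfl fun δ _ => ?_
  change γ (δ (γ⁻¹ (γ a))) = γ (δ a)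
  have h7 : γ⁻¹ (γ a) = a := γ.symm_apply_apply a
  rw [h7]

/-- The trace is linear over `Ur ⊥ n₁`. -/
private theorem sc_lin {n₁ : ℕ} (hnn : n₁ ∣ n) (hn : n ≠ 0) {c a : Fin N' → Ω}
    (hc : ∀ l, c l ∈ L.Ur ⊥ n₁) :
    Nm (L.Ur ⊥ n₁) (L.Ur ⊥ n) (∑ l, c l * a l) =
      ∑ l, c l * Nm (L.Ur ⊥ n₁) (L.Ur ⊥ n) (a l) := by
  have hfd : FiniteDimensional K (L.Ur ⊥ n) := Ld.ur_fin ⊥ n hn
  have hle : L.Ur ⊥ n₁ ≤ L.Ur ⊥ n := Ld.ur_dvd ⊥ hnn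
  obtain ⟨s, -, h1, h2, h3⟩ := nm_rep (K := K) (Ω := Ω) hle
  have e1 : ∀ l, c l * Nm (L.Ur ⊥ n₁) (L.Ur ⊥ n) (a l) = ∑ γ ∈ s, γ (c l * a l) := by
    intro l
    rw [h3 Ω (a l), Finset.mul_sum]
    refine Finset.sum_congr rfl fun γ hγ => ?_
    have h4 : γ (c l) = c l := (IntermediateField.mem_fixingSubgroup_iff _ γ).1 (h1 γ hγ) _ (hc l)
    rw [map_mul, h4]
    rfl
  rw [h3 Ω, Finset.sum_congr rfl fun l _ => e1 l, Finset.sum_comm]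
  refine Finset.sum_congr rfl fun γ _ => ?_
  exact map_sum γ _ _

/-- Division by a number. -/
private theorem sc_div {p : ℕ} {Q : ℝ} (hB : Bn p Q nb) {q : ℕ} (hq : q ≠ 0) :
    ∃ c : ℝ, 0 ≤ c ∧ ∀ b : B, nb ((q : ℚ)⁻¹ • b) ≤ c * nb b := by
  obtain ⟨a, u, hu, he⟩ := Nat.exists_eq_pow_mul_and_not_dvd hq p hB.pp.ne_one
  have hQ : ∀ (k : ℕ) (b : B), nb (p ^ k • b) = Q ^ k * nb b := by
    intro k b
    induction k with
    | zero => rw [pow_zero, pow_zero, one_smul, one_mul]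
    | succ k ih =>
      rw [pow_succ', mul_smul, hB.mulp, ih, pow_succ']
      ring
  have hQ0 : 0 < Q ^ a := pow_pos hB.q0 a
  refine ⟨(Q ^ a)⁻¹, (inv_pos.2 hQ0).le, fun b => ?_⟩
  have h1 : q • ((q : ℚ)⁻¹ • b) = b := by
    rw [← Nat.cast_smul_eq_nsmul ℚ, smul_smul, mul_inv_cancel₀ (Nat.cast_ne_zero.2 hq), one_smul]
  have h2 : nb b = Q ^ a * nb ((q : ℚ)⁻¹ • b) := by
    conv_lhs => rw [← h1]
    rw [he, mul_smul, hQ, hB.unit _ _ hu, ← he]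
  rw [h2, inv_mul_cancel_left₀ hQ0.ne']

/-- The absolute value of a sum. -/
private theorem sc_sum {p : ℕ} {Q : ℝ} (hB : Bn p Q nb) {ι₀ : Type} (s : Finset ι₀) (v : ι₀ → B)
    {D : ℝ} (hD : 0 ≤ D) (h : ∀ i ∈ s, nb (v i) ≤ D) : nb (∑ i ∈ s, v i) ≤ D := by
  classical
  induction s using Finset.induction_on with
  | empty =>
    rw [Finset.sum_empty, (hB.zero_iff 0).2 rfl]
    exact hD
  | insert i s hi ih =>
    rw [Finset.sum_insert hi]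
    exact (hB.add _ _).trans (max_le (h i (Finset.mem_insert_self i s))
      (ih fun j hj => h j (Finset.mem_insert_of_mem hj)))

/-- The derivative of a sum. -/
private theorem sc_ts (hT : Tp f L ψ r nb T C) (hn : N0 r n) {x : Fin N → Ω} (hx : Xp f L n x)
    {ι₀ : Type} (s : Finset ι₀) (v : ι₀ → Fin N → Ω) (hv : ∀ i ∈ s, Tn' f L n x (v i)) :
    Tn' f L n x (∑ i ∈ s, v i) ∧ T n x (∑ i ∈ s, v i) = ∑ i ∈ s, T n x (v i) := by
  classical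
  have h0 : Tn' f L n x 0 ∧ T n x 0 = 0 := by
    refine ⟨?_, ?_⟩
    · refine ⟨⟨⟨hx.ne, fun i => ?_⟩, fun i => ?_⟩, fun i => zero_mem _⟩
      · exact hx.zp.2 i
      · refine Finset.sum_eq_zero fun j _ => ?_
        rw [Pi.zero_apply, mul_zero]
    · have h1 := hT.rad n x 0 hn hx (zero_mem _)
      rwa [zero_smul] at h1
  induction s using Finset.induction_on with
  | empty =>
    rw [Finset.sum_empty, Finset.sum_empty]
    exact h0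
  | insert i s hi ih =>
    obtain ⟨h1, h2⟩ := ih fun j hj => hv j (Finset.mem_insert_of_mem hj)
    have h3 := hv i (Finset.mem_insert_self i s)
    rw [Finset.sum_insert hi, Finset.sum_insert hi]
    exact ⟨h3.add h1, by rw [hT.add n x _ _ hn hx h3 h1, h2]⟩

/-- Over the fields which contain `Ur ⊥ n₁`. Proof: let `H l y = ∑ α, T n₁ (x α) ((Bm α l * y) • t α)` for `y ∈ Ur ⊥ n₁`. By `hv` and `tp_tr` (`Nm` is linear over `Ur ⊥ n₁`) `T n x' t' = ∑ l, H l (Nm (Ur ⊥ n₁) (Ur ⊥ n) (b' l))`. The same for `γ x'`, `γ t'`, `γ b'` (`wv_act`, `Tp.act`),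
`Nm (γ b) = γ Nm b`. Sum over representatives `γ` of `Gal (Ω / K)` modulo `Gal (Ω / Ur ⊥ n₁)` (`q` of them): `q • T n x' t' = ∑ l, H l (Nm ⊥ (Ur ⊥ n₁) (Nm (Ur ⊥ n₁) (Ur ⊥ n) (b' l)))`, `nmu_trans`; `h l y = q⁻¹ • H l y`. Bounds: `Tp.bd`; `nb (q⁻¹ • b) ≤ c * nb b` (`Bn.mulp`, `Bn.unit`). -/
theorem hs_mul (hB : Bn L.p (L.nm (L.p : Ω)) nb) (hr : L.Rf ⊥ r) (hT : Tp f L ψ r nb T C)
    {n₁ : ℕ} (hn₁ : N0 r n₁) {g : ℕ}
    {x t : Fin g → Fin N → Ω} {b Bm : Fin g → Fin N' → Ω} (hs : Bsl M L n₁ g x t b Bm)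
    (hv : ∀ n' x' t' b', n₁ ∣ n' → n' ≠ 0 → Xp f L n' x' → Tn' f L n' x' t' → Wv M x' t' b' →
      T n' x' t' = ∑ α, T n' (x α) ((∑ l, Bm α l * b' l) • t α)) :
    ∃ (h : Fin N' → Ω → B) (D : ℝ), 0 ≤ D ∧
      (∀ l y y', y ∈ (⊥ : IntermediateField K Ω) → y' ∈ (⊥ : IntermediateField K Ω) →
        h l (y + y') = h l y + h l y') ∧
      (∀ l y, y ∈ (⊥ : IntermediateField K Ω) → nb (h l y) ≤ D * L.nm y) ∧
      ∀ n x t b, N0 r n → n₁ ∣ n → Xp f L n x → Tn' f L n x t → Wv M x t b →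
        T n x t = ∑ l, h l (Nm (⊥ : IntermediateField K Ω) (L.Ur ⊥ n) (b l)) := by
  classical
  have hfd : FiniteDimensional K (L.Ur ⊥ n₁) := Ld.ur_fin ⊥ n₁ hn₁.1
  obtain ⟨H, hH⟩ : ∃ H : Fin N' → Ω → B, ∀ l y,
      H l y = ∑ α, T n₁ (x α) ((Bm α l * y) • t α) := ⟨_, fun _ _ => rfl⟩
  have hHadd : ∀ l y y', y ∈ L.Ur ⊥ n₁ → y' ∈ L.Ur ⊥ n₁ → H l (y + y') = H l y + H l y' := by
    intro l y y' hy hy'
    rw [hH, hH, hH, ← Finset.sum_add_distrib]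
    refine Finset.sum_congr rfl fun α _ => ?_
    rw [mul_add, add_smul]
    exact hT.add n₁ (x α) _ _ hn₁ (hs.hx α) ((hs.ht α).smul (mul_mem (hs.mem α l) hy))
      ((hs.ht α).smul (mul_mem (hs.mem α l) hy'))
  have hH0 : ∀ l, H l 0 = 0 := by
    intro l
    have h1 := hHadd l 0 0 (zero_mem _) (zero_mem _)
    rw [add_zero] at h1
    exact left_eq_add.1 h1
  have hHsum : ∀ (l : Fin N') (s : Finset (Ω ≃ₐ[K] Ω)) (v : (Ω ≃ₐ[K] Ω) → Ω),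
      (∀ γ ∈ s, v γ ∈ L.Ur ⊥ n₁) → H l (∑ γ ∈ s, v γ) = ∑ γ ∈ s, H l (v γ) := by
    intro l s v
    induction s using Finset.induction_on with
    | empty => intro _; rw [Finset.sum_empty, Finset.sum_empty, hH0]
    | insert i s hi ih =>
      intro hv'
      rw [Finset.sum_insert hi, Finset.sum_insert hi,
        hHadd l _ _ (hv' i (Finset.mem_insert_self i s))
          (sum_mem fun j hj => hv' j (Finset.mem_insert_of_mem hj)),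
        ih fun j hj => hv' j (Finset.mem_insert_of_mem hj)]
  obtain ⟨R, hR0, hR⟩ : ∃ R : ℝ, 0 ≤ R ∧ ∀ α l i, L.nm (Bm α l) * L.nm (t α i) ≤ R := by
    refine ⟨∑ q : Fin g × Fin N' × Fin N, L.nm (Bm q.1 q.2.1) * L.nm (t q.1 q.2.2),
      Finset.sum_nonneg fun q _ => mul_nonneg (L.nonneg _) (L.nonneg _), fun α l i => ?_⟩
    exact Finset.single_le_sum
      (f := fun q : Fin g × Fin N' × Fin N => L.nm (Bm q.1 q.2.1) * L.nm (t q.1 q.2.2))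
      (fun q _ => mul_nonneg (L.nonneg _) (L.nonneg _)) (Finset.mem_univ (α, l, i))
  have hHbd : ∀ l y, y ∈ L.Ur ⊥ n₁ → nb (H l y) ≤ C * R * L.nm y := by
    intro l y hy
    rw [hH]
    refine sc_sum hB _ _ (mul_nonneg (mul_nonneg hT.nonneg hR0) (L.nonneg _)) fun α _ => ?_
    rw [mul_assoc]
    refine hT.bd n₁ (x α) _ _ hn₁ (hs.hx α) ((hs.ht α).smul (mul_mem (hs.mem α l) hy))
      fun i => ?_
    rw [Pi.smul_apply, smul_eq_mul, L.mul, L.mul]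
    have h1 := mul_le_mul_of_nonneg_right (hR α l i) (L.nonneg y)
    refine le_trans (le_of_eq ?_) h1
    ring
  obtain ⟨s, -, -, h2, h3⟩ := nm_rep (K := K) (Ω := Ω) (bot_le : ⊥ ≤ L.Ur ⊥ n₁)
  have hs0 : s.card ≠ 0 := by
    obtain ⟨δ, ⟨hδ, -⟩, -⟩ := h2 1 (one_mem _)
    exact Finset.card_ne_zero_of_mem hδ
  obtain ⟨c, hc0, hc⟩ := sc_div hB hs0
  refine ⟨fun l y => (s.card : ℚ)⁻¹ • H l y, c * (C * R),
    mul_nonneg hc0 (mul_nonneg hT.nonneg hR0), fun l y y' hy hy' => ?_, fun l y hy => ?_, ?_⟩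
  · have hy1 : y ∈ L.Ur ⊥ n₁ := (bot_le : ⊥ ≤ L.Ur ⊥ n₁) hy
    have hy2 : y' ∈ L.Ur ⊥ n₁ := (bot_le : ⊥ ≤ L.Ur ⊥ n₁) hy'
    change (s.card : ℚ)⁻¹ • H l (y + y') = (s.card : ℚ)⁻¹ • H l y + (s.card : ℚ)⁻¹ • H l y'
    rw [hHadd l y y' hy1 hy2, smul_add]
  · have hy1 : y ∈ L.Ur ⊥ n₁ := (bot_le : ⊥ ≤ L.Ur ⊥ n₁) hy
    refine (hc _).trans ?_
    rw [mul_assoc c]
    exact mul_le_mul_of_nonneg_left (hHbd l y hy1) hc0
  · intro n x' t' b' hn hnn hx' ht' hb'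
    have key : ∀ x' t' b', Xp f L n x' → Tn' f L n x' t' → Wv M x' t' b' →
        T n x' t' = ∑ l, H l (Nm (L.Ur ⊥ n₁) (L.Ur ⊥ n) (b' l)) := by
      intro x' t' b' hx' ht' hb'
      have hbm : ∀ l, b' l ∈ L.Ur ⊥ n := wv_mem hx' ht'.mem hb'
      have hterm : ∀ α, T n (x α) ((∑ l, Bm α l * b' l) • t α) =
          ∑ l, T n₁ (x α) ((Bm α l * Nm (L.Ur ⊥ n₁) (L.Ur ⊥ n) (b' l)) • t α) := by
        intro α
        rw [tp_tr hr hT hn₁ hnn hn.1 (hs.hx α) (hs.ht α) (sum_mem fun l _ =>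
          mul_mem (Ld.ur_dvd ⊥ hnn (hs.mem α l)) (hbm l)),
          sc_lin hnn hn.1 (hs.mem α), Finset.sum_smul]
        exact (sc_ts hT hn₁ (hs.hx α) _ _ fun l _ => (hs.ht α).smul
          (mul_mem (hs.mem α l) (nmu_mem hnn hn.1 (hbm l)))).2
      rw [hv n x' t' b' hnn hn.1 hx' ht' hb', Finset.sum_congr rfl fun α _ => hterm α,
        Finset.sum_comm]
      refine Finset.sum_congr rfl fun l _ => ?_
      rw [hH]
    have hbm : ∀ l, b' l ∈ L.Ur ⊥ n := wv_mem hx' ht'.mem hb'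
    have h6 : s.card • T n x' t' = ∑ l, H l (Nm (⊥ : IntermediateField K Ω) (L.Ur ⊥ n) (b' l)) := by
      rw [← Finset.sum_const]
      have h7 : ∀ γ ∈ s, T n x' t' =
          ∑ l, H l (γ (Nm (L.Ur ⊥ n₁) (L.Ur ⊥ n) (b' l))) := by
        intro γ _
        rw [← hT.act n x' t' γ hn hx' ht', key _ _ _ (hx'.act γ) (ht'.act γ) (wv_act hb' γ)]
        refine Finset.sum_congr rfl fun l _ => ?_
        rw [sc_cj hnn hn.1 γ (hbm l)]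
      rw [Finset.sum_congr rfl h7, Finset.sum_comm]
      refine Finset.sum_congr rfl fun l _ => ?_
      rw [← nmu_trans hnn hn.1 (hbm l), h3 Ω]
      exact (hHsum l s _ fun γ _ => act_ur γ (nmu_mem hnn hn.1 (hbm l))).symm
    change T n x' t' = ∑ l, (s.card : ℚ)⁻¹ •
      H l (Nm (⊥ : IntermediateField K Ω) (L.Ur ⊥ n) (b' l))
    rw [← Finset.smul_sum, ← h6, ← Nat.cast_smul_eq_nsmul ℚ, smul_smul,
      inv_mul_cancel₀ (Nat.cast_ne_zero.2 hs0), one_smul]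

private theorem sc_bot (hn : n ≠ 0) {a : Ω} (ha : a ∈ L.Ur (⊥ : IntermediateField K Ω) n) :
    Nm (⊥ : IntermediateField K Ω) (L.Ur ⊥ n) a ∈ (⊥ : IntermediateField K Ω) := by
  have hfd : FiniteDimensional K (L.Ur (⊥ : IntermediateField K Ω) n) := Ld.ur_fin ⊥ n hn
  have hfx : Fx (L.Ur (⊥ : IntermediateField K Ω) n) a := by
    intro γ hγ
    rw [AlgEquiv.smul_def]
    exact (IntermediateField.mem_fixingSubgroup_iff _ γ).1 hγ _ ha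
  refine mem_of_fix ⊥ fun γ hγ => ?_
  have h1 := nm_fx (K := K) bot_le hfx γ hγ
  rwa [AlgEquiv.smul_def] at h1

/-- **The derivative is a function of the traces of the values of the forms.** Proof: `exists_bs`, `exists_g` with `frm_th` (`Bx.mono`), `bs_val`, `hs_mul`; for a general `n`: `n₁ • T n x t = T (n n₁) x t` (`Tp.up`), `nmu_mul`, additivity of `h l` on `⊥`. -/
theorem exists_hs (hf : Hm f) (hψ : ∀ i, Pj f L (ψ i)) (hc : Cvr f L ψ) (hr : L.Rf ⊥ r)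
    (hB : Bn L.p (L.nm (L.p : Ω)) nb) (hT : Tp f L ψ r nb T C) (hK : PL.DnK L)
    (hG : Gnr L ψ) (hAl : M.Alb Ω) : ∃ h D, Hs M L r nb T h D := by
  obtain ⟨n₀, hn₀, hbx⟩ := exists_bx hψ hr hG
  obtain ⟨n₁, hn₁, hnn, g, x, t, b, Bm, hs⟩ := exists_bs M L hn₀
  have hv : ∀ n' x' t' b', n₁ ∣ n' → n' ≠ 0 → Xp f L n' x' → Tn' f L n' x' t' →
      Wv M x' t' b' → T n' x' t' = ∑ α, T n' (x α) ((∑ l, Bm α l * b' l) • t α) := by
    intro n' x' t' b' hd hn' hx' ht' hb'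
    have hn0 : N0 r n' := ⟨hn', hn₁.2.trans hd⟩
    exact bs_val hs hT hn₁ hd hn' (exists_g (hB := hB) hAl fun θ =>
      frm_th hf hψ hc hr hT hK hn0 (hbx.mono (hnn.trans hd)) θ) hx' ht' hb'
  obtain ⟨h, D, hD, hadd, hbd, hval⟩ := hs_mul hB hr hT hn₁ hs hv
  refine ⟨h, D, ⟨hD, hadd, hbd, fun n x t b hn hx ht hb => ?_⟩⟩
  have hm : ∀ l, Nm (⊥ : IntermediateField K Ω) (L.Ur ⊥ n) (b l) ∈
      (⊥ : IntermediateField K Ω) := fun l => sc_bot hn.1 (wv_mem hx ht.mem hb l)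
  have hns : ∀ (j : ℕ) l y, y ∈ (⊥ : IntermediateField K Ω) →
      h l ((j : Ω) * y) = j • h l y := by
    intro j l y hy
    induction j with
    | zero =>
      have h0 := hadd l 0 0 (zero_mem _) (zero_mem _)
      rw [add_zero] at h0
      rw [Nat.cast_zero, zero_mul, zero_smul]
      exact left_eq_add.1 h0
    | succ j ih =>
      have hj : (j : Ω) * y ∈ (⊥ : IntermediateField K Ω) :=
        mul_mem (IntermediateField.natCast_mem _ j) hy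
      rw [Nat.cast_succ, add_mul, one_mul, hadd l _ _ hj hy, ih, succ_nsmul]
  have h1 := hval (n * n₁) x t b (hn.mul hn₁.1) (dvd_mul_left n₁ n) (hx.mono (dvd_mul_right n n₁))
    (ht.mono (dvd_mul_right n n₁)) hb
  rw [hT.up n x t n₁ hn hx ht hn₁.1] at h1
  have h2 : n₁ • T n x t =
      n₁ • ∑ l, h l (Nm (⊥ : IntermediateField K Ω) (L.Ur ⊥ n) (b l)) := by
    rw [h1, Finset.smul_sum]
    refine Finset.sum_congr rfl fun l _ => ?_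
    rw [nmu_mul hr hn hn₁.1 (wv_mem hx ht.mem hb l), hns n₁ l _ (hm l)]
  have h3 : ((n₁ : ℚ))⁻¹ • ((n₁ : ℚ) • T n x t) =
      ((n₁ : ℚ))⁻¹ • ((n₁ : ℚ) • ∑ l, h l (Nm (⊥ : IntermediateField K Ω) (L.Ur ⊥ n) (b l))) := by
    rw [Nat.cast_smul_eq_nsmul, Nat.cast_smul_eq_nsmul, h2]
  have h4 : (n₁ : ℚ) ≠ 0 := Nat.cast_ne_zero.2 hn₁.1
  rwa [smul_smul, smul_smul, inv_mul_cancel₀ h4, one_smul, one_smul] at h3

end GX
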