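import Pool.Agent.Lib.MP_f80667_ag.Lc.T
import Pool.Agent.Lib.MP_f80667_ag.Lc.Sc
import Pool.Agent.Lib.MP_f80667_ag.Lc.N
import Pool.Agent.Lib.MP_f80667_ag.Lv.Tg
import Pool.Agent.Lib.MP_f80667_ag.Lv.Z

/-!
The functionals vanish on the kernel of the sum.
-/

open ZC BE PE CV IntermediateField

namespace GX

variable {F : Type} [Field F] {N N' k k' d m : ℕ} {ι ι' : Type} {f : ι → MvPolynomial (Fin N) F}
  {A : Gv F N' k' ι'} {M : Mf f A k}
  {K Ω : Type} [Field K] [CharZero K] [Field Ω] [Algebra K Ω] [Algebra F K] [Algebra F Ω]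
  [IsScalarTower F K Ω] [IsAlgClosure K Ω] {L : Ld K Ω} {π : Ω} {ψ : Fin m → Prj K N d} {r n : ℕ}
  {B : Type} [AddCommGroup B] [Module ℚ B] {nb : B → ℝ}
  {C : ℝ} {T : ℕ → (Fin N → Ω) → (Fin N → Ω) → B} {hB : Bn L.p (L.nm (L.p : Ω)) nb}

theorem bn_sum {p : ℕ} {q : ℝ} (hB : Bn p q nb) {α : Type} (s : Finset α) {u : α → B} {ρ : ℝ}
    (hρ : 0 ≤ ρ) (h : ∀ a ∈ s, nb (u a) ≤ ρ) : nb (∑ a ∈ s, u a) ≤ ρ := by
  classical
  induction s using Finset.induction_on with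
  | empty =>
    rw [Finset.sum_empty, (hB.zero_iff 0).2 rfl]
    exact hρ
  | insert a s ha ih =>
    rw [Finset.sum_insert ha]
    exact (hB.add _ _).trans (max_le (h a (Finset.mem_insert_self _ _))
      (ih fun b hb => h b (Finset.mem_insert_of_mem hb)))

theorem bn_zsmul {p : ℕ} {q : ℝ} (hB : Bn p q nb) (b : B) (e : ℤ) : nb (e • b) ≤ nb b := by
  have h1 : ∀ k : ℕ, nb (k • b) ≤ nb b := by
    intro k
    induction k with
    | zero =>
      rw [zero_smul, (hB.zero_iff 0).2 rfl]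
      exact hB.nonneg b
    | succ k ih =>
      rw [add_smul, one_smul]
      exact (hB.add _ _).trans (max_le ih le_rfl)
  rcases Int.eq_nat_or_neg e with ⟨k, rfl | rfl⟩
  · rw [natCast_zsmul]
    exact h1 k
  · rw [neg_smul, hB.neg, natCast_zsmul]
    exact h1 k

variable {lam : ((Xf f).pt Ω →₀ ℤ) →+ B} {s₀ : ℕ}

/-- The value of `lam` on a displacement with sum `0`. Proof: `dr_sum`; `a` a term: `x = pt (c a) (w a)`, `x'` the point over `c a + h a`, `τ = lt (c a) (w a) (h a)` (`Gp.tan`): `lam (cyv ..) = Vx L lam (n a) x x'` (`zx_co`, `rtr_eq`, `vx_eq`), `Tz.app`, `Hs.val` for `b a` with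
`c_j b_l = ∑ q τ`, `nm (c_j (x)) = 1` (`exists_part`); so `lam z = ∑ l, h l (∑ a, e a • Nm ⊥ (Ur ⊥ (n a)) (b a l))` up to `C nm π ^ (2 s)`; `sum_small` and `Hs.bd`. -/
theorem lam_small (h : Cx f L π ψ r) (hB : Bn L.p (L.nm (L.p : Ω)) nb)
    (hz : Tz L π nb r lam T s₀ C) {hh : Fin N' → Ω → B} {D : ℝ} (hs : Hs M L r nb T hh D)
    (hA : A.Ok) (hM : M.Ok) (hL : Lga L A) (hLm : Lmf L M) :
    letI := A.G.grp Ω
    ∃ C', ∀ (s : ℕ) (z : (Xf f).pt Ω →₀ ℤ), s₀ ≤ s → s ≠ 0 →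
      z ∈ Dr f L π s (⊥ : IntermediateField K Ω) → M.S Ω z = 0 →
        nb (lam z) ≤ C' * L.nm π ^ (2 * s) := by
  classical
  let _ : AddCommGroup ((Xf A.a).pt Ω) := A.G.grp Ω
  refine ⟨max C D, fun s z hs₀ hs0 hz0 hS => ?_⟩
  change M.S Ω z = 0 at hS
  have hpos : (0 : ℝ) ≤ L.nm π ^ (2 * s) := pow_nonneg h.hπ.pos.le _
  obtain ⟨I, S, e, i, n, c, w, y, h1, rfl⟩ := dr_sum h.hf h.hψ h.hc h.hπ hs0 h.hr hz0
  have ht0 : 0 ≤ L.nm π ^ s := pow_nonneg h.hπ.pos.le _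
  have ht1 : L.nm π ^ s < 1 := h.hπ.pow_lt hs0
  -- the points
  have h2 : ∀ a : I, ∃ (x x' τ : Fin N → Ω) (P P' : (Xf f).pt Ω) (j : Fin (k * N' * k'))
      (b : Fin N' → Ω), Pco L f P x ∧ Co P' x' ∧ Xp f L (n a) x ∧ Xp f L (n a) x' ∧
      Tn' f L (n a) x τ ∧ (∀ r, L.nm (τ r) ≤ L.nm π ^ s) ∧
      (∀ r, L.nm (x' r - x r - τ r) ≤ L.nm π ^ (2 * s)) ∧
      L.nm (MvPolynomial.aeval x (M.om.c j)) = 1 ∧
      (∀ l, MvPolynomial.aeval x (M.om.c j) * b l =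
        ∑ r, MvPolynomial.aeval x (M.om.q j l r) * τ r) ∧ (∀ l, b l ∈ L.Ur ⊥ (n a)) ∧
      cyv f L (ψ (i a)) (L.Ur ⊥ (n a)) (c a) (w a) (y a) =
        Nm (K := K) ⊥ (L.Ur ⊥ (n a)) (Finsupp.single P' 1 - Finsupp.single P 1 :
          (Xf f).pt Ω →₀ ℤ) := by
    intro a
    obtain ⟨-, -, g, hy, hys⟩ := h1 a
    obtain ⟨a1, a2, a3, a4, P, a5, a6, a7⟩ := g.pt (h.hψ (i a))
    obtain ⟨b, -⟩ := g.sh (h.hψ (i a)) hy ht1 hys
    obtain ⟨b1, b2, b3, b4, P', b5, b6, b7⟩ := b.pt (h.hψ (i a))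
    obtain ⟨c1, c2, c3, c4⟩ := g.tan (h.hψ (i a)) hy ht0 ht1 hys
    have hx : Pco L f P (((ψ (i a)).om Ω).pt (c a) (w a)) := ⟨a5, fun r => (a1 r).2, a2⟩
    obtain ⟨j, hj⟩ := exists_part hA hM hL hLm hx
    refine ⟨_, _, _, P, P', j, fun l => (∑ r, MvPolynomial.aeval
      (((ψ (i a)).om Ω).pt (c a) (w a)) (M.om.q j l r) *
        ((ψ (i a)).om Ω).lt (c a) (w a) (y a) r) / MvPolynomial.aeval
          (((ψ (i a)).om Ω).pt (c a) (w a)) (M.om.c j), hx, b5, ⟨a1, a2, co_zero a5⟩,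
      ⟨b1, b2, co_zero b5⟩, ⟨c1, c2⟩, c3, fun r => ?_, hj, fun l => ?_, fun l => ?_, ?_⟩
    · have h3 := c4 r
      rwa [← pow_mul, mul_comm s 2] at h3
    · exact mul_div_cancel₀ _ (L.ne_zero (by rw [hj]; exact zero_lt_one))
    · have hae : ∀ G : MvPolynomial (Fin N) F, MvPolynomial.aeval
          (((ψ (i a)).om Ω).pt (c a) (w a)) G ∈ L.Ur ⊥ (n a) := by
        intro G
        rw [← MvPolynomial.aeval_map_algebraMap K]
        exact aev_mem _ fun r => (a1 r).1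
      exact div_mem (sum_mem fun r _ => mul_mem (hae _) (c2 r)) (hae _)
    · unfold cyv
      rw [b7, a7]
  choose x x' τ P P' j b hx hx' hxp hxp' hτ hτs hd hj hb hbm hcy using h2
  have hN0 : ∀ a, N0 r (n a) := fun a => ⟨(h1 a).1, (h1 a).2.1⟩
  have hval : ∀ a, nb (lam (cyv f L (ψ (i a)) (L.Ur ⊥ (n a)) (c a) (w a) (y a)) -
      ∑ l, hh l (Nm (⊥ : IntermediateField K Ω) (L.Ur ⊥ (n a)) (b a l))) ≤
        max C D * L.nm π ^ (2 * s) := by
    intro a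
    have hfd : FiniteDimensional K (L.Ur ⊥ (n a)) := Ld.ur_fin ⊥ (n a) (h1 a).1
    have h3 := hz.app (n a) (x a) (x' a) (τ a) s (hN0 a) (hxp a) (hxp' a) (hτ a) hs₀ hs0
      (hτs a) (hd a)
    have hc0 : MvPolynomial.aeval (x a) (M.om.c (j a)) ≠ 0 :=
      L.ne_zero (by rw [hj a]; exact zero_lt_one)
    rw [hs.val (n a) (x a) (τ a) (b a) (hN0 a) (hxp a) (hτ a) ⟨j a, hc0, hb a⟩,
      vx_eq (hx a).co (hx' a), rtr_eq bot_le, ← hcy a] at h3
    exact h3.trans (mul_le_mul_of_nonneg_right (le_max_left _ _) hpos)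
  -- the sum of the traces
  have hsm := sum_small hA hM hL hLm ht1 ht0 S e (fun a => L.Ur ⊥ (n a))
    (fun a _ => Ld.ur_fin ⊥ (n a) (h1 a).1) P P' x x' τ (fun a _ => hx a) (fun a _ => hx' a)
    (fun a _ => hτs a) (fun a _ r => by
      have h3 := hd a r
      rwa [two_mul, pow_add] at h3) j (fun a _ => hj a) b (fun a _ => hb a) (by
      change M.S Ω _ = 0
      rw [← hS]
      congr 1
      exact Finset.sum_congr rfl fun a _ => by rw [hcy a])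
  have hbot : ∀ a l, Nm (⊥ : IntermediateField K Ω) (L.Ur ⊥ (n a)) (b a l) ∈
      (⊥ : IntermediateField K Ω) := by
    intro a l
    have hfd : FiniteDimensional K (L.Ur ⊥ (n a)) := Ld.ur_fin ⊥ (n a) (h1 a).1
    exact fx_mem.1 (nm_fx bot_le (fx_mem.2 (hbm a l)))
  have hadd : ∀ l, ∑ a ∈ S, e a • hh l (Nm (⊥ : IntermediateField K Ω) (L.Ur ⊥ (n a)) (b a l)) =
      hh l (∑ a ∈ S, e a • Nm (⊥ : IntermediateField K Ω) (L.Ur ⊥ (n a)) (b a l)) := by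
    intro l
    let H : (⊥ : IntermediateField K Ω) →+ B := AddMonoidHom.mk' (fun y => hh l (y : Ω))
      fun y y' => hs.add l y y' y.2 y'.2
    have h3 := map_sum H (fun a => e a • (⟨Nm (⊥ : IntermediateField K Ω) (L.Ur ⊥ (n a))
      (b a l), hbot a l⟩ : (⊥ : IntermediateField K Ω))) S
    simp only [map_zsmul] at h3
    have h4 : ((∑ a ∈ S, e a • (⟨Nm (⊥ : IntermediateField K Ω) (L.Ur ⊥ (n a))
      (b a l), hbot a l⟩ : (⊥ : IntermediateField K Ω)) : (⊥ : IntermediateField K Ω)) : Ω) =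
      ∑ a ∈ S, e a • Nm (⊥ : IntermediateField K Ω) (L.Ur ⊥ (n a)) (b a l) := by
      push_cast
      rfl
    change hh l _ = _ at h3
    rw [h4] at h3
    exact h3.symm
  have hYm : ∀ l, ∑ a ∈ S, e a • Nm (⊥ : IntermediateField K Ω) (L.Ur ⊥ (n a)) (b a l) ∈
      (⊥ : IntermediateField K Ω) := fun l => sum_mem fun a _ => zsmul_mem (hbot a l) _
  have hY : nb (∑ l, hh l (∑ a ∈ S, e a • Nm (⊥ : IntermediateField K Ω) (L.Ur ⊥ (n a))
      (b a l))) ≤ max C D * L.nm π ^ (2 * s) := by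
    refine bn_sum hB _ (mul_nonneg (hs.nonneg.trans (le_max_right _ _)) hpos) fun l _ => ?_
    refine (hs.bd l _ (hYm l)).trans ?_
    refine (mul_le_mul_of_nonneg_left (hsm l) hs.nonneg).trans ?_
    rw [← pow_add, ← two_mul]
    exact mul_le_mul_of_nonneg_right (le_max_right _ _) hpos
  have e1 : lam (∑ a ∈ S, e a • cyv f L (ψ (i a)) (L.Ur ⊥ (n a)) (c a) (w a) (y a)) =
      ∑ a ∈ S, e a • (lam (cyv f L (ψ (i a)) (L.Ur ⊥ (n a)) (c a) (w a) (y a)) -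
        ∑ l, hh l (Nm (⊥ : IntermediateField K Ω) (L.Ur ⊥ (n a)) (b a l))) +
      ∑ l, hh l (∑ a ∈ S, e a • Nm (⊥ : IntermediateField K Ω) (L.Ur ⊥ (n a)) (b a l)) := by
    rw [map_sum, Finset.sum_congr rfl fun l _ => (hadd l).symm, Finset.sum_comm,
      ← Finset.sum_add_distrib]
    refine Finset.sum_congr rfl fun a _ => ?_
    rw [map_zsmul, ← Finset.smul_sum, ← smul_add, sub_add_cancel]
  rw [e1]
  refine (hB.add _ _).trans (max_le (bn_sum hB _ (mul_nonneg (hs.nonneg.trans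
    (le_max_right _ _)) hpos) fun a _ => ?_) hY)
  exact (bn_zsmul hB _ _).trans (hval a)

/-- **Block C.** Proof: `exists_bn` for `q = nm p`; `Lam` with `s₀ = r` and `C = nm π ^ (-(r + e))`; `tx_tz`, `Tz.tp`, `exists_hs`, `lam_small`. For `z ∈ Vl r`, `S z = 0`: `p ^ k z ∈ Vl (r + k e)` (`vl_mul_e`), `p ^ k z = z_k + r_k`, `S z_k = 0` (`RS.rs`), so
`nb (p ^ k lam z) ≤ C' nm π ^ (2 (r + k e))` for all `k`. -/
theorem lst_of (hπ : Uf L π) (hf : Hm f) (h2 : 2 < L.p) (hψ : ∀ i, Pj f L (ψ i))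
    (hc : Cvr f L ψ) (hK : PL.DnK L) (hG : Gnr L ψ) (hA : A.Ok) (hM : M.Ok) (hL : Lga L A)
    (hLm : Lmf L M) (hAl : M.Alb Ω) {e : ℕ} (he : L.nm (L.p : Ω) = L.nm π ^ e) :
    Lst M L π e := by
  let _ : AddCommGroup ((Xf A.a).pt Ω) := A.G.grp Ω
  intro hp r h0 h1 lam hrat hlev z hz hS
  change M.S Ω z = 0 at hS
  obtain ⟨nb, hB, hnb⟩ := exists_bn L.p (q := L.nm (L.p : Ω)) L.p_pos L.lt
  obtain ⟨φ, q, hφ⟩ := exists_frob L.toLf (⊥ : IntermediateField K Ω)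
  obtain ⟨r₀, hr0, hrq, -⟩ := Ld.frob_q hφ
  rw [hrq] at hφ
  obtain ⟨hr1, hr2⟩ := Ld.frob_te hφ
  have hr₀ : L.Rf ⊥ r₀ := ⟨hr0, sup_le le_rfl (adjoin_le_iff.2 fun z hz => hr2 z hz), hr1⟩
  have h : Cx f L π ψ r₀ := ⟨hf, hπ, hψ, hc, h2, hr₀⟩
  have he0 : e ≠ 0 := by
    rintro rfl
    rw [pow_zero] at he
    exact L.lt.ne he
  have hq0 := hπ.pos
  -- the estimate of `lam`
  have hl : Lam f L π nb lam r (L.nm π ^ (r + e))⁻¹ := by
    refine ⟨hrat, fun s hs z hz => ?_⟩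
    obtain ⟨k, hk⟩ : ∃ k, k = (s - r) / e := ⟨_, rfl⟩
    have hk1 : k * e ≤ s - r := by rw [hk]; exact Nat.div_mul_le_self _ _
    have hk2 : s - r < (k + 1) * e := by
      rw [hk, mul_comm]
      exact Nat.lt_mul_div_succ _ (Nat.pos_of_ne_zero he0)
    have h3 : z ∈ Vl f L π (r + k * e) := vl_dr _ (dr_mono hπ (by omega) hz)
    have h4 := hnb _ k (hlev k z h3)
    refine h4.trans ?_
    rw [he, ← pow_mul, inv_mul_eq_div, le_div_iff₀ (pow_pos hq0 _), ← pow_add]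
    refine hπ.pow_le ?_
    have h5 : (k + 1) * e = e * k + e := by ring
    omega
  have hC : 0 ≤ (L.nm π ^ (r + e))⁻¹ := inv_nonneg.2 (pow_nonneg hq0.le _)
  have hz' := tx_tz h hB hl hC
  obtain ⟨D, hT⟩ := hz'.tp h hB hl (div_nonneg hC L.p_pos.le)
  obtain ⟨hh, D', hs⟩ := exists_hs (M := M) hf hψ hc hr₀ hB hT hK hG hAl
  obtain ⟨C', hC'⟩ := lam_small h hB hz' hs hA hM hL hLm
  -- the powers of `p`
  have hpk : ∀ k : ℕ, L.p ^ k • z ∈ Vl f L π (r + k * e) := by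
    intro k
    induction k with
    | zero => simpa using hz
    | succ k ih =>
      rw [pow_succ', mul_smul, add_mul, one_mul, ← add_assoc]
      refine vl_mul_e hπ hf hψ hc he (by omega) ?_ ih
      have h3 : 1 * (r + k * e) ≤ (L.p - 1) * (r + k * e) := Nat.mul_le_mul_right _ (by omega)
      omega
  have hnpk : ∀ (k : ℕ) (b : ℚ_[L.p]), nb (L.p ^ k • b) = L.nm (L.p : Ω) ^ k * nb b := by
    intro k b
    induction k with
    | zero => rw [pow_zero, pow_zero, one_smul, one_mul]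
    | succ k ih => rw [pow_succ', mul_smul, hB.mulp, ih, pow_succ', mul_assoc]
  have hfin : ∀ k : ℕ, nb (lam z) ≤ |C'| * L.nm (L.p : Ω) ^ k := by
    intro k
    obtain ⟨a, ha, b, hb, hab⟩ := AddSubgroup.mem_sup.1 (hpk k)
    have hS' : M.S Ω a = 0 := by
      have h3 : M.S Ω (a + b) = 0 := by rw [hab, map_nsmul, hS, smul_zero]
      rwa [map_add, RS.rs (K := K) hf hA hM hb, add_zero] at h3
    have h3 := hC' (r + k * e) a (by omega) (by omega) ha hS'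
    have h4 : lam a = L.p ^ k • lam z := by
      have h5 : lam (a + b) = L.p ^ k • lam z := by rw [hab, map_nsmul]
      rwa [map_add, hrat b hb, add_zero] at h5
    rw [h4, hnpk] at h3
    have hpp : 0 < L.nm (L.p : Ω) ^ k := pow_pos L.p_pos k
    have h6 : L.nm π ^ (2 * (r + k * e)) ≤ L.nm (L.p : Ω) ^ k * L.nm (L.p : Ω) ^ k := by
      rw [he, ← pow_mul, ← pow_add]
      refine hπ.pow_le ?_
      have h7 : 2 * (r + k * e) = 2 * r + (e * k + e * k) := by ring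
      omega
    have h7 : L.nm (L.p : Ω) ^ k * nb (lam z) ≤
        L.nm (L.p : Ω) ^ k * (|C'| * L.nm (L.p : Ω) ^ k) := by
      refine h3.trans ((mul_le_mul_of_nonneg_right (le_abs_self C')
        (pow_nonneg hq0.le _)).trans ((mul_le_mul_of_nonneg_left h6 (abs_nonneg _)).trans
          (le_of_eq ?_)))
      ring
    exact le_of_mul_le_mul_left h7 hpp
  have hlim : Filter.Tendsto (fun k : ℕ => |C'| * L.nm (L.p : Ω) ^ k) Filter.atTop
      (nhds (|C'| * 0)) :=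
    (tendsto_pow_atTop_nhds_zero_of_lt_one L.p_pos.le L.lt).const_mul _
  have h9 : nb (lam z) ≤ 0 := by
    have h10 := ge_of_tendsto' hlim hfin
    rwa [mul_zero] at h10
  exact (hB.zero_iff _).1 (le_antisymm h9 (hB.nonneg _))

end GX
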