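import Pool.Agent.Lib.MP_f80667_ag.Lc.A
import Pool.Agent.Lib.MP_f80667_ag.Lv.D
import Pool.Agent.Lib.MP_f80667_ag.Gx.Ft
import Pool.Agent.Lib.MP_f80667_ag.Gx.TsC
import Pool.Agent.Lib.MP_f80667_ag.Gx.TsD

/-!
A functional on the cycles: its derivative.

* `N0 r n`: `n ≠ 0` is a multiple of `r`. `vn L n`: the absolute value of `Ur ⊥ n`.
* `Cx f L π ψ r`: the hypotheses.
* `Xp f L n x`: primitive integral coordinates over `Ur ⊥ n` of a point. `Tn f L n x t`: a tangent vector over `Ur ⊥ n`.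
* `Lam f L π nb lam s₀ C`: `lam` is `0` on the cycles rationally equivalent to `0` and small on displacements of high level.
* `Vx L lam n x x'`: the value of `lam` at the trace of `[x'] - [x]`.
* `Tz L π nb r lam T s₀ C`: `T n x t` is the derivative of `lam`.
-/

open ZC BE PE CV IntermediateField

namespace GX

/-- A nonzero multiple of `r`. -/
def N0 (r n : ℕ) : Prop := n ≠ 0 ∧ r ∣ n

section

variable {F : Type} [Field F] {N d m : ℕ} {ι : Type} (f : ι → MvPolynomial (Fin N) F)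
  {K Ω : Type} [Field K] [Field Ω] [Algebra K Ω] [Algebra F K] [Algebra F Ω]
  [IsScalarTower F K Ω] (L : Ld K Ω)

/-- The absolute value of `Ur ⊥ n`. -/
def vn (n : ℕ) (a : ↥(L.Ur ⊥ n)) : ℝ := L.nm (a : Ω)

/-- The hypotheses. -/
structure Cx (π : Ω) (ψ : Fin m → Prj K N d) (r : ℕ) : Prop where
  hf : Hm f
  hπ : Uf L π
  hψ : ∀ i, Pj f L (ψ i)
  hc : Cvr f L ψ
  hp : 2 < L.p
  hr : L.Rf ⊥ r

/-- The equations over `Ω`. -/
noncomputable def fo (Ω : Type) [Field Ω] [Algebra F Ω] : ι → MvPolynomial (Fin N) Ω :=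
  fun i => MvPolynomial.map (algebraMap F Ω) (f i)

/-- Primitive integral coordinates over `Ur ⊥ n` of a point. -/
structure Xp (n : ℕ) (x : Fin N → Ω) : Prop where
  iv : Iv L (L.Ur ⊥ n) x
  one : ∃ i, L.nm (x i) = 1
  zero : ∀ i, MvPolynomial.aeval x (f i) = 0

/-- A tangent vector over `Ur ⊥ n`. -/
structure Tn' (n : ℕ) (x t : Fin N → Ω) : Prop where
  tg : Tg (fo f Ω) x t
  mem : ∀ i, t i ∈ L.Ur ⊥ n

variable {B : Type} [AddCommGroup B] [Module ℚ B]

/-- `lam` is `0` on the cycles rationally equivalent to `0` and small on displacements of high level. -/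
structure Lam (π : Ω) (nb : B → ℝ) (lam : ((Xf f).pt Ω →₀ ℤ) →+ B) (s₀ : ℕ) (C : ℝ) :
    Prop where
  rat : ∀ z ∈ (Xf f).ratEq K Ω, lam z = 0
  lev : ∀ s, s₀ ≤ s → ∀ z ∈ Dr f L π s (⊥ : IntermediateField K Ω), nb (lam z) ≤ C * L.nm π ^ s

variable {f}

open Classical in
/-- The value of `lam` at the trace of `[x'] - [x]`. -/
noncomputable def Vx (lam : ((Xf f).pt Ω →₀ ℤ) →+ B) (n : ℕ) (x x' : Fin N → Ω) : B :=
  if h : ∃ P P' : (Xf f).pt Ω, Co P x ∧ Co P' x' then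
    lam (rtr (Xf f) ⊥ (L.Ur ⊥ n) (Finsupp.single h.choose_spec.choose 1 -
      Finsupp.single h.choose 1)) else 0

/-- `T n x t` is the derivative of `lam`. -/
structure Tz (π : Ω) (nb : B → ℝ) (r : ℕ) (lam : ((Xf f).pt Ω →₀ ℤ) →+ B)
    (T : ℕ → (Fin N → Ω) → (Fin N → Ω) → B) (s₀ : ℕ) (C : ℝ) : Prop where
  add : ∀ n x t t', N0 r n → Xp f L n x → Tn' f L n x t → Tn' f L n x t' →
    T n x (t + t') = T n x t + T n x t'
  app : ∀ n x x' t s, N0 r n → Xp f L n x → Xp f L n x' → Tn' f L n x t → s₀ ≤ s → s ≠ 0 →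
    (∀ i, L.nm (t i) ≤ L.nm π ^ s) → (∀ i, L.nm (x' i - x i - t i) ≤ L.nm π ^ (2 * s)) →
      nb (Vx L lam n x x' - T n x t) ≤ C * L.nm π ^ (2 * s)

end

end GX
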