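import Mathlib

/-!
Bounded functionals.

* `Bn p q nb`: a `ℚ`-vector space `B` with an ultrametric absolute value `nb` such that `nb (p b) = q nb b`; sequences with
  `nb (u (k + 1) - u k) ≤ C q ^ k` converge.
* `Vf v`: an ultrametric absolute value of a field `M`.
* `HM hB hv`: the additive maps `φ : M → B` with `nb (φ a) ≤ C v a`; a vector space over `M` by `(a φ) (b) = φ (a b)`; `HM.nh`: the norm.
-/

namespace GX

/-- A `ℚ`-vector space with an ultrametric absolute value. -/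
structure Bn {B : Type} [AddCommGroup B] [Module ℚ B] (p : ℕ) (q : ℝ) (nb : B → ℝ) :
    Prop where
  pp : p.Prime
  q0 : 0 < q
  q1 : q < 1
  zero_iff : ∀ b, nb b = 0 ↔ b = 0
  nonneg : ∀ b, 0 ≤ nb b
  add : ∀ b b', nb (b + b') ≤ max (nb b) (nb b')
  neg : ∀ b, nb (-b) = nb b
  mulp : ∀ b, nb (p • b) = q * nb b
  unit : ∀ (k : ℕ) b, ¬ p ∣ k → nb (k • b) = nb b
  lim : ∀ (C : ℝ) (u : ℕ → B), (∀ k, nb (u (k + 1) - u k) ≤ C * q ^ k) →
    ∃ b, ∀ k, nb (u k - b) ≤ C * q ^ k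

/-- An ultrametric absolute value. -/
structure Vf {M : Type} [Field M] (v : M → ℝ) : Prop where
  zero_iff : ∀ a, v a = 0 ↔ a = 0
  nonneg : ∀ a, 0 ≤ v a
  add : ∀ a b, v (a + b) ≤ max (v a) (v b)
  mul : ∀ a b, v (a * b) = v a * v b

theorem Vf.pos {M : Type} [Field M] {v : M → ℝ} (hv : Vf v) {a : M} (ha : a ≠ 0) : 0 < v a :=
  lt_of_le_of_ne (hv.nonneg a) fun h => ha ((hv.zero_iff a).1 h.symm)

variable {M B : Type} [Field M] [AddCommGroup B] [Module ℚ B] {v : M → ℝ} {nb : B → ℝ} {p : ℕ}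
  {q : ℝ}

/-- The bounded additive maps. -/
def HG (hB : Bn p q nb) (_ : Vf v) : AddSubgroup (M →+ B) where
  carrier := {φ | ∃ C, ∀ a, nb (φ a) ≤ C * v a}
  zero_mem' := ⟨0, fun a => by
    change nb 0 ≤ 0 * v a
    rw [(hB.zero_iff 0).2 rfl, zero_mul]⟩
  add_mem' := by
    rintro φ χ ⟨C, hC⟩ ⟨D, hD⟩
    refine ⟨max C D, fun a => ?_⟩
    rename_i hv
    have h1 := hv.nonneg a
    refine (hB.add _ _).trans (max_le ((hC a).trans ?_) ((hD a).trans ?_))
    · exact mul_le_mul_of_nonneg_right (le_max_left _ _) h1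
    · exact mul_le_mul_of_nonneg_right (le_max_right _ _) h1
  neg_mem' := by
    rintro φ ⟨C, hC⟩
    refine ⟨C, fun a => ?_⟩
    change nb (-(φ a)) ≤ _
    rw [hB.neg]
    exact hC a

/-- The bounded additive maps. -/
def HM (hB : Bn p q nb) (hv : Vf v) : Type := ↥(HG hB hv)

namespace HM

variable {hB : Bn p q nb} {hv : Vf v}

instance : AddCommGroup (HM hB hv) := inferInstanceAs (AddCommGroup ↥(HG hB hv))

/-- The map. -/
def f (φ : HM hB hv) : M →+ B := φ.1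

theorem bd (φ : HM hB hv) : ∃ C, ∀ a, nb (φ.f a) ≤ C * v a := φ.2

theorem ext' {φ χ : HM hB hv} (h : ∀ a, φ.f a = χ.f a) : φ = χ :=
  Subtype.ext (AddMonoidHom.ext h)

/-- The map with the given values. -/
def mk (hB : Bn p q nb) (hv : Vf v) (φ : M →+ B) (h : ∃ C, ∀ a, nb (φ a) ≤ C * v a) :
    HM hB hv := ⟨φ, h⟩

theorem mk_f (φ : M →+ B) (h : ∃ C, ∀ a, nb (φ a) ≤ C * v a) : (mk hB hv φ h).f = φ := rfl

theorem add_f (φ χ : HM hB hv) (a : M) : (φ + χ).f a = φ.f a + χ.f a := rfl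

theorem zero_f (a : M) : (0 : HM hB hv).f a = 0 := rfl

theorem sub_f (φ χ : HM hB hv) (a : M) : (φ - χ).f a = φ.f a - χ.f a := rfl

theorem neg_f (φ : HM hB hv) (a : M) : (-φ).f a = -φ.f a := rfl

theorem sum_f {ι : Type} (s : Finset ι) (φ : ι → HM hB hv) (a : M) :
    (∑ i ∈ s, φ i).f a = ∑ i ∈ s, (φ i).f a := by
  classical
  induction s using Finset.induction_on with
  | empty => rw [Finset.sum_empty, Finset.sum_empty, zero_f]
  | insert i s hi h => rw [Finset.sum_insert hi, Finset.sum_insert hi, add_f, h]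

instance : Module M (HM hB hv) where
  smul a φ := mk hB hv (φ.f.comp (AddMonoidHom.mulLeft a)) (by
    obtain ⟨C, hC⟩ := φ.bd
    refine ⟨C * v a, fun b => ?_⟩
    change nb (φ.f (a * b)) ≤ _
    rw [mul_assoc, ← hv.mul]
    exact hC _)
  one_smul φ := ext' fun a => by
    change φ.f (1 * a) = φ.f a
    rw [one_mul]
  mul_smul a b φ := ext' fun c => by
    change φ.f (a * b * c) = φ.f (b * (a * c))
    congr 1
    ring
  smul_zero a := ext' fun c => rfl
  smul_add a φ χ := ext' fun c => rfl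
  add_smul a b φ := ext' fun c => by
    change φ.f ((a + b) * c) = φ.f (a * c) + φ.f (b * c)
    rw [add_mul, map_add]
  zero_smul φ := ext' fun c => by
    change φ.f (0 * c) = 0
    rw [zero_mul, map_zero]

theorem smul_f (a : M) (φ : HM hB hv) (b : M) : (a • φ).f b = φ.f (a * b) := rfl

/-- The norm. -/
noncomputable def nh (φ : HM hB hv) : ℝ := sSup (Set.range fun a : M => nb (φ.f a) / v a)

theorem nh_bdd (φ : HM hB hv) : BddAbove (Set.range fun a : M => nb (φ.f a) / v a) := by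
  obtain ⟨C, hC⟩ := φ.bd
  refine ⟨max C 0, ?_⟩
  rintro _ ⟨a, rfl⟩
  by_cases ha : a = 0
  · subst ha
    change nb (φ.f 0) / v 0 ≤ _
    rw [map_zero, (hB.zero_iff 0).2 rfl, zero_div]
    exact le_max_right _ _
  · refine (div_le_of_le_mul₀ (hv.nonneg a) (le_max_right _ _) ?_)
    exact (hC a).trans (mul_le_mul_of_nonneg_right (le_max_left _ _) (hv.nonneg a))

theorem nh_app (φ : HM hB hv) (a : M) : nb (φ.f a) ≤ nh φ * v a := by
  by_cases ha : a = 0
  · subst ha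
    rw [map_zero, (hB.zero_iff 0).2 rfl, (hv.zero_iff 0).2 rfl, mul_zero]
  · rw [← div_le_iff₀ (hv.pos ha)]
    exact le_csSup (nh_bdd φ) ⟨a, rfl⟩

theorem nh_le {φ : HM hB hv} {C : ℝ} (hC : 0 ≤ C) (h : ∀ a, nb (φ.f a) ≤ C * v a) :
    nh φ ≤ C := by
  refine csSup_le ⟨_, 0, rfl⟩ ?_
  rintro _ ⟨a, rfl⟩
  exact div_le_of_le_mul₀ (hv.nonneg a) hC (h a)

theorem nh_nonneg (φ : HM hB hv) : 0 ≤ nh φ := by
  refine (div_nonneg (hB.nonneg _) (hv.nonneg _)).trans (le_csSup (nh_bdd φ) ⟨0, rfl⟩)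

theorem nh_zero_iff (φ : HM hB hv) : nh φ = 0 ↔ φ = 0 := by
  constructor
  · intro h
    refine ext' fun a => ?_
    have h1 := nh_app φ a
    rw [h, zero_mul] at h1
    exact (hB.zero_iff _).1 (le_antisymm h1 (hB.nonneg _))
  · rintro rfl
    refine le_antisymm (nh_le le_rfl fun a => ?_) (nh_nonneg _)
    rw [zero_f, (hB.zero_iff 0).2 rfl, zero_mul]

theorem nh_add (φ χ : HM hB hv) : nh (φ + χ) ≤ max (nh φ) (nh χ) := by
  refine nh_le ((nh_nonneg φ).trans (le_max_left _ _)) fun a => ?_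
  rw [add_f]
  refine (hB.add _ _).trans (max_le ((nh_app φ a).trans ?_) ((nh_app χ a).trans ?_))
  · exact mul_le_mul_of_nonneg_right (le_max_left _ _) (hv.nonneg a)
  · exact mul_le_mul_of_nonneg_right (le_max_right _ _) (hv.nonneg a)

theorem nh_smul (a : M) (φ : HM hB hv) : nh (a • φ) = v a * nh φ := by
  have h1 : ∀ (a : M) (φ : HM hB hv), nh (a • φ) ≤ v a * nh φ := by
    intro a φ
    refine nh_le (mul_nonneg (hv.nonneg a) (nh_nonneg φ)) fun b => ?_
    rw [smul_f]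
    refine (nh_app φ _).trans (le_of_eq ?_)
    rw [hv.mul]
    ring
  by_cases ha : a = 0
  · subst ha
    rw [zero_smul, (nh_zero_iff _).2 rfl, (hv.zero_iff 0).2 rfl, zero_mul]
  refine le_antisymm (h1 a φ) ?_
  have h2 := h1 a⁻¹ (a • φ)
  rw [smul_smul, inv_mul_cancel₀ ha, one_smul] at h2
  have h3 : v a * v a⁻¹ = 1 := by
    rw [← hv.mul, mul_inv_cancel₀ ha]
    have h4 := hv.mul 1 1
    rw [one_mul] at h4
    have h5 : v (1 : M) ≠ 0 := (hv.pos one_ne_zero).ne'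
    exact (mul_left_cancel₀ h5 (by rw [mul_one]; exact h4)).symm
  calc v a * nh φ ≤ v a * (v a⁻¹ * nh (a • φ)) := mul_le_mul_of_nonneg_left h2 (hv.nonneg a)
    _ = nh (a • φ) := by rw [← mul_assoc, h3, one_mul]

end HM

end GX
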