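import Pool.Agent.Lib.MP_f80667_ag.Gx.Eh

/-! Density over a set of points. -/

open MvPolynomial

namespace GX

variable {κ : Type} [Field κ] {N d m : ℕ} {ι : Type} {f : ι → MvPolynomial (Fin N) κ}

/-- A polynomial which vanishes at the points of the hypersurface over a dense set `Z` is a multiple of `G`. -/
theorem dens_z {G Φ : Polynomial (MvPolynomial (Fin (d + 1)) κ)}
    {D : MvPolynomial (Fin (d + 1)) κ} (hG : G.Monic) {Z : Set (Fin (d + 1) → κ)}
    (hZ : ∀ q : MvPolynomial (Fin (d + 1)) κ, (∀ c ∈ Z, eval c q = 0) → q = 0)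
    (hZD : ∀ c ∈ Z, eval c D ≠ 0)
    (hb : ∃ B B', B * G + B' * Polynomial.derivative G = Polynomial.C D)
    (hspl : ∀ g : Polynomial κ, g ≠ 0 → g.natDegree ≤ G.natDegree →
      Multiset.card g.roots = g.natDegree)
    (h : ∀ c ∈ Z, ∀ w, pe c w G = 0 → pe c w Φ = 0) : G ∣ Φ := by
  rw [← Polynomial.modByMonic_eq_zero_iff_dvd hG]
  by_cases hG1 : G = 1
  · rw [hG1, Polynomial.modByMonic_one]
  obtain ⟨B, B', hB⟩ := hb
  have key : ∀ c ∈ Z, (Φ %ₘ G).map (MvPolynomial.eval c) = 0 := by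
    intro c hcZ
    have hc := hZD c hcZ
    have hmon : (G.map (MvPolynomial.eval c)).Monic := hG.map _
    have hdeg : (G.map (MvPolynomial.eval c)).natDegree = G.natDegree := hG.natDegree_map _
    have hsep : (G.map (MvPolynomial.eval c)).Separable := by
      have h1 := congrArg (Polynomial.map (MvPolynomial.eval c)) hB
      rw [Polynomial.map_add, Polynomial.map_mul, Polynomial.map_mul, Polynomial.map_C,
        ← Polynomial.derivative_map] at h1
      refine ⟨Polynomial.C (eval c D)⁻¹ * B.map (MvPolynomial.eval c),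
        Polynomial.C (eval c D)⁻¹ * B'.map (MvPolynomial.eval c), ?_⟩
      rw [mul_assoc, mul_assoc, ← mul_add, h1, ← Polynomial.C_mul, inv_mul_cancel₀ hc,
        Polynomial.C_1]
    have hcard : Multiset.card (G.map (MvPolynomial.eval c)).roots = G.natDegree := by
      rw [hspl _ hmon.ne_zero hdeg.le, hdeg]
    have hnd := Polynomial.nodup_roots hsep
    classical
    refine Polynomial.eq_zero_of_natDegree_lt_card_of_eval_eq_zero' _
      (G.map (MvPolynomial.eval c)).roots.toFinset ?_ ?_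
    · intro w hw
      rw [Multiset.mem_toFinset, Polynomial.mem_roots hmon.ne_zero, Polynomial.IsRoot.def,
        gc_pe] at hw
      have h1 := h c hcZ w hw
      rw [gc_pe]
      have h2 := congrArg (pe c w) (Polynomial.modByMonic_add_div Φ G)
      rw [map_add, map_mul, hw, zero_mul, add_zero, h1] at h2
      exact h2
    · rw [Multiset.toFinset_card_of_nodup hnd, hcard]
      exact lt_of_le_of_lt (Polynomial.natDegree_map_le)
        (Polynomial.natDegree_modByMonic_lt Φ hG hG1)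
  ext1 j
  rw [Polynomial.coeff_zero]
  refine hZ _ fun c hc => ?_
  have h4 := congrArg (fun q => Polynomial.coeff q j) (key c hc)
  simp only [Polynomial.coeff_map, Polynomial.coeff_zero] at h4
  exact h4

private theorem lc_single (ψ : Prj κ N d) (c : Fin (d + 1) → κ) (w : κ) (r : Fin (d + 1))
    (j : Fin N) : ψ.lt c w (Pi.single r 1) j = pe c w (ψ.tp r j) /
      (eval c ψ.D ^ 2 * pe c w (Polynomial.derivative ψ.G)) := by
  rw [Prj.lt, Finset.sum_eq_single r]
  · rw [Pi.single_eq_same, one_mul]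
  · intro b _ hb
    rw [Pi.single_eq_of_ne hb, zero_mul]
  · intro h
    exact absurd (Finset.mem_univ r) h

/-- The principle: an identity at all points over `Z`. -/
theorem key_z {ψ : Prj κ N d} (h : ψ.Ok f) {Z : Set (Fin (d + 1) → κ)}
    (hZ : ∀ q : MvPolynomial (Fin (d + 1)) κ, (∀ c ∈ Z, eval c q = 0) → q = 0)
    (hZD : ∀ c ∈ Z, eval c ψ.D ≠ 0)
    (hspl : ∀ g : Polynomial κ, g ≠ 0 → g.natDegree ≤ ψ.G.natDegree →
      Multiset.card g.roots = g.natDegree) (E : MvPolynomial (Fin N ⊕ Fin N) κ)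
    (r : Fin (d + 1))
    (hE : ∀ c ∈ Z, ∀ w : κ, pe c w ψ.G = 0 →
      aeval (Sum.elim (ψ.pt c w) (ψ.lt c w (Pi.single r 1)) : Fin N ⊕ Fin N → κ) E = 0)
    {x : Fin N → κ} (hx : Zp f x) (hD : eval (ψ.uv x) ψ.D ≠ 0) :
    aeval (Sum.elim x (ψ.lt (ψ.uv x) (ψ.yv x) (Pi.single r 1)) : Fin N ⊕ Fin N → κ) E = 0 := by
  obtain ⟨hG, hpt⟩ := h.pt_eq hx hD
  have hgy := h.gy_ne hG hD
  have hsum : ∀ c w, (Sum.elim (fun j => pe c w (ψ.A j) / aeval c ψ.D) fun j =>
      pe c w (ψ.tp r j) / (aeval c ψ.D ^ 2 * pe c w (Polynomial.derivative ψ.G)) :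
        Fin N ⊕ Fin N → κ) = Sum.elim (ψ.pt c w) (ψ.lt c w (Pi.single r 1)) := by
    intro c w
    congr 1
    funext j
    exact (lc_single ψ c w r j).symm
  obtain ⟨e, Φ, hΦ⟩ := exists_pb ψ r E
  have hdvd : ψ.G ∣ Φ := by
    refine dens_z h.mon hZ hZD h.bez hspl fun c hc w hw => ?_
    have h1 := hΦ κ c w (hZD c hc) (h.gy_ne hw (hZD c hc))
    rw [hsum, hE c hc w hw, mul_zero] at h1
    exact h1
  obtain ⟨q, rfl⟩ := hdvd
  have h3 := hΦ κ (ψ.uv x) (ψ.yv x) hD hgy
  rw [map_mul, hG, zero_mul, hsum, hpt] at h3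
  exact (mul_eq_zero.1 h3.symm).resolve_left
    (pow_ne_zero _ (mul_ne_zero (pow_ne_zero _ hD) hgy))

/-- `ev` of a sum. -/
theorem ev_sum' (ψ : Prj κ N d) (P : ℕ → Fin (d + 1) → MvPolynomial (Fin (d + 1)) κ)
    (x : Fin N → κ) {τ : Type} (s : Finset τ) (a : τ → κ) (v : τ → Fin N → κ) :
    ψ.ev P x (∑ r ∈ s, a r • v r) = ∑ r ∈ s, a r * ψ.ev P x (v r) := by
  classical
  induction s using Finset.induction_on with
  | empty =>
    rw [Finset.sum_empty, Finset.sum_empty]
    have h := ψ.ev_smul P x 0 0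
    rwa [zero_smul, zero_mul] at h
  | insert i s hi ih =>
    rw [Finset.sum_insert hi, Finset.sum_insert hi, Prj.ev_add, Prj.ev_smul, ih]

private theorem lc_id (ψ : Prj κ N d) : ψ.map (algebraMap κ κ) = ψ := by
  have h : (MvPolynomial.map (algebraMap κ κ) :
      MvPolynomial (Fin (d + 1)) κ →+* MvPolynomial (Fin (d + 1)) κ) = RingHom.id _ := by
    refine RingHom.ext fun a => ?_
    exact MvPolynomial.map_id a
  cases ψ
  unfold Prj.map
  congr 1
  · change Polynomial.map (MvPolynomial.map (algebraMap κ κ)) _ = _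
    rw [h, Polynomial.map_id]
  · exact MvPolynomial.map_id _
  · funext j
    change Polynomial.map (MvPolynomial.map (algebraMap κ κ)) _ = _
    rw [h, Polynomial.map_id]

theorem ev_evq (ψ : Prj κ N d) (P : ℕ → Fin (d + 1) → MvPolynomial (Fin (d + 1)) κ)
    (x t : Fin N → κ) : aeval (Sum.elim x t : Fin N ⊕ Fin N → κ) (ψ.evq P) = ψ.ev P x t := by
  rw [evq_aeval, lc_id]
  congr 1
  funext j r
  exact MvPolynomial.map_id _

theorem gy_cp (ψ : Prj κ N d) (x : Fin N → κ) :
    aeval x (ψ.cp (Polynomial.derivative ψ.G)) = ψ.gy x := by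
  rw [← gy_map, lc_id]

theorem D_cp (ψ : Prj κ N d) (x : Fin N → κ) :
    aeval x (ψ.cp (Polynomial.C ψ.D)) = eval (ψ.uv x) ψ.D := by
  rw [cp_aeval, pe_C]
  rfl

theorem inl_ae (x t : Fin N → κ) (Q : MvPolynomial (Fin N) κ) :
    aeval (Sum.elim x t : Fin N ⊕ Fin N → κ) (rename Sum.inl Q) = aeval x Q := by
  rw [aeval_rename, Sum.elim_comp_inl]

end GX
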