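import Pool.Agent.Lib.MP_f80667_ag.Lc.B

/-!
The roots of `G (c, Y)` over `Ur ⊥ n`.

* `kd ψ`: the factorial of the degree of `G`.
-/

open ZC BE PE CV IntermediateField

namespace GX

variable {F : Type} [Field F] {N d : ℕ} {ι : Type} {f : ι → MvPolynomial (Fin N) F}
  {K Ω : Type} [Field K] [CharZero K] [Field Ω] [Algebra K Ω] [Algebra F K] [Algebra F Ω]
  [IsScalarTower F K Ω] [IsAlgClosure K Ω] {L : Ld K Ω} {π : Ω} {ψ : Prj K N d} {r n : ℕ}

/-- The factorial of the degree of `G`. -/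
noncomputable def kd (ψ : Prj K N d) : ℕ := ψ.G.natDegree.factorial

omit [CharZero K] in
theorem kd_ne (ψ : Prj K N d) : kd ψ ≠ 0 := Nat.factorial_ne_zero _

section te

variable {K Ω : Type} [Field K] [Field Ω] [Algebra K Ω] (L : Ld K Ω)

private theorem te_sum {ι : Type} (s : Finset ι) (a : ι → Ω) (h : ∀ i ∈ s, L.nm (a i) < 1) :
    L.nm (∑ i ∈ s, a i) < 1 := by
  classical
  induction s using Finset.induction_on with
  | empty =>
    rw [Finset.sum_empty, L.zero]
    exact zero_lt_one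
  | insert i s hi ih =>
    rw [Finset.sum_insert hi]
    exact (L.add _ _).trans_lt (max_lt (h i (Finset.mem_insert_self i s))
      (ih fun j hj => h j (Finset.mem_insert_of_mem hj)))

private theorem te_prod {ι : Type} (s : Finset ι) (a : ι → Ω) (h : ∀ i ∈ s, L.nm (a i) = 1) :
    L.nm (∏ i ∈ s, a i) = 1 := by
  classical
  induction s using Finset.induction_on with
  | empty => rw [Finset.prod_empty, L.one]
  | insert i s hi ih =>
    rw [Finset.prod_insert hi, L.mul, h i (Finset.mem_insert_self i s),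
      ih fun j hj => h j (Finset.mem_insert_of_mem hj), one_mul]

/-- A monic integral polynomial of degree `k` has at most `k` roots modulo the maximal ideal. -/
private theorem te_lag {g : Polynomial Ω} (hg : g.Monic) {v : ℕ → Ω}
    (hv : Set.InjOn v (Finset.range (g.natDegree + 1)))
    (h1 : ∀ i ∈ Finset.range (g.natDegree + 1), ∀ j ∈ Finset.range (g.natDegree + 1),
      i ≠ j → L.nm (v i - v j) = 1)
    (h2 : ∀ i ∈ Finset.range (g.natDegree + 1), L.nm (g.eval (v i)) < 1) : False := by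
  have h3 := Lagrange.leadingCoeff_eq_sum (s := Finset.range (g.natDegree + 1)) (v := v) hv
    (P := g) (by
      rw [Finset.card_range, Polynomial.degree_eq_natDegree hg.ne_zero]
      norm_cast)
  rw [hg.leadingCoeff] at h3
  have h4 : L.nm (∑ i ∈ Finset.range (g.natDegree + 1), (g.eval (v i)) /
      ∏ j ∈ (Finset.range (g.natDegree + 1)).erase i, (v i - v j)) < 1 := by
    refine te_sum L _ _ fun i hi => ?_
    have h5 : L.nm (∏ j ∈ (Finset.range (g.natDegree + 1)).erase i, (v i - v j)) = 1 :=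
      te_prod L _ _ fun j hj => h1 i hi j (Finset.mem_of_mem_erase hj)
        (Finset.ne_of_mem_erase hj).symm
    have h6 : (∏ j ∈ (Finset.range (g.natDegree + 1)).erase i, (v i - v j)) ≠ 0 := by
      intro h
      rw [h, L.zero] at h5
      exact zero_ne_one h5
    have h7 := L.mul (g.eval (v i) / ∏ j ∈ (Finset.range (g.natDegree + 1)).erase i, (v i - v j))
      (∏ j ∈ (Finset.range (g.natDegree + 1)).erase i, (v i - v j))
    rw [div_mul_cancel₀ _ h6, h5, mul_one] at h7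
    rw [← h7]
    exact h2 i hi
  rw [← h3, L.one] at h4
  exact lt_irrefl _ h4

end te

/-- An integral number which satisfies modulo the maximal ideal a monic equation of degree `k` over the integers of `Ur ⊥ n` is congruent to a number of `Te (n k!)`. Proof: `Ld.te_rep`: it is
congruent to `z ∈ Te N'`, `n ∣ N'`; the conjugates of `z` over `Ur ⊥ n` are the `z ^ (p ^ (n i))` (Frobenius: `Ld.frob_te` / `exists_frob`), pairwise incongruent (`Ld.te_inj`), and all satisfy the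
congruence, so there are at most `k` of them (a polynomial of degree `k` over the residue field); so the smallest `g` with `z ^ (p ^ (n g)) = z` satisfies `g ≤ k`, `g ∣ k!`. -/
theorem te_eq (hr : L.Rf ⊥ r) (hn : N0 r n) {g : Polynomial Ω} (hg : g.Monic)
    (hgi : ∀ j, g.coeff j ∈ L.Ur ⊥ n ∧ L.nm (g.coeff j) ≤ 1) {w : Ω} (hw : L.nm w ≤ 1)
    (h : L.nm (g.eval w) < 1) :
    ∃ z ∈ L.Te (n * g.natDegree.factorial), L.nm (w - z) < 1 := by
  obtain ⟨hn0, d, rfl⟩ := hn
  have hd : d ≠ 0 := right_ne_zero_of_mul hn0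
  have hM : FiniteDimensional K (L.Ur ⊥ (r * d)) := Ld.ur_fin ⊥ (r * d) hn0
  have hR : L.Rf (L.Ur ⊥ (r * d)) (r * d) := Ld.rf_ur hr hd
  obtain ⟨φ, q, hφ⟩ := exists_frob L.toLf (L.Ur ⊥ (r * d))
  have hq : q = L.p ^ (r * d) := Ld.rf_frob hR hφ
  obtain ⟨-, -, -, hφz⟩ := Ld.frob_q hφ
  have hfix : ∀ j, φ (g.coeff j) = g.coeff j := fun j =>
    (IntermediateField.mem_fixingSubgroup_iff _ φ).1 hφ.mem (g.coeff j) (hgi j).1
  obtain ⟨n, hnd⟩ : ∃ n, n = r * d := ⟨_, rfl⟩
  rw [← hnd] at hq hn0 ⊢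
  obtain ⟨N', hN', z, hz, hwz⟩ := Ld.te_rep (L := L) hw
  refine ⟨z, ?_, hwz⟩
  have hz1 := Ld.te_int hN' hz
  have hev : ∀ x, g.eval (φ x) = φ (g.eval x) := by
    intro x
    have h1 : g.map (φ : Ω →+* Ω) = g := by
      ext j
      rw [Polynomial.coeff_map]
      exact hfix j
    have h2 := Polynomial.eval₂_at_apply (p := g) (φ : Ω →+* Ω) x
    rw [← Polynomial.eval_map, h1] at h2
    exact h2
  obtain ⟨v, hv⟩ : ∃ v : ℕ → Ω, ∀ i, v i = z ^ L.p ^ (n * i) := ⟨_, fun _ => rfl⟩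
  have hvte : ∀ i, v i ∈ L.Te N' := by
    intro i
    rw [hv]
    change (z ^ L.p ^ (n * i)) ^ L.p ^ N' = z ^ L.p ^ (n * i)
    rw [pow_right_comm, show z ^ L.p ^ N' = z from hz]
  have hvs : ∀ i, φ (v i) = v (i + 1) := by
    intro i
    rw [hφz N' hN' _ (hvte i), hq, hv, hv, ← pow_mul, ← pow_add, mul_add, mul_one]
  have hv0 : v 0 = z := by rw [hv, mul_zero, pow_zero, pow_one]
  have hroot : ∀ i, L.nm (g.eval (v i)) < 1 := by
    intro i
    induction i with
    | zero =>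
      rw [hv0]
      have h1 := L.eval_close (f := g) (fun j => (hgi j).2) hz1 hw
      have h2 : g.eval z = (g.eval z - g.eval w) + g.eval w := by ring
      rw [h2]
      refine (L.add _ _).trans_lt (max_lt (h1.trans_lt ?_) h)
      rw [L.sub_comm]
      exact hwz
    | succ i ih =>
      rw [← hvs, hev, L.act]
      exact ih
  by_cases hinj : Set.InjOn v (Finset.range (g.natDegree + 1))
  · exfalso
    refine te_lag L hg hinj (fun i hi j hj hij => ?_) fun i _ => hroot i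
    refine le_antisymm ((L.sub _ _).trans (max_le (Ld.te_int hN' (hvte i))
      (Ld.te_int hN' (hvte j)))) ?_
    by_contra hc
    exact hij (hinj hi hj (Ld.te_inj hN' (hvte i) (hvte j) (not_le.1 hc)))
  · have hex : ∃ i e, e ≠ 0 ∧ e ≤ g.natDegree ∧ v (i + e) = v i := by
      unfold Set.InjOn at hinj
      push Not at hinj
      obtain ⟨i, hi, j, hj, hij, hne⟩ := hinj
      rw [Finset.mem_coe, Finset.mem_range] at hi hj
      rcases lt_or_gt_of_ne hne with hlt | hlt
      · refine ⟨i, j - i, by omega, by omega, ?_⟩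
        rw [Nat.add_sub_cancel' hlt.le]
        exact hij.symm
      · refine ⟨j, i - j, by omega, by omega, ?_⟩
        rw [Nat.add_sub_cancel' hlt.le]
        exact hij
    obtain ⟨i, e, he0, hek, hie⟩ := hex
    have h0 : ∀ i, v (i + e) = v i → v e = v 0 := by
      intro i
      induction i with
      | zero =>
        intro h
        rwa [zero_add] at h
      | succ i ih =>
        intro h
        refine ih (φ.injective ?_)
        rw [hvs, hvs, ← h]
        congr 1
        omega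
    have h1 := h0 i hie
    rw [hv0, hv] at h1
    have h2 : z ∈ L.Te (n * e) := h1
    exact Ld.te_dvd (mul_dvd_mul_left n (Nat.dvd_factorial (Nat.pos_of_ne_zero he0) hek)) h2

/-- **The roots are over `Ur ⊥ (n k!)`.** Proof: `te_eq` for `G (c, Y)`; `nm (G (c, z)) < 1`, so there is a root `w' ∈ Ur ⊥ (n k!)` with `nm (w' - z) < 1` (`Pj.root`), `w = w'` by `root_uniq'`. -/
theorem rt_ur (h : Pj f L ψ) (hr : L.Rf ⊥ r) (hn : N0 r n) {c : Fin (d + 1) → Ω}
    (hc : Iv L (L.Ur ⊥ n) c) (hD : L.nm (MvPolynomial.aeval c ψ.D) = 1) {w : Ω}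
    (hw : pe c w ψ.G = 0) : w ∈ L.Ur ⊥ (n * kd ψ) := by
  have hc1 : ∀ r, L.nm (c r) ≤ 1 := fun r => (hc r).2
  have hw1 : L.nm w ≤ 1 := root_int' h hc1 hw
  set g : Polynomial Ω := ψ.G.map
    (MvPolynomial.aeval c : MvPolynomial (Fin (d + 1)) K →ₐ[K] Ω).toRingHom with hg
  have hgm : g.Monic := h.mon.map _
  have hgd : g.natDegree = ψ.G.natDegree := h.mon.natDegree_map _
  have hge : g.eval w = pe c w ψ.G := by
    rw [hg, Polynomial.eval_map, pe, Polynomial.coe_eval₂RingHom]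
  obtain ⟨z, hz, hwz⟩ := te_eq hr hn hgm (fun j => by
    rw [hg, Polynomial.coeff_map]
    exact ⟨aev_mem _ fun r => (hc r).1, GM.ae_le (h.iG j) hc1⟩) hw1 (by
    rw [hge, hw, L.zero]
    exact zero_lt_one)
  rw [hgd] at hz
  have hn' : n * ψ.G.natDegree.factorial ≠ 0 := Nat.mul_ne_zero hn.1 (Nat.factorial_ne_zero _)
  have hz1 : L.nm z ≤ 1 := Ld.te_int hn' hz
  have hGz : L.nm (pe c z ψ.G) < 1 := by
    have h1 := pe_close (L := L) h.iG hc1 hw1 hc1 hz1 (L.nonneg (w - z))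
      (fun r => by
        rw [sub_self, L.zero]
        exact L.nonneg _) le_rfl
    rw [hw, zero_sub, L.neg] at h1
    exact h1.trans_lt hwz
  have hcM : Iv L (L.Ur ⊥ (n * ψ.G.natDegree.factorial)) c := fun r =>
    ⟨Ld.ur_dvd ⊥ (Dvd.intro _ rfl) (hc r).1, (hc r).2⟩
  obtain ⟨w', hw'M, -, hw'0, hw'z⟩ := h.root hcM hD (Ld.te_ur hz) hz1 hGz
  have h2 : L.nm (w' - w) < 1 := by
    have h3 : w' - w = (w' - z) - (w - z) := by ring
    rw [h3]
    exact (L.sub _ _).trans_lt (max_lt (hw'z.trans_lt hGz) hwz)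
  rw [← root_uniq' h hc1 hD hw hw'0 h2]
  exact hw'M

omit [CharZero K] [IsAlgClosure K Ω] in
/-- Proof: `Prj.Ok.gc_smul` for `ψ.om Ω`. -/
theorem rt_smul {c : Fin (d + 1) → Ω} {s : Ω} (h : Pj f L ψ)
    (hD : MvPolynomial.aeval c ψ.D ≠ 0) (hs : s ≠ 0) :
    rt ψ (s • c) = open Classical in (rt ψ c).image fun w => s * w := by
  classical
  have h1 := h.ok.gc_smul (c := c) (by rw [om_D]; exact hD) hs
  unfold rt
  rw [h1, Multiset.toFinset_map]

/-- The roots over a residue disc. Let all roots over `c` be over `Ur ⊥ n` and let all projections `ψ' i'` be good at the points over `c`. The same is true for `c'` congruent to `c`. Proof: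
a root `w'` of `G (c', Y)`: `nm (G (c, w')) < 1` (`pe_close`), so there is a root `w` of `G (c, Y)` with `nm (w - w') < 1` (`Pj.root` over `⊤`), `w ∈ Ur ⊥ n`, and a root `w''` of
`G (c', Y)` in `Ur ⊥ n` near `w` (`Pj.root`); `w' = w''` (`root_uniq'`); `Pj.pt_close`, `lv_close`, `Pj.D_close`. -/
theorem rt_disc {m : ℕ} {ψ' : Fin m → Prj K N d} (h : Pj f L ψ) (h' : ∀ i, Pj f L (ψ' i))
    {c c' : Fin (d + 1) → Ω} (hc : Iv L (L.Ur ⊥ n) c) (hc' : Iv L (L.Ur ⊥ n) c')
    (hD : L.nm (MvPolynomial.aeval c ψ.D) = 1) (hcc : ∀ r, L.nm (c' r - c r) < 1)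
    (hw : ∀ w, pe c w ψ.G = 0 → w ∈ L.Ur ⊥ n ∧
      ∀ i, L.nm (MvPolynomial.aeval ((ψ' i).uv ((ψ.om Ω).pt c w)) (ψ' i).D) = 1)
    {w' : Ω} (hw' : pe c' w' ψ.G = 0) : w' ∈ L.Ur ⊥ n ∧
      ∀ i, L.nm (MvPolynomial.aeval ((ψ' i).uv ((ψ.om Ω).pt c' w')) (ψ' i).D) = 1 := by
  have hc1 : ∀ r, L.nm (c r) ≤ 1 := fun r => (hc r).2
  have hc1' : ∀ r, L.nm (c' r) ≤ 1 := fun r => (hc' r).2
  have hcc' : ∀ r, L.nm (c r - c' r) < 1 := fun r => by
    rw [L.sub_comm]
    exact hcc r
  have hD' : L.nm (MvPolynomial.aeval c' ψ.D) = 1 := h.D_close hc1 hc1' hcc' hD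
  have hw1' : L.nm w' ≤ 1 := root_int' h hc1' hw'
  obtain ⟨r₀, -, hr₀⟩ := Finset.exists_max_image Finset.univ (fun r => L.nm (c r - c' r))
    ⟨0, Finset.mem_univ _⟩
  set t : ℝ := L.nm (c r₀ - c' r₀) with ht
  have ht0 : 0 ≤ t := L.nonneg _
  have ht1 : t < 1 := hcc' r₀
  have htc : ∀ r, L.nm (c r - c' r) ≤ t := fun r => hr₀ r (Finset.mem_univ _)
  have h1 : L.nm (pe c w' ψ.G) < 1 := by
    have h2 := pe_close (L := L) h.iG hc1 hw1' hc1' hw1' ht0 htc (by
      rw [sub_self, L.zero]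
      exact ht0)
    rw [hw', sub_zero] at h2
    exact h2.trans_lt ht1
  obtain ⟨w, -, hw1, hw0, hww⟩ := h.root (M := ⊤) (c := c)
    (fun r => ⟨IntermediateField.mem_top, hc1 r⟩) hD (w₀ := w') IntermediateField.mem_top hw1' h1
  have hww1 : L.nm (w - w') < 1 := hww.trans_lt h1
  obtain ⟨hwU, hwD⟩ := hw w hw0
  have h3 : L.nm (pe c' w ψ.G) < 1 := by
    have h2 := pe_close (L := L) h.iG hc1' hw1 hc1 hw1 ht0 (fun r => by
      rw [L.sub_comm]
      exact htc r) (by
      rw [sub_self, L.zero]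
      exact ht0)
    rw [hw0, sub_zero] at h2
    exact h2.trans_lt ht1
  obtain ⟨w'', hw''U, -, hw''0, hw''w⟩ := h.root (M := L.Ur ⊥ n) (c := c') hc' hD' hwU hw1 h3
  have h4 : w'' = w' := by
    refine root_uniq' h hc1' hD' hw' hw''0 ?_
    have h5 : w'' - w' = (w'' - w) + (w - w') := by ring
    rw [h5]
    exact (L.add _ _).trans_lt (max_lt (hw''w.trans_lt h3) hww1)
  refine ⟨h4 ▸ hw''U, fun i => ?_⟩
  set s : ℝ := max t (L.nm (w - w')) with hs
  have hs0 : 0 ≤ s := ht0.trans (le_max_left _ _)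
  have hs1 : s < 1 := max_lt ht1 hww1
  have hpt := fun j => h.pt_close hc1 hw1 hc1' hw1' hD hD' hs0
    (fun r => (htc r).trans (le_max_left _ _)) (le_max_right t (L.nm (w - w'))) j
  have hI := (h.pt_iv (M := ⊤) (c := c) (fun r => ⟨IntermediateField.mem_top, hc1 r⟩)
    IntermediateField.mem_top hw1 hw0 hD).1
  have hI' := (h.pt_iv (M := ⊤) (c := c') (fun r => ⟨IntermediateField.mem_top, hc1' r⟩)
    IntermediateField.mem_top hw1' hw' hD').1
  refine (h' i).D_close ((h' i).uv_le fun j => (hI j).2).1 ((h' i).uv_le fun j => (hI' j).2).1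
    (fun r => ?_) (hwD i)
  exact (lv_close ((h' i).iu r) hs0 hpt).trans_lt hs1

end GX
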