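import Pool.Agent.Lib.MP_f80667_ag.Lc.H
import Pool.Agent.Lib.MP_f80667_ag.Lc.R

/-!
The functionals `P_j (c; ξ)`.

* `Gd L ψ n c`: `c` is integral over `Ur ⊥ n` and `D (c)` is a unit.
* `rs n k φ`: the restriction of a functional on `Ur ⊥ (n k)` to `Ur ⊥ n`, divided by `k`.
* `Pn hB T ψ n j c ξ`: the functional `a ↦ (1 / k) ∑ T (n k) (pt c w) ((a w ^ j) lt c w ξ)`, `k = kd ψ`, the sum over the roots `w`.
-/

open ZC BE PE CV IntermediateField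

namespace GX

variable {F : Type} [Field F] {N d m : ℕ} {ι : Type} {f : ι → MvPolynomial (Fin N) F}
  {K Ω : Type} [Field K] [CharZero K] [Field Ω] [Algebra K Ω] [Algebra F K] [Algebra F Ω]
  [IsScalarTower F K Ω] [IsAlgClosure K Ω] {L : Ld K Ω} {π : Ω} {ψ : Fin m → Prj K N d} {r n : ℕ}
  {B : Type} [AddCommGroup B] [Module ℚ B] {nb : B → ℝ}
  {C : ℝ} {T : ℕ → (Fin N → Ω) → (Fin N → Ω) → B} {hB : Bn L.p (L.nm (L.p : Ω)) nb}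

/-- `c` is integral over `Ur ⊥ n` and `D (c)` is a unit. -/
structure Gd (L : Ld K Ω) (ψ : Prj K N d) (n : ℕ) (c : Fin (d + 1) → Ω) : Prop where
  iv : Iv L (L.Ur ⊥ n) c
  dv : L.nm (MvPolynomial.aeval c ψ.D) = 1

omit [CharZero K] [IsAlgClosure K Ω] in
theorem incl_coe {E E' : IntermediateField K Ω} (h : E ≤ E') (a : E) :
    ((IntermediateField.inclusion h).toRingHom a : Ω) = a := rfl

/-- The inclusion. -/
noncomputable def iu (L : Ld K Ω) (n k : ℕ) : ↥(L.Ur ⊥ n) →+* ↥(L.Ur ⊥ (n * k)) :=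
  (IntermediateField.inclusion (Ld.ur_dvd ⊥ (dvd_mul_right n k))).toRingHom

omit [CharZero K] [IsAlgClosure K Ω] in
theorem iu_coe (n k : ℕ) (a : ↥(L.Ur ⊥ n)) : (iu L n k a : Ω) = a :=
  incl_coe (Ld.ur_dvd ⊥ (dvd_mul_right n k)) a

omit [CharZero K] [IsAlgClosure K Ω] in
private theorem pa_vn (n k : ℕ) (a : ↥(L.Ur ⊥ n)) : vn L (n * k) (iu L n k a) = vn L n a := by
  unfold vn
  rw [iu_coe]

private theorem pa_pow {p : ℕ} {q : ℝ} (hb : Bn p q nb) (e : ℕ) (b : B) :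
    nb ((p ^ e) • b) = q ^ e * nb b := by
  induction e with
  | zero => rw [pow_zero, pow_zero, one_smul, one_mul]
  | succ e ih => rw [pow_succ', mul_smul, hb.mulp, ih, pow_succ', mul_assoc]

private theorem pa_inv {p : ℕ} {q : ℝ} (hb : Bn p q nb) (k : ℕ) :
    ∃ c : ℝ, 0 ≤ c ∧ ∀ b : B, nb ((k : ℚ)⁻¹ • b) ≤ c * nb b := by
  by_cases hk : k = 0
  · refine ⟨0, le_rfl, fun b => ?_⟩
    rw [hk, Nat.cast_zero, inv_zero, zero_smul, (hb.zero_iff 0).2 rfl, zero_mul]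
  · obtain ⟨e, m, hm, hkm⟩ := Nat.exists_eq_pow_mul_and_not_dvd hk p hb.pp.ne_one
    have hq : 0 < q ^ e := pow_pos hb.q0 e
    refine ⟨(q ^ e)⁻¹, inv_nonneg.2 hq.le, fun b => ?_⟩
    have h1 : nb b = q ^ e * nb ((k : ℚ)⁻¹ • b) := by
      have h2 : k • ((k : ℚ)⁻¹ • b) = b := by
        rw [← Nat.cast_smul_eq_nsmul ℚ, smul_smul, mul_inv_cancel₀ (Nat.cast_ne_zero.2 hk),
          one_smul]
      have h3 : nb (k • ((k : ℚ)⁻¹ • b)) = q ^ e * nb ((k : ℚ)⁻¹ • b) := by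
        have h4 : k • ((k : ℚ)⁻¹ • b) = (p ^ e) • (m • ((k : ℚ)⁻¹ • b)) := by
          rw [← mul_smul, ← hkm]
        rw [h4, pa_pow hb, hb.unit m _ hm]
      rw [← h3, h2]
    rw [h1, ← mul_assoc, inv_mul_cancel₀ hq.ne', one_mul]

/-- The restriction of a functional on `Ur ⊥ (n k)` to `Ur ⊥ n`, divided by `k`. -/
noncomputable def rs (hB : Bn L.p (L.nm (L.p : Ω)) nb) (n k : ℕ) (φ : Hn L hB (n * k)) :
    Hn L hB n :=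
  HM.mk hB (vf L n) ((DistribSMul.toAddMonoidHom B ((k : ℚ)⁻¹)).comp
    (φ.f.comp (iu L n k).toAddMonoidHom)) (by
      obtain ⟨c, hc, h⟩ := pa_inv hB k
      obtain ⟨D, hD⟩ := φ.bd
      refine ⟨c * D, fun a => ?_⟩
      have h1 := hD (iu L n k a)
      rw [pa_vn] at h1
      have h2 := (h (φ.f (iu L n k a))).trans (mul_le_mul_of_nonneg_left h1 hc)
      rw [← mul_assoc] at h2
      exact h2)

omit [CharZero K] [IsAlgClosure K Ω] in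
theorem rs_f (k : ℕ) (φ : Hn L hB (n * k)) (a : ↥(L.Ur ⊥ n)) :
    (rs hB n k φ).f a = (k : ℚ)⁻¹ • φ.f (iu L n k a) := rfl

omit [CharZero K] [IsAlgClosure K Ω] in
theorem rs_add (k : ℕ) (φ φ' : Hn L hB (n * k)) :
    rs hB n k (φ + φ') = rs hB n k φ + rs hB n k φ' := by
  refine HM.ext' fun a => ?_
  rw [rs_f, HM.add_f, HM.add_f, rs_f, rs_f, smul_add]

omit [CharZero K] [IsAlgClosure K Ω] in
theorem rs_sum (k : ℕ) {I : Type} (s : Finset I) (φ : I → Hn L hB (n * k)) :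
    rs hB n k (∑ i ∈ s, φ i) = ∑ i ∈ s, rs hB n k (φ i) := by
  refine HM.ext' fun a => ?_
  rw [rs_f, HM.sum_f, HM.sum_f, Finset.smul_sum]
  exact Finset.sum_congr rfl fun i _ => (rs_f k (φ i) a).symm

omit [CharZero K] [IsAlgClosure K Ω] in
theorem rs_smul (k : ℕ) (a : ↥(L.Ur ⊥ n)) (φ : Hn L hB (n * k)) :
    rs hB n k (iu L n k a • φ) = a • rs hB n k φ := by
  refine HM.ext' fun b => ?_
  rw [rs_f, HM.smul_f, HM.smul_f, rs_f, map_mul (iu L n k) a b]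

omit [CharZero K] [IsAlgClosure K Ω] in
/-- `k ≠ 0`: the absolute value of `1 / k` in `B`. Proof: `Bn.mulp`, `Bn.unit`: `nb (b / k) ≤ c nb b` for a constant `c`. -/
theorem rs_bd {k : ℕ} (hk : k ≠ 0) : ∃ c : ℝ, 0 ≤ c ∧
    ∀ φ : Hn L hB (n * k), HM.nh (rs hB n k φ) ≤ c * HM.nh φ := by
  obtain ⟨c, hc, h⟩ := pa_inv hB k
  refine ⟨c, hc, fun φ => ?_⟩
  refine HM.nh_le (mul_nonneg hc (HM.nh_nonneg φ)) fun a => ?_
  rw [rs_f]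
  have h1 := HM.nh_app φ (iu L n k a)
  rw [pa_vn] at h1
  have h2 := (h (φ.f (iu L n k a))).trans (mul_le_mul_of_nonneg_left h1 hc)
  rw [← mul_assoc] at h2
  exact h2

/-- Proof: `Tp.up`. -/
theorem rs_ph (hT : Tp f L ψ r nb T C) (hn : N0 r n) {k : ℕ} (hk : k ≠ 0) {x t : Fin N → Ω}
    (hx : Xp f L n x) (ht : Tn' f L n x t) : rs hB n k (ph hB T (n * k) x t) = ph hB T n x t := by
  refine HM.ext' fun a => ?_
  have hdv : n ∣ n * k := dvd_mul_right n k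
  have ha : Tn' f L n x ((a : Ω) • t) := ht.smul a.2
  rw [rs_f, ph_f hB hT (hn.mul hk) (hx.mono hdv) (ht.mono hdv), iu_coe,
    hT.up n x ((a : Ω) • t) k hn hx ha hk, ph_f hB hT hn hx ht, ← Nat.cast_smul_eq_nsmul ℚ,
    smul_smul, inv_mul_cancel₀ (Nat.cast_ne_zero.2 hk), one_smul]

/-- The functional `P_j (c; ξ)`. -/
noncomputable def Pn (hB : Bn L.p (L.nm (L.p : Ω)) nb)
    (T : ℕ → (Fin N → Ω) → (Fin N → Ω) → B) (ψ : Prj K N d) (n j : ℕ)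
    (c ξ : Fin (d + 1) → Ω) : Hn L hB n :=
  rs hB n (kd ψ) (∑ w ∈ rt ψ c, ph hB T (n * kd ψ) ((ψ.om Ω).pt c w) (w ^ j • (ψ.om Ω).lt c w ξ))

private theorem pa_w (hψ : ∀ i, Pj f L (ψ i)) (hr : L.Rf ⊥ r) (hn : N0 r n) {i : Fin m}
    {c : Fin (d + 1) → Ω} (hc : Gd L (ψ i) n c) {w : Ω} (hw : w ∈ rt (ψ i) c) :
    w ∈ L.Ur ⊥ (n * kd (ψ i)) ∧ Xp f L (n * kd (ψ i)) (((ψ i).om Ω).pt c w) ∧
      ∀ (ξ : Fin (d + 1) → Ω), (∀ l, ξ l ∈ L.Ur ⊥ n) → ∀ j : ℕ,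
        Tn' f L (n * kd (ψ i)) (((ψ i).om Ω).pt c w) (w ^ j • ((ψ i).om Ω).lt c w ξ) := by
  have hG : pe c w (ψ i).G = 0 := (mem_rt (hψ i)).1 hw
  have hwU : w ∈ L.Ur ⊥ (n * kd (ψ i)) := rt_ur (hψ i) hr hn hc.iv hc.dv hG
  have hle : L.Ur ⊥ n ≤ L.Ur ⊥ (n * kd (ψ i)) := Ld.ur_dvd ⊥ (dvd_mul_right n _)
  have hiv : Iv L (L.Ur ⊥ (n * kd (ψ i))) c := fun l => ⟨hle (hc.iv l).1, (hc.iv l).2⟩
  exact ⟨hwU, xp_pt (hψ i) hiv hc.dv hwU hG, fun ξ hξ j =>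
    (tn_lt (hψ i) hiv hc.dv hwU hG fun l => hle (hξ l)).smul (pow_mem hwU j)⟩

/-- Proof: `rs_add`, `ph_add`, `Prj.lt_add`, `rt_ur`. -/
theorem pn_add (hψ : ∀ i, Pj f L (ψ i)) (hr : L.Rf ⊥ r) (hT : Tp f L ψ r nb T C)
    (hn : N0 r n) {i : Fin m} {c ξ ξ' : Fin (d + 1) → Ω} (hc : Gd L (ψ i) n c)
    (hξ : ∀ l, ξ l ∈ L.Ur ⊥ n) (hξ' : ∀ l, ξ' l ∈ L.Ur ⊥ n) (j : ℕ) :
    Pn hB T (ψ i) n j c (ξ + ξ') = Pn hB T (ψ i) n j c ξ + Pn hB T (ψ i) n j c ξ' := by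
  rw [Pn, Pn, Pn, ← rs_add, ← Finset.sum_add_distrib]
  congr 1
  refine Finset.sum_congr rfl fun w hw => ?_
  obtain ⟨-, hx, ht⟩ := pa_w hψ hr hn hc hw
  rw [Prj.lt_add, smul_add, ph_add hB hT (hn.mul (kd_ne (ψ i))) hx (ht ξ hξ j) (ht ξ' hξ' j)]

/-- Proof: `rs_smul`, `ph_smul`, `Prj.lt_smul`, `rt_ur`. -/
theorem pn_smul (hψ : ∀ i, Pj f L (ψ i)) (hr : L.Rf ⊥ r) (hT : Tp f L ψ r nb T C)
    (hn : N0 r n) {i : Fin m} {c ξ : Fin (d + 1) → Ω} (hc : Gd L (ψ i) n c)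
    (hξ : ∀ l, ξ l ∈ L.Ur ⊥ n) (a : ↥(L.Ur ⊥ n)) (j : ℕ) :
    Pn hB T (ψ i) n j c ((a : Ω) • ξ) = a • Pn hB T (ψ i) n j c ξ := by
  rw [Pn, Pn, ← rs_smul, Finset.smul_sum]
  congr 1
  refine Finset.sum_congr rfl fun w hw => ?_
  obtain ⟨-, hx, ht⟩ := pa_w hψ hr hn hc hw
  rw [Prj.lt_smul, smul_comm, ← iu_coe n (kd (ψ i)) a,
    ph_smul hB hT (hn.mul (kd_ne (ψ i))) hx (ht ξ hξ j)]

omit [CharZero K] [IsAlgClosure K Ω] in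
private theorem pa_sum {I : Type} (s : Finset I) {φ : I → Hn L hB n} {D : ℝ} (hD : 0 ≤ D)
    (h : ∀ i ∈ s, HM.nh (φ i) ≤ D) : HM.nh (∑ i ∈ s, φ i) ≤ D := by
  classical
  induction s using Finset.induction_on with
  | empty => rwa [Finset.sum_empty, (HM.nh_zero_iff _).2 rfl]
  | insert a s ha ih =>
    rw [Finset.sum_insert ha]
    exact (HM.nh_add _ _).trans (max_le (h a (Finset.mem_insert_self a s))
      (ih fun i hi => h i (Finset.mem_insert_of_mem hi)))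

/-- Proof: `rs_bd`, `HM.nh_add`, `ph_bd`, `Pj.lt_le`, `nm w ≤ 1` (`root_int'`). -/
theorem pn_bd (hψ : ∀ i, Pj f L (ψ i)) (hr : L.Rf ⊥ r) (hT : Tp f L ψ r nb T C)
    (hn : N0 r n) (i : Fin m) (j : ℕ) :
    ∃ D : ℝ, ∀ c ξ : Fin (d + 1) → Ω, Gd L (ψ i) n c → Iv L (L.Ur ⊥ n) ξ →
      HM.nh (Pn hB T (ψ i) n j c ξ) ≤ D := by
  obtain ⟨c₀, h0, h1⟩ := rs_bd (L := L) (hB := hB) (n := n) (kd_ne (ψ i))
  refine ⟨c₀ * (C * 1), fun c ξ hc hξ => ?_⟩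
  rw [Pn]
  refine (h1 _).trans (mul_le_mul_of_nonneg_left ?_ h0)
  refine pa_sum _ (by rw [mul_one]; exact hT.nonneg) fun w hw => ?_
  obtain ⟨-, hx, ht⟩ := pa_w hψ hr hn hc hw
  have hG : pe c w (ψ i).G = 0 := (mem_rt (hψ i)).1 hw
  have hw1 : L.nm w ≤ 1 := root_int' (hψ i) (fun l => (hc.iv l).2) hG
  refine ph_bd hB hT (hn.mul (kd_ne (ψ i))) hx (ht ξ (fun l => (hξ l).1) j) zero_le_one
    fun l => ?_
  rw [Pi.smul_apply, smul_eq_mul, L.mul, L.pow]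
  exact mul_le_one₀ (pow_le_one₀ (L.nonneg _) hw1) (L.nonneg _)
    ((hψ i).lt_le (fun l => (hc.iv l).2) hw1 hG hc.dv zero_le_one (fun l => (hξ l).2) l)

/-- Homogeneity. Proof: `rt_smul`, `Prj.Ok.pt_smul`, `ph_hom`, `ph_smul`. -/
theorem pn_hom (hf : Hm f) (hψ : ∀ i, Pj f L (ψ i)) (hr : L.Rf ⊥ r) (hT : Tp f L ψ r nb T C)
    (hn : N0 r n) {i : Fin m} {c ξ : Fin (d + 1) → Ω} (hc : Gd L (ψ i) n c)
    (hξ : ∀ l, ξ l ∈ L.Ur ⊥ n) (a : ↥(L.Ur ⊥ n)) (ha : L.nm (a : Ω) = 1) (j : ℕ) :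
    Pn hB T (ψ i) n j ((a : Ω) • c) ((a : Ω) • ξ) = a ^ j • Pn hB T (ψ i) n j c ξ := by
  classical
  have ha0 : (a : Ω) ≠ 0 := fun h => by
    rw [h, L.zero] at ha
    exact zero_ne_one ha
  have hD0 : MvPolynomial.aeval c (ψ i).D ≠ 0 := fun h => by
    have h1 := hc.dv
    rw [h, L.zero] at h1
    exact zero_ne_one h1
  have hN := hn.mul (kd_ne (ψ i))
  rw [Pn, Pn, ← rs_smul, Finset.smul_sum, rt_smul (hψ i) hD0 ha0]
  congr 1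
  rw [Finset.sum_image fun w _ w' _ h => mul_left_cancel₀ ha0 h]
  refine Finset.sum_congr rfl fun w hw => ?_
  obtain ⟨-, hx, ht⟩ := pa_w hψ hr hn hc hw
  have hG : pe c w (ψ i).G = 0 := (mem_rt (hψ i)).1 hw
  obtain ⟨-, -, h3, h4⟩ := (hψ i).ok.pt_smul (om_hom (Ω := Ω) (hψ i).hom) (c := c) (w := w)
    (by rw [om_G]; exact hG) (by rw [om_D]; exact hD0) ha0
  have haU : (a : Ω) ∈ L.Ur ⊥ (n * kd (ψ i)) := Ld.ur_dvd ⊥ (dvd_mul_right n _) a.2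
  have h5 : (iu L n (kd (ψ i)) (a ^ j) : Ω) = (a : Ω) ^ j := by
    rw [iu_coe]
    rfl
  rw [h3, h4, ← ph_smul hB hT hN hx (ht ξ hξ j), h5,
    ← ph_hom hB hf hT hN hx ((ht ξ hξ j).smul (pow_mem haU j)) haU ha]
  congr 1
  rw [mul_pow, smul_smul, smul_smul, smul_smul]
  congr 1
  ring

/-- A larger field. Proof: `rs_ph` for the points over `Ur ⊥ (n kd)`; the same set of roots. -/
theorem pn_up (hψ : ∀ i, Pj f L (ψ i)) (hr : L.Rf ⊥ r) (hT : Tp f L ψ r nb T C)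
    (hn : N0 r n) {i : Fin m} {c ξ : Fin (d + 1) → Ω} (hc : Gd L (ψ i) n c)
    (hξ : ∀ l, ξ l ∈ L.Ur ⊥ n) {k : ℕ} (hk : k ≠ 0) (j : ℕ) :
    rs hB n k (Pn hB T (ψ i) (n * k) j c ξ) = Pn hB T (ψ i) n j c ξ := by
  have hN := hn.mul (kd_ne (ψ i))
  have hN' := (hn.mul hk).mul (kd_ne (ψ i))
  have he : n * k * kd (ψ i) = n * kd (ψ i) * k := by ring
  refine HM.ext' fun a => ?_
  rw [rs_f, Pn, Pn, rs_f, rs_f, HM.sum_f, HM.sum_f, smul_comm, Finset.smul_sum]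
  congr 1
  refine Finset.sum_congr rfl fun w hw => ?_
  obtain ⟨-, hx, ht⟩ := pa_w hψ hr hn hc hw
  have hd : n * kd (ψ i) ∣ n * k * kd (ψ i) := he ▸ dvd_mul_right _ k
  rw [ph_f hB hT hN' (hx.mono hd) ((ht ξ hξ j).mono hd), ph_f hB hT hN hx (ht ξ hξ j),
    iu_coe, iu_coe, iu_coe, he]
  have haU : (a : Ω) ∈ L.Ur ⊥ (n * kd (ψ i)) := Ld.ur_dvd ⊥ (dvd_mul_right n _) a.2
  rw [hT.up _ _ _ k hN hx ((ht ξ hξ j).smul haU) hk, ← Nat.cast_smul_eq_nsmul ℚ, smul_smul,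
    inv_mul_cancel₀ (Nat.cast_ne_zero.2 hk), one_smul]

end GX
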