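import Pool.Agent.Lib.MP_f80667_ag.Lc.Pa
import Pool.Agent.Lib.MP_f80667_ag.Gx.Eb

/-!
The functionals `ph` from the functionals `P_j`; the relation of the curves for the `P_j`.
-/

open ZC BE PE CV IntermediateField

namespace GX

variable {F : Type} [Field F] {N d m : ℕ} {ι : Type} {f : ι → MvPolynomial (Fin N) F}
  {K Ω : Type} [Field K] [CharZero K] [Field Ω] [Algebra K Ω] [Algebra F K] [Algebra F Ω]
  [IsScalarTower F K Ω] [IsAlgClosure K Ω] {L : Ld K Ω} {π : Ω} {ψ : Fin m → Prj K N d} {r n : ℕ}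
  {B : Type} [AddCommGroup B] [Module ℚ B] {nb : B → ℝ}
  {C : ℝ} {T : ℕ → (Fin N → Ω) → (Fin N → Ω) → B} {hB : Bn L.p (L.nm (L.p : Ω)) nb}

omit [CharZero K] [IsAlgClosure K Ω] in
private theorem pbx_iv {n n' : ℕ} (hd : n ∣ n') {σ : Type} {c : σ → Ω}
    (h : Iv L (L.Ur ⊥ n) c) : Iv L (L.Ur ⊥ n') c :=
  fun l => ⟨Ld.ur_dvd ⊥ hd (h l).1, (h l).2⟩

omit [CharZero K] [IsAlgClosure K Ω] in
private theorem pbx_add {n : ℕ} {σ : Type} {c b : σ → Ω} (hc : Iv L (L.Ur ⊥ n) c)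
    (hb : Iv L (L.Ur ⊥ n) b) {s : Ω} (hs : s ∈ L.Ur ⊥ n) (hs1 : L.nm s ≤ 1) :
    Iv L (L.Ur ⊥ n) (c + s • b) := by
  intro l
  refine ⟨add_mem (hc l).1 (mul_mem hs (hb l).1), ?_⟩
  change L.nm (c l + s * b l) ≤ 1
  refine (L.add _ _).trans (max_le (hc l).2 ?_)
  rw [L.mul]
  exact mul_le_one₀ hs1 (L.nonneg _) (hb l).2

/-- **Recovery of `ph`.** Proof: in `Ω`: `∑ β_j w ^ j` is `0` for a root `w ≠ w₀` and `G_Y (c, w₀)` for `w = w₀` (`bt_sub`, `bt_der` for `(ψ i).om Ω`). With `rs_smul`, `ph_smul` over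
`Ur ⊥ (n kd)`, `rt_ur`: the left side is `rs` of `∑ w, ph (n kd) (pt c w) ((∑ j, β_j w ^ j) lt c w ξ) = g • ph (n kd) (pt c w₀) (lt c w₀ ξ)`; `rs_ph`. -/
theorem pn_rec (hψ : ∀ i, Pj f L (ψ i)) (hr : L.Rf ⊥ r) (hT : Tp f L ψ r nb T C)
    (hn : N0 r n) {i : Fin m} {c ξ : Fin (d + 1) → Ω} (hc : Gd L (ψ i) n c)
    (hξ : ∀ l, ξ l ∈ L.Ur ⊥ n) {w₀ : Ω} (hw : w₀ ∈ L.Ur ⊥ n) (hG : pe c w₀ (ψ i).G = 0)
    {β : ℕ → ↥(L.Ur ⊥ n)} (hβ : ∀ j, (β j : Ω) = pe c w₀ (((ψ i).om Ω).bt j))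
    {g : ↥(L.Ur ⊥ n)} (hg : (g : Ω) = pe c w₀ (Polynomial.derivative ((ψ i).om Ω).G)) :
    ∑ j ∈ Finset.range ((ψ i).om Ω).G.natDegree, β j • Pn hB T (ψ i) n j c ξ =
      g • ph hB T n (((ψ i).om Ω).pt c w₀) (((ψ i).om Ω).lt c w₀ ξ) := by
  classical
  have h := hψ i
  have hk0 : kd (ψ i) ≠ 0 := kd_ne _
  have hn' : N0 r (n * kd (ψ i)) := hn.mul hk0
  have hd : n ∣ n * kd (ψ i) := dvd_mul_right _ _
  have hiv : Iv L (L.Ur ⊥ (n * kd (ψ i))) c := pbx_iv hd hc.iv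
  have hξ' : ∀ l, ξ l ∈ L.Ur ⊥ (n * kd (ψ i)) := fun l => Ld.ur_dvd ⊥ hd (hξ l)
  have key : ∀ w ∈ rt (ψ i) c, ∑ j ∈ Finset.range ((ψ i).om Ω).G.natDegree,
      iu L n (kd (ψ i)) (β j) • ph hB T (n * kd (ψ i)) (((ψ i).om Ω).pt c w)
        (w ^ j • ((ψ i).om Ω).lt c w ξ) =
      if w = w₀ then iu L n (kd (ψ i)) g • ph hB T (n * kd (ψ i)) (((ψ i).om Ω).pt c w₀)
        (((ψ i).om Ω).lt c w₀ ξ) else 0 := by
    intro w hw
    have hwG : pe c w (ψ i).G = 0 := (mem_rt h).1 hw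
    have hwU : w ∈ L.Ur ⊥ (n * kd (ψ i)) := rt_ur h hr hn hc.iv hc.dv hwG
    have hx : Xp f L (n * kd (ψ i)) (((ψ i).om Ω).pt c w) := xp_pt h hiv hc.dv hwU hwG
    have ht : Tn' f L (n * kd (ψ i)) (((ψ i).om Ω).pt c w) (((ψ i).om Ω).lt c w ξ) :=
      tn_lt h hiv hc.dv hwU hwG hξ'
    have e1 : ∀ j : ℕ, ph hB T (n * kd (ψ i)) (((ψ i).om Ω).pt c w)
        (w ^ j • ((ψ i).om Ω).lt c w ξ) = (⟨w, hwU⟩ : ↥(L.Ur ⊥ (n * kd (ψ i)))) ^ j •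
          ph hB T (n * kd (ψ i)) (((ψ i).om Ω).pt c w) (((ψ i).om Ω).lt c w ξ) :=
      fun j => ph_smul hB hT hn' hx ht ((⟨w, hwU⟩ : ↥(L.Ur ⊥ (n * kd (ψ i)))) ^ j)
    have e2 : ∑ j ∈ Finset.range ((ψ i).om Ω).G.natDegree,
        iu L n (kd (ψ i)) (β j) * (⟨w, hwU⟩ : ↥(L.Ur ⊥ (n * kd (ψ i)))) ^ j =
        if w = w₀ then iu L n (kd (ψ i)) g else 0 := by
      have e3 : ((∑ j ∈ Finset.range ((ψ i).om Ω).G.natDegree,
          iu L n (kd (ψ i)) (β j) * (⟨w, hwU⟩ : ↥(L.Ur ⊥ (n * kd (ψ i)))) ^ j :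
          ↥(L.Ur ⊥ (n * kd (ψ i)))) : Ω) =
          ∑ j ∈ Finset.range ((ψ i).om Ω).G.natDegree, pe c w₀ (((ψ i).om Ω).bt j) * w ^ j := by
        rw [AddSubmonoidClass.coe_finsetSum]
        refine Finset.sum_congr rfl fun j _ => ?_
        rw [MulMemClass.coe_mul, SubmonoidClass.coe_pow, iu_coe, hβ]
      refine Subtype.ext ?_
      rw [e3]
      split_ifs with hww
      · subst hww
        rw [bt_der, iu_coe, hg]
      · have e4 := bt_sub ((ψ i).om Ω) c w₀ w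
        rw [om_G, om_G, hwG, hG, sub_zero] at e4
        rw [ZeroMemClass.coe_zero]
        exact (mul_eq_zero.1 e4).resolve_left (sub_ne_zero.2 hww)
    have e5 : ∑ j ∈ Finset.range ((ψ i).om Ω).G.natDegree,
        iu L n (kd (ψ i)) (β j) • ph hB T (n * kd (ψ i)) (((ψ i).om Ω).pt c w)
          (w ^ j • ((ψ i).om Ω).lt c w ξ) =
        (∑ j ∈ Finset.range ((ψ i).om Ω).G.natDegree,
        iu L n (kd (ψ i)) (β j) * (⟨w, hwU⟩ : ↥(L.Ur ⊥ (n * kd (ψ i)))) ^ j) •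
          ph hB T (n * kd (ψ i)) (((ψ i).om Ω).pt c w) (((ψ i).om Ω).lt c w ξ) := by
      rw [Finset.sum_smul]
      refine Finset.sum_congr rfl fun j _ => ?_
      rw [e1, smul_smul]
    rw [e5, e2]
    split_ifs with hww
    · rw [hww]
    · rw [zero_smul]
  have hwn : Xp f L n (((ψ i).om Ω).pt c w₀) := xp_pt h hc.iv hc.dv hw hG
  have htn : Tn' f L n (((ψ i).om Ω).pt c w₀) (((ψ i).om Ω).lt c w₀ ξ) :=
    tn_lt h hc.iv hc.dv hw hG hξ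
  have s1 : ∀ j ∈ Finset.range ((ψ i).om Ω).G.natDegree, β j • Pn hB T (ψ i) n j c ξ =
      rs hB n (kd (ψ i)) (∑ w ∈ rt (ψ i) c, iu L n (kd (ψ i)) (β j) •
        ph hB T (n * kd (ψ i)) (((ψ i).om Ω).pt c w) (w ^ j • ((ψ i).om Ω).lt c w ξ)) := by
    intro j _
    rw [Pn, ← rs_smul, Finset.smul_sum]
  rw [Finset.sum_congr rfl s1, ← rs_sum, Finset.sum_comm, Finset.sum_congr rfl key,
    Finset.sum_ite_eq', if_pos ((mem_rt h).2 hG), rs_smul, rs_ph hT hn hk0 hwn htn]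

open Classical in
/-- **The relation of the curves for the `P_j`.** Proof: `Tp.cr` over `Ur ⊥ (n kd)` (`rt_ur`) for `a ∈ Ur ⊥ n`, evaluated functionals (`HM.ext'`, `rs_f`, `HM.sum_f`, `ph_f`, `HM.smul_f`). -/
theorem pn_cr (hψ : ∀ i, Pj f L (ψ i)) (hr : L.Rf ⊥ r) (hT : Tp f L ψ r nb T C)
    (hn : N0 r n) {i : Fin m} {c b : Fin (d + 1) → Ω} (hc : Iv L (L.Ur ⊥ n) c)
    (hb : Iv L (L.Ur ⊥ n) b) {S : Finset ↥(L.Ur ⊥ n)} (hS : ∀ s ∈ S, L.nm (s : Ω) ≤ 1 ∧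
      L.nm (MvPolynomial.aeval (c + (s : Ω) • b) (ψ i).D) = 1)
    (hS' : ∀ s ∈ S, ∀ s' ∈ S, s ≠ s' → L.nm ((s : Ω) - (s' : Ω)) = 1) {j : ℕ}
    (hj : j < S.card) :
    ∑ s ∈ S, (∏ s' ∈ S.erase s, (s - s'))⁻¹ • Pn hB T (ψ i) n j (c + (s : Ω) • b) b = 0 := by
  have h := hψ i
  have hk0 : kd (ψ i) ≠ 0 := kd_ne _
  have hn' : N0 r (n * kd (ψ i)) := hn.mul hk0
  have hd : n ∣ n * kd (ψ i) := dvd_mul_right _ _
  let e : ↥(L.Ur ⊥ n) ↪ Ω := ⟨Subtype.val, Subtype.val_injective⟩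
  have hin : ∀ s ∈ S, Iv L (L.Ur ⊥ n) (c + (s : Ω) • b) := fun s hs =>
    pbx_add hc hb s.2 (hS s hs).1
  have hrt : ∀ s ∈ S, ∀ w, pe (c + (s : Ω) • b) w (ψ i).G = 0 →
      w ∈ L.Ur ⊥ (n * kd (ψ i)) := fun s hs w hw =>
    rt_ur h hr hn (hin s hs) (hS s hs).2 hw
  have hG : Gs L (ψ i) (n * kd (ψ i)) c b (S.map e) := by
    refine ⟨pbx_iv hd hc, pbx_iv hd hb, ?_, ?_, ?_, ?_, ?_⟩
    · intro s hs
      obtain ⟨s₁, hs₁, rfl⟩ := Finset.mem_map.1 hs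
      exact Ld.ur_dvd ⊥ hd s₁.2
    · intro s hs
      obtain ⟨s₁, hs₁, rfl⟩ := Finset.mem_map.1 hs
      exact (hS s₁ hs₁).1
    · intro s hs
      obtain ⟨s₁, hs₁, rfl⟩ := Finset.mem_map.1 hs
      exact (hS s₁ hs₁).2
    · intro s hs s' hs' hne
      obtain ⟨s₁, hs₁, rfl⟩ := Finset.mem_map.1 hs
      obtain ⟨s₂, hs₂, rfl⟩ := Finset.mem_map.1 hs'
      exact hS' s₁ hs₁ s₂ hs₂ fun h12 => hne (by rw [h12])
    · intro s hs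
      obtain ⟨s₁, hs₁, rfl⟩ := Finset.mem_map.1 hs
      exact hrt s₁ hs₁
  refine HM.ext' fun a => ?_
  rw [HM.sum_f, HM.zero_f]
  have hcr := hT.cr (n * kd (ψ i)) i c b (S.map e) j (a : Ω) hn' hG (by rwa [Finset.card_map])
    (Ld.ur_dvd ⊥ hd a.2)
  rw [Finset.sum_map] at hcr
  have hterm : ∀ s ∈ S, ((∏ s' ∈ S.erase s, (s - s'))⁻¹ •
      Pn hB T (ψ i) n j (c + (s : Ω) • b) b).f a =
      ((kd (ψ i) : ℚ)⁻¹) • ∑ w ∈ rt (ψ i) (c + e s • b),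
        T (n * kd (ψ i)) (((ψ i).om Ω).pt (c + e s • b) w)
          (((a : Ω) * w ^ j * (∏ s' ∈ (S.map e).erase (e s), (e s - s'))⁻¹) •
            ((ψ i).om Ω).lt (c + e s • b) w b) := by
    intro s hs
    rw [HM.smul_f, Pn, rs_f, HM.sum_f]
    congr 1
    refine Finset.sum_congr rfl fun w hw => ?_
    have hwG : pe (c + (s : Ω) • b) w (ψ i).G = 0 := (mem_rt h).1 hw
    have hwU := hrt s hs w hwG
    have hiv := pbx_iv hd (hin s hs)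
    have hx : Xp f L (n * kd (ψ i)) (((ψ i).om Ω).pt (c + (s : Ω) • b) w) :=
      xp_pt h hiv (hS s hs).2 hwU hwG
    have ht : Tn' f L (n * kd (ψ i)) (((ψ i).om Ω).pt (c + (s : Ω) • b) w)
        (((ψ i).om Ω).lt (c + (s : Ω) • b) w b) :=
      tn_lt h hiv (hS s hs).2 hwU hwG fun l => Ld.ur_dvd ⊥ hd (hb l).1
    rw [ph_f hB hT hn' hx (ht.smul (pow_mem hwU j)), iu_coe, smul_smul]
    have hprod : ((∏ s' ∈ S.erase s, (s - s') : ↥(L.Ur ⊥ n)) : Ω) =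
        ∏ s' ∈ (S.map e).erase (e s), (e s - s') := by
      rw [← Finset.map_erase, Finset.prod_map, SubmonoidClass.coe_finsetProd]
      rfl
    have hco : ((((∏ s' ∈ S.erase s, (s - s'))⁻¹ * a : ↥(L.Ur ⊥ n))) : Ω) * w ^ j =
        (a : Ω) * w ^ j * (∏ s' ∈ (S.map e).erase (e s), (e s - s'))⁻¹ := by
      rw [← hprod]
      push_cast
      ring
    rw [hco]
    rfl
  rw [Finset.sum_congr rfl hterm, ← Finset.smul_sum, hcr, smul_zero]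

/-- Proof: `pn_cr` for `S = {0}`. -/
theorem pn_zero (hψ : ∀ i, Pj f L (ψ i)) (hr : L.Rf ⊥ r) (hT : Tp f L ψ r nb T C)
    (hn : N0 r n) {i : Fin m} {c ξ : Fin (d + 1) → Ω} (hc : Gd L (ψ i) n c)
    (hξ : Iv L (L.Ur ⊥ n) ξ) : Pn hB T (ψ i) n 0 c ξ = 0 := by
  classical
  have e0 : c + ((0 : ↥(L.Ur ⊥ n)) : Ω) • ξ = c := by
    rw [ZeroMemClass.coe_zero, zero_smul, add_zero]
  have h1 := pn_cr (hB := hB) hψ hr hT hn (i := i) hc.iv hξ (S := {0}) (j := 0) (by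
      intro s hs
      rw [Finset.mem_singleton] at hs
      subst hs
      rw [e0]
      refine ⟨?_, hc.dv⟩
      rw [ZeroMemClass.coe_zero, (L.zero_iff 0).2 rfl]
      exact zero_le_one) (by
      intro s hs s' hs' hne
      rw [Finset.mem_singleton] at hs hs'
      exact absurd (hs.trans hs'.symm) hne) (by simp)
  rw [Finset.sum_singleton, e0] at h1
  have e1 : ∀ s' : Finset ↥(L.Ur ⊥ n), s' = ∅ → ∏ x ∈ s', ((0 : ↥(L.Ur ⊥ n)) - x) = 1 := by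
    rintro _ rfl
    rfl
  rw [e1 _ (by
    refine Finset.eq_empty_of_forall_notMem fun x hx => ?_
    have := Finset.mem_erase.1 hx
    exact this.1 (Finset.mem_singleton.1 this.2)), inv_one, one_smul] at h1
  exact h1

end GX
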