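import Pool.Agent.Lib.MP_f80667_ag.Lc.Pb
import Pool.Agent.Lib.MP_f80667_ag.Pl.F

/-!
The functionals `P_j` on a line.
-/

open ZC BE PE CV IntermediateField

namespace GX

variable {F : Type} [Field F] {N d m : ℕ} {ι : Type} {f : ι → MvPolynomial (Fin N) F}
  {K Ω : Type} [Field K] [CharZero K] [Field Ω] [Algebra K Ω] [Algebra F K] [Algebra F Ω]
  [IsScalarTower F K Ω] [IsAlgClosure K Ω] {L : Ld K Ω} {π : Ω} {ψ : Fin m → Prj K N d} {r n : ℕ}
  {B : Type} [AddCommGroup B] [Module ℚ B] {nb : B → ℝ}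
  {C : ℝ} {T : ℕ → (Fin N → Ω) → (Fin N → Ω) → B} {hB : Bn L.p (L.nm (L.p : Ω)) nb}

section aux

omit [CharZero K] [IsAlgClosure K Ω] in
private theorem es_sum {τ : Type} (S : Finset τ) {a : τ → Ω} {t : τ → L.κ}
    (h : ∀ i ∈ S, L.rs.Hv (a i) (t i)) : L.rs.Hv (∑ i ∈ S, a i) (∑ i ∈ S, t i) := by
  classical
  induction S using Finset.induction_on with
  | empty =>
    rw [Finset.sum_empty, Finset.sum_empty]
    exact Rs.Hv.zero
  | insert x S hx ih =>
    rw [Finset.sum_insert hx, Finset.sum_insert hx]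
    exact (h x (Finset.mem_insert_self x S)).add
      (ih fun i hi => h i (Finset.mem_insert_of_mem hi))

omit [CharZero K] [IsAlgClosure K Ω] in
private theorem es_prod {τ : Type} (S : Finset τ) {a : τ → Ω} {t : τ → L.κ}
    (h : ∀ i ∈ S, L.rs.Hv (a i) (t i)) : L.rs.Hv (∏ i ∈ S, a i) (∏ i ∈ S, t i) := by
  classical
  induction S using Finset.induction_on with
  | empty =>
    rw [Finset.prod_empty, Finset.prod_empty]
    exact Rs.Hv.one
  | insert x S hx ih =>
    rw [Finset.prod_insert hx, Finset.prod_insert hx]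
    exact (h x (Finset.mem_insert_self x S)).mul
      (ih fun i hi => h i (Finset.mem_insert_of_mem hi))

omit [CharZero K] [IsAlgClosure K Ω] in
/-- The residue of the value of a polynomial on a line is a polynomial in the residue of the parameter. -/
private theorem es_pol (L : Ld K Ω) (P : MvPolynomial (Fin (d + 1)) K)
    (hP : ∀ e, L.nm (algebraMap K Ω (P.coeff e)) ≤ 1) {c b : Fin (d + 1) → Ω}
    (hc : ∀ i, L.nm (c i) ≤ 1) (hb : ∀ i, L.nm (b i) ≤ 1) :
    ∃ g : Polynomial L.κ, ∀ (z : Ω) (t : L.κ), L.rs.Hv z t →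
      L.rs.Hv (MvPolynomial.aeval (c + z • b) P) (g.eval t) := by
  choose u hu using fun e => L.hv_of (hP e)
  choose c' hc' using fun i => L.hv_of (hc i)
  choose b' hb' using fun i => L.hv_of (hb i)
  refine ⟨∑ e ∈ P.support, Polynomial.C (u e) *
    ∏ i, (Polynomial.C (c' i) + Polynomial.X * Polynomial.C (b' i)) ^ (e i), fun z t h => ?_⟩
  rw [MvPolynomial.aeval_def, MvPolynomial.eval₂_eq', Polynomial.eval_finsetSum]
  refine es_sum _ fun e _ => ?_
  rw [Polynomial.eval_mul, Polynomial.eval_C, Polynomial.eval_prod]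
  refine (hu e).mul (es_prod _ fun i _ => ?_)
  rw [Polynomial.eval_pow, Polynomial.eval_add, Polynomial.eval_mul, Polynomial.eval_C,
    Polynomial.eval_C, Polynomial.eval_X]
  exact ((hc' i).add (h.mul (hb' i))).pow _

/-- The elements of `Te n`. -/
private theorem es_te (L : Ld K Ω) {n : ℕ} (hn : n ≠ 0) : ∃ T : Finset Ω,
    (∀ x, x ∈ T ↔ x ∈ L.Te n) ∧ T.card = L.p ^ n := by
  classical
  have hc : CharZero Ω := charZero_of_injective_algebraMap (algebraMap K Ω).injective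
  have ha : IsAlgClosed Ω := IsAlgClosure.isAlgClosed K
  have h1 : 1 < L.p ^ n := Nat.one_lt_pow hn L.pp.one_lt
  have h2 : 0 < L.p ^ n - 1 := by omega
  have h2' : NeZero ((L.p ^ n - 1 : ℕ) : Ω) := ⟨Nat.cast_ne_zero.2 (by omega)⟩
  obtain ⟨ζ, hζ⟩ := HasEnoughRootsOfUnity.exists_primitiveRoot Ω (L.p ^ n - 1)
  have h4 : L.p ^ n = L.p ^ n - 1 + 1 := by omega
  refine ⟨insert 0 (Polynomial.nthRootsFinset (L.p ^ n - 1) (1 : Ω)), ?_, ?_⟩
  · intro x
    rw [Finset.mem_insert, Polynomial.mem_nthRootsFinset h2]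
    constructor
    · rintro (hx | hx)
      · rw [hx]
        change (0 : Ω) ^ L.p ^ n = 0
        exact zero_pow (by omega)
      · change x ^ L.p ^ n = x
        rw [h4, pow_succ, hx, one_mul]
    · intro hx
      by_cases hx0 : x = 0
      · exact Or.inl hx0
      · right
        have h3 : x ^ L.p ^ n = x := hx
        rw [h4, pow_succ] at h3
        exact mul_right_cancel₀ hx0 (by rw [h3, one_mul])
  · rw [Finset.card_insert_of_notMem, hζ.card_nthRootsFinset]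
    · omega
    · rw [Polynomial.mem_nthRootsFinset h2, zero_pow h2.ne']
      exact zero_ne_one

end aux

/-- Many good points of a line in new residue classes. Proof: the polynomial `D (c + z b)` has integral coefficients and a unit value, so modulo the maximal ideal it is not `0` and has at most `ρ` roots (at most
`ρ` elements `z` of `Te N'` with `nm (D (c + z b)) < 1`: `GM` / `Ar` / `urA_root`, Vandermonde); `Te (n k)` has `p ^ (n k)` elements, pairwise incongruent (`Ld.te_inj`, `urA_fin` in Pe/Ur); an element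
of `Te (n k)` congruent to an integral element of `Ur ⊥ n` is in `Te n` (`Ld.te_rep`-like: `Ur ⊥ n` has the residue field with `p ^ n` elements, `r ∣ n`); take `p ^ (n k) ≥ p ^ n + ρ + j`. -/
theorem exists_s0 (hψ : ∀ i, Pj f L (ψ i)) (hr : L.Rf ⊥ r) (hn : N0 r n) {i : Fin m}
    {c b : Fin (d + 1) → Ω} (hc : Iv L (L.Ur ⊥ n) c) (hb : Iv L (L.Ur ⊥ n) b) {z₀ : Ω}
    (hz : z₀ ∈ L.Ur ⊥ n) (hz1 : L.nm z₀ ≤ 1)
    (hD : L.nm (MvPolynomial.aeval (c + z₀ • b) (ψ i).D) = 1) (j : ℕ) :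
    ∃ k, k ≠ 0 ∧ ∃ S : Finset ↥(L.Ur ⊥ (n * k)), S.card = j ∧
      (∀ s ∈ S, L.nm (s : Ω) ≤ 1 ∧ L.nm (MvPolynomial.aeval (c + (s : Ω) • b) (ψ i).D) = 1) ∧
      (∀ s ∈ S, ∀ s' ∈ S, s ≠ s' → L.nm ((s : Ω) - (s' : Ω)) = 1) ∧
      ∀ s ∈ S, ∀ z ∈ L.Ur ⊥ n, L.nm z ≤ 1 → L.nm ((s : Ω) - z) = 1 := by
  classical
  obtain ⟨hn0, e, rfl⟩ := hn
  have he : e ≠ 0 := right_ne_zero_of_mul hn0
  obtain ⟨g, hg⟩ := es_pol L (ψ i).D (hψ i).iD (fun l => (hc l).2) (fun l => (hb l).2)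
  obtain ⟨t₀, ht₀⟩ := L.hv_of hz1
  have hg0 : g ≠ 0 := by
    rintro rfl
    refine (L.hv_ne (hg z₀ t₀ ht₀)).2 hD ?_
    rw [Polynomial.eval_zero]
  obtain ⟨k, hk⟩ : ∃ k, k = L.p ^ (r * e) + g.natDegree + j := ⟨_, rfl⟩
  have hp0 : 0 < L.p ^ (r * e) := pow_pos L.pp.pos _
  have hk0 : k ≠ 0 := by omega
  have hN : r * e * k ≠ 0 := mul_ne_zero hn0 hk0
  obtain ⟨T, hT, hTc⟩ := es_te L hN
  obtain ⟨T', hT', hTc'⟩ := es_te L hn0
  have hbig : L.p ^ (r * e) + g.natDegree + j ≤ L.p ^ (r * e * k) := by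
    rw [← hk]
    refine (Nat.lt_pow_self L.pp.one_lt).le.trans (Nat.pow_le_pow_right L.pp.pos ?_)
    exact Nat.le_mul_of_pos_left _ (Nat.pos_of_ne_zero hn0)
  have hint : ∀ x ∈ T, L.nm x ≤ 1 := fun x hx => Ld.te_int hN ((hT x).1 hx)
  have hval : ∀ x ∈ T, L.nm (MvPolynomial.aeval (c + x • b) (ψ i).D) ≤ 1 := by
    intro x hx
    obtain ⟨t, ht⟩ := L.hv_of (hint x hx)
    exact L.hv_int (hg x t ht)
  -- the bad classes
  obtain ⟨Bd, hBd⟩ : ∃ Bd, Bd = T.filter fun x =>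
    L.nm (MvPolynomial.aeval (c + x • b) (ψ i).D) < 1 := ⟨_, rfl⟩
  have hBc : Bd.card ≤ g.natDegree := by
    have h1 : ∀ x ∈ Bd, L.rr x ∈ g.roots.toFinset := by
      intro x hx
      rw [hBd, Finset.mem_filter] at hx
      rw [Multiset.mem_toFinset, Polynomial.mem_roots hg0]
      exact (hg x _ (L.hv_rr (hint x hx.1))).uniq (L.hv_zero.2 hx.2)
    have h2 : Set.InjOn L.rr (Bd : Set Ω) := by
      intro x hx y hy hxy
      rw [hBd, Finset.mem_coe, Finset.mem_filter] at hx hy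
      refine Ld.te_inj hN ((hT x).1 hx.1) ((hT y).1 hy.1) ?_
      exact (L.hv_sub (L.hv_rr (hint x hx.1)) (L.hv_rr (hint y hy.1))).1 hxy
    exact (Finset.card_le_card_of_injOn L.rr h1 h2).trans
      ((Multiset.toFinset_card_le _).trans (Polynomial.card_roots' g))
  obtain ⟨A, hA⟩ : ∃ A, A = (T \ T') \ Bd := ⟨_, rfl⟩
  have hAc : j ≤ A.card := by
    have h1 := Finset.le_card_sdiff T' T
    have h2 := Finset.le_card_sdiff Bd (T \ T')
    rw [← hA] at h2
    omega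
  obtain ⟨S₀, hS₀, hS₀c⟩ := Finset.exists_subset_card_eq hAc
  have hmem : ∀ s ∈ S₀, s ∈ T ∧ s ∉ T' ∧ s ∉ Bd := by
    intro s hs
    have h1 := hS₀ hs
    rw [hA, Finset.mem_sdiff, Finset.mem_sdiff] at h1
    exact ⟨h1.1.1, h1.1.2, h1.2⟩
  have hU : ∀ s ∈ S₀, s ∈ L.Ur ⊥ (r * e * k) := fun s hs =>
    Ld.te_ur ((hT s).1 (hmem s hs).1)
  have hRf : L.Rf (L.Ur ⊥ (r * e)) (r * e) := Ld.rf_ur hr he
  refine ⟨k, hk0, S₀.subtype (· ∈ L.Ur ⊥ (r * e * k)), ?_, ?_, ?_, ?_⟩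
  · rw [Finset.card_subtype, Finset.filter_true_of_mem hU, hS₀c]
  · intro s hs
    rw [Finset.mem_subtype] at hs
    obtain ⟨h1, h2, h3⟩ := hmem _ hs
    refine ⟨hint _ h1, le_antisymm (hval _ h1) (not_lt.1 fun h4 => h3 ?_)⟩
    rw [hBd, Finset.mem_filter]
    exact ⟨h1, h4⟩
  · intro s hs s' hs' hne
    rw [Finset.mem_subtype] at hs hs'
    have h1 := (hmem _ hs).1
    have h2 := (hmem _ hs').1
    refine le_antisymm ((L.sub _ _).trans (max_le (hint _ h1) (hint _ h2)))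
      (not_lt.1 fun h4 => hne (Subtype.ext ?_))
    exact Ld.te_inj hN ((hT _).1 h1) ((hT _).1 h2) h4
  · intro s hs z hzU hz1
    rw [Finset.mem_subtype] at hs
    obtain ⟨h1, h2, -⟩ := hmem _ hs
    refine le_antisymm ((L.sub _ _).trans (max_le (hint _ h1) hz1))
      (not_lt.1 fun h4 => h2 ?_)
    obtain ⟨z', hz', hzz⟩ := hRf.res z hzU hz1
    have h5 : L.nm ((s : Ω) - z') < 1 := by
      have h6 : (s : Ω) - z' = ((s : Ω) - z) + (z - z') := by ring
      rw [h6]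
      exact (L.add _ _).trans_lt (max_lt h4 hzz)
    have h6 : (s : Ω) = z' := Ld.te_inj hN ((hT _).1 h1)
      (Ld.te_dvd (Dvd.intro k rfl) hz') h5
    rw [h6]
    exact (hT' _).2 hz'

open Classical in
/-- The Lagrange polynomial of the node `s`. -/
private noncomputable def pcP {M : Type} [Field M] (S : Finset M) (s : M) : Polynomial M :=
  Polynomial.C (∏ s' ∈ S.erase s, (s - s'))⁻¹ *
    ∏ s' ∈ S.erase s, (Polynomial.X - Polynomial.C s')

open Classical in
private theorem pc_deg {M : Type} [Field M] (S : Finset M) (s : M) (hs : s ∈ S) :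
    (pcP S s).natDegree < S.card + 1 := by
  unfold pcP
  have h1 : (∏ s' ∈ S.erase s, (Polynomial.X - Polynomial.C s')).natDegree ≤
      ∑ s' ∈ S.erase s, 1 := by
    refine (Polynomial.natDegree_prod_le _ _).trans (Finset.sum_le_sum fun i _ => ?_)
    rw [Polynomial.natDegree_X_sub_C]
  rw [Finset.sum_const, smul_eq_mul, mul_one, Finset.card_erase_of_mem hs] at h1
  have h2 := Polynomial.natDegree_C_mul_le (∏ s' ∈ S.erase s, (s - s'))⁻¹
    (∏ s' ∈ S.erase s, (Polynomial.X - Polynomial.C s'))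
  omega

open Classical in
private theorem pc_lag {M H : Type} [Field M] [AddCommGroup H] [Module M H] (S : Finset M)
    (P : M → H) {z : M} (hz : z ∉ S)
    (h : ∑ s ∈ insert z S, (∏ s' ∈ (insert z S).erase s, (s - s'))⁻¹ • P s = 0) :
    P z = ∑ i ∈ Finset.range (S.card + 1), z ^ i • ∑ s ∈ S, (pcP S s).coeff i • P s := by
  have hzs : ∀ s ∈ S, z - s ≠ 0 := fun s hs h0 => hz (by rwa [sub_eq_zero.1 h0])
  have hprod : (∏ s' ∈ S, (z - s')) ≠ 0 := Finset.prod_ne_zero_iff.2 hzs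
  rw [Finset.sum_insert hz, Finset.erase_insert hz] at h
  have h1 : ∀ s ∈ S, (∏ s' ∈ (insert z S).erase s, (s - s'))⁻¹ • P s =
      -((∏ s' ∈ S, (z - s'))⁻¹ • ((pcP S s).eval z • P s)) := by
    intro s hs
    have hsz : s ≠ z := fun h0 => hz (h0 ▸ hs)
    have h2 : (insert z S).erase s = insert z (S.erase s) := by
      rw [Finset.erase_insert_of_ne hsz.symm]
    have h3 : z ∉ S.erase s := fun h0 => hz (Finset.mem_of_mem_erase h0)
    rw [h2, Finset.prod_insert h3, smul_smul, ← neg_smul]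
    congr 1
    have h4 : (pcP S s).eval z =
        (∏ s' ∈ S.erase s, (s - s'))⁻¹ * ∏ s' ∈ S.erase s, (z - s') := by
      unfold pcP
      rw [Polynomial.eval_mul, Polynomial.eval_C, Polynomial.eval_prod]
      simp
    have h5 : ∏ s' ∈ S, (z - s') = (z - s) * ∏ s' ∈ S.erase s, (z - s') :=
      (Finset.mul_prod_erase S _ hs).symm
    have h6 : (∏ s' ∈ S.erase s, (z - s')) ≠ 0 :=
      Finset.prod_ne_zero_iff.2 fun a ha => hzs a (Finset.mem_of_mem_erase ha)
    have h7 : z - s ≠ 0 := hzs s hs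
    have h8 : s - z ≠ 0 := sub_ne_zero.2 hsz
    rw [h4, h5, mul_inv, mul_inv]
    have h9 : (s - z)⁻¹ = -(z - s)⁻¹ := by
      rw [← neg_sub z s, neg_inv, inv_neg, neg_inv]
    rw [h9]
    field_simp
  rw [Finset.sum_congr rfl h1, Finset.sum_neg_distrib, ← Finset.smul_sum, ← sub_eq_add_neg,
    ← smul_sub, smul_eq_zero] at h
  have h2 : P z = ∑ s ∈ S, (pcP S s).eval z • P s := by
    rcases h with h | h
    · exact absurd h (inv_ne_zero hprod)
    · exact sub_eq_zero.1 h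
  rw [h2]
  simp only [Finset.smul_sum]
  rw [Finset.sum_comm]
  refine Finset.sum_congr rfl fun s hs => ?_
  rw [Polynomial.eval_eq_sum_range' (pc_deg S s hs), Finset.sum_smul]
  refine Finset.sum_congr rfl fun i _ => ?_
  rw [smul_smul, mul_comm]

private theorem pc_lag' {M H : Type} [Field M] [AddCommGroup H] [Module M H]
    {i1 i2 : DecidableEq M} (S : Finset M) (P : M → H) {z : M} (hz : z ∉ S)
    (h : ∑ s ∈ @insert M (Finset M) (@Finset.instInsert M i1) z S,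
      (∏ s' ∈ @Finset.erase M i2 (@insert M (Finset M) (@Finset.instInsert M i1) z S) s,
        (s - s'))⁻¹ • P s = 0) :
    P z = ∑ i ∈ Finset.range (S.card + 1), z ^ i • ∑ s ∈ S, (pcP S s).coeff i • P s := by
  have e1 : i1 = fun a b => Classical.propDecidable (a = b) := Subsingleton.elim _ _
  have e2 : i2 = fun a b => Classical.propDecidable (a = b) := Subsingleton.elim _ _
  subst e1
  subst e2
  exact pc_lag S P hz h

/-- **The line.** Proof: if there is no good `z` nothing is to be proved. Let `S`, `k` be as in `exists_s0` for this `j`. For good `z` `pn_cr` over `Ur ⊥ (n k)` for `S ∪ {z}` gives (Lagrange)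
`P (c + z b; b) = ∑ s ∈ S, (Lagrange.basis S id s).eval z • P (c + s b; b) = ∑ i < j, z ^ i • q'_i` over `Ur ⊥ (n k)`; apply `rs` (`pn_up`, `rs_sum`, `rs_smul`). -/
theorem pn_line (hψ : ∀ i, Pj f L (ψ i)) (hr : L.Rf ⊥ r) (hT : Tp f L ψ r nb T C)
    (hn : N0 r n) {i : Fin m} {c b : Fin (d + 1) → Ω} (hc : Iv L (L.Ur ⊥ n) c)
    (hb : Iv L (L.Ur ⊥ n) b) (j : ℕ) :
    ∃ q : ℕ → Hn L hB n, ∀ z : ↥(L.Ur ⊥ n), L.nm (z : Ω) ≤ 1 →
      L.nm (MvPolynomial.aeval (c + (z : Ω) • b) (ψ i).D) = 1 →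
        Pn hB T (ψ i) n j (c + (z : Ω) • b) b = PL.pe j q z := by
  classical
  by_cases hgood : ∃ z₀ : ↥(L.Ur ⊥ n), L.nm (z₀ : Ω) ≤ 1 ∧
      L.nm (MvPolynomial.aeval (c + (z₀ : Ω) • b) (ψ i).D) = 1
  · obtain ⟨z₀, hz₀, hD₀⟩ := hgood
    obtain ⟨k, hk, S, hSc, hS1, hS2, hS3⟩ := exists_s0 hψ hr hn hc hb z₀.2 hz₀ hD₀ j
    have hle : L.Ur ⊥ n ≤ L.Ur ⊥ (n * k) := Ld.ur_dvd ⊥ (dvd_mul_right n k)
    have hc' : Iv L (L.Ur ⊥ (n * k)) c := fun l => ⟨hle (hc l).1, (hc l).2⟩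
    have hb' : Iv L (L.Ur ⊥ (n * k)) b := fun l => ⟨hle (hb l).1, (hb l).2⟩
    refine ⟨fun i' => rs hB n k (∑ s ∈ S, (pcP S s).coeff i' •
      Pn hB T (ψ i) (n * k) j (c + (s : Ω) • b) b), fun z hz1 hzD => ?_⟩
    have hz' : (iu L n k z : Ω) = z := iu_coe n k z
    have hzS : iu L n k z ∉ S := by
      intro h0
      have h1 := hS3 _ h0 z z.2 hz1
      rw [hz', sub_self, L.zero] at h1
      exact zero_ne_one h1
    have hcr := pn_cr (hB := hB) hψ hr hT (hn.mul hk) (i := i) hc' hb'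
      (S := insert (iu L n k z) S) (j := j) (by
        intro s hs
        rcases Finset.mem_insert.1 hs with rfl | hs
        · rw [hz']
          exact ⟨hz1, hzD⟩
        · exact hS1 s hs) (by
        intro s hs s' hs' hne
        rcases Finset.mem_insert.1 hs with rfl | hs
        · rcases Finset.mem_insert.1 hs' with rfl | hs'
          · exact absurd rfl hne
          · rw [hz', L.sub_comm]
            exact hS3 s' hs' z z.2 hz1
        · rcases Finset.mem_insert.1 hs' with rfl | hs'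
          · rw [hz']
            exact hS3 s hs z z.2 hz1
          · exact hS2 s hs s' hs' hne) (by
        rw [Finset.card_insert_of_notMem hzS, hSc]
        exact Nat.lt_succ_self j)
    have h2 := pc_lag' S (fun s : ↥(L.Ur ⊥ (n * k)) =>
      Pn hB T (ψ i) (n * k) j (c + (s : Ω) • b) b) hzS hcr
    simp only [hz', hSc] at h2
    have hgd : Gd L (ψ i) n (c + (z : Ω) • b) := by
      refine ⟨fun l => ⟨?_, ?_⟩, hzD⟩
      · change c l + (z : Ω) * b l ∈ L.Ur ⊥ n
        exact add_mem (hc l).1 (mul_mem z.2 (hb l).1)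
      · change L.nm (c l + (z : Ω) * b l) ≤ 1
        refine (L.add _ _).trans (max_le (hc l).2 ?_)
        rw [L.mul]
        exact mul_le_one₀ hz1 (L.nonneg _) (hb l).2
    rw [← pn_up hψ hr hT hn hgd (fun l => (hb l).1) hk j, h2, rs_sum]
    unfold PL.pe
    refine Finset.sum_congr rfl fun i' _ => ?_
    rw [← map_pow, rs_smul]
  · exact ⟨fun _ => 0, fun z hz1 hzD => absurd ⟨z, hz1, hzD⟩ hgood⟩

end GX
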