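import Pool.Agent.Lib.MP_f80667_ag.Lc.G

/-!
A basis of the values of the forms.

* `Bsl M L f r n g x t b Bm`: `b α` are the values of the forms at the points `x α`, `t α` over `Ur ⊥ n`, and `b' = ∑ α, (Bm b') α • b α` for all values `b'` over the fields `Ur ⊥ n'`, `n ∣ n'`.
-/

open ZC BE PE CV IntermediateField

namespace GX

variable {F : Type} [Field F] {N N' k k' d m : ℕ} {ι ι' : Type} {f : ι → MvPolynomial (Fin N) F}
  {A : Gv F N' k' ι'} {M : Mf f A k}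
  {K Ω : Type} [Field K] [CharZero K] [Field Ω] [Algebra K Ω] [Algebra F K] [Algebra F Ω]
  [IsScalarTower F K Ω] [IsAlgClosure K Ω] {L : Ld K Ω} {π : Ω} {ψ : Fin m → Prj K N d} {r n : ℕ}
  {B : Type} [AddCommGroup B] [Module ℚ B] {nb : B → ℝ}
  {C : ℝ} {T : ℕ → (Fin N → Ω) → (Fin N → Ω) → B} {hB : Bn L.p (L.nm (L.p : Ω)) nb}

/-- A basis of the values of the forms. -/
structure Bsl (M : Mf f A k) (L : Ld K Ω) (n g : ℕ) (x t : Fin g → Fin N → Ω)
    (b : Fin g → Fin N' → Ω) (Bm : Fin g → Fin N' → Ω) : Prop where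
  hx : ∀ α, Xp f L n (x α)
  ht : ∀ α, Tn' f L n (x α) (t α)
  hb : ∀ α, Wv M (x α) (t α) (b α)
  mem : ∀ α l, Bm α l ∈ L.Ur ⊥ n
  bas : ∀ n' x' t' b', n ∣ n' → n' ≠ 0 → Xp f L n' x' → Tn' f L n' x' t' → Wv M x' t' b' →
    b' = ∑ α, (∑ l, Bm α l * b' l) • b α

private theorem bs_lin {Ω : Type} [Field Ω] {N' : ℕ} (W : Set (Fin N' → Ω)) :
    ∃ (g : ℕ) (b : Fin g → Fin N' → Ω), (∀ α, b α ∈ W) ∧ LinearIndependent Ω b ∧
      ∀ w ∈ W, w ∈ Submodule.span Ω (Set.range b) := by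
  obtain ⟨s, hs, hsp, hli⟩ := exists_linearIndependent Ω W
  have : Finite s := hli.finite
  obtain ⟨g, ⟨e⟩⟩ := Finite.exists_equiv_fin s
  refine ⟨g, fun α => ((e.symm α : s) : Fin N' → Ω), fun α => hs (e.symm α).2,
    hli.comp _ e.symm.injective, fun w hw => ?_⟩
  have h1 : w ∈ Submodule.span Ω s := by
    rw [hsp]
    exact Submodule.subset_span hw
  have h2 : Set.range (fun α => ((e.symm α : s) : Fin N' → Ω)) = s := by
    ext v
    constructor
    · rintro ⟨α, rfl⟩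
      exact (e.symm α).2
    · intro hv
      exact ⟨e ⟨v, hv⟩, by
        change ((e.symm (e ⟨v, hv⟩) : s) : Fin N' → Ω) = v
        rw [e.symm_apply_apply]⟩
  rw [h2]
  exact h1

private theorem bs_dual {E Ω : Type} [Field E] [Field Ω] {N' g : ℕ} (j : E →+* Ω)
    (b₀ : Fin g → Fin N' → E) (hli : LinearIndependent Ω fun α l => j (b₀ α l)) :
    ∃ Bm : Fin g → Fin N' → E, ∀ α β, ∑ l, Bm α l * b₀ β l = if α = β then 1 else 0 := by
  classical
  have h0 : LinearIndependent E b₀ := by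
    rw [Fintype.linearIndependent_iff] at hli ⊢
    intro c hc α
    have h1 := hli (fun α => j (c α)) (by
      ext l
      have h2 := congrFun hc l
      rw [Finset.sum_apply] at h2 ⊢
      have h3 := congrArg j h2
      rw [map_sum] at h3
      refine (Finset.sum_congr rfl fun β _ => ?_).trans (h3.trans (map_zero j))
      change j (c β) * j (b₀ β l) = j (c β * b₀ β l)
      rw [map_mul]) α
    exact (map_eq_zero j).1 h1
  have h1 : LinearMap.ker (Fintype.linearCombination E b₀) = ⊥ := by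
    refine LinearMap.ker_eq_bot'.2 fun c hc => ?_
    rw [Fintype.linearCombination_apply] at hc
    exact funext (Fintype.linearIndependent_iff.1 h0 c hc)
  obtain ⟨s, hs⟩ := (Fintype.linearCombination E b₀).exists_leftInverse_of_injective h1
  refine ⟨fun α l => s (Pi.single l 1) α, fun α β => ?_⟩
  have h2 : s (b₀ β) = Pi.single β 1 := by
    have h3 := LinearMap.congr_fun hs (Pi.single β 1)
    have h4 : Fintype.linearCombination E b₀ (Pi.single β 1) = b₀ β := by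
      rw [Fintype.linearCombination_apply, Finset.sum_eq_single β]
      · rw [Pi.single_eq_same, one_smul]
      · intro γ _ hγ
        rw [Pi.single_eq_of_ne hγ, zero_smul]
      · intro h
        exact absurd (Finset.mem_univ _) h
    have h5 : s (Fintype.linearCombination E b₀ (Pi.single β 1)) = Pi.single β 1 := h3
    rw [h4] at h5
    exact h5
  have h3 : b₀ β = ∑ l, b₀ β l • (Pi.single l 1 : Fin N' → E) := by
    ext i
    rw [Finset.sum_apply, Finset.sum_eq_single i]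
    · rw [Pi.smul_apply, Pi.single_eq_same, smul_eq_mul, mul_one]
    · intro l _ hl
      rw [Pi.smul_apply, Pi.single_eq_of_ne hl.symm, smul_zero]
    · intro h
      exact absurd (Finset.mem_univ _) h
  have h4 : s (b₀ β) α = ∑ l, s (Pi.single l 1) α * b₀ β l := by
    conv_lhs => rw [h3]
    rw [map_sum, Finset.sum_apply]
    refine Finset.sum_congr rfl fun l _ => ?_
    rw [map_smul, Pi.smul_apply, smul_eq_mul, mul_comm]
  rw [← h4, h2, Pi.single_apply]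

private theorem bs_exp {Ω : Type} [Field Ω] {N' g : ℕ} {b Bm : Fin g → Fin N' → Ω}
    (h : ∀ α β, ∑ l, Bm α l * b β l = if α = β then 1 else 0) {w : Fin N' → Ω}
    (hw : w ∈ Submodule.span Ω (Set.range b)) : w = ∑ α, (∑ l, Bm α l * w l) • b α := by
  obtain ⟨c, hc⟩ := (Submodule.mem_span_range_iff_exists_fun Ω).1 hw
  have h1 : ∀ α, ∑ l, Bm α l * w l = c α := by
    intro α
    rw [← hc]
    have h2 : ∀ l, Bm α l * (∑ β, c β • b β) l = ∑ β, c β * (Bm α l * b β l) := by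
      intro l
      rw [Finset.sum_apply, Finset.mul_sum]
      refine Finset.sum_congr rfl fun β _ => ?_
      rw [Pi.smul_apply, smul_eq_mul]
      ring
    rw [Finset.sum_congr rfl fun l _ => h2 l, Finset.sum_comm]
    have h3 : ∀ β, ∑ l, c β * (Bm α l * b β l) = c β * if α = β then 1 else 0 := by
      intro β
      rw [← Finset.mul_sum, h]
    rw [Finset.sum_congr rfl fun β _ => h3 β]
    simp
  rw [Finset.sum_congr rfl fun α _ => by rw [h1 α], hc]

/-- Proof: the set `𝒲` of all `b'` (over all `n'`, `n₀ ∣ n'`) in `Ω ^ N'`: a basis `b α` of its span over `Ω` which consists of elements of `𝒲` (`exists_linearIndependent`), finite; all are over one `Ur ⊥ n`, `n₀ ∣ n` (the product; `Xp.mono`, `wv_mem`). The `b α` are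
linearly independent over `Ur ⊥ n`, so there are linear forms `Bm α` over `Ur ⊥ n` with `∑ l, Bm α l * b β l = δ` (`LinearIndependent`, `Module.Basis` / `LinearMap.exists_leftInverse_of_injective`). -/
theorem exists_bs (M : Mf f A k) (L : Ld K Ω) {n₀ : ℕ} (hn : N0 r n₀) :
    ∃ n, N0 r n ∧ n₀ ∣ n ∧ ∃ (g : ℕ) (x t : Fin g → Fin N → Ω) (b Bm : Fin g → Fin N' → Ω),
      Bsl M L n g x t b Bm := by
  classical
  obtain ⟨g, b, hb, hli, hsp⟩ := bs_lin {b' : Fin N' → Ω | ∃ (n' : ℕ) (x' t' : Fin N → Ω),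
    n₀ ∣ n' ∧ n' ≠ 0 ∧ Xp f L n' x' ∧ Tn' f L n' x' t' ∧ Wv M x' t' b'}
  choose ν x t h1 h2 h3 h4 h5 using hb
  have hn0 : n₀ * ∏ α, ν α ≠ 0 := mul_ne_zero hn.1 (Finset.prod_ne_zero_iff.2 fun α _ => h2 α)
  have hd : n₀ ∣ n₀ * ∏ α, ν α := dvd_mul_right _ _
  have hν : ∀ α, ν α ∣ n₀ * ∏ α, ν α := fun α =>
    (Finset.dvd_prod_of_mem ν (Finset.mem_univ α)).trans (dvd_mul_left _ _)
  have hmem : ∀ α l, b α l ∈ L.Ur ⊥ (n₀ * ∏ α, ν α) := fun α =>
    wv_mem ((h3 α).mono (hν α)) ((h4 α).mono (hν α)).mem (h5 α)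
  obtain ⟨Bm, hBm⟩ := bs_dual (algebraMap ↥(L.Ur ⊥ (n₀ * ∏ α, ν α)) Ω)
    (fun α l => ⟨b α l, hmem α l⟩) hli
  have hBm' : ∀ α β, ∑ l, (Bm α l : Ω) * b β l = if α = β then 1 else 0 := by
    intro α β
    have h6 := congrArg (algebraMap ↥(L.Ur ⊥ (n₀ * ∏ α, ν α)) Ω) (hBm α β)
    rw [map_sum] at h6
    refine (Finset.sum_congr rfl fun l _ => ?_).trans (h6.trans ?_)
    · rw [map_mul]
      rfl
    · split_ifs
      · exact map_one _
      · exact map_zero _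
  refine ⟨n₀ * ∏ α, ν α, ⟨hn0, hn.2.trans hd⟩, hd, g, x, t, b, fun α l => (Bm α l : Ω),
    ⟨fun α => (h3 α).mono (hν α), fun α => (h4 α).mono (hν α), h5, fun α l => (Bm α l).2,
      fun n' x' t' b' hnn hn' hx' ht' hb' => ?_⟩⟩
  exact bs_exp hBm' (hsp b' ⟨n', x', t', hd.trans hnn, hn', hx', ht', hb'⟩)

/-- Proof: `exists_g` over `Ur ⊥ n'`: `ph n' x' t' = g b' = ∑ κ_α • g (b α) = ∑ κ_α • ph n' (x α) (t α)`, evaluated at `1` (`ph_f`, `HM.smul_f`). -/
theorem bs_val {g : ℕ} {x t : Fin g → Fin N → Ω} {b Bm : Fin g → Fin N' → Ω}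
    (hs : Bsl M L n g x t b Bm) (hT : Tp f L ψ r nb T C) (hn : N0 r n) {n' : ℕ}
    (hnn : n ∣ n') (hn' : n' ≠ 0)
    (hg : ∃ G : (Fin N' → ↥(L.Ur ⊥ n')) →ₗ[↥(L.Ur ⊥ n')] Hn L hB n',
      ∀ x t (b : Fin N' → ↥(L.Ur ⊥ n')), Xp f L n' x → Tn' f L n' x t →
        Wv M x t (fun l => (b l : Ω)) → ph hB T n' x t = G b)
    {x' t' : Fin N → Ω} {b' : Fin N' → Ω} (hx' : Xp f L n' x') (ht' : Tn' f L n' x' t')
    (hb' : Wv M x' t' b') :
    T n' x' t' = ∑ α, T n' (x α) ((∑ l, Bm α l * b' l) • t α) := by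
  have hN : N0 r n' := ⟨hn', hn.2.trans hnn⟩
  obtain ⟨G, hG⟩ := hg
  have hxα : ∀ α, Xp f L n' (x α) := fun α => (hs.hx α).mono hnn
  have htα : ∀ α, Tn' f L n' (x α) (t α) := fun α => (hs.ht α).mono hnn
  have hbα : ∀ α l, b α l ∈ L.Ur ⊥ n' := fun α => wv_mem (hxα α) (htα α).mem (hs.hb α)
  have hb'm : ∀ l, b' l ∈ L.Ur ⊥ n' := wv_mem hx' ht'.mem hb'
  have hBm : ∀ α l, Bm α l ∈ L.Ur ⊥ n' := fun α l => Ld.ur_dvd ⊥ hnn (hs.mem α l)
  have hκ : ∀ α, (∑ l, Bm α l * b' l) ∈ L.Ur ⊥ n' := fun α =>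
    sum_mem fun l _ => mul_mem (hBm α l) (hb'm l)
  obtain ⟨κ, hκ1⟩ : ∃ κ : Fin g → ↥(L.Ur ⊥ n'), ∀ α, (κ α : Ω) = ∑ l, Bm α l * b' l :=
    ⟨fun α => ⟨_, hκ α⟩, fun α => rfl⟩
  obtain ⟨β, hβ⟩ : ∃ β : Fin g → Fin N' → ↥(L.Ur ⊥ n'), ∀ α l, (β α l : Ω) = b α l :=
    ⟨fun α l => ⟨b α l, hbα α l⟩, fun α l => rfl⟩
  obtain ⟨β', hβ'⟩ : ∃ β' : Fin N' → ↥(L.Ur ⊥ n'), ∀ l, (β' l : Ω) = b' l :=
    ⟨fun l => ⟨b' l, hb'm l⟩, fun l => rfl⟩
  have e1 : β' = ∑ α, κ α • β α := by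
    funext l
    apply Subtype.ext
    have h1 := congrFun (hs.bas n' x' t' b' hnn hn' hx' ht' hb') l
    rw [Finset.sum_apply] at h1
    rw [Finset.sum_apply, AddSubmonoidClass.coe_finsetSum, hβ', h1]
    refine Finset.sum_congr rfl fun α _ => ?_
    rw [Pi.smul_apply, Pi.smul_apply, smul_eq_mul, smul_eq_mul, MulMemClass.coe_mul, hκ1, hβ]
  have e2 : ph hB T n' x' t' = G β' := hG x' t' β' hx' ht' (by
    have : (fun l => (β' l : Ω)) = b' := funext hβ'
    rw [this]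
    exact hb')
  have e3 : ∀ α, ph hB T n' (x α) (t α) = G (β α) := fun α =>
    hG (x α) (t α) (β α) (hxα α) (htα α) (by
      have : (fun l => (β α l : Ω)) = b α := funext (hβ α)
      rw [this]
      exact hs.hb α)
  have e4 : ph hB T n' x' t' = ∑ α, κ α • ph hB T n' (x α) (t α) := by
    rw [e2, e1, map_sum]
    refine Finset.sum_congr rfl fun α _ => ?_
    rw [map_smul, e3]
  have e5 : T n' x' t' = (ph hB T n' x' t').f 1 := by
    rw [ph_f hB hT hN hx' ht' 1, OneMemClass.coe_one, one_smul]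
  rw [e5, e4, HM.sum_f]
  refine Finset.sum_congr rfl fun α _ => ?_
  rw [HM.smul_f, mul_one, ph_f hB hT hN (hxα α) (htα α), hκ1]

end GX
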