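import Pool.Agent.Lib.MP_f80667_ag.Lc.V
import Pool.Agent.Lib.MP_f80667_ag.Lc.TX

/-!
The derivative of `lam`: existence.

* `Ta`: `b` is the value of the derivative.
-/

open ZC BE PE CV IntermediateField

namespace GX

variable {F : Type} [Field F] {N d m : ℕ} {ι : Type} {f : ι → MvPolynomial (Fin N) F}
  {K Ω : Type} [Field K] [CharZero K] [Field Ω] [Algebra K Ω] [Algebra F K] [Algebra F Ω]
  [IsScalarTower F K Ω] [IsAlgClosure K Ω] {L : Ld K Ω} {π : Ω} {ψ : Fin m → Prj K N d} {r n : ℕ}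
  {B : Type} [AddCommGroup B] [Module ℚ B] {nb : B → ℝ}
  {lam : ((Xf f).pt Ω →₀ ℤ) →+ B} {s₀ : ℕ} {C C' : ℝ}

private theorem tA_sub (hB : Bn L.p (L.nm (L.p : Ω)) nb) (b b' : B) :
    nb (b - b') ≤ max (nb b) (nb b') := by
  have h := hB.add b (-b')
  rwa [hB.neg, ← sub_eq_add_neg] at h

private theorem tA_pow (hB : Bn L.p (L.nm (L.p : Ω)) nb) (k : ℕ) (b : B) :
    nb (L.p ^ k • b) = L.nm (L.p : Ω) ^ k * nb b := by
  induction k with
  | zero => rw [pow_zero, pow_zero, one_smul, one_mul]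
  | succ k ih => rw [pow_succ', mul_smul, hB.mulp, ih, pow_succ', mul_assoc]

private theorem tA_e (hπ : Uf L π) : ∃ e, e ≠ 0 ∧ L.nm (L.p : Ω) = L.nm π ^ e := by
  have hp0 : (L.p : K) ≠ 0 := Nat.cast_ne_zero.2 L.pp.ne_zero
  obtain ⟨n, hn⟩ := hπ.val (L.p : K) hp0
  rw [map_natCast] at hn
  have h1 := L.lt
  rw [hn] at h1
  have h2 : (0 : ℤ) < n := by
    rw [← zpow_zero (L.nm π)] at h1
    exact (zpow_lt_zpow_iff_right_of_lt_one₀ hπ.pos hπ.lt).1 h1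
  obtain ⟨e, rfl⟩ := Int.eq_ofNat_of_zero_le h2.le
  refine ⟨e, ?_, ?_⟩
  · rintro rfl
    exact lt_irrefl _ h2
  · rw [hn]
    exact zpow_natCast _ _

private theorem tA_bd (hπ : Uf L π) (t : Fin N → Ω) : ∃ a : ℕ, ∀ i, L.nm (t i) * L.nm π ^ a ≤ 1 := by
  have h1 : ∀ i, ∃ a : ℕ, L.nm (t i) * L.nm π ^ a ≤ 1 := by
    intro i
    have h2 : (0 : ℝ) < (L.nm (t i) + 1)⁻¹ := inv_pos.2 (by linarith [L.nonneg (t i)])
    obtain ⟨a, ha⟩ := exists_pow_lt_of_lt_one h2 hπ.lt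
    refine ⟨a, ?_⟩
    have h3 : (0 : ℝ) < L.nm (t i) + 1 := by linarith [L.nonneg (t i)]
    calc L.nm (t i) * L.nm π ^ a ≤ (L.nm (t i) + 1) * (L.nm (t i) + 1)⁻¹ :=
          mul_le_mul (by linarith) ha.le (pow_nonneg hπ.pos.le _) h3.le
      _ = 1 := mul_inv_cancel₀ h3.ne'
  choose a ha using h1
  refine ⟨∑ i, a i, fun i => ?_⟩
  have h2 : L.nm π ^ (∑ i, a i) ≤ L.nm π ^ a i :=
    hπ.pow_le (Finset.single_le_sum (fun j _ => Nat.zero_le (a j)) (Finset.mem_univ i))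
  exact (mul_le_mul_of_nonneg_left h2 (L.nonneg _)).trans (ha i)

/-- The multiples of a small vector. Proof: induction on `k`; points near `x + k t` exist (`exists_xt`); `vx_add` for the vectors `k t` and `t`; `Bn.add`. -/
theorem vx_mul (h : Cx f L π ψ r) (hB : Bn L.p (L.nm (L.p : Ω)) nb)
    (hl : Lam f L π nb lam s₀ C) (hC : 0 ≤ C) (hn : n ≠ 0) {s : ℕ}
    (hs₀ : s₀ ≤ s) (hs : s ≠ 0) {x x₁ x' t : Fin N → Ω} (hx : Xp f L n x)
    (hx₁ : Xp f L n x₁) (hx' : Xp f L n x') (ht : Tn' f L n x t)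
    (hts : ∀ i, L.nm (t i) ≤ L.nm π ^ s)
    (e₁ : ∀ i, L.nm (x₁ i - x i - t i) ≤ L.nm π ^ (2 * s)) {k : ℕ}
    (e' : ∀ i, L.nm (x' i - x i - (k : Ω) * t i) ≤ L.nm π ^ (2 * s)) :
    nb (Vx L lam n x x' - k • Vx L lam n x x₁) ≤ C * L.nm π ^ (2 * s) := by
  have _ := hC
  induction k generalizing x' with
  | zero =>
    rw [zero_smul, sub_zero]
    refine vx_bd h.hπ hl hn (hs₀.trans (by omega)) (by omega) hx hx' fun i => ?_
    have h1 := e' i
    rwa [Nat.cast_zero, zero_mul, sub_zero] at h1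
  | succ k ih =>
    have hk : (k : Ω) ∈ L.Ur ⊥ n := IntermediateField.natCast_mem _ k
    have htk : Tn' f L n x ((k : Ω) • t) := ht.smul hk
    have hks : ∀ i, L.nm (((k : Ω) • t) i) ≤ L.nm π ^ s := by
      intro i
      rw [Pi.smul_apply, smul_eq_mul, L.mul]
      exact (mul_le_of_le_one_left (L.nonneg _) (L.nat_le k)).trans (hts i)
    obtain ⟨y, hy, hy'⟩ := exists_xt h.hψ h.hc hx htk (pow_nonneg (L.nonneg π) s)
      (h.hπ.pow_lt hs) hks
    have h2 : ∀ i, L.nm (y i - x i - ((k : Ω) • t) i) ≤ L.nm π ^ (2 * s) := by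
      intro i
      refine (hy' i).trans (le_of_eq ?_)
      rw [← pow_mul, mul_comm s 2]
    have h3 := ih hy fun i => h2 i
    have h4 := vx_add h hl hn hs₀ hs hx hy hx₁ hx' htk.mem ht.mem hks hts h2 e₁ (by
      intro i
      have h5 := e' i
      rw [Pi.smul_apply, smul_eq_mul]
      have h6 : x' i - x i - ((k : Ω) * t i + t i) = x' i - x i - ((k + 1 : ℕ) : Ω) * t i := by
        push_cast
        ring
      rw [h6]
      exact h5)
    have h7 : Vx L lam n x x' - (k + 1) • Vx L lam n x x₁ =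
        (Vx L lam n x y - k • Vx L lam n x x₁) -
          (Vx L lam n x y + Vx L lam n x x₁ - Vx L lam n x x') := by
      rw [add_smul, one_smul]
      abel
    rw [h7]
    exact (tA_sub hB _ _).trans (max_le h3 h4)

/-- `b` is the value of the derivative at `x`, `t`. -/
def Ta (L : Ld K Ω) (π : Ω) (nb : B → ℝ) (lam : ((Xf f).pt Ω →₀ ℤ) →+ B) (s₀ : ℕ) (C : ℝ)
    (n : ℕ) (x t : Fin N → Ω) (b : B) : Prop :=
  ∀ (k s : ℕ) (x' : Fin N → Ω), s₀ ≤ s → s ≠ 0 → Xp f L n x' →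
    (∀ i, L.nm ((L.p : Ω) ^ k * t i) ≤ L.nm π ^ s) →
    (∀ i, L.nm (x' i - x i - (L.p : Ω) ^ k * t i) ≤ L.nm π ^ (2 * s)) →
      nb (Vx L lam n x x' - L.p ^ k • b) ≤ C * L.nm π ^ (2 * s)

/-- Proof: `nm p = nm π ^ e`; for large `k` there is `x'` (`exists_xt`) with `s = e k - const`; `nb (p ^ k (b - b')) ≤ C nm π ^ (2 s)`, `Bn.mulp`, limit. -/
theorem ta_uniq (h : Cx f L π ψ r) (hB : Bn L.p (L.nm (L.p : Ω)) nb) (hn : n ≠ 0)
    {x t : Fin N → Ω} (hx : Xp f L n x) (ht : Tn' f L n x t) {b b' : B}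
    (hb : Ta L π nb lam s₀ C n x t b) (hb' : Ta L π nb lam s₀ C' n x t b') : b = b' := by
  obtain ⟨e, he0, he⟩ := tA_e h.hπ
  obtain ⟨a, ha⟩ := tA_bd h.hπ t
  obtain ⟨D, hD, hCD, hCD'⟩ : ∃ D : ℝ, 0 ≤ D ∧ C ≤ D ∧ C' ≤ D :=
    ⟨max (max C C') 0, le_max_right _ _, (le_max_left _ _).trans (le_max_left _ _),
      (le_max_right _ _).trans (le_max_left _ _)⟩
  have hq0 := h.hπ.pos
  have hj : ∀ j : ℕ, nb (b - b') ≤ D * L.nm π ^ j := by
    intro j
    obtain ⟨k, hk⟩ : ∃ k, k = 2 * a + s₀ + 1 + j := ⟨_, rfl⟩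
    have hek : k ≤ e * k := Nat.le_mul_of_pos_left k (Nat.pos_of_ne_zero he0)
    obtain ⟨s, hs⟩ : ∃ s, e * k = s + a := ⟨e * k - a, by omega⟩
    have hpm : (L.p : Ω) ^ k ∈ L.Ur ⊥ n := pow_mem (IntermediateField.natCast_mem _ L.p) k
    have hpk : L.nm ((L.p : Ω) ^ k) = L.nm π ^ (s + a) := by
      rw [L.pow, he, ← pow_mul, hs]
    have hts : ∀ i, L.nm ((L.p : Ω) ^ k * t i) ≤ L.nm π ^ s := by
      intro i
      rw [L.mul, hpk, pow_add]
      have h1 : L.nm π ^ s * L.nm π ^ a * L.nm (t i) =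
          L.nm π ^ s * (L.nm (t i) * L.nm π ^ a) := by ring
      rw [h1]
      exact mul_le_of_le_one_right (pow_nonneg hq0.le _) (ha i)
    have hs0 : s ≠ 0 := by omega
    obtain ⟨x', hx', hx''⟩ := exists_xt h.hψ h.hc hx (ht.smul hpm) (pow_nonneg (L.nonneg π) s)
      (h.hπ.pow_lt hs0) hts
    have h2 : ∀ i, L.nm (x' i - x i - (L.p : Ω) ^ k * t i) ≤ L.nm π ^ (2 * s) := by
      intro i
      refine (hx'' i).trans (le_of_eq ?_)
      rw [← pow_mul, mul_comm s 2]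
    have h3 := hb k s x' (by omega) hs0 hx' hts h2
    have h4 := hb' k s x' (by omega) hs0 hx' hts h2
    have h5 : L.p ^ k • (b - b') =
        (Vx L lam n x x' - L.p ^ k • b') - (Vx L lam n x x' - L.p ^ k • b) := by
      rw [smul_sub]
      abel
    have hpos : (0 : ℝ) ≤ L.nm π ^ (2 * s) := pow_nonneg hq0.le _
    have h6 : nb (L.p ^ k • (b - b')) ≤ D * L.nm π ^ (2 * s) := by
      rw [h5]
      exact (tA_sub hB _ _).trans (max_le
        (h4.trans (mul_le_mul_of_nonneg_right hCD' hpos))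
        (h3.trans (mul_le_mul_of_nonneg_right hCD hpos)))
    rw [tA_pow hB, ← L.pow, hpk] at h6
    have h7 : L.nm π ^ (2 * s) ≤ L.nm π ^ (s + a) * L.nm π ^ j := by
      rw [← pow_add]
      exact h.hπ.pow_le (by omega)
    have h8 : L.nm π ^ (s + a) * nb (b - b') ≤ L.nm π ^ (s + a) * (D * L.nm π ^ j) := by
      refine h6.trans ((mul_le_mul_of_nonneg_left h7 hD).trans (le_of_eq ?_))
      ring
    exact le_of_mul_le_mul_left h8 (pow_pos hq0 _)
  have hlim : Filter.Tendsto (fun j : ℕ => D * L.nm π ^ j) Filter.atTop (nhds (D * 0)) :=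
    (tendsto_pow_atTop_nhds_zero_of_lt_one hq0.le h.hπ.lt).const_mul D
  have h9 : nb (b - b') ≤ 0 := by
    have h10 := ge_of_tendsto' hlim hj
    rwa [mul_zero] at h10
  exact sub_eq_zero.1 ((hB.zero_iff _).1 (le_antisymm h9 (hB.nonneg _)))

/-- Proof: `nm p = nm π ^ e`. Fix `k`, `s`, `x'` as in `Ta`; `x_0 = x'`, `x_j` near `x + p ^ (k + j) t` modulo `nm π ^ (2 (s + e j))` (`exists_xt`);
`v_j = p ^ (-j) Vx x x_j`: `nb (v_(j+1) - v_j) ≤ C / nm p * nm π ^ (2 s) * (nm p) ^ j` by `vx_mul` for `p ^ (k + j) t` and the multiplier `p`; `Bn.lim`. The limit `β` satisfies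
`nb (Vx x x' - β) ≤ C / nm p * nm π ^ (2 s)`; `b = p ^ (-k) β` does not depend on the choice of `k`, `s`, the `x_j` (two choices of the points differ by `Vx` of points of
distance `≤ nm π ^ (2 s)`: `vx_trans`, `vx_bd`; limit). -/
theorem exists_ta (h : Cx f L π ψ r) (hB : Bn L.p (L.nm (L.p : Ω)) nb)
    (hl : Lam f L π nb lam s₀ C) (hC : 0 ≤ C) (hn : n ≠ 0) {x t : Fin N → Ω}
    (hx : Xp f L n x) (ht : Tn' f L n x t) :
    ∃ b, Ta L π nb lam s₀ (C / L.nm (L.p : Ω)) n x t b := by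
  obtain ⟨e, he⟩ := tx_e h.hπ
  have hmono : ∀ {a b : ℕ}, a ≤ b → L.nm π ^ b ≤ L.nm π ^ a := fun hab => h.hπ.pow_le hab
  have h4 := tx_abs hB h.hπ.pos h.hπ.lt.le he hC
    (R := fun k s w => s₀ ≤ s ∧ s ≠ 0 ∧ (∀ i, L.nm ((L.p : Ω) ^ k * t i) ≤ L.nm π ^ s) ∧
      ∃ x', Xp f L n x' ∧ (∀ i, L.nm (x' i - x i - (L.p : Ω) ^ k * t i) ≤ L.nm π ^ (2 * s)) ∧
        Vx L lam n x x' = w) ?_ ?_ ?_ ?_
  · obtain ⟨b, hb⟩ := h4
    exact ⟨b, fun k s x' hs₀ hs hx' e1 e2 => hb k s _ ⟨hs₀, hs, e1, x', hx', e2, rfl⟩⟩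
  · have hs : max s₀ 1 ≠ 0 := by
      have := le_max_right s₀ 1
      omega
    obtain ⟨k, hk⟩ := tx_k (L := L) t (pow_pos h.hπ.pos (max s₀ 1))
    obtain ⟨x', hx', e1⟩ := tx_pt h hx ht hs (hk k le_rfl)
    exact ⟨k, max s₀ 1, _, le_max_left _ _, hs, hk k le_rfl, x', hx', e1, rfl⟩
  · rintro k s w ⟨hs₀, hs, e1, -⟩
    have e2 := tx_up (L := L) he e1
    obtain ⟨x', hx', e3⟩ := tx_pt h hx ht (s := s + e) (by omega) e2
    exact ⟨_, by omega, by omega, e2, x', hx', e3, rfl⟩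
  · rintro k s w w' ⟨hs₀, hs, e1, x₁, hx₁, e2, rfl⟩ ⟨-, -, -, x₂, hx₂, e3, rfl⟩
    refine vx_mul h hB hl hC hn hs₀ hs hx hx₁ hx₂
      (ht.smul (pow_mem (IntermediateField.natCast_mem _ L.p) k)) e1 e2 fun i => ?_
    have h5 : x₂ i - x i - (L.p : Ω) * ((L.p : Ω) ^ k • t) i =
        x₂ i - x i - (L.p : Ω) ^ (k + 1) * t i := by
      rw [Pi.smul_apply, smul_eq_mul, pow_succ]
      ring
    rw [h5]
    exact (e3 i).trans (hmono (by omega))
  · rintro k s s' w w' ⟨hs₀, hs, -, x₁, hx₁, e1, rfl⟩ ⟨hs₀', hs', -, x₂, hx₂, e2, rfl⟩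
    have h5 : Vx L lam n x x₂ - Vx L lam n x x₁ = Vx L lam n x₁ x₂ := by
      rw [← vx_trans hx hx₁ hx₂, add_sub_cancel_left]
    have h6 : ∀ i, L.nm (x₂ i - x₁ i) ≤ max (L.nm π ^ (2 * s')) (L.nm π ^ (2 * s)) := by
      intro i
      have h7 : x₂ i - x₁ i = (x₂ i - x i - (L.p : Ω) ^ k * t i) -
          (x₁ i - x i - (L.p : Ω) ^ k * t i) := by ring
      rw [h7]
      exact (tx_nsub _ _).trans (max_le_max (e2 i) (e1 i))
    rw [h5]
    rcases le_total s s' with h8 | h8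
    · rw [max_eq_left (hmono (by omega))]
      rw [max_eq_right (hmono (by omega))] at h6
      exact vx_bd h.hπ hl hn (by omega) (by omega) hx₁ hx₂ h6
    · rw [max_eq_right (hmono (by omega))]
      rw [max_eq_left (hmono (by omega))] at h6
      exact vx_bd h.hπ hl hn (by omega) (by omega) hx₁ hx₂ h6

open Classical in
/-- The derivative. -/
noncomputable def Txl (L : Ld K Ω) (π : Ω) (nb : B → ℝ) (lam : ((Xf f).pt Ω →₀ ℤ) →+ B)
    (s₀ : ℕ) (C : ℝ) (n : ℕ) (x t : Fin N → Ω) : B :=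
  if h : ∃ b, Ta L π nb lam s₀ (C / L.nm (L.p : Ω)) n x t b then h.choose else 0

/-- **The derivative.** Proof: `app` is `Ta` for `k = 0`; `add`: for large `k` let `x₁`, `x₂`, `x₃` be near `x + p ^ k t`, `x + p ^ k t'`, `x + p ^ k (t + t')` (`exists_xt`): `vx_add`, then `Ta` three times
and the limit. -/
theorem tx_tz (h : Cx f L π ψ r) (hB : Bn L.p (L.nm (L.p : Ω)) nb)
    (hl : Lam f L π nb lam s₀ C) (hC : 0 ≤ C) :
    Tz L π nb r lam (Txl L π nb lam s₀ C) s₀ (C / L.nm (L.p : Ω)) := by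
  have key : ∀ n x t, N0 r n → Xp f L n x → Tn' f L n x t →
      Ta L π nb lam s₀ (C / L.nm (L.p : Ω)) n x t (Txl L π nb lam s₀ C n x t) := by
    intro n x t hN hx ht
    have h1 := exists_ta h hB hl hC hN.1 hx ht
    unfold Txl
    rw [dif_pos h1]
    exact h1.choose_spec
  have hP := hB.q0
  refine ⟨fun n x t t' hN hx ht ht' => ?_, fun n x x' t s hN hx hx' ht hs₀ hs e1 e2 => ?_⟩
  · obtain ⟨e, he⟩ := tx_e h.hπ
    obtain ⟨s, hs⟩ : ∃ s, s = max s₀ 1 := ⟨_, rfl⟩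
    have hss : s₀ ≤ s := by rw [hs]; exact le_max_left _ _
    have hs0 : s ≠ 0 := by
      have := le_max_right s₀ 1
      omega
    obtain ⟨k₁, hk₁⟩ := tx_k (L := L) t (pow_pos h.hπ.pos s)
    obtain ⟨k₂, hk₂⟩ := tx_k (L := L) t' (pow_pos h.hπ.pos s)
    obtain ⟨k, hk⟩ : ∃ k, k = max k₁ k₂ := ⟨_, rfl⟩
    have hb : ∀ m i, L.nm ((L.p : Ω) ^ (k + m) * t i) ≤ L.nm π ^ (s + e * m) :=
      fun m => tx_upm he (hk₁ k (hk ▸ le_max_left _ _)) m
    have hb' : ∀ m i, L.nm ((L.p : Ω) ^ (k + m) * t' i) ≤ L.nm π ^ (s + e * m) :=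
      fun m => tx_upm he (hk₂ k (hk ▸ le_max_right _ _)) m
    have hz : Txl L π nb lam s₀ C n x (t + t') - (Txl L π nb lam s₀ C n x t +
        Txl L π nb lam s₀ C n x t') = 0 := by
      refine tx_zero hB (D := C / L.nm (L.p : Ω) * L.nm π ^ (2 * s) * (L.nm (L.p : Ω) ^ k)⁻¹)
        fun m => ?_
      have hb'' : ∀ i, L.nm ((L.p : Ω) ^ (k + m) * (t + t') i) ≤ L.nm π ^ (s + e * m) := by
        intro i
        rw [Pi.add_apply, mul_add]
        exact (L.add _ _).trans (max_le (hb m i) (hb' m i))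
      have hsm : s + e * m ≠ 0 := by omega
      obtain ⟨x₁, hx₁, e₁⟩ := tx_pt h hx ht hsm (hb m)
      obtain ⟨x₂, hx₂, e₂⟩ := tx_pt h hx ht' hsm (hb' m)
      obtain ⟨x₃, hx₃, e₃⟩ := tx_pt h hx (ht.add ht') hsm hb''
      have hpm : (L.p : Ω) ^ (k + m) ∈ L.Ur ⊥ n :=
        pow_mem (IntermediateField.natCast_mem _ L.p) _
      have a0 := vx_add h hl hN.1 (by omega : s₀ ≤ s + e * m) hsm hx hx₁ hx₂ hx₃
        (t := (L.p : Ω) ^ (k + m) • t) (t' := (L.p : Ω) ^ (k + m) • t')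
        (ht.smul hpm).mem (ht'.smul hpm).mem (hb m) (hb' m) e₁ e₂ (fun i => by
          have h5 := e₃ i
          rw [Pi.add_apply, mul_add] at h5
          exact h5)
      have a1 := key n x t hN hx ht (k + m) (s + e * m) x₁ (by omega) hsm hx₁ (hb m) e₁
      have a2 := key n x t' hN hx ht' (k + m) (s + e * m) x₂ (by omega) hsm hx₂ (hb' m) e₂
      have a3 := key n x (t + t') hN hx (ht.add ht') (k + m) (s + e * m) x₃ (by omega) hsm hx₃
        hb'' e₃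
      obtain ⟨T₁, hT₁⟩ : ∃ T, T = Txl L π nb lam s₀ C n x t := ⟨_, rfl⟩
      obtain ⟨T₂, hT₂⟩ : ∃ T, T = Txl L π nb lam s₀ C n x t' := ⟨_, rfl⟩
      obtain ⟨T₃, hT₃⟩ : ∃ T, T = Txl L π nb lam s₀ C n x (t + t') := ⟨_, rfl⟩
      rw [← hT₁] at a1
      rw [← hT₂] at a2
      rw [← hT₃] at a3
      rw [← hT₁, ← hT₂, ← hT₃]
      have hCP : C ≤ C / L.nm (L.p : Ω) := by
        rw [le_div_iff₀ hP]
        exact mul_le_of_le_one_right hC hB.q1.le
      have a0' := a0.trans (mul_le_mul_of_nonneg_right hCP (pow_nonneg h.hπ.pos.le _))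
      have h6 : L.p ^ (k + m) • (T₃ - (T₁ + T₂)) =
          ((Vx L lam n x x₁ - L.p ^ (k + m) • T₁) + (Vx L lam n x x₂ - L.p ^ (k + m) • T₂)) -
          ((Vx L lam n x x₃ - L.p ^ (k + m) • T₃) +
            (Vx L lam n x x₁ + Vx L lam n x x₂ - Vx L lam n x x₃)) := by
        rw [smul_sub, smul_add]
        abel
      have h7 : nb (L.p ^ (k + m) • (T₃ - (T₁ + T₂))) ≤
          C / L.nm (L.p : Ω) * L.nm π ^ (2 * (s + e * m)) := by
        rw [h6]
        exact (tx_sub hB _ _).trans (max_le ((hB.add _ _).trans (max_le a1 a2))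
          ((hB.add _ _).trans (max_le a3 a0')))
      rw [tx_nsm hB] at h7
      have h8 : L.nm π ^ (2 * (s + e * m)) =
          L.nm π ^ (2 * s) * (L.nm (L.p : Ω) ^ m * L.nm (L.p : Ω) ^ m) := by
        rw [he, ← pow_mul, ← pow_add, ← pow_add]
        congr 1
        ring
      rw [h8, pow_add, mul_assoc, ← le_div_iff₀' (pow_pos hP k),
        ← le_div_iff₀' (pow_pos hP m)] at h7
      refine h7.trans (le_of_eq ?_)
      have h10 := (pow_pos hP m).ne'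
      have h11 := (pow_pos hP k).ne'
      field_simp
    rwa [sub_eq_zero] at hz
  · have h1 := key n x t hN hx ht 0 s x' hs₀ hs hx' (fun i => by
      rw [pow_zero, one_mul]
      exact e1 i) (fun i => by
      rw [pow_zero, one_mul]
      exact e2 i)
    rwa [pow_zero, one_smul] at h1

end GX
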