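import Pool.Agent.Lib.MP_f80667_ag.Lc.V

/-!
The properties of the derivative.
-/

open ZC BE PE CV IntermediateField

namespace GX

variable {F : Type} [Field F] {N d m : ℕ} {ι : Type} {f : ι → MvPolynomial (Fin N) F}
  {K Ω : Type} [Field K] [CharZero K] [Field Ω] [Algebra K Ω] [Algebra F K] [Algebra F Ω]
  [IsScalarTower F K Ω] [IsAlgClosure K Ω] {L : Ld K Ω} {π : Ω} {ψ : Fin m → Prj K N d} {r n : ℕ}
  {B : Type} [AddCommGroup B] [Module ℚ B] {nb : B → ℝ}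
  {lam : ((Xf f).pt Ω →₀ ℤ) →+ B} {s₀ : ℕ} {C : ℝ} {T : ℕ → (Fin N → Ω) → (Fin N → Ω) → B}

omit [CharZero K] [IsAlgClosure K Ω] in
private theorem ta_zero' (hz : Tz L π nb r lam T s₀ C) (hn : N0 r n) {x t : Fin N → Ω}
    (hx : Xp f L n x) (ht : Tn' f L n x t) : T n x 0 = 0 := by
  have h0 : Tn' f L n x 0 := by
    have h1 := ht.smul (zero_mem (L.Ur ⊥ n))
    rwa [zero_smul] at h1
  have h1 := hz.add n x 0 0 hn hx h0 h0
  rw [add_zero] at h1
  exact left_eq_add.1 h1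

omit [CharZero K] [IsAlgClosure K Ω] in
private theorem ta_nsmul' (hz : Tz L π nb r lam T s₀ C) (hn : N0 r n) {x t : Fin N → Ω}
    (hx : Xp f L n x) (ht : Tn' f L n x t) (k : ℕ) : T n x ((k : Ω) • t) = k • T n x t := by
  induction k with
  | zero => rw [Nat.cast_zero, zero_smul, zero_smul, ta_zero' hz hn hx ht]
  | succ k ih =>
    rw [Nat.cast_succ, add_smul, one_smul, add_smul, one_smul,
      hz.add n x _ _ hn hx (ht.smul (IntermediateField.natCast_mem _ k)) ht, ih]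

/-- The exponent of `p` and the size of a vector. -/
private theorem ta_exp (hπ : Uf L π) (t : Fin N → Ω) (D : ℝ) :
    ∃ e c : ℕ, e ≠ 0 ∧ L.nm (L.p : Ω) = L.nm π ^ e ∧ (∀ i, L.nm (t i) * L.nm π ^ c ≤ 1) ∧
      D * L.nm π ^ (2 * c) ≤ 1 := by
  obtain ⟨z, hz⟩ := hπ.val (L.p : K) (Nat.cast_ne_zero.2 L.pp.ne_zero)
  rw [map_natCast] at hz
  have hz0 : 0 < z := by
    have h1 := L.lt
    rw [hz, ← zpow_zero (L.nm π)] at h1
    exact (zpow_lt_zpow_iff_right_of_lt_one₀ hπ.pos hπ.lt).1 h1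
  obtain ⟨e, he⟩ := Int.eq_ofNat_of_zero_le hz0.le
  subst he
  have he0 : e ≠ 0 := by
    rintro rfl
    exact lt_irrefl _ hz0
  rw [zpow_natCast] at hz
  obtain ⟨M, hM⟩ : ∃ M : ℝ, ∀ i, L.nm (t i) ≤ M := by
    obtain ⟨M, hM⟩ := (Set.finite_range fun i => L.nm (t i)).bddAbove
    exact ⟨M, fun i => hM ⟨i, rfl⟩⟩
  obtain ⟨c, hc⟩ := exists_pow_lt_of_lt_one (show (0 : ℝ) < (max (max M D) 1)⁻¹ by positivity) hπ.lt
  have h1 : (0 : ℝ) < max (max M D) 1 := by positivity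
  have h2 : max (max M D) 1 * L.nm π ^ c ≤ 1 := by
    have h3 := mul_le_mul_of_nonneg_left hc.le h1.le
    rwa [mul_inv_cancel₀ h1.ne'] at h3
  have h4 : 0 ≤ L.nm π ^ c := pow_nonneg hπ.pos.le _
  refine ⟨e, c, he0, hz, fun i => ?_, ?_⟩
  · refine (mul_le_mul_of_nonneg_right ?_ h4).trans h2
    exact (hM i).trans ((le_max_left _ _).trans (le_max_left _ _))
  · have h5 : D * L.nm π ^ c ≤ 1 :=
      (mul_le_mul_of_nonneg_right ((le_max_right _ _).trans (le_max_left _ _)) h4).trans h2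
    have h6 : L.nm π ^ (2 * c) = L.nm π ^ c * L.nm π ^ c := by
      rw [two_mul, pow_add]
    rw [h6, ← mul_assoc]
    exact mul_le_one₀ h5 h4 (pow_le_one₀ hπ.pos.le hπ.lt.le)

/-- Proof: `Tz.add`, induction; `0` for `k = 0` (`T n x 0 = 0`). -/
theorem Tz.nsmul (hz : Tz L π nb r lam T s₀ C) (hn : N0 r n) {x t : Fin N → Ω}
    (hx : Xp f L n x) (ht : Tn' f L n x t) (k : ℕ) : T n x ((k : Ω) • t) = k • T n x t :=
  ta_nsmul' hz hn hx ht k

theorem Tz.neg (hz : Tz L π nb r lam T s₀ C) (hn : N0 r n) {x t : Fin N → Ω}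
    (hx : Xp f L n x) (ht : Tn' f L n x t) : T n x (-t) = -T n x t := by
  have h1 : Tn' f L n x (-t) := by
    have h2 := ht.smul (neg_mem (one_mem (L.Ur ⊥ n)))
    rwa [neg_smul, one_smul] at h2
  have h3 := hz.add n x t (-t) hn hx ht h1
  rw [add_neg_cancel, ta_zero' hz hn hx ht] at h3
  exact (neg_eq_of_add_eq_zero_right h3.symm).symm

/-- The value as a limit. Proof: `nm p = nm π ^ e`; for large `k` `Tz.app` for the vector `p ^ k t` and `s = e k - c` (`D ≤ nm π ^ (-2 c)`, `nm (t i) ≤ nm π ^ (-c)`), `Tz.nsmul`: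
`nb (p ^ k (T n x t - b)) ≤ D' nm π ^ (2 e k)`; `Bn.mulp`. -/
theorem Tz.lim (h : Cx f L π ψ r) (hB : Bn L.p (L.nm (L.p : Ω)) nb)
    (hz : Tz L π nb r lam T s₀ C) (hC : 0 ≤ C) (hn : N0 r n) {x t : Fin N → Ω}
    (hx : Xp f L n x) (ht : Tn' f L n x t) {D : ℝ} {b : B}
    (hb : ∀ k : ℕ, L.nm (L.p : Ω) ^ k * D < 1 → ∃ x', Xp f L n x' ∧
      (∀ i, L.nm (x' i - x i - (L.p : Ω) ^ k * t i) ≤ D * (L.nm (L.p : Ω) ^ k) ^ 2) ∧
      nb (Vx L lam n x x' - L.p ^ k • b) ≤ D * (L.nm (L.p : Ω) ^ k) ^ 2) : T n x t = b := by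
  obtain ⟨e, c, he, hp, htc, hDc⟩ := ta_exp h.hπ t D
  have hρ := h.hπ.pos
  have hρ1 := h.hπ.lt
  have hbp : ∀ (k : ℕ) (b : B), nb (L.p ^ k • b) = L.nm (L.p : Ω) ^ k * nb b := by
    intro k b
    induction k with
    | zero => rw [pow_zero, pow_zero, one_smul, one_mul]
    | succ k ih => rw [pow_succ', mul_smul, hB.mulp, ih, pow_succ', mul_assoc]
  have key : ∀ k : ℕ, 2 * c + s₀ + 1 ≤ e * k →
      nb (T n x t - b) * L.nm π ^ (2 * c) ≤ max C 1 * L.nm (L.p : Ω) ^ k := by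
    intro k hk
    obtain ⟨s, hs⟩ : ∃ s, e * k = c + s := ⟨e * k - c, by omega⟩
    have hq : L.nm (L.p : Ω) ^ k = L.nm π ^ (c + s) := by
      rw [hp, ← pow_mul, hs]
    have hqc : L.nm π ^ (2 * c) * L.nm π ^ (2 * s) = (L.nm (L.p : Ω) ^ k) ^ 2 := by
      rw [hq]
      ring
    have hD2 : D * (L.nm (L.p : Ω) ^ k) ^ 2 ≤ L.nm π ^ (2 * s) := by
      rw [← hqc, ← mul_assoc]
      exact mul_le_of_le_one_left (pow_nonneg hρ.le _) hDc
    have hDk : L.nm (L.p : Ω) ^ k * D < 1 := by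
      obtain ⟨u, hu⟩ : ∃ u, c + s = 2 * c + (u + 1) := ⟨s - c - 1, by omega⟩
      rw [hq, hu, pow_add, mul_comm, ← mul_assoc]
      rcases le_total (D * L.nm π ^ (2 * c)) 0 with h0 | h0
      · exact (mul_nonpos_of_nonpos_of_nonneg h0 (pow_nonneg hρ.le _)).trans_lt one_pos
      · exact mul_lt_one_of_nonneg_of_lt_one_right hDc (pow_nonneg hρ.le _)
          (pow_lt_one₀ hρ.le hρ1 (Nat.succ_ne_zero u))
    obtain ⟨x', hx', h1, h2⟩ := hb k hDk
    have ht' : Tn' f L n x (((L.p ^ k : ℕ) : Ω) • t) :=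
      ht.smul (IntermediateField.natCast_mem _ _)
    have hcast : ((L.p ^ k : ℕ) : Ω) = (L.p : Ω) ^ k := by push_cast; rfl
    have h3 := hz.app n x x' (((L.p ^ k : ℕ) : Ω) • t) s hn hx hx' ht' (by omega) (by omega)
      (fun i => by
        rw [Pi.smul_apply, smul_eq_mul, hcast, L.mul, L.pow, hq, pow_add, mul_comm, ← mul_assoc]
        exact mul_le_of_le_one_left (pow_nonneg hρ.le _) (htc i))
      (fun i => by
        rw [Pi.smul_apply, smul_eq_mul, hcast]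
        exact (h1 i).trans hD2)
    rw [hz.nsmul hn hx ht] at h3
    have h4 : nb (L.p ^ k • (T n x t - b)) ≤ max C 1 * L.nm π ^ (2 * s) := by
      have h5 : L.p ^ k • (T n x t - b)
          = (Vx L lam n x x' - L.p ^ k • b) + -(Vx L lam n x x' - L.p ^ k • T n x t) := by
        rw [smul_sub]
        abel
      rw [h5]
      refine (hB.add _ _).trans (max_le ?_ ?_)
      · refine (h2.trans hD2).trans ?_
        exact le_mul_of_one_le_left (pow_nonneg hρ.le _) (le_max_right _ _)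
      · rw [hB.neg]
        exact h3.trans (mul_le_mul_of_nonneg_right (le_max_left _ _) (pow_nonneg hρ.le _))
    rw [hbp] at h4
    have hqpos : 0 < L.nm (L.p : Ω) ^ k := pow_pos (by rw [hp]; exact pow_pos hρ _) _
    have h6 : L.nm (L.p : Ω) ^ k * (nb (T n x t - b) * L.nm π ^ (2 * c))
        ≤ L.nm (L.p : Ω) ^ k * (max C 1 * L.nm (L.p : Ω) ^ k) := by
      calc L.nm (L.p : Ω) ^ k * (nb (T n x t - b) * L.nm π ^ (2 * c))
          = L.nm (L.p : Ω) ^ k * nb (T n x t - b) * L.nm π ^ (2 * c) := by ring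
        _ ≤ max C 1 * L.nm π ^ (2 * s) * L.nm π ^ (2 * c) :=
            mul_le_mul_of_nonneg_right h4 (pow_nonneg hρ.le _)
        _ = max C 1 * (L.nm π ^ (2 * c) * L.nm π ^ (2 * s)) := by ring
        _ = L.nm (L.p : Ω) ^ k * (max C 1 * L.nm (L.p : Ω) ^ k) := by
            rw [hqc]
            ring
    exact le_of_mul_le_mul_left h6 hqpos
  by_contra hne
  have h7 : T n x t - b ≠ 0 := sub_ne_zero.2 hne
  have h8 : 0 < nb (T n x t - b) :=
    lt_of_le_of_ne (hB.nonneg _) fun h => h7 ((hB.zero_iff _).1 h.symm)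
  have h9 : 0 < nb (T n x t - b) * L.nm π ^ (2 * c) := mul_pos h8 (pow_pos hρ _)
  have hm : 0 < max C 1 := lt_max_of_lt_right one_pos
  obtain ⟨k, hk⟩ := exists_pow_lt_of_lt_one (div_pos h9 hm) L.lt
  have h10 : 2 * c + s₀ + 1 ≤ e * (k + (2 * c + s₀ + 1)) := by
    have h11 : 1 * (k + (2 * c + s₀ + 1)) ≤ e * (k + (2 * c + s₀ + 1)) :=
      Nat.mul_le_mul_right _ (Nat.one_le_iff_ne_zero.2 he)
    omega
  have h12 := key _ h10
  have h13 : L.nm (L.p : Ω) ^ (k + (2 * c + s₀ + 1)) ≤ L.nm (L.p : Ω) ^ k :=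
    pow_le_pow_of_le_one (L.nonneg _) L.lt.le (Nat.le_add_right _ _)
  have h14 := h12.trans (mul_le_mul_of_nonneg_left h13 hm.le)
  rw [lt_div_iff₀ hm] at hk
  rw [mul_comm] at hk
  exact absurd (h14.trans_lt hk) (lt_irrefl _)

/-- Points near `x + p ^ k t` with the estimate. Proof: `exists_xt`, `Tz.app`, `Tz.nsmul`. -/
theorem Tz.pts (h : Cx f L π ψ r) (hz : Tz L π nb r lam T s₀ C) (hC : 0 ≤ C) (hn : N0 r n)
    {x t : Fin N → Ω} (hx : Xp f L n x) (ht : Tn' f L n x t) :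
    ∃ D : ℝ, ∀ k : ℕ, L.nm (L.p : Ω) ^ k * D < 1 → ∃ x', Xp f L n x' ∧
      (∀ i, L.nm (x' i - x i - (L.p : Ω) ^ k * t i) ≤ D * (L.nm (L.p : Ω) ^ k) ^ 2) ∧
      nb (Vx L lam n x x' - L.p ^ k • T n x t) ≤ D * (L.nm (L.p : Ω) ^ k) ^ 2 := by
  obtain ⟨e, c, he, hp, htc, -⟩ := ta_exp h.hπ t 0
  have hρ := h.hπ.pos
  have hρ1 := h.hπ.lt
  have hr1 : ∀ {a b : ℕ}, a ≤ b → (L.nm π ^ a)⁻¹ ≤ (L.nm π ^ b)⁻¹ := fun {a b} hab =>
    inv_anti₀ (pow_pos hρ _) (pow_le_pow_of_le_one hρ.le hρ1.le hab)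
  have hpos : ∀ a : ℕ, 0 ≤ (L.nm π ^ a)⁻¹ := fun a => inv_nonneg.2 (pow_nonneg hρ.le _)
  have hD1 : ∀ a : ℕ, a ≤ 2 * c + s₀ + 1 →
      (L.nm π ^ a)⁻¹ ≤ (C + 1) * (L.nm π ^ (2 * c + s₀ + 1))⁻¹ := fun a ha =>
    (hr1 ha).trans (le_mul_of_one_le_left (hpos _) (by linarith))
  refine ⟨(C + 1) * (L.nm π ^ (2 * c + s₀ + 1))⁻¹, fun k hk => ?_⟩
  have hek : c + s₀ + 1 < e * k := by
    have h1 : L.nm (L.p : Ω) ^ k * (L.nm π ^ (c + s₀ + 1))⁻¹ < 1 :=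
      (mul_le_mul_of_nonneg_left (hD1 _ (by omega)) (pow_nonneg (L.nonneg _) _)).trans_lt hk
    rw [← div_eq_mul_inv, div_lt_one (pow_pos hρ _), hp, ← pow_mul] at h1
    exact (pow_lt_pow_iff_right_of_lt_one₀ hρ hρ1).1 h1
  obtain ⟨s, hs⟩ : ∃ s, e * k = c + s := ⟨e * k - c, by omega⟩
  have hq : L.nm (L.p : Ω) ^ k = L.nm π ^ (c + s) := by
    rw [hp, ← pow_mul, hs]
  have hqc : L.nm π ^ (2 * s) = (L.nm π ^ (2 * c))⁻¹ * (L.nm (L.p : Ω) ^ k) ^ 2 := by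
    rw [eq_inv_mul_iff_mul_eq₀ (pow_pos hρ _).ne', hq]
    ring
  have ht' : Tn' f L n x (((L.p ^ k : ℕ) : Ω) • t) :=
    ht.smul (IntermediateField.natCast_mem _ _)
  have hcast : ((L.p ^ k : ℕ) : Ω) = (L.p : Ω) ^ k := by push_cast; rfl
  have hts : ∀ i, L.nm ((((L.p ^ k : ℕ) : Ω) • t) i) ≤ L.nm π ^ s := fun i => by
    rw [Pi.smul_apply, smul_eq_mul, hcast, L.mul, L.pow, hq, pow_add, mul_comm, ← mul_assoc]
    exact mul_le_of_le_one_left (pow_nonneg hρ.le _) (htc i)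
  obtain ⟨x', hx', h1⟩ := exists_xt h.hψ h.hc hx ht' (pow_nonneg hρ.le s)
    (h.hπ.pow_lt (by omega)) hts
  have h1' : ∀ i, L.nm (x' i - x i - (((L.p ^ k : ℕ) : Ω) • t) i) ≤ L.nm π ^ (2 * s) :=
    fun i => (h1 i).trans (le_of_eq (by rw [← pow_mul, mul_comm]))
  have hq0 : 0 ≤ (L.nm (L.p : Ω) ^ k) ^ 2 := by positivity
  refine ⟨x', hx', fun i => ?_, ?_⟩
  · have h2 := h1' i
    rw [Pi.smul_apply, smul_eq_mul, hcast, hqc] at h2
    exact h2.trans (mul_le_mul_of_nonneg_right (hD1 _ (by omega)) hq0)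
  · have h3 := hz.app n x x' _ s hn hx hx' ht' (by omega) (by omega) hts h1'
    rw [hz.nsmul hn hx ht, hqc, ← mul_assoc] at h3
    refine h3.trans (mul_le_mul_of_nonneg_right ?_ hq0)
    exact mul_le_mul (by linarith) (hr1 (by omega)) (hpos _) (by linarith)

private theorem bn_zero {p : ℕ} {q : ℝ} (hB : Bn p q nb) : nb 0 = 0 := (hB.zero_iff 0).2 rfl

private theorem bn_nat {p : ℕ} {q : ℝ} (hB : Bn p q nb) (k : ℕ) (b : B) :
    nb (k • b) ≤ nb b := by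
  induction k with
  | zero =>
    rw [zero_smul, bn_zero hB]
    exact hB.nonneg b
  | succ k ih =>
    rw [succ_nsmul]
    exact (hB.add _ _).trans (max_le ih le_rfl)

private theorem bn_mulp {p : ℕ} {q : ℝ} (hB : Bn p q nb) (k : ℕ) (b : B) :
    nb (p ^ k • b) = q ^ k * nb b := by
  induction k with
  | zero => rw [pow_zero, pow_zero, one_smul, one_mul]
  | succ k ih =>
    rw [pow_succ', mul_smul, hB.mulp, ih, pow_succ']
    ring

/-- Proof: `Tz.pts`, `vx_act`, `Tz.lim`. -/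
theorem Tz.act (h : Cx f L π ψ r) (hB : Bn L.p (L.nm (L.p : Ω)) nb)
    (hz : Tz L π nb r lam T s₀ C) (hC : 0 ≤ C) (hn : N0 r n) {x t : Fin N → Ω}
    (hx : Xp f L n x) (ht : Tn' f L n x t) (γ : Ω ≃ₐ[K] Ω) :
    T n (fun i => γ (x i)) (fun i => γ (t i)) = T n x t := by
  obtain ⟨D, hD⟩ := hz.pts h hC hn hx ht
  refine hz.lim h hB hC hn (hx.act γ) (ht.act γ) (D := D) fun k hk => ?_
  obtain ⟨x', hx', h1, h2⟩ := hD k hk
  refine ⟨fun i => γ (x' i), hx'.act γ, fun i => ?_, ?_⟩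
  · have h3 : γ (x' i) - γ (x i) - (L.p : Ω) ^ k * γ (t i) =
        γ (x' i - x i - (L.p : Ω) ^ k * t i) := by
      rw [map_sub, map_sub, map_mul, map_pow, map_natCast]
    rw [h3, L.act]
    exact h1 i
  · rw [vx_act hn.1 γ hx hx']
    exact h2

/-- Proof: `Tz.pts`, `vx_up`, `Tz.lim`. -/
theorem Tz.up (h : Cx f L π ψ r) (hB : Bn L.p (L.nm (L.p : Ω)) nb)
    (hz : Tz L π nb r lam T s₀ C) (hC : 0 ≤ C) (hn : N0 r n) {x t : Fin N → Ω}
    (hx : Xp f L n x) (ht : Tn' f L n x t) {k : ℕ} (hk : k ≠ 0) :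
    T (n * k) x t = k • T n x t := by
  obtain ⟨D, hD⟩ := hz.pts h hC hn hx ht
  refine hz.lim h hB hC (hn.mul hk) (hx.mono (Dvd.intro _ rfl)) (ht.mono (Dvd.intro _ rfl))
    (D := D) fun j hj => ?_
  obtain ⟨x', hx', h1, h2⟩ := hD j hj
  refine ⟨x', hx'.mono (Dvd.intro _ rfl), h1, ?_⟩
  rw [vx_up h.hr hn hk hx hx']
  have h3 : k • Vx L lam n x x' - L.p ^ j • k • T n x t =
      k • (Vx L lam n x x' - L.p ^ j • T n x t) := by
    rw [smul_sub, smul_comm]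
  rw [h3]
  exact (bn_nat hB k _).trans h2

/-- Proof: `Tz.pts`, `vx_smul`, `Tz.lim`. -/
theorem Tz.smul (h : Cx f L π ψ r) (hB : Bn L.p (L.nm (L.p : Ω)) nb)
    (hz : Tz L π nb r lam T s₀ C) (hC : 0 ≤ C) (hn : N0 r n) {x t : Fin N → Ω}
    (hx : Xp f L n x) (ht : Tn' f L n x t) {c : Ω} (hc : c ∈ L.Ur ⊥ n) (hc1 : L.nm c = 1) :
    T n (c • x) (c • t) = T n x t := by
  have hc0 : c ≠ 0 := by
    rintro rfl
    rw [L.zero] at hc1
    exact zero_ne_one hc1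
  obtain ⟨D, hD⟩ := hz.pts h hC hn hx ht
  refine hz.lim h hB hC hn (hx.smul h.hf hc hc1) (ht.hom h.hf hc hc0) (D := D) fun k hk => ?_
  obtain ⟨x', hx', h1, h2⟩ := hD k hk
  refine ⟨c • x', hx'.smul h.hf hc hc1, fun i => ?_, ?_⟩
  · have h3 : (c • x') i - (c • x) i - (L.p : Ω) ^ k * (c • t) i =
        c * (x' i - x i - (L.p : Ω) ^ k * t i) := by
      simp only [Pi.smul_apply, smul_eq_mul]
      ring
    rw [h3, L.mul, hc1, one_mul]
    exact h1 i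
  · rw [vx_smul h.hf hx hx' hc0 hc0]
    exact h2

/-- Proof: `Tz.lim` with `b = 0` and `x' = (1 + p ^ k c) x` (`vx_smul`: `Vx n x x = 0`). -/
theorem Tz.rad (h : Cx f L π ψ r) (hB : Bn L.p (L.nm (L.p : Ω)) nb)
    (hz : Tz L π nb r lam T s₀ C) (hC : 0 ≤ C) (hn : N0 r n) {x : Fin N → Ω}
    (hx : Xp f L n x) {c : Ω} (hc : c ∈ L.Ur ⊥ n) : T n x (c • x) = 0 := by
  refine hz.lim h hB hC hn hx (hx.rad h.hf hc) (D := L.nm c) fun k hk => ?_
  have h1 : L.nm ((L.p : Ω) ^ k * c) < 1 := by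
    rw [L.mul, L.pow]
    exact hk
  have h2 : L.nm (1 + (L.p : Ω) ^ k * c) = 1 := by
    refine le_antisymm ?_ ?_
    · refine (L.add _ _).trans (max_le L.one.le h1.le)
    · by_contra hcon
      push Not at hcon
      have h3 := L.add (1 + (L.p : Ω) ^ k * c) (-((L.p : Ω) ^ k * c))
      rw [add_neg_cancel_right, L.one, L.neg] at h3
      exact absurd (max_lt hcon h1) (not_lt.2 h3)
  have h3 : 1 + (L.p : Ω) ^ k * c ∈ L.Ur ⊥ n :=
    add_mem (one_mem _) (mul_mem (pow_mem (_root_.natCast_mem _ _) _) hc)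
  have h4 : 1 + (L.p : Ω) ^ k * c ≠ 0 := by
    intro h0
    rw [h0, L.zero] at h2
    exact zero_ne_one h2
  have h5 : Vx L lam n x x = 0 := by
    have h6 := vx_trans (lam := lam) hx hx hx
    rwa [add_eq_left] at h6
  have h6 : Vx L lam n x ((1 + (L.p : Ω) ^ k * c) • x) = 0 := by
    have h7 := vx_smul (lam := lam) h.hf hx hx one_ne_zero h4
    rw [one_smul, h5] at h7
    exact h7
  have hD : 0 ≤ L.nm c * (L.nm (L.p : Ω) ^ k) ^ 2 := mul_nonneg (L.nonneg _) (sq_nonneg _)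
  refine ⟨(1 + (L.p : Ω) ^ k * c) • x, hx.smul h.hf h3 h2, fun i => ?_, ?_⟩
  · have h7 : ((1 + (L.p : Ω) ^ k * c) • x) i - x i - (L.p : Ω) ^ k * (c • x) i = 0 := by
      simp only [Pi.smul_apply, smul_eq_mul]
      ring
    rw [h7, L.zero]
    exact hD
  · rw [h6, smul_zero, sub_zero, bn_zero hB]
    exact hD

/-- A bound. Proof: for `nm (t i) ≤ nm π ^ s`, `s₀ ≤ s`, `s ≠ 0`: `exists_xt`, `vx_bd`, `Tz.app`: `nb (T n x t) ≤ max C C₁ nm π ^ s`; in general multiply by a power of `p` (`Tz.nsmul`, `Bn.mulp`) so that the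
maximum of the `nm (p ^ k t i)` is between `nm π ^ (s₁ + e)` and `nm π ^ s₁`, `s₁ = max s₀ 1`; small vectors: the maximum is a power of `nm π` (`Uf.um_val`). -/
theorem Tz.bd (h : Cx f L π ψ r) (hB : Bn L.p (L.nm (L.p : Ω)) nb)
    {C₁ : ℝ} (hl : Lam f L π nb lam s₀ C₁) (hz : Tz L π nb r lam T s₀ C) (hC : 0 ≤ C) :
    ∃ D : ℝ, 0 ≤ D ∧ ∀ n x t ρ, N0 r n → Xp f L n x → Tn' f L n x t →
      (∀ i, L.nm (t i) ≤ ρ) → nb (T n x t) ≤ D * ρ := by
  have hq0 := h.hπ.pos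
  have hq1 := h.hπ.lt
  have hC₂ : 0 ≤ max C₁ C := hC.trans (le_max_right _ _)
  -- small vectors
  have hsm : ∀ n x t s, N0 r n → Xp f L n x → Tn' f L n x t → s₀ ≤ s → s ≠ 0 →
      (∀ i, L.nm (t i) ≤ L.nm π ^ s) → nb (T n x t) ≤ max C₁ C * L.nm π ^ s := by
    intro n x t s hn hx ht hs₀ hs hts
    have hqs0 : 0 < L.nm π ^ s := pow_pos hq0 s
    have hqs1 : L.nm π ^ s < 1 := pow_lt_one₀ hq0.le hq1 hs
    obtain ⟨x', hx', h1⟩ := exists_xt h.hψ h.hc hx ht hqs0.le hqs1 hts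
    have h2 : (L.nm π ^ s) ^ 2 = L.nm π ^ (2 * s) := by
      rw [← pow_mul, mul_comm]
    have h3 : L.nm π ^ (2 * s) ≤ L.nm π ^ s := by
      rw [← h2, sq]
      exact mul_le_of_le_one_left hqs0.le hqs1.le
    rw [h2] at h1
    have h4 : ∀ i, L.nm (x' i - x i) ≤ L.nm π ^ s := by
      intro i
      have h5 := L.add (x' i - x i - t i) (t i)
      rw [sub_add_cancel] at h5
      exact h5.trans (max_le ((h1 i).trans h3) (hts i))
    have h5 := vx_bd h.hπ hl hn.1 hs₀ hs hx hx' h4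
    have h6 := hz.app n x x' t s hn hx hx' ht hs₀ hs hts h1
    have h7 := hB.add (Vx L lam n x x') (-(Vx L lam n x x' - T n x t))
    rw [hB.neg] at h7
    have h8 : Vx L lam n x x' + -(Vx L lam n x x' - T n x t) = T n x t := by
      abel
    rw [h8] at h7
    refine h7.trans (max_le (h5.trans ?_) (h6.trans ?_))
    · exact mul_le_mul_of_nonneg_right (le_max_left _ _) hqs0.le
    · exact mul_le_mul (le_max_right _ _) h3 (pow_pos hq0 _).le hC₂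
  refine ⟨max C₁ C / L.nm π, div_nonneg hC₂ hq0.le, fun n x t ρ hn hx ht hρ => ?_⟩
  obtain ⟨i₀, -⟩ := hx.one
  have hρ0 : 0 ≤ ρ := (L.nonneg _).trans (hρ i₀)
  rcases hρ0.eq_or_lt with hρ1 | hρ1
  · have h1 : T n x (((0 : ℕ) : Ω) • t) = 0 • T n x t := hz.nsmul hn hx ht 0
    have h2 : ((0 : ℕ) : Ω) • t = t := by
      funext i
      have h3 : t i = 0 := (L.zero_iff _).1 (le_antisymm ((hρ i).trans hρ1.ge) (L.nonneg _))
      rw [Pi.smul_apply, h3, smul_zero]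
    rw [h2, zero_smul] at h1
    rw [h1, bn_zero hB, ← hρ1, mul_zero]
  · have hp0 : 0 < L.nm (L.p : Ω) := hB.q0
    obtain ⟨k, hk⟩ := exists_pow_lt_of_lt_one
      (show 0 < L.nm π ^ (max s₀ 1) / ρ from div_pos (pow_pos hq0 _) hρ1) hB.q1
    have hk' : ρ * L.nm (L.p : Ω) ^ k ≤ L.nm π ^ (max s₀ 1) := by
      rw [lt_div_iff₀ hρ1] at hk
      linarith
    have hy0 : 0 < ρ * L.nm (L.p : Ω) ^ k := mul_pos hρ1 (pow_pos hp0 k)
    have hy1 : ρ * L.nm (L.p : Ω) ^ k ≤ 1 := hk'.trans (pow_le_one₀ hq0.le hq1.le)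
    obtain ⟨s, hs1, hs2⟩ := exists_nat_pow_near_of_lt_one hy0 hy1 hq0 hq1
    have hs : max s₀ 1 ≤ s := by
      by_contra hcon
      push Not at hcon
      have h1 : L.nm π ^ (max s₀ 1) ≤ L.nm π ^ (s + 1) :=
        pow_le_pow_of_le_one hq0.le hq1.le hcon
      exact absurd (hs1.trans_le (hk'.trans h1)) (lt_irrefl _)
    have ht' : Tn' f L n x (((L.p ^ k : ℕ) : Ω) • t) := ht.smul (_root_.natCast_mem _ _)
    have h1 := hsm n x _ s hn hx ht' ((le_max_left _ _).trans hs)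
      (Nat.pos_iff_ne_zero.1 ((le_max_right _ _).trans hs)) fun i => by
        rw [Pi.smul_apply, smul_eq_mul, L.mul, Nat.cast_pow, L.pow]
        refine le_trans ?_ hs2
        rw [mul_comm]
        exact mul_le_mul_of_nonneg_right (hρ i) (pow_pos hp0 k).le
    rw [hz.nsmul hn hx ht, bn_mulp hB] at h1
    have h2 : L.nm π ^ s ≤ ρ * L.nm (L.p : Ω) ^ k / L.nm π := by
      rw [le_div_iff₀ hq0, ← pow_succ]
      exact hs1.le
    have h3 : L.nm (L.p : Ω) ^ k * nb (T n x t) ≤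
        L.nm (L.p : Ω) ^ k * (max C₁ C / L.nm π * ρ) := by
      refine h1.trans ((mul_le_mul_of_nonneg_left h2 hC₂).trans (le_of_eq ?_))
      ring
    exact le_of_mul_le_mul_left h3 (pow_pos hp0 k)

end GX
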