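import Pool.Agent.Lib.MP_f80667_ag.Lc.B
import Pool.Agent.Lib.MP_f80667_ag.Lv.Je
import Pool.Agent.Lib.MP_f80667_ag.Gx.TsE

/-!
The function `Vx`: the value of `lam` at the trace of `[x'] - [x]`.
-/

open ZC BE PE CV IntermediateField

namespace GX

variable {F : Type} [Field F] {N d m : ℕ} {ι : Type} {f : ι → MvPolynomial (Fin N) F}
  {K Ω : Type} [Field K] [CharZero K] [Field Ω] [Algebra K Ω] [Algebra F K] [Algebra F Ω]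
  [IsScalarTower F K Ω] [IsAlgClosure K Ω] {L : Ld K Ω} {π : Ω} {ψ : Fin m → Prj K N d} {r n : ℕ}
  {B : Type} [AddCommGroup B] [Module ℚ B] {p : ℕ} {q : ℝ} {nb : B → ℝ}
  {lam : ((Xf f).pt Ω →₀ ℤ) →+ B} {s₀ : ℕ} {C : ℝ}

/-- Proof: `co_eq`. -/
theorem vx_eq {x x' : Fin N → Ω} {P P' : (Xf f).pt Ω} (h : Co P x) (h' : Co P' x') :
    Vx L lam n x x' =
      lam (rtr (Xf f) ⊥ (L.Ur ⊥ n) (Finsupp.single P' 1 - Finsupp.single P 1)) := by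
  have hh : ∃ P P' : (Xf f).pt Ω, Co P x ∧ Co P' x' := ⟨P, P', h, h'⟩
  have e1 : hh.choose = P := co_eq hh.choose_spec.choose_spec.1 h
  have e2 : hh.choose_spec.choose = P' := co_eq hh.choose_spec.choose_spec.2 h'
  rw [Vx, dif_pos hh, e2, e1]

/-- Proof: `vx_eq`, additivity. -/
theorem vx_trans {x x' x'' : Fin N → Ω} (hx : Xp f L n x) (hx' : Xp f L n x')
    (hx'' : Xp f L n x'') : Vx L lam n x x' + Vx L lam n x' x'' = Vx L lam n x x'' := by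
  obtain ⟨P, hP⟩ := hx.co
  obtain ⟨P', hP'⟩ := hx'.co
  obtain ⟨P'', hP''⟩ := hx''.co
  rw [vx_eq hP hP', vx_eq hP' hP'', vx_eq hP hP'', ← map_add, ← map_add]
  congr 2
  abel

/-- The norm of `γ z`. -/
private theorem lcv_nm {A : Type} [AddCommGroup A] [DistribMulAction (Ω ≃ₐ[K] Ω) A] (hn : n ≠ 0)
    (γ : Ω ≃ₐ[K] Ω) {z : A} (hz : Fx (L.Ur ⊥ n) z) :
    Nm (⊥ : IntermediateField K Ω) (L.Ur ⊥ n) (γ • z) = Nm ⊥ (L.Ur ⊥ n) z := by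
  classical
  have hfd : FiniteDimensional K (L.Ur ⊥ n) := Ld.ur_fin ⊥ n hn
  obtain ⟨S, -, -, h2, h3⟩ := nm_rep (K := K) (Ω := Ω) (M := ⊥) (N := L.Ur ⊥ n) bot_le
  have hb : ∀ δ : Ω ≃ₐ[K] Ω, δ ∈ (⊥ : IntermediateField K Ω).fixingSubgroup := by
    intro δ
    rw [IntermediateField.mem_fixingSubgroup_iff]
    intro x hx
    obtain ⟨a, rfl⟩ := IntermediateField.mem_bot.1 hx
    exact δ.commutes a
  have hnor : ∀ σ ∈ (L.Ur ⊥ n).fixingSubgroup, ∀ δ : Ω ≃ₐ[K] Ω,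
      δ⁻¹ * σ * δ ∈ (L.Ur ⊥ n).fixingSubgroup := by
    intro σ hσ δ
    rw [IntermediateField.mem_fixingSubgroup_iff] at hσ ⊢
    intro x hx
    have h4 : σ (δ x) = δ x := hσ _ (act_ur δ hx)
    change δ⁻¹ (σ (δ x)) = x
    rw [h4]
    exact δ.symm_apply_apply x
  have e1 := nm_eq (bot_le : (⊥ : IntermediateField K Ω) ≤ L.Ur ⊥ n) (S.image fun δ => δ * γ)
    (fun δ _ => hb δ) (fun σ _ => ?_) hz
  · rw [e1, h3 A (γ • z), Finset.sum_image fun a _ b _ hab => mul_right_cancel hab]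
    exact Finset.sum_congr rfl fun δ _ => (mul_smul δ γ z).symm
  · obtain ⟨δ, ⟨hδ, hδ'⟩, hu⟩ := h2 (σ * γ⁻¹) (hb _)
    refine ⟨δ * γ, ⟨Finset.mem_image.2 ⟨δ, hδ, rfl⟩, ?_⟩, ?_⟩
    · have h5 := hnor _ hδ' γ
      have h6 : (δ * γ)⁻¹ * σ = γ⁻¹ * (δ⁻¹ * (σ * γ⁻¹)) * γ := by group
      rw [h6]
      exact h5
    · rintro _ ⟨hm, hm'⟩
      obtain ⟨δ', hδ1, rfl⟩ := Finset.mem_image.1 hm
      have h5 := hnor _ hm' γ⁻¹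
      have h6 : (γ⁻¹)⁻¹ * ((δ' * γ)⁻¹ * σ) * γ⁻¹ = δ'⁻¹ * (σ * γ⁻¹) := by group
      rw [h6] at h5
      exact congrArg (· * γ) (hu δ' ⟨hδ1, h5⟩)

/-- Proof: `vx_eq` for `γ P`, `γ P'` (`co_act`); `rtr ⊥ (Ur ⊥ n) (γ z) = rtr ⊥ (Ur ⊥ n) z` for a cycle `z` fixed by `Gal (Ω / Ur ⊥ n)`: `rtr_eq`
and the invariance of `Nm` under automorphisms (`Ur ⊥ n` is Galois over `K`; all the `γ σ` of a set of representatives are representatives, see `GM` / `Pe/NmL`, or helper54's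
`cyv_act` in Lv/T*). -/
theorem vx_act (hn : n ≠ 0) (γ : Ω ≃ₐ[K] Ω) {x x' : Fin N → Ω} (hx : Xp f L n x)
    (hx' : Xp f L n x') :
    Vx L lam n (fun i => γ (x i)) (fun i => γ (x' i)) = Vx L lam n x x' := by
  have hfd : FiniteDimensional K (L.Ur ⊥ n) := Ld.ur_fin ⊥ n hn
  obtain ⟨P, hP⟩ := hx.co
  obtain ⟨P', hP'⟩ := hx'.co
  have hF : Fp (Xf f) (L.Ur ⊥ n) P := fp_co hP fun i => (hx.iv i).1
  have hF' : Fp (Xf f) (L.Ur ⊥ n) P' := fp_co hP' fun i => (hx'.iv i).1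
  rw [vx_eq (co_act γ hP) (co_act γ hP'), vx_eq hP hP', rtr_eq bot_le, rtr_eq bot_le]
  have h1 := lcv_nm (L := L) hn γ ((fx_single hF' 1).sub (fx_single hF 1))
  rw [smul_sub, smul_single, smul_single] at h1
  rw [h1]

/-- Proof: `GM.rtr_mul` as in `vl_up` (Gx/TsE); the degree of `Ur ⊥ n` over `K` is `n / r` (`Ld.rf_ur`, `Ld.ur_cyc`). -/
theorem vx_up (hr : L.Rf ⊥ r) (hn : N0 r n) {k : ℕ} (hk : k ≠ 0) {x x' : Fin N → Ω}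
    (hx : Xp f L n x) (hx' : Xp f L n x') : Vx L lam (n * k) x x' = k • Vx L lam n x x' := by
  obtain ⟨s, rfl⟩ := hn.2
  have hr0 : r ≠ 0 := hr.ne
  have hs0 : s ≠ 0 := by
    rintro rfl
    exact hn.1 (mul_zero r)
  obtain ⟨P, hP⟩ := hx.co
  obtain ⟨P', hP'⟩ := hx'.co
  have hF : Fp (Xf f) (L.Ur ⊥ (r * s)) P := fp_co hP fun i => (hx.iv i).1
  have hF' : Fp (Xf f) (L.Ur ⊥ (r * s)) P' := fp_co hP' fun i => (hx'.iv i).1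
  have hz : Fx (L.Ur ⊥ (r * s)) (Finsupp.single P' 1 - Finsupp.single P 1 : (Xf f).pt Ω →₀ ℤ) :=
    (fx_single hF' 1).sub (fx_single hF 1)
  have hfd : FiniteDimensional K (L.Ur ⊥ (r * s * k)) :=
    Ld.ur_fin ⊥ _ (Nat.mul_ne_zero hn.1 hk)
  have hM : Um L (⊥ : IntermediateField K Ω) := ⟨1, one_ne_zero, bot_le⟩
  have hd : Module.finrank K (L.Ur ⊥ (r * s * k)) = k * Module.finrank K (L.Ur ⊥ (r * s)) := by
    have h1 := GM.mu_rank hM hr hs0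
    have h2 := GM.mu_rank hM hr (Nat.mul_ne_zero hs0 hk)
    rw [mul_assoc]
    change Module.finrank K (GM.Mu L ⊥ r (s * k)) = k * Module.finrank K (GM.Mu L ⊥ r s)
    rw [h1, h2]
    ring
  rw [vx_eq hP hP', vx_eq hP hP', GM.rtr_mul (Ld.ur_dvd ⊥ (Dvd.intro k rfl)) hd hz, map_nsmul]

/-- Proof: `co_smul`, `vx_eq`. -/
theorem vx_smul (hf : Hm f) {x x' : Fin N → Ω} (hx : Xp f L n x) (hx' : Xp f L n x') {c c' : Ω}
    (hc : c ≠ 0) (hc' : c' ≠ 0) : Vx L lam n (c • x) (c' • x') = Vx L lam n x x' := by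
  obtain ⟨P, hP⟩ := hx.co
  obtain ⟨P', hP'⟩ := hx'.co
  have h1 : Co P (c • x) := co_smul hf hP hc
  have h2 : Co P' (c' • x') := co_smul hf hP' hc'
  rw [vx_eq h1 h2, vx_eq hP hP']

/-- Proof: `rtr_eq`, `dr_pt`, `dr_nm`, `nrh_mk`, `Lam.lev`. -/
theorem vx_bd (hπ : Uf L π) (hl : Lam f L π nb lam s₀ C) (hn : n ≠ 0) {s : ℕ} (hs₀ : s₀ ≤ s)
    (hs : s ≠ 0) {x x' : Fin N → Ω} (hx : Xp f L n x) (hx' : Xp f L n x')
    (h : ∀ i, L.nm (x' i - x i) ≤ L.nm π ^ s) : nb (Vx L lam n x x') ≤ C * L.nm π ^ s := by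
  have hM : Um L (L.Ur ⊥ n) := ⟨n, hn, le_rfl⟩
  have hfd : FiniteDimensional K (L.Ur ⊥ n) := hM.fd
  obtain ⟨P, hP⟩ := hx.co
  obtain ⟨P', hP'⟩ := hx'.co
  rw [vx_eq hP hP', rtr_eq bot_le]
  refine hl.lev s hs₀ _ (dr_nm hM (dr_pt (fp_co hP' fun i => (hx'.iv i).1)
    (fp_co hP fun i => (hx.iv i).1) ?_))
  exact nrh_mk (hπ.pow_lt hs) hP' hP (fun i => (hx'.iv i).2) (fun i => (hx.iv i).2) hx'.one h

/-- A point near `x₀ + t` over `u (x₀) + u (t)`. -/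
private theorem vxa_nb {ψ : Prj K N d} (hπ : Uf L π) (hψ : Pj f L ψ) {s : ℕ} (hs : s ≠ 0)
    {x₀ x t : Fin N → Ω} {P : (Xf f).pt Ω} (hx : Xp f L n x) (hP : Co P x)
    (hts : ∀ i, L.nm (t i) ≤ L.nm π ^ s) (e : ∀ i, L.nm (x i - x₀ i - t i) ≤ L.nm π ^ (2 * s))
    {c' : Fin (d + 1) → Ω} (hc' : ∀ r, c' r = ψ.uv x₀ r + ψ.uv t r) :
    Nb f L ψ π (L.Ur ⊥ n) (ψ.yv x₀) (2 * s) c' x P where
  iv := hx.iv
  co := hP
  sh := by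
    refine lv_lt hψ.iy fun j => ?_
    have e1 : x j - x₀ j = (x j - x₀ j - t j) + t j := by ring
    rw [e1]
    exact (L.add _ _).trans_lt (max_lt ((e j).trans_lt (hπ.pow_lt (by omega)))
      ((hts j).trans_lt (hπ.pow_lt hs)))
  nr := fun r => by
    have e1 : ψ.uv x₀ r + ψ.uv t r = ψ.uv (x₀ + t) r := by
      rw [uv_add, Pi.add_apply]
    rw [hc' r, e1]
    refine lv_close (hψ.iu r) (pow_nonneg (L.nonneg _) _) fun j => ?_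
    have e2 : x j - (x₀ + t) j = x j - x₀ j - t j := by
      rw [Pi.add_apply]
      ring
    rw [e2]
    exact e j

private theorem vxa_div (hπ : Uf L π) {M : IntermediateField K Ω} {ψ : Prj K N d}
    (hψ : Pj f L ψ) {s : ℕ} {t : Fin N → Ω} (ht : ∀ i, t i ∈ M)
    (hts : ∀ i, L.nm (t i) ≤ L.nm π ^ s) :
    Iv L M (fun r => (π ^ s)⁻¹ * ψ.uv t r) ∧ ∀ r, π ^ s * ((π ^ s)⁻¹ * ψ.uv t r) = ψ.uv t r := by
  have h0 : π ^ s ≠ 0 := pow_ne_zero s hπ.ne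
  have h2 : 0 < L.nm π ^ s := pow_pos hπ.pos s
  refine ⟨fun r => ⟨mul_mem (inv_mem (pow_mem (hπ.mem M) s)) (lv_mem _ ht), ?_⟩, fun r => ?_⟩
  · rw [L.mul, L.inv, L.pow, inv_mul_le_iff₀ h2, mul_one]
    have h3 := lv_close (L := L) (hψ.iu r) (x := t) (x' := 0) h2.le fun j => by
      rw [Pi.zero_apply, sub_zero]
      exact hts j
    have h4 : lv (ψ.u r) (0 : Fin N → Ω) = 0 := by
      have h5 := lv_smul (ψ.u r) (0 : Fin N → Ω) (0 : Ω)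
      rwa [zero_smul, zero_mul] at h5
    rw [h4, sub_zero] at h3
    exact h3
  · rw [← mul_assoc, mul_inv_cancel₀ h0, one_mul]

/-- **Additivity up to second order.** Proof: a good projection `ψ i` at `x₀` (`Xp.chart`), `x_add` with the level `2 s`, `α = π ^ s`, `c = u (x₀)`, `w₀ = y (x₀)`,
`u = u (t) / π ^ s`, `v = u (t') / π ^ s`: `P₁ + P₂ - P₀ - P₃ ∈ Dr (2 s) M ⊔ ratEq M`, `M = Ur ⊥ n`; `GM.nm_sup`, `rtr_eq`, `Lam.rat`, `Lam.lev` (`s₀ ≤ 2 s`). -/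
theorem vx_add (h : Cx f L π ψ r) (hl : Lam f L π nb lam s₀ C) (hn : n ≠ 0) {s : ℕ}
    (hs₀ : s₀ ≤ s) (hs : s ≠ 0) {x₀ x₁ x₂ x₃ t t' : Fin N → Ω} (h₀ : Xp f L n x₀)
    (h₁ : Xp f L n x₁) (h₂ : Xp f L n x₂) (h₃ : Xp f L n x₃) (ht : ∀ i, t i ∈ L.Ur ⊥ n)
    (ht' : ∀ i, t' i ∈ L.Ur ⊥ n) (hts : ∀ i, L.nm (t i) ≤ L.nm π ^ s)
    (hts' : ∀ i, L.nm (t' i) ≤ L.nm π ^ s)
    (e₁ : ∀ i, L.nm (x₁ i - x₀ i - t i) ≤ L.nm π ^ (2 * s))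
    (e₂ : ∀ i, L.nm (x₂ i - x₀ i - t' i) ≤ L.nm π ^ (2 * s))
    (e₃ : ∀ i, L.nm (x₃ i - x₀ i - (t i + t' i)) ≤ L.nm π ^ (2 * s)) :
    nb (Vx L lam n x₀ x₁ + Vx L lam n x₀ x₂ - Vx L lam n x₀ x₃) ≤ C * L.nm π ^ (2 * s) := by
  have hπ := h.hπ
  have hM : Um L (L.Ur ⊥ n) := ⟨n, hn, le_rfl⟩
  have hfd : FiniteDimensional K (L.Ur ⊥ n) := hM.fd
  obtain ⟨i, hD⟩ := h₀.chart h.hc
  have hψ := h.hψ i
  obtain ⟨hc, hwM, hG, -⟩ := h₀.uv hψ hD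
  obtain ⟨-, -, hw1⟩ := hψ.uv_iv h₀.iv
  obtain ⟨P₀, c₀⟩ := h₀.co
  obtain ⟨P₁, c₁⟩ := h₁.co
  obtain ⟨P₂, c₂⟩ := h₂.co
  obtain ⟨P₃, c₃⟩ := h₃.co
  obtain ⟨hu, hu'⟩ := vxa_div hπ hψ ht hts
  obtain ⟨hv, hv'⟩ := vxa_div hπ hψ ht' hts'
  have hz0 : (0 : ℝ) ≤ L.nm π ^ (2 * s) := pow_nonneg (L.nonneg _) _
  have n₀ := vxa_nb (x₀ := x₀) (t := 0) (c' := (ψ i).uv x₀) hπ hψ hs h₀ c₀
    (fun j => by
      rw [Pi.zero_apply, L.zero]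
      exact pow_nonneg (L.nonneg _) _)
    (fun j => by
      rw [Pi.zero_apply, sub_self, sub_zero, L.zero]
      exact hz0)
    (fun r => by
      have h5 := congrFun (uv_smul (ψ i) (0 : Fin N → Ω) (0 : Ω)) r
      rw [zero_smul, Pi.smul_apply, zero_smul] at h5
      rw [h5, add_zero])
  have n₁ := vxa_nb (x₀ := x₀) (t := t)
    (c' := fun r => (ψ i).uv x₀ r + π ^ s * ((π ^ s)⁻¹ * (ψ i).uv t r)) hπ hψ hs h₁ c₁ hts e₁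
    (fun r => by rw [hu' r])
  have n₂ := vxa_nb (x₀ := x₀) (t := t')
    (c' := fun r => (ψ i).uv x₀ r + π ^ s * ((π ^ s)⁻¹ * (ψ i).uv t' r)) hπ hψ hs h₂ c₂ hts' e₂
    (fun r => by rw [hv' r])
  have n₃ := vxa_nb (x₀ := x₀) (t := t + t')
    (c' := fun r => (ψ i).uv x₀ r + π ^ s * ((π ^ s)⁻¹ * (ψ i).uv t r +
      (π ^ s)⁻¹ * (ψ i).uv t' r)) hπ hψ hs h₃ c₃
    (fun j => (L.add _ _).trans (max_le (hts j) (hts' j))) e₃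
    (fun r => by rw [mul_add, hu' r, hv' r, uv_add, Pi.add_apply])
  have hz := x_add hπ hψ h.hp hM hc hu hv hwM hw1 hD
    (by rw [hG, L.zero]; exact zero_lt_one) (pow_mem (hπ.mem _) s)
    (by rw [L.pow]; exact hπ.pow_lt hs) (s := 2 * s) (by omega)
    (by rw [L.pow, ← pow_mul, mul_comm]) n₀ n₁ n₂ n₃
  have f₀ := fp_co c₀ fun i => (h₀.iv i).1
  have f₁ := fp_co c₁ fun i => (h₁.iv i).1
  have f₂ := fp_co c₂ fun i => (h₂.iv i).1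
  have f₃ := fp_co c₃ fun i => (h₃.iv i).1
  have hf : Fx (L.Ur ⊥ n) (Finsupp.single P₁ 1 + Finsupp.single P₂ 1 -
      (Finsupp.single P₀ 1 + Finsupp.single P₃ 1) : (Xf f).pt Ω →₀ ℤ) :=
    ((fx_single f₁ 1).add (fx_single f₂ 1)).sub ((fx_single f₀ 1).add (fx_single f₃ 1))
  obtain ⟨a, ha, b, hb, hab⟩ := AddSubgroup.mem_sup.1 (GM.nm_sup hM hz hf)
  rw [vx_eq c₀ c₁, vx_eq c₀ c₂, vx_eq c₀ c₃, ← map_add, ← map_add, ← map_sub, ← map_sub]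
  have e4 : (Finsupp.single P₁ 1 - Finsupp.single P₀ 1 + (Finsupp.single P₂ 1 -
      Finsupp.single P₀ 1) - (Finsupp.single P₃ 1 - Finsupp.single P₀ 1) :
      (Xf f).pt Ω →₀ ℤ) = Finsupp.single P₁ 1 + Finsupp.single P₂ 1 -
      (Finsupp.single P₀ 1 + Finsupp.single P₃ 1) := by abel
  rw [e4, rtr_eq bot_le, ← hab, map_add, hl.rat b hb, add_zero]
  exact hl.lev (2 * s) (by omega) a ha

end GX
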