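import Pool.Agent.Lib.MP_f80667_ag.Lc.B
import Pool.Agent.Lib.MP_f80667_ag.Lc.V
import Pool.Agent.Lib.MP_f80667_ag.Gx.TeA
import Pool.Agent.Lib.MP_f80667_ag.Gx.TsV

/-!
The relation of the curves for `Vx`.

* `Gs L ψ n c b S`: a finite set `S` of points of the line `c + z b` in different residue classes; all points of the variety over them are over `Ur ⊥ n`.
-/

open ZC BE PE CV IntermediateField

namespace GX

variable {F : Type} [Field F] {N d : ℕ} {ι : Type} {f : ι → MvPolynomial (Fin N) F}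
  {K Ω : Type} [Field K] [CharZero K] [Field Ω] [Algebra K Ω] [Algebra F K] [Algebra F Ω]
  [IsScalarTower F K Ω] [IsAlgClosure K Ω] {L : Ld K Ω} {π : Ω} {ψ : Prj K N d} {n : ℕ}
  {B : Type} [AddCommGroup B] [Module ℚ B] {nb : B → ℝ}
  {lam : ((Xf f).pt Ω →₀ ℤ) →+ B} {s₀ : ℕ} {C : ℝ}

/-- Points over the line `c + z b` in different residue classes for which the roots are over `Ur ⊥ n`. -/
structure Gs (L : Ld K Ω) (ψ : Prj K N d) (n : ℕ) (c b : Fin (d + 1) → Ω) (S : Finset Ω) :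
    Prop where
  ic : Iv L (L.Ur ⊥ n) c
  ib : Iv L (L.Ur ⊥ n) b
  mem : ∀ s ∈ S, s ∈ L.Ur ⊥ n
  int : ∀ s ∈ S, L.nm s ≤ 1
  dv : ∀ s ∈ S, L.nm (MvPolynomial.aeval (c + s • b) ψ.D) = 1
  sep : ∀ s ∈ S, ∀ s' ∈ S, s ≠ s' → L.nm (s - s') = 1
  rt : ∀ s ∈ S, ∀ w, pe (c + s • b) w ψ.G = 0 → w ∈ L.Ur ⊥ n

/-- The derivative of a product at a root. -/
private theorem vc_der {κ : Type} [Field κ] [DecidableEq κ] {S : Finset κ} {s : κ} (hs : s ∈ S) :
    (Polynomial.derivative (∏ c ∈ S, (Polynomial.X - Polynomial.C c))).eval s =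
      ∏ s' ∈ S.erase s, (s - s') := by
  have h := Lagrange.eval_nodal_derivative_eval_node_eq (s := S) (v := fun x : κ => x) hs
  rw [Lagrange.eval_nodal] at h
  exact h

/-- The arc `c + z b`. -/
private noncomputable def vcA {κ : Type} [Field κ] (c b : Fin (d + 1) → κ) (r : Fin (d + 1)) :
    Polynomial κ := Polynomial.C (c r) + Polynomial.X * Polynomial.C (b r)

private theorem vc_ev {κ : Type} [Field κ] (c b : Fin (d + 1) → κ) (s : κ) :
    (fun r => (vcA c b r).eval s) = c + s • b := by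
  funext r
  simp only [vcA, Polynomial.eval_add, Polynomial.eval_C, Polynomial.eval_mul, Polynomial.eval_X,
    Pi.add_apply, Pi.smul_apply, smul_eq_mul]

private theorem vc_dv {κ : Type} [Field κ] (c b : Fin (d + 1) → κ) (r : Fin (d + 1)) (s : κ) :
    (Polynomial.derivative (vcA c b r)).eval s = b r := by
  simp [vcA]

private theorem vc_deg {κ : Type} [Field κ] (c b : Fin (d + 1) → κ) (r : Fin (d + 1)) :
    (vcA c b r).natDegree ≤ 1 := by
  unfold vcA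
  compute_degree

omit [CharZero K] [IsAlgClosure K Ω] in
private theorem vc_arc {M : IntermediateField K Ω} {c b : Fin (d + 1) → Ω} (hc : Iv L M c)
    (hb : Iv L M b) : Arc L M (vcA c b) := by
  intro r j
  rw [vcA]
  match j with
  | 0 =>
    have e : (Polynomial.C (c r) + Polynomial.X * Polynomial.C (b r)).coeff 0 = c r := by simp
    rw [e]
    exact hc r
  | 1 =>
    have e : (Polynomial.C (c r) + Polynomial.X * Polynomial.C (b r)).coeff 1 = b r := by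
      rw [Polynomial.coeff_add, Polynomial.coeff_C_succ, Polynomial.coeff_X_mul,
        Polynomial.coeff_C_zero, zero_add]
    rw [e]
    exact hb r
  | j + 2 =>
    have e : (Polynomial.C (c r) + Polynomial.X * Polynomial.C (b r)).coeff (j + 2) = 0 := by
      rw [Polynomial.coeff_add, Polynomial.coeff_C_succ, Polynomial.coeff_X_mul,
        Polynomial.coeff_C_succ, zero_add]
    rw [e, L.zero]
    exact ⟨M.zero_mem, zero_le_one⟩

omit [CharZero K] [IsAlgClosure K Ω] in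
private theorem vc_unit {S : Finset Ω} {g : Ω → Ω} (h : ∀ s ∈ S, L.nm (g s) = 1) :
    L.nm (∏ s ∈ S, g s) = 1 := by
  refine Finset.prod_induction _ (fun x => L.nm x = 1) (fun a b ha hb => ?_) L.one h
  rw [L.mul, ha, hb, one_mul]

open Classical in
/-- **The relation of the curves on a line.** Proof: `ty_cr` (Gx/Ty) for the arc `c + z b` (degree `≤ 1`), `π = ε`, `τ = a`, `T` the set of the pairs `(s, w)`, `s ∈ S`,
`w ∈ rt` (if it is empty: trivial); the `x' q` are over `Ur ⊥ n`, primitive (congruent to `pt`); `xt_of` with `ξ = ε (a w ^ j / m' (s)) b`, `Prj.lt_smul`;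
`m' (s) = ∏ (s - s')` (the derivative of a product at a root); `rat_tr`, `Lam.rat`, `vx_eq`. -/
theorem vx_cr (hψ : Pj f L ψ) (hl : Lam f L π nb lam s₀ C) (hn : n ≠ 0)
    {c b : Fin (d + 1) → Ω} {S : Finset Ω} (hS : Gs L ψ n c b S) {j : ℕ} (hj : j < S.card)
    {a ε : Ω} (ha : a ∈ L.Ur ⊥ n) (ha1 : L.nm a ≤ 1) (hε : ε ∈ L.Ur ⊥ n) (h1 : L.nm ε < 1) :
    ∃ x' : Ω → Ω → Fin N → Ω, (∀ s ∈ S, ∀ w ∈ rt ψ (c + s • b), Xp f L n (x' s w) ∧
      ∀ l, L.nm (x' s w l - (ψ.om Ω).pt (c + s • b) w l -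
        ε * ((a * w ^ j * (∏ s' ∈ S.erase s, (s - s'))⁻¹) •
          (ψ.om Ω).lt (c + s • b) w b) l) ≤ L.nm ε ^ 2) ∧
      ∑ s ∈ S, ∑ w ∈ rt ψ (c + s • b),
        Vx L lam n ((ψ.om Ω).pt (c + s • b) w) (x' s w) = 0 := by
  set T : Finset (Ω × Ω) :=
    (S ×ˢ S.biUnion fun s => rt ψ (c + s • b)).filter fun q => q.2 ∈ rt ψ (c + q.1 • b) with hTd
  have hT : ∀ q : Ω × Ω, q ∈ T ↔ q.1 ∈ S ∧ q.2 ∈ rt ψ (c + q.1 • b) := by
    intro q
    rw [hTd, Finset.mem_filter, Finset.mem_product, Finset.mem_biUnion]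
    exact ⟨fun h => ⟨h.1.1, h.2⟩, fun h => ⟨⟨h.1, q.1, h.1, h.2⟩, h.2⟩⟩
  rcases T.eq_empty_or_nonempty with h0 | hne
  · have hno : ∀ s ∈ S, ∀ w, w ∉ rt ψ (c + s • b) := by
      intro s hs w hw
      have h2 : ((s, w) : Ω × Ω) ∈ T := (hT (s, w)).2 ⟨hs, hw⟩
      rw [h0] at h2
      exact absurd h2 (Finset.notMem_empty _)
    refine ⟨fun s w => (ψ.om Ω).pt (c + s • b) w, fun s hs w hw => absurd hw (hno s hs w), ?_⟩
    exact Finset.sum_eq_zero fun s hs => Finset.sum_eq_zero fun w hw => absurd hw (hno s hs w)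
  have hUm : Um L (L.Ur ⊥ n) := ⟨n, hn, le_rfl⟩
  have hfd : FiniteDimensional K (L.Ur ⊥ n) := hUm.fd
  have hev : ∀ s : Ω, (fun r => (vcA c b r).eval s) = c + s • b := fun s => vc_ev c b s
  have hcs : ∀ s ∈ S, Iv L (L.Ur ⊥ n) (c + s • b) := by
    intro s hs r
    refine ⟨(L.Ur ⊥ n).add_mem (hS.ic r).1 ((L.Ur ⊥ n).mul_mem (hS.mem s hs) (hS.ib r).1), ?_⟩
    refine (L.add _ _).trans (max_le (hS.ic r).2 ?_)
    change L.nm (s * b r) ≤ 1
    rw [L.mul]
    exact mul_le_one₀ (hS.int s hs) (L.nonneg _) (hS.ib r).2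
  obtain ⟨P, P', x, x', hq, hrat⟩ := ty_cr (f := f) hψ (M := L.Ur ⊥ n) hε h1
    (a := vcA c b) (vc_arc hS.ic hS.ib) (ρ := 1) (vc_deg c b) (S := S)
    (fun s hs => ⟨hS.mem s hs, hS.int s hs, by rw [hev]; exact hS.dv s hs⟩)
    hS.sep (j := j) (by rw [mul_one]; exact hj) ha ha1 (T := T)
    (fun q => by rw [hT q, hev, mem_rt hψ])
    (fun q hq => by
      have h2 := (hT q).1 hq
      exact hS.rt q.1 h2.1 q.2 ((mem_rt hψ).1 h2.2)) hne
  have hxq : ∀ q ∈ T, x q = (ψ.om Ω).pt (c + q.1 • b) q.2 := by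
    intro q hq'
    funext i
    rw [(hq q hq').1 i, hev, om_pt]
  have hXp : ∀ q ∈ T, Xp f L n ((ψ.om Ω).pt (c + q.1 • b) q.2) := by
    intro q hq'
    have h2 := (hT q).1 hq'
    have h3 := (mem_rt hψ).1 h2.2
    exact xp_pt hψ (hcs q.1 h2.1) (hS.dv q.1 h2.1) (hS.rt q.1 h2.1 q.2 h3) h3
  have hXp' : ∀ q ∈ T, Xp f L n (x' q) := by
    intro q hq'
    obtain ⟨-, h3, h4, h5, h6, h7, -⟩ := hq q hq'
    obtain ⟨i, hi⟩ := (hXp q hq').one
    refine ⟨h6, ⟨i, ?_⟩, co_zero h4⟩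
    have h8 : L.nm (x q i) = 1 := by rw [hxq q hq', hi]
    rw [← h8]
    exact L.eq_of_close (by rw [h8]; exact (h7 i).trans_lt h1)
  refine ⟨fun s w => x' (s, w), fun s hs w hw => ?_, ?_⟩
  · have hqT : ((s, w) : Ω × Ω) ∈ T := (hT (s, w)).2 ⟨hs, hw⟩
    have h3 := (mem_rt hψ).1 hw
    refine ⟨hXp' _ hqT, fun l => ?_⟩
    obtain ⟨-, -, -, -, -, h7, h8⟩ := hq _ hqT
    have hx0 := hxq _ hqT
    have hwi : L.nm w ≤ 1 := root_int' hψ (fun r => (hcs s hs r).2) h3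
    obtain ⟨-, -, -, -, hu, hy⟩ := hψ.pt_iv (hcs s hs) (hS.rt s hs w h3) hwi h3 (hS.dv s hs)
    set m : Ω := ∏ s' ∈ S.erase s, (s - s') with hm
    have hm1 : L.nm m = 1 := vc_unit fun s' hs' => hS.sep s hs s' (Finset.mem_of_mem_erase hs')
      (Finset.ne_of_mem_erase hs').symm
    have hder : (Polynomial.derivative (∏ c ∈ S, (Polynomial.X - Polynomial.C c))).eval s = m :=
      vc_der hs
    have hsc : L.nm (ε * (a * w ^ j * m⁻¹)) ≤ L.nm ε := by
      rw [L.mul, L.mul, L.mul, L.inv, hm1, inv_one, mul_one, L.pow]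
      exact mul_le_of_le_one_right (L.nonneg _)
        (mul_le_one₀ ha1 (pow_nonneg (L.nonneg _) _) (pow_le_one₀ (L.nonneg _) hwi))
    have hXs : Xp f L n ((ψ.om Ω).pt (c + s • b) w) := hXp (s, w) hqT
    have hXs' : Xp f L n (x' (s, w)) := hXp' (s, w) hqT
    have hDs : L.nm (MvPolynomial.aeval (ψ.uv ((ψ.om Ω).pt (c + s • b) w)) ψ.D) = 1 := by
      rw [hu]
      exact hS.dv s hs
    have hξ : ∀ r, L.nm (((ε * (a * w ^ j * m⁻¹)) • b) r) ≤ L.nm ε := by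
      intro r
      rw [Pi.smul_apply, smul_eq_mul, L.mul]
      exact (mul_le_of_le_one_right (L.nonneg _) (hS.ib r).2).trans hsc
    have hne : ∀ i, L.nm (x' (s, w) i - (ψ.om Ω).pt (c + s • b) w i) < 1 := by
      intro i
      have h9 := h7 i
      rw [hx0] at h9
      exact h9.trans_lt h1
    have huu : ∀ r, L.nm (ψ.uv (x' (s, w)) r - (ψ.uv ((ψ.om Ω).pt (c + s • b) w) r +
        ((ε * (a * w ^ j * m⁻¹)) • b) r)) ≤ L.nm ε ^ 2 := by
      intro r
      have h9 := h8 r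
      have h10 : (vcA c b r).eval s = (c + s • b) r := congrFun (hev s) r
      rw [hder, vc_dv, h10, div_eq_mul_inv] at h9
      rw [hu, Pi.smul_apply, smul_eq_mul]
      exact h9
    have hmain := xt_of hψ hXs hXs' hDs (L.nonneg ε) h1 hξ hne huu l
    rw [hu, hy, Prj.lt_smul, Pi.smul_apply, smul_eq_mul, mul_assoc] at hmain
    rw [Pi.smul_apply, smul_eq_mul]
    exact hmain
  · have h2 : ∑ s ∈ S, ∑ w ∈ rt ψ (c + s • b),
        Vx L lam n ((ψ.om Ω).pt (c + s • b) w) (x' (s, w)) =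
        ∑ q ∈ T, Vx L lam n ((ψ.om Ω).pt (c + q.1 • b) q.2) (x' q) :=
      (Finset.sum_finset_product T S (fun s => rt ψ (c + s • b)) hT
        (f := fun q => Vx L lam n ((ψ.om Ω).pt (c + q.1 • b) q.2) (x' q))).symm
    rw [h2]
    have h3 : ∀ q ∈ T, Vx L lam n ((ψ.om Ω).pt (c + q.1 • b) q.2) (x' q) =
        lam (rtr (Xf f) ⊥ (L.Ur ⊥ n) (Finsupp.single (P' q) 1 - Finsupp.single (P q) 1)) := by
      intro q hq'
      obtain ⟨-, h4, h5, -⟩ := hq q hq'
      rw [hxq q hq'] at h4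
      exact vx_eq h4 h5
    rw [Finset.sum_congr rfl h3, ← map_sum, ← map_sum]
    refine hl.rat _ (rat_tr hUm hrat (Fx.sum T fun q hq' => ?_))
    obtain ⟨-, h4, h5, h6, h7, -⟩ := hq q hq'
    exact (fx_single (fp_co h5 fun i => (h7 i).1) 1).sub
      (fx_single (fp_co h4 fun i => (h6 i).1) 1)

end GX
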