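import Pool.Agent.Lib.MP_f80667_ag.Lc.Ta
import Pool.Agent.Lib.MP_f80667_ag.Lc.Vc

/-!
The properties of the derivative which are used in the following files.

* `Tp`: the properties.
-/

open ZC BE PE CV IntermediateField

namespace GX

variable {F : Type} [Field F] {N d m : ℕ} {ι : Type} {f : ι → MvPolynomial (Fin N) F}
  {K Ω : Type} [Field K] [CharZero K] [Field Ω] [Algebra K Ω] [Algebra F K] [Algebra F Ω]
  [IsScalarTower F K Ω] [IsAlgClosure K Ω] {L : Ld K Ω} {π : Ω} {ψ : Fin m → Prj K N d} {r n : ℕ}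
  {B : Type} [AddCommGroup B] [Module ℚ B] {nb : B → ℝ}
  {lam : ((Xf f).pt Ω →₀ ℤ) →+ B} {s₀ : ℕ} {C : ℝ} {T : ℕ → (Fin N → Ω) → (Fin N → Ω) → B}

private theorem tb_pow {p : ℕ} {q : ℝ} (hB : Bn p q nb) (k : ℕ) (b : B) :
    nb (p ^ k • b) = q ^ k * nb b := by
  induction k with
  | zero => rw [pow_zero, one_smul, pow_zero, one_mul]
  | succ k ih => rw [pow_succ', mul_smul, hB.mulp, ih, pow_succ', mul_assoc]

private theorem tb_sum {p : ℕ} {q : ℝ} (hB : Bn p q nb) {α : Type} (s : Finset α) (g : α → B)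
    {D : ℝ} (hD : 0 ≤ D) (h : ∀ a ∈ s, nb (g a) ≤ D) : nb (∑ a ∈ s, g a) ≤ D := by
  classical
  induction s using Finset.induction_on with
  | empty =>
    rw [Finset.sum_empty, (hB.zero_iff 0).2 rfl]
    exact hD
  | insert a s ha ih =>
    rw [Finset.sum_insert ha]
    exact (hB.add _ _).trans (max_le (h a (Finset.mem_insert_self a s))
      (ih fun b hb => h b (Finset.mem_insert_of_mem hb)))

private theorem tb_prod (L : Ld K Ω) (s : Finset Ω) (g : Ω → Ω)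
    (h : ∀ a ∈ s, L.nm (g a) = 1) : L.nm (∏ a ∈ s, g a) = 1 := by
  classical
  induction s using Finset.induction_on with
  | empty => rw [Finset.prod_empty, L.one]
  | insert a s ha ih =>
    rw [Finset.prod_insert ha, L.mul, h a (Finset.mem_insert_self a s),
      ih fun b hb => h b (Finset.mem_insert_of_mem hb), one_mul]

private theorem tb_e (hπ : Uf L π) : ∃ e : ℕ, e ≠ 0 ∧ L.nm (L.p : Ω) = L.nm π ^ e := by
  have h0 : (L.p : K) ≠ 0 := Nat.cast_ne_zero.2 L.pp.ne_zero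
  obtain ⟨z, hz⟩ := hπ.val (L.p : K) h0
  rw [map_natCast] at hz
  have h1 : L.nm π ^ z < L.nm π ^ (0 : ℤ) := by
    rw [← hz, zpow_zero]
    exact L.lt
  have h2 : 0 < z := (zpow_lt_zpow_iff_right_of_lt_one₀ hπ.pos hπ.lt).1 h1
  obtain ⟨e, rfl⟩ := Int.eq_ofNat_of_zero_le h2.le
  refine ⟨e, by omega, ?_⟩
  rw [hz, zpow_natCast]

/-- The estimate at one point. -/
private theorem tb_one (hz : Tz L π nb r lam T s₀ C) (hn : N0 r n)
    {x x' t : Fin N → Ω} (hx : Xp f L n x) (hx' : Xp f L n x') (ht : Tn' f L n x t)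
    (ht1 : ∀ l, L.nm (t l) ≤ 1) {e k : ℕ} (he : L.nm (L.p : Ω) = L.nm π ^ e)
    (hk : s₀ ≤ e * k) (hk0 : e * k ≠ 0)
    (hd : ∀ l, L.nm (x' l - x l - (L.p : Ω) ^ k * t l) ≤ L.nm ((L.p : Ω) ^ k) ^ 2) :
    nb (Vx L lam n x x' - L.p ^ k • T n x t) ≤ C * (L.nm (L.p : Ω) ^ k) ^ 2 := by
  have hm : (L.p : Ω) ^ k ∈ L.Ur (⊥ : IntermediateField K Ω) n :=
    pow_mem (_root_.natCast_mem (L.Ur (⊥ : IntermediateField K Ω) n) L.p) k
  have e1 : L.nm ((L.p : Ω) ^ k) = L.nm π ^ (e * k) := by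
    rw [L.pow, he, pow_mul]
  have e2 : L.nm ((L.p : Ω) ^ k) ^ 2 = L.nm π ^ (2 * (e * k)) := by
    rw [e1, ← pow_mul, mul_comm 2]
  have h1 := hz.app n x x' ((L.p : Ω) ^ k • t) (e * k) hn hx hx' (ht.smul hm) hk hk0
    (fun l => by
      rw [Pi.smul_apply, smul_eq_mul, L.mul, e1]
      exact mul_le_of_le_one_right (pow_nonneg (L.nonneg _) _) (ht1 l))
    (fun l => by
      rw [Pi.smul_apply, smul_eq_mul, ← e2]
      exact hd l)
  have h2 := hz.nsmul hn hx ht (L.p ^ k)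
  rw [Nat.cast_pow] at h2
  rw [h2, ← e2, L.pow] at h1
  exact h1

open Classical in
private theorem tb_le (h : Cx f L π ψ r) (hB : Bn L.p (L.nm (L.p : Ω)) nb)
    {C₁ : ℝ} (hl : Lam f L π nb lam s₀ C₁) (hz : Tz L π nb r lam T s₀ C) (hC : 0 ≤ C)
    (hn : N0 r n) (i : Fin m) {c b : Fin (d + 1) → Ω} {S : Finset Ω}
    (hS : Gs L (ψ i) n c b S) {j : ℕ} (hj : j < S.card) {a : Ω} (ha : a ∈ L.Ur ⊥ n)
    (ha1 : L.nm a ≤ 1) :
    ∑ s ∈ S, ∑ w ∈ rt (ψ i) (c + s • b), T n (((ψ i).om Ω).pt (c + s • b) w)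
      ((a * w ^ j * (∏ s' ∈ S.erase s, (s - s'))⁻¹) • ((ψ i).om Ω).lt (c + s • b) w b) = 0 := by
  obtain ⟨e, he0, he⟩ := tb_e h.hπ
  set M := ∑ s ∈ S, ∑ w ∈ rt (ψ i) (c + s • b), T n (((ψ i).om Ω).pt (c + s • b) w)
    ((a * w ^ j * (∏ s' ∈ S.erase s, (s - s'))⁻¹) • ((ψ i).om Ω).lt (c + s • b) w b) with hM
  have key : ∀ k : ℕ, s₀ + 1 ≤ k → nb M ≤ C * L.nm (L.p : Ω) ^ k := by
    intro k hk
    have hke : k ≤ e * k := Nat.le_mul_of_pos_left k (Nat.pos_of_ne_zero he0)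
    have hqk : L.nm ((L.p : Ω) ^ k) < 1 := by
      rw [L.pow]
      exact pow_lt_one₀ (L.nonneg _) L.lt (by omega)
    have hm : (L.p : Ω) ^ k ∈ L.Ur (⊥ : IntermediateField K Ω) n :=
      pow_mem (_root_.natCast_mem (L.Ur (⊥ : IntermediateField K Ω) n) L.p) k
    obtain ⟨x', hx', hsum⟩ := vx_cr (h.hψ i) hl hn.1 hS hj ha ha1 hm hqk
    have hq0 : 0 < L.nm (L.p : Ω) ^ k := pow_pos hB.q0 k
    have h1 : nb (∑ s ∈ S, ∑ w ∈ rt (ψ i) (c + s • b),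
        (Vx L lam n (((ψ i).om Ω).pt (c + s • b) w) (x' s w) -
          L.p ^ k • T n (((ψ i).om Ω).pt (c + s • b) w)
            ((a * w ^ j * (∏ s' ∈ S.erase s, (s - s'))⁻¹) •
              ((ψ i).om Ω).lt (c + s • b) w b))) ≤ C * (L.nm (L.p : Ω) ^ k) ^ 2 := by
      have hD : 0 ≤ C * (L.nm (L.p : Ω) ^ k) ^ 2 := mul_nonneg hC (sq_nonneg _)
      refine tb_sum hB _ _ hD fun s hs => tb_sum hB _ _ hD fun w hw => ?_
      have hIv : Iv L (L.Ur ⊥ n) (c + s • b) := fun l =>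
        ⟨add_mem (hS.ic l).1 (mul_mem (hS.mem s hs) (hS.ib l).1),
          (L.add _ _).trans (max_le (hS.ic l).2 (by
            change L.nm (s * b l) ≤ 1
            rw [L.mul]
            exact mul_le_one₀ (hS.int s hs) (L.nonneg _) (hS.ib l).2))⟩
      have hG := (mem_rt (h.hψ i)).1 hw
      have hwU := hS.rt s hs w hG
      have hw1 : L.nm w ≤ 1 := root_int' (h.hψ i) (fun l => (hIv l).2) hG
      have hx := xp_pt (h.hψ i) hIv (hS.dv s hs) hwU hG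
      have ht0 := tn_lt (h.hψ i) hIv (hS.dv s hs) hwU hG (fun l => (hS.ib l).1)
      have hcU : a * w ^ j * (∏ s' ∈ S.erase s, (s - s'))⁻¹ ∈
          L.Ur (⊥ : IntermediateField K Ω) n :=
        mul_mem (mul_mem ha (pow_mem hwU j)) (inv_mem (prod_mem fun s' hs' =>
          sub_mem (hS.mem s hs) (hS.mem s' (Finset.mem_of_mem_erase hs'))))
      have hP : L.nm (∏ s' ∈ S.erase s, (s - s')) = 1 := tb_prod L _ _ fun s' hs' =>
        hS.sep s hs s' (Finset.mem_of_mem_erase hs') (Finset.ne_of_mem_erase hs').symm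
      have hc1 : L.nm (a * w ^ j * (∏ s' ∈ S.erase s, (s - s'))⁻¹) ≤ 1 := by
        rw [L.mul, L.inv, hP, inv_one, mul_one, L.mul, L.pow]
        exact mul_le_one₀ ha1 (pow_nonneg (L.nonneg _) _) (pow_le_one₀ (L.nonneg _) hw1)
      obtain ⟨hxp, hcl⟩ := hx' s hs w hw
      refine tb_one hz hn hx hxp (ht0.smul hcU) (fun l => ?_) he (by omega) (by omega) hcl
      rw [Pi.smul_apply, smul_eq_mul, L.mul]
      exact mul_le_one₀ hc1 (L.nonneg _) (Pj.lt_le (h.hψ i) (fun l => (hIv l).2) hw1 hG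
        (hS.dv s hs) zero_le_one (fun l => (hS.ib l).2) l)
    have h2 : (∑ s ∈ S, ∑ w ∈ rt (ψ i) (c + s • b),
        (Vx L lam n (((ψ i).om Ω).pt (c + s • b) w) (x' s w) -
          L.p ^ k • T n (((ψ i).om Ω).pt (c + s • b) w)
            ((a * w ^ j * (∏ s' ∈ S.erase s, (s - s'))⁻¹) •
              ((ψ i).om Ω).lt (c + s • b) w b))) = -(L.p ^ k • M) := by
      simp only [Finset.sum_sub_distrib]
      rw [hsum, zero_sub, hM, Finset.smul_sum]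
      exact congrArg _ (Finset.sum_congr rfl fun s _ => Finset.smul_sum.symm)
    rw [h2, hB.neg, tb_pow hB] at h1
    have h3 : L.nm (L.p : Ω) ^ k * nb M ≤ L.nm (L.p : Ω) ^ k * (C * L.nm (L.p : Ω) ^ k) := by
      refine h1.trans (le_of_eq ?_)
      ring
    exact le_of_mul_le_mul_left h3 hq0
  have hlim : Filter.Tendsto (fun k : ℕ => C * L.nm (L.p : Ω) ^ k) Filter.atTop
      (nhds (C * 0)) :=
    (tendsto_pow_atTop_nhds_zero_of_lt_one (L.nonneg _) L.lt).const_mul C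
  have h4 : nb M ≤ C * 0 := ge_of_tendsto hlim (Filter.eventually_atTop.2 ⟨s₀ + 1, key⟩)
  rw [mul_zero] at h4
  exact (hB.zero_iff M).1 (le_antisymm h4 (hB.nonneg M))

open Classical in
/-- **The relation of the curves is exact.** Proof: multiply `a` by a power of `p` (`Tz.nsmul`, `B` has no torsion) so that `nm a ≤ 1`. `vx_cr` for `ε = p ^ k`, `Tz.app` for the vectors
`p ^ k (a w ^ j / m' (s)) lt` (`Pj.lt_le`, `nm (w) ≤ 1`, `nm (m' (s)) = 1`; level `s = e k`), `Tz.nsmul`: `nb (p ^ k (sum)) ≤ C nm π ^ (2 e k)` for all large `k`. -/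
theorem Tz.cr (h : Cx f L π ψ r) (hB : Bn L.p (L.nm (L.p : Ω)) nb)
    {C₁ : ℝ} (hl : Lam f L π nb lam s₀ C₁) (hz : Tz L π nb r lam T s₀ C) (hC : 0 ≤ C)
    (hn : N0 r n) (i : Fin m) {c b : Fin (d + 1) → Ω} {S : Finset Ω}
    (hS : Gs L (ψ i) n c b S) {j : ℕ} (hj : j < S.card) {a : Ω} (ha : a ∈ L.Ur ⊥ n) :
    ∑ s ∈ S, ∑ w ∈ rt (ψ i) (c + s • b), T n (((ψ i).om Ω).pt (c + s • b) w)
      ((a * w ^ j * (∏ s' ∈ S.erase s, (s - s'))⁻¹) • ((ψ i).om Ω).lt (c + s • b) w b) = 0 := by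
  obtain ⟨l, hl'⟩ := exists_pow_lt_of_lt_one (show (0 : ℝ) < (L.nm a + 1)⁻¹ from
    inv_pos.2 (by linarith [L.nonneg a])) L.lt
  have ha0 := L.nonneg a
  have hal : L.nm ((L.p : Ω) ^ l * a) ≤ 1 := by
    rw [L.mul, L.pow]
    have h1 : L.nm (L.p : Ω) ^ l * (L.nm a + 1) ≤ (L.nm a + 1)⁻¹ * (L.nm a + 1) :=
      mul_le_mul_of_nonneg_right hl'.le (by linarith)
    rw [inv_mul_cancel₀ (by linarith : 0 < L.nm a + 1).ne'] at h1
    have h2 : 0 ≤ L.nm (L.p : Ω) ^ l := pow_nonneg (L.nonneg _) _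
    linarith
  have hm : (L.p : Ω) ^ l * a ∈ L.Ur (⊥ : IntermediateField K Ω) n :=
    mul_mem (pow_mem (_root_.natCast_mem (L.Ur (⊥ : IntermediateField K Ω) n) L.p) l) ha
  have h0 := tb_le h hB hl hz hC hn i hS hj hm hal
  have h3 : (∑ s ∈ S, ∑ w ∈ rt (ψ i) (c + s • b), T n (((ψ i).om Ω).pt (c + s • b) w)
      (((L.p : Ω) ^ l * a * w ^ j * (∏ s' ∈ S.erase s, (s - s'))⁻¹) •
        ((ψ i).om Ω).lt (c + s • b) w b)) =
      L.p ^ l • ∑ s ∈ S, ∑ w ∈ rt (ψ i) (c + s • b), T n (((ψ i).om Ω).pt (c + s • b) w)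
        ((a * w ^ j * (∏ s' ∈ S.erase s, (s - s'))⁻¹) •
          ((ψ i).om Ω).lt (c + s • b) w b) := by
    rw [Finset.smul_sum]
    refine Finset.sum_congr rfl fun s hs => ?_
    rw [Finset.smul_sum]
    refine Finset.sum_congr rfl fun w hw => ?_
    have hIv : Iv L (L.Ur ⊥ n) (c + s • b) := fun l =>
      ⟨add_mem (hS.ic l).1 (mul_mem (hS.mem s hs) (hS.ib l).1),
        (L.add _ _).trans (max_le (hS.ic l).2 (by
          change L.nm (s * b l) ≤ 1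
          rw [L.mul]
          exact mul_le_one₀ (hS.int s hs) (L.nonneg _) (hS.ib l).2))⟩
    have hG := (mem_rt (h.hψ i)).1 hw
    have hwU := hS.rt s hs w hG
    have hx := xp_pt (h.hψ i) hIv (hS.dv s hs) hwU hG
    have ht0 := tn_lt (h.hψ i) hIv (hS.dv s hs) hwU hG (fun l => (hS.ib l).1)
    have hcU : a * w ^ j * (∏ s' ∈ S.erase s, (s - s'))⁻¹ ∈
        L.Ur (⊥ : IntermediateField K Ω) n :=
      mul_mem (mul_mem ha (pow_mem hwU j)) (inv_mem (prod_mem fun s' hs' =>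
        sub_mem (hS.mem s hs) (hS.mem s' (Finset.mem_of_mem_erase hs'))))
    rw [← hz.nsmul hn hx (ht0.smul hcU) (L.p ^ l), smul_smul, Nat.cast_pow]
    congr 2
    ring
  rw [h3] at h0
  have h5 := tb_pow hB l (∑ s ∈ S, ∑ w ∈ rt (ψ i) (c + s • b),
    T n (((ψ i).om Ω).pt (c + s • b) w) ((a * w ^ j * (∏ s' ∈ S.erase s, (s - s'))⁻¹) •
      ((ψ i).om Ω).lt (c + s • b) w b))
  rw [h0, (hB.zero_iff 0).2 rfl] at h5
  exact (hB.zero_iff _).1 ((mul_eq_zero.1 h5.symm).resolve_left (pow_pos hB.q0 l).ne')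

open Classical in
/-- The properties of the derivative. -/
structure Tp (f : ι → MvPolynomial (Fin N) F) (L : Ld K Ω) (ψ : Fin m → Prj K N d) (r : ℕ)
    (nb : B → ℝ) (T : ℕ → (Fin N → Ω) → (Fin N → Ω) → B) (C : ℝ) : Prop where
  add : ∀ n x t t', N0 r n → Xp f L n x → Tn' f L n x t → Tn' f L n x t' →
    T n x (t + t') = T n x t + T n x t'
  act : ∀ n x t (γ : Ω ≃ₐ[K] Ω), N0 r n → Xp f L n x → Tn' f L n x t →
    T n (fun i => γ (x i)) (fun i => γ (t i)) = T n x t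
  up : ∀ n x t k, N0 r n → Xp f L n x → Tn' f L n x t → k ≠ 0 → T (n * k) x t = k • T n x t
  smul : ∀ n x t c, N0 r n → Xp f L n x → Tn' f L n x t → c ∈ L.Ur ⊥ n → L.nm c = 1 →
    T n (c • x) (c • t) = T n x t
  rad : ∀ n x c, N0 r n → Xp f L n x → c ∈ L.Ur ⊥ n → T n x (c • x) = 0
  bd : ∀ n x t ρ, N0 r n → Xp f L n x → Tn' f L n x t → (∀ i, L.nm (t i) ≤ ρ) →
    nb (T n x t) ≤ C * ρ
  cr : ∀ n i c b S j a, N0 r n → Gs L (ψ i) n c b S → j < S.card → a ∈ L.Ur ⊥ n →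
    ∑ s ∈ S, ∑ w ∈ rt (ψ i) (c + s • b), T n (((ψ i).om Ω).pt (c + s • b) w)
      ((a * w ^ j * (∏ s' ∈ S.erase s, (s - s'))⁻¹) • ((ψ i).om Ω).lt (c + s • b) w b) = 0
  nonneg : 0 ≤ C

theorem Tz.tp (h : Cx f L π ψ r) (hB : Bn L.p (L.nm (L.p : Ω)) nb)
    {C₁ : ℝ} (hl : Lam f L π nb lam s₀ C₁) (hz : Tz L π nb r lam T s₀ C) (hC : 0 ≤ C) :
    ∃ D, Tp f L ψ r nb T D := by
  obtain ⟨D, hD, h1⟩ := hz.bd h hB hl hC
  exact ⟨D, hz.add, fun n x t γ hn hx ht => hz.act h hB hC hn hx ht γ,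
    fun n x t k hn hx ht hk => hz.up h hB hC hn hx ht hk,
    fun n x t c hn hx ht hc hc1 => hz.smul h hB hC hn hx ht hc hc1,
    fun n x c hn hx hc => hz.rad h hB hC hn hx hc, h1,
    fun n i c b S j a hn hS hj ha => hz.cr h hB hl hC hn i hS hj ha, hD⟩

end GX
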